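import Mathlib
import Pool.Agent.Helper27.WalkDefs
import Pool.Agent.SW.FDefs

/-! SWQ/FDefs.  Definitions of the quantitative form of the final theorem (MP_d44763_nt). -/

set_option autoImplicit false

namespace Pool.Agent.SWQ

open MeasureTheory Pool.Agent.Helper27 Pool.Agent.SW

/-- the number of terms of the walk that are primes and at most `x` -/
noncomputable def cnt (A : ℕ → ℤ) (x : ℝ) : ℕ := {n : ℕ | IsPosPrime (A n) ∧ (A n : ℝ) ≤ x}.ncard

/-- for every `η > 0` the walk has at least `x/(log x)^(1+η)` prime terms up to `x`, for all large `x` -/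
def Rich (A : ℕ → ℤ) : Prop :=
  ∀ η : ℝ, 0 < η → ∃ x0 : ℝ, ∀ x : ℝ, x0 ≤ x → x / Real.log x ^ (1 + η) ≤ (cnt A x : ℝ)

/-- for every strategy `f`, for all but `X/(log X)^A` of its even translates by `0 ≤ t ≤ X` every walk from an odd `k`,
`|k| ≤ X`, that follows the translated strategy has more than `X/(log X)^(1+η)` prime terms up to `5X`, uniformly in `f` -/
def AlmostAllTranslates (i j : ℤ) : Prop :=
  ∀ (A : ℕ) (η : ℝ), 0 < η → ∃ X0 : ℕ, ∀ X : ℕ, X0 ≤ X → ∀ f : ℤ → ℤ, (∀ x, f x = i ∨ f x = j) →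
    (({t : ℤ | 0 ≤ t ∧ t ≤ X ∧ Even t ∧ ∃ k : ℤ, Odd k ∧ |k| ≤ X ∧
      (cnt (follow (fun x => f (x - t)) k) (5 * X) : ℝ) ≤ X / Real.log X ^ (1 + η)}.ncard : ℕ) : ℝ) ≤
      X / Real.log X ^ A

/-- stationary strategies: the step at a position is a stationary random function of the position -/
def PositionStationary (i j : ℤ) : Prop :=
  ∀ (Ω : Type) (mΩ : MeasurableSpace Ω) (μ : Measure Ω), IsProbabilityMeasure μ →
    ∀ (T : Ω → Ω) (F : Ω → ℤ), MeasurePreserving T μ μ → Measurable F → (∀ ω, F ω = i ∨ F ω = j) →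
    ∀ᵐ ω ∂μ, ∀ k : ℤ, Odd k → Rich (posWalk T F k ω)

/-- stationary steps: the sequence of steps is a stationary process -/
def TimeStationary (i j : ℤ) : Prop :=
  ∀ (Ω : Type) (mΩ : MeasurableSpace Ω) (μ : Measure Ω), IsProbabilityMeasure μ →
    ∀ (T : Ω → Ω) (F : Ω → ℤ), MeasurePreserving T μ μ → Measurable F → (∀ ω, F ω = i ∨ F ω = j) →
    ∀ᵐ ω ∂μ, ∀ k : ℤ, Odd k → Rich (timeWalk T F k ω)

/-- eventually periodic steps -/
def PeriodicForced (i j : ℤ) : Prop :=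
  ∀ k : ℤ, Odd k → ∀ A : ℕ → ℤ, IsWalk i j k A →
    (∃ N T : ℕ, 0 < T ∧ ∀ n : ℕ, N ≤ n → A (n + T + 1) - A (n + T) = A (n + 1) - A n) → Rich A

end Pool.Agent.SWQ
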