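import Pool.Agent.SWQ.FDefs

/-! SWQ/Per.  `TimeStationary i j → PeriodicForced i j`.

PROOF.  Let `A` be a walk from the odd `k` with `A (n+P+1) - A (n+P) = A (n+1) - A n` for `n ≥ N`, `P > 0`.  `Ω = ZMod P`, uniform probability measure (see `Pool/Agent/SW/ConvT.lean`),
`T ω = ω + 1`, `F ω = A (N + ω.val + 1) - A (N + ω.val)`.  `ω = 0` has positive probability, so `Rich (timeWalk T F (A N) 0)` (`A N` is odd: `i`, `j` even), and
`timeWalk T F (A N) 0 n = A (N + n)`.  `cnt A x ≥ cnt (A (N + ·)) x` (`n ↦ N + n` is injective; the sets are finite because `A` is strictly increasing). -/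

set_option autoImplicit false

namespace Pool.Agent.SWQ

open MeasureTheory Pool.Agent.Helper27 Pool.Agent.SW

private theorem per_iter (P m : ℕ) : (fun ω : ZMod P => ω + 1)^[m] 0 = (m : ZMod P) := by
  induction m with
  | zero => simp
  | succ m ih =>
    rw [Function.iterate_succ_apply', ih]
    push_cast
    rfl

private theorem per_odd {i j k : ℤ} (hi : Even i) (hj : Even j) (hk : Odd k) {A : ℕ → ℤ}
    (hA : IsWalk i j k A) (n : ℕ) : Odd (A n) := by
  induction n with
  | zero => rw [hA.1]; exact hk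
  | succ n ih =>
    have h1 : A (n + 1) = A n + (A (n + 1) - A n) := by ring
    rw [h1]
    rcases hA.2 n with h | h
    · rw [h]; exact ih.add_even hi
    · rw [h]; exact ih.add_even hj

private theorem per_ge {i j k : ℤ} (h0 : 0 < i) (hij : i < j) {A : ℕ → ℤ}
    (hA : IsWalk i j k A) (n : ℕ) : k + n ≤ A n := by
  induction n with
  | zero => rw [hA.1]; simp
  | succ n ih =>
    push_cast
    rcases hA.2 n with h | h
    · omega
    · omega

private theorem per_cnt {i j k : ℤ} (h0 : 0 < i) (hij : i < j) {A : ℕ → ℤ}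
    (hA : IsWalk i j k A) (N : ℕ) (x : ℝ) : cnt (fun n => A (N + n)) x ≤ cnt A x := by
  unfold cnt
  have hfin : {n : ℕ | IsPosPrime (A n) ∧ (A n : ℝ) ≤ x}.Finite := by
    refine (Set.finite_Iic (⌈x - k⌉₊)).subset ?_
    intro n hn
    have h1 : (A n : ℝ) ≤ x := hn.2
    have h2 := per_ge h0 hij hA n
    have h3 : ((k : ℝ) + n) ≤ A n := by exact_mod_cast h2
    have h4 : (n : ℝ) ≤ x - k := by linarith
    show n ≤ ⌈x - k⌉₊
    have h5 : (n : ℝ) ≤ (⌈x - k⌉₊ : ℝ) := h4.trans (Nat.le_ceil _)
    exact_mod_cast h5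
  have hinj : Function.Injective (fun n : ℕ => N + n) := fun a b h => Nat.add_left_cancel h
  rw [← Set.ncard_image_of_injective _ hinj]
  refine Set.ncard_le_ncard ?_ hfin
  rintro _ ⟨n, hn, rfl⟩
  exact hn

theorem per_q {i j : ℤ} (h0 : 0 < i) (hij : i < j) (hi : Even i) (hj : Even j) (h : TimeStationary i j) :
    PeriodicForced i j := by
  intro k hk A hA ⟨N, P, hP, hper⟩
  have : NeZero P := ⟨by omega⟩
  let mΩ : MeasurableSpace (ZMod P) := ⊤
  have : DiscreteMeasurableSpace (ZMod P) := ⟨fun _ => trivial⟩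
  let μ : Measure (ZMod P) := ((P : ENNReal)⁻¹) • (Measure.count : Measure (ZMod P))
  have hP0 : (P : ENNReal) ≠ 0 := by
    have : P ≠ 0 := by omega
    exact_mod_cast this
  have hPt : (P : ENNReal) ≠ ⊤ := ENNReal.natCast_ne_top P
  have hprob : IsProbabilityMeasure μ := by
    refine ⟨?_⟩
    rw [Measure.smul_apply, Measure.count_apply MeasurableSet.univ, smul_eq_mul]
    have : (Set.univ : Set (ZMod P)).encard = P := by
      rw [Set.encard_univ, ENat.card_eq_coe_fintype_card, ZMod.card]
    rw [this]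
    exact ENNReal.inv_mul_cancel hP0 hPt
  have hpres : MeasurePreserving (fun ω : ZMod P => ω + 1) μ μ := by
    refine ⟨fun s _ => trivial, ?_⟩
    ext s hs
    have hs2 : MeasurableSet ((fun ω : ZMod P => ω + 1) ⁻¹' s) := trivial
    have hm : Measurable (fun ω : ZMod P => ω + 1) := fun _ _ => trivial
    rw [Measure.map_apply hm hs, Measure.smul_apply, Measure.smul_apply,
      Measure.count_apply hs, Measure.count_apply hs2]
    have he := Set.encard_preimage_of_bijective (Equiv.addRight (1 : ZMod P)).bijective s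
    have he2 : ((fun ω : ZMod P => ω + 1) ⁻¹' s).encard = s.encard := he
    rw [he2]
  have hF : ∀ ω : ZMod P, (A (N + ω.val + 1) - A (N + ω.val) = i ∨
      A (N + ω.val + 1) - A (N + ω.val) = j) := fun ω => hA.2 _
  have hmain := h (ZMod P) mΩ μ hprob (fun ω => ω + 1)
    (fun ω => A (N + ω.val + 1) - A (N + ω.val)) hpres (fun s _ => trivial) hF
  rw [ae_iff] at hmain
  have hwalk : timeWalk (fun ω : ZMod P => ω + 1)
      (fun ω => A (N + ω.val + 1) - A (N + ω.val)) (A N) 0 = fun n => A (N + n) := by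
    funext n
    unfold timeWalk
    have hs : Function.Periodic (fun m => A (N + m + 1) - A (N + m)) P := fun m => by
      have h1 := hper (N + m) (by omega)
      have e1 : N + (m + P) + 1 = N + m + P + 1 := by omega
      have e2 : N + (m + P) = N + m + P := by omega
      show A (N + (m + P) + 1) - A (N + (m + P)) = A (N + m + 1) - A (N + m)
      rw [e1, e2]
      exact h1
    have hsum : ∀ m ∈ Finset.range n,
        (fun ω : ZMod P => A (N + ω.val + 1) - A (N + ω.val)) ((fun ω : ZMod P => ω + 1)^[m] 0)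
          = (fun m => A (N + m)) (m + 1) - (fun m => A (N + m)) m := by
      intro m _
      rw [per_iter]
      show A (N + (m : ZMod P).val + 1) - A (N + (m : ZMod P).val) = _
      rw [ZMod.val_natCast]
      exact hs.map_mod_nat m
    rw [Finset.sum_congr rfl hsum, Finset.sum_range_sub (fun m => A (N + m))]
    show A N + (A (N + n) - A (N + 0)) = A (N + n)
    rw [Nat.add_zero]
    ring
  have hrich : Rich (fun n => A (N + n)) := by
    by_contra hcon
    have hbad : (0 : ZMod P) ∈ {ω : ZMod P | ¬ ∀ k : ℤ, Odd k →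
        Rich (timeWalk (fun ω : ZMod P => ω + 1)
          (fun ω => A (N + ω.val + 1) - A (N + ω.val)) k ω)} := by
      intro hall
      have h1 := hall (A N) (per_odd hi hj hk hA N)
      rw [hwalk] at h1
      exact hcon h1
    have hle : μ {0} ≤ 0 := by
      rw [← hmain]
      exact measure_mono (Set.singleton_subset_iff.2 hbad)
    have h1 : μ {0} = (P : ENNReal)⁻¹ := by
      rw [Measure.smul_apply, Measure.count_singleton, smul_eq_mul, mul_one]
    rw [h1] at hle
    exact (ENNReal.inv_ne_zero.2 hPt) (le_antisymm hle bot_le)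
  intro η hη
  obtain ⟨x0, hx0⟩ := hrich η hη
  refine ⟨x0, fun x hx => (hx0 x hx).trans ?_⟩
  exact_mod_cast per_cnt h0 hij hA N x

end Pool.Agent.SWQ
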