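import Pool.Agent.SWQ.UD
import Pool.Agent.SW.Pos

/-! SWQ/Pos.  Stationary strategies, quantitative form: adapt `Pool/Agent/SW/Pos.lean`, plus Borel-Cantelli.

For `N ≥ 1`, `η > 0` let `Bad x = {ω : cnt (posWalk T F x ω) (2N) ≤ N/(log N)^(1+η)}`.  As in `SW/Pos`: (1) `UDQ` with `A = 2` gives
`∑_{x odd, 1 ≤ x ≤ N} μ (Bad x) ≤ N/(log N)^2` (the sequence of steps of `posWalk T F x ω` does not depend on `x`); (2) if `ω ∈ Bad k` and `x` is a position of the walk,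
`T^[(x-k).toNat] ω ∈ Bad x` (a tail has at most as many primes `≤ 2N`); so `((N - |k|)/j - 2) μ (Bad k) ≤ N/(log N)^2`, hence `μ (Bad k) ≤ 3j/(log N)^2` for `N ≥ N1(k)`.
With `N = 2^l` this is `≤ C/l^2`, summable: Borel-Cantelli (`measure_limsup_atTop_eq_zero` or `measure_setOf_frequently_eq_zero`): almost surely
`cnt (posWalk T F k ω) (2·2^l) > 2^l/(log 2^l)^(1+η)` for all large `l`; for `2^(l+1) ≤ x < 2^(l+2)`: `cnt x ≥ cnt (2^(l+1)) ≥ (x/4)/(log x)^(1+η) ≥ x/(log x)^(1+2η)`.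
Countable: all `k`, `η = 1/m`; monotone in `η`. -/

set_option autoImplicit false

namespace Pool.Agent.SWQ

open MeasureTheory Pool.Agent.Helper27 Pool.Agent.SW

section Walk

variable {Ω : Type} (T : Ω → Ω) (F : Ω → ℤ)

private def gg (ω : Ω) : ℕ → ℕ
  | 0 => 0
  | n + 1 => gg ω n + (F (T^[gg ω n] ω)).toNat

private theorem posWalk_gg (hF : ∀ ω, 0 < F ω) (x : ℤ) (ω : Ω) (n : ℕ) :
    posWalk T F x ω n = x + (gg T F ω n : ℤ) := by
  induction n with
  | zero => simp [posWalk, gg]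
  | succ n ih =>
    rw [posWalk, ih, gg]
    have h1 : (x + (gg T F ω n : ℤ) - x).toNat = gg T F ω n := by omega
    rw [h1, Nat.cast_add, Int.toNat_of_nonneg (hF _).le]
    ring

private theorem gg_add (ω : Ω) (m n : ℕ) :
    gg T F ω (m + n) = gg T F ω m + gg T F (T^[gg T F ω m] ω) n := by
  induction n with
  | zero => simp [gg]
  | succ n ih =>
    rw [← Nat.add_assoc, gg, ih, gg, ← Nat.add_assoc]
    rw [Nat.add_comm (gg T F ω m) (gg T F (T^[gg T F ω m] ω) n), Function.iterate_add_apply]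

private theorem gg_meas [MeasurableSpace Ω] (hT : Measurable T) (hF : Measurable F) (n : ℕ) :
    Measurable fun ω => gg T F ω n := by
  induction n with
  | zero => exact measurable_const
  | succ n ih =>
    have h1 : Measurable fun p : ℕ × Ω => (F (T^[p.1] p.2)).toNat :=
      measurable_from_prod_countable_right fun m =>
        (measurable_of_countable Int.toNat).comp (hF.comp (hT.iterate m))
    exact ih.add (h1.comp (ih.prodMk measurable_id))

private theorem gg_lower {i j : ℤ} (h0 : 0 < i) (hij : i < j) (hF : ∀ ω, F ω = i ∨ F ω = j)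
    (ω : Ω) (n : ℕ) : n ≤ gg T F ω n ∧ gg T F ω n ≤ j.toNat * n := by
  induction n with
  | zero => simp [gg]
  | succ n ih =>
    rw [gg]
    rcases hF (T^[gg T F ω n] ω) with h | h <;> rw [h] <;> constructor
    · omega
    · have : i.toNat ≤ j.toNat := by omega
      nlinarith [ih.2]
    · omega
    · nlinarith [ih.2]

private theorem gg_mono {i j : ℤ} (h0 : 0 < i) (hij : i < j) (hF : ∀ ω, F ω = i ∨ F ω = j)
    (ω : Ω) : StrictMono (gg T F ω) := by
  refine strictMono_nat_of_lt_succ fun n => ?_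
  rw [gg]
  rcases hF (T^[gg T F ω n] ω) with h | h <;> rw [h] <;> omega

private theorem gg_even {i j : ℤ} (h0 : 0 < i) (hij : i < j) (hi : Even i) (hj : Even j)
    (hF : ∀ ω, F ω = i ∨ F ω = j) (ω : Ω) (n : ℕ) : Even (gg T F ω n : ℤ) := by
  induction n with
  | zero => simp [gg]
  | succ n ih =>
    rw [gg, Nat.cast_add]
    refine ih.add ?_
    rcases hF (T^[gg T F ω n] ω) with h | h <;> rw [h]
    · rw [Int.toNat_of_nonneg h0.le]; exact hi
    · rw [Int.toNat_of_nonneg (h0.trans hij).le]; exact hj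

private theorem gg_step (hF : ∀ ω, 0 < F ω) (x : ℤ) (ω : Ω) :
    stepWalk (fun n => F (T^[gg T F ω n] ω)) x = posWalk T F x ω := by
  funext n
  rw [posWalk_gg T F hF, stepWalk]
  congr 1
  induction n with
  | zero => simp [gg]
  | succ n ih => rw [Finset.sum_range_succ, ih, gg, Nat.cast_add, Int.toNat_of_nonneg (hF _).le]

/-- the terms of a walk up to `y` have bounded index -/
private theorem idx_lt (hF : ∀ ω, 0 < F ω) (x : ℤ) (ω : Ω) (y : ℝ) (n : ℕ)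
    (h : (posWalk T F x ω n : ℝ) ≤ y) : n < ⌊y - x⌋₊ + 1 := by
  have h1 : n ≤ gg T F ω n := by
    have h2 : ∀ m : ℕ, m ≤ gg T F ω m := by
      intro m
      induction m with
      | zero => simp [gg]
      | succ m ih =>
        rw [gg]
        have := hF (T^[gg T F ω m] ω)
        omega
    exact h2 n
  rw [posWalk_gg T F hF, Int.cast_add, Int.cast_natCast] at h
  have h3 : (n : ℝ) ≤ y - x := by
    have : (n : ℝ) ≤ gg T F ω n := by exact_mod_cast h1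
    linarith
  exact Nat.lt_succ_of_le (Nat.le_floor h3)

private theorem fin_cnt (hF : ∀ ω, 0 < F ω) (x : ℤ) (ω : Ω) (y : ℝ) :
    {n : ℕ | IsPosPrime (posWalk T F x ω n) ∧ (posWalk T F x ω n : ℝ) ≤ y}.Finite := by
  refine (Set.finite_Iio (⌊y - x⌋₊ + 1)).subset fun n hn => ?_
  exact idx_lt T F hF x ω y n hn.2

private theorem cnt_eq (hF : ∀ ω, 0 < F ω) (x : ℤ) (ω : Ω) (y : ℝ) :
    cnt (posWalk T F x ω) y = ∑ n ∈ Finset.range (⌊y - x⌋₊ + 1),
      (Set.indicator {g : ℕ | IsPosPrime (x + (g : ℤ)) ∧ ((x + (g : ℤ) : ℤ) : ℝ) ≤ y} (fun _ => 1)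
        (gg T F ω n) : ℕ) := by
  classical
  have h1 : {n : ℕ | IsPosPrime (posWalk T F x ω n) ∧ (posWalk T F x ω n : ℝ) ≤ y} =
      ((Finset.range (⌊y - x⌋₊ + 1)).filter fun n =>
        IsPosPrime (posWalk T F x ω n) ∧ (posWalk T F x ω n : ℝ) ≤ y : Finset ℕ) := by
    ext n
    rw [Finset.mem_coe, Finset.mem_filter, Finset.mem_range]
    constructor
    · intro hn
      exact ⟨idx_lt T F hF x ω y n hn.2, hn⟩
    · intro hn
      exact hn.2
  rw [cnt, h1, Set.ncard_coe_finset, Finset.card_filter]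
  refine Finset.sum_congr rfl fun n _ => ?_
  rw [Set.indicator_apply, posWalk_gg T F hF]
  rfl

private theorem cnt_meas [MeasurableSpace Ω] (hT : Measurable T) (hFm : Measurable F)
    (hF : ∀ ω, 0 < F ω) (x : ℤ) (y : ℝ) : Measurable fun ω => cnt (posWalk T F x ω) y := by
  have h1 : (fun ω => cnt (posWalk T F x ω) y) = fun ω => ∑ n ∈ Finset.range (⌊y - x⌋₊ + 1),
      (Set.indicator {g : ℕ | IsPosPrime (x + (g : ℤ)) ∧ ((x + (g : ℤ) : ℤ) : ℝ) ≤ y} (fun _ => 1)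
        (gg T F ω n) : ℕ) := by
    funext ω
    exact cnt_eq T F hF x ω y
  rw [h1]
  refine Finset.measurable_sum _ fun n _ => ?_
  exact (measurable_of_countable (Set.indicator
    {g : ℕ | IsPosPrime (x + (g : ℤ)) ∧ ((x + (g : ℤ) : ℤ) : ℝ) ≤ y}
    (fun _ => (1 : ℕ)))).comp (gg_meas T F hT hFm n)

private theorem bad_meas [MeasurableSpace Ω] (hT : Measurable T) (hFm : Measurable F)
    (hF : ∀ ω, 0 < F ω) (x : ℤ) (y τ : ℝ) :
    MeasurableSet {ω | (cnt (posWalk T F x ω) y : ℝ) ≤ τ} := by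
  refine measurableSet_le ?_ measurable_const
  exact (measurable_of_countable (Nat.cast : ℕ → ℝ)).comp (cnt_meas T F hT hFm hF x y)

/-- a tail has at most as many primes -/
private theorem cnt_tail (hF : ∀ ω, 0 < F ω) (k : ℤ) (ω : Ω) (m : ℕ) (y : ℝ) :
    cnt (posWalk T F (k + (gg T F ω m : ℤ)) (T^[gg T F ω m] ω)) y ≤ cnt (posWalk T F k ω) y := by
  rw [cnt, cnt]
  have e : ∀ n : ℕ, posWalk T F (k + (gg T F ω m : ℤ)) (T^[gg T F ω m] ω) n =
      posWalk T F k ω (m + n) := by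
    intro n
    rw [posWalk_gg T F hF, posWalk_gg T F hF, gg_add, Nat.cast_add, ← add_assoc]
  rw [← Set.ncard_image_of_injective _ (add_right_injective m)]
  refine Set.ncard_le_ncard ?_ (fin_cnt T F hF k ω y)
  rintro n ⟨a, ha, rfl⟩
  have ha' : IsPosPrime (posWalk T F (k + (gg T F ω m : ℤ)) (T^[gg T F ω m] ω) a) ∧
    (posWalk T F (k + (gg T F ω m : ℤ)) (T^[gg T F ω m] ω) a : ℝ) ≤ y := ha
  rw [e a] at ha'
  exact ha'

/-- the count is monotone -/
private theorem cnt_mono (hF : ∀ ω, 0 < F ω) (k : ℤ) (ω : Ω) {y z : ℝ} (hyz : y ≤ z) :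
    cnt (posWalk T F k ω) y ≤ cnt (posWalk T F k ω) z := by
  rw [cnt, cnt]
  refine Set.ncard_le_ncard ?_ (fin_cnt T F hF k ω z)
  rintro n ⟨h1, h2⟩
  exact ⟨h1, h2.trans hyz⟩

end Walk

private theorem sum_le {Ω ι : Type} [MeasurableSpace Ω] (μ : Measure Ω) [IsProbabilityMeasure μ]
    (S : Finset ι) (B : ι → Set Ω) (hB : ∀ x, MeasurableSet (B x)) (C : ENNReal)
    (h : ∀ ω, (({x : ι | x ∈ S ∧ ω ∈ B x}.ncard : ℕ) : ENNReal) ≤ C) :
    ∑ x ∈ S, μ (B x) ≤ C := by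
  classical
  have h1 : ∑ x ∈ S, μ (B x) = ∫⁻ ω, ∑ x ∈ S, (B x).indicator (fun _ => 1) ω ∂μ := by
    rw [lintegral_finsetSum _ fun x _ => measurable_const.indicator (hB x)]
    refine Finset.sum_congr rfl fun x _ => ?_
    rw [lintegral_indicator (hB x)]
    simp
  rw [h1]
  calc ∫⁻ ω, ∑ x ∈ S, (B x).indicator (fun _ => 1) ω ∂μ ≤ ∫⁻ _, C ∂μ := by
        refine lintegral_mono fun ω => le_trans (le_of_eq ?_) (h ω)
        have e : {x : ι | x ∈ S ∧ ω ∈ B x} = (S.filter fun x => ω ∈ B x : Finset ι) := by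
          ext x
          simp
        rw [e, Set.ncard_coe_finset, Finset.card_filter]
        push_cast
        refine Finset.sum_congr rfl fun x _ => ?_
        rw [Set.indicator_apply]
    _ = C := by simp

private theorem le_sum {Ω ι : Type} [MeasurableSpace Ω] (μ : Measure Ω)
    (S : Finset ι) (B : ι → Set Ω) (hB : ∀ x, MeasurableSet (B x)) (E : Set Ω)
    (hE : MeasurableSet E) (L : ENNReal)
    (h : ∀ ω ∈ E, L ≤ (({x : ι | x ∈ S ∧ ω ∈ B x}.ncard : ℕ) : ENNReal)) :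
    L * μ E ≤ ∑ x ∈ S, μ (B x) := by
  classical
  have h1 : ∑ x ∈ S, μ (B x) = ∫⁻ ω, ∑ x ∈ S, (B x).indicator (fun _ => 1) ω ∂μ := by
    rw [lintegral_finsetSum _ fun x _ => measurable_const.indicator (hB x)]
    refine Finset.sum_congr rfl fun x _ => ?_
    rw [lintegral_indicator (hB x)]
    simp
  rw [h1]
  have h2 : L * μ E = ∫⁻ ω, E.indicator (fun _ => L) ω ∂μ := by
    rw [lintegral_indicator hE]
    simp
  rw [h2]
  refine lintegral_mono fun ω => ?_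
  show E.indicator (fun _ => L) ω ≤ ∑ x ∈ S, (B x).indicator (fun _ => 1) ω
  by_cases hω : ω ∈ E
  · rw [Set.indicator_of_mem hω]
    refine le_trans (h ω hω) (le_of_eq ?_)
    have e : {x : ι | x ∈ S ∧ ω ∈ B x} = (S.filter fun x => ω ∈ B x : Finset ι) := by
      ext x
      simp
    rw [e, Set.ncard_coe_finset, Finset.card_filter]
    push_cast
    refine Finset.sum_congr rfl fun x _ => ?_
    rw [Set.indicator_apply]
  · rw [Set.indicator_of_notMem hω]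
    exact zero_le

/-- the basic estimate: `L μ(Bad k) ≤ N/(log N)^2` when the first `L` positions of the walk beyond `0` are at most `N` -/
private theorem bad_le {i j : ℤ} (h0 : 0 < i) (hij : i < j) (hi : Even i) (hj : Even j)
    {Ω : Type} [MeasurableSpace Ω] (μ : Measure Ω) [IsProbabilityMeasure μ]
    (T : Ω → Ω) (F : Ω → ℤ) (hT : MeasurePreserving T μ μ) (hFm : Measurable F)
    (hF : ∀ ω, F ω = i ∨ F ω = j) (k : ℤ) (hk : Odd k) (N L : ℕ) (τ D : ℝ)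
    (hLN : j.toNat * (k.natAbs + 1 + L) + k.natAbs ≤ N)
    (hN : ∀ s : ℕ → ℤ, (∀ n, s n = i ∨ s n = j) →
      (({x : ℤ | 1 ≤ x ∧ x ≤ N ∧ Odd x ∧ (cnt (stepWalk s x) (2 * N) : ℝ) ≤ τ}.ncard : ℕ) : ℝ) ≤ D) :
    (L : ENNReal) * μ {ω | (cnt (posWalk T F k ω) (2 * N) : ℝ) ≤ τ} ≤ ENNReal.ofReal D := by
  have hFp : ∀ ω, 0 < F ω := fun ω => by rcases hF ω with h | h <;> omega
  set K : ℕ := k.natAbs with hK
  set J : ℕ := j.toNat with hJ
  set S : Finset ℤ := (Finset.Icc 1 (N : ℤ)).filter fun x => Odd x with hS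
  have hbad : ∀ x : ℤ, MeasurableSet {ω | (cnt (posWalk T F x ω) (2 * N) : ℝ) ≤ τ} :=
    fun x => bad_meas T F hT.measurable hFm hFp x _ τ
  have hup : ∑ x ∈ S, μ {ω | (cnt (posWalk T F x ω) (2 * N) : ℝ) ≤ τ} ≤ ENNReal.ofReal D := by
    refine sum_le μ S _ hbad _ fun ω => ?_
    have h1 := hN (fun n => F (T^[gg T F ω n] ω)) (fun n => hF _)
    rw [← ENNReal.ofReal_natCast]
    refine ENNReal.ofReal_le_ofReal (le_trans (le_of_eq ?_) h1)
    congr 2
    ext x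
    simp only [hS, Set.mem_ofPred_eq, Finset.mem_filter, Finset.mem_Icc, gg_step T F hFp]
    tauto
  have hlow : (L : ENNReal) * μ {ω | (cnt (posWalk T F k ω) (2 * N) : ℝ) ≤ τ} ≤
      ∑ x ∈ S, μ (T^[(x - k).toNat] ⁻¹' {ω | (cnt (posWalk T F x ω) (2 * N) : ℝ) ≤ τ}) := by
    refine le_sum μ S _ (fun x => (hT.measurable.iterate _) (hbad x)) _ (hbad k) _ ?_
    intro ω hω
    have hfin : {x : ℤ | x ∈ S ∧
        ω ∈ T^[(x - k).toNat] ⁻¹' {ω | (cnt (posWalk T F x ω) (2 * N) : ℝ) ≤ τ}}.Finite :=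
      S.finite_toSet.subset fun x hx => hx.1
    rw [Nat.cast_le]
    have h1 : ((fun m : ℕ => k + (gg T F ω m : ℤ)) '' (Finset.Ico (K + 1) (K + 1 + L) : Finset ℕ)) ⊆
        {x : ℤ | x ∈ S ∧
        ω ∈ T^[(x - k).toNat] ⁻¹' {ω | (cnt (posWalk T F x ω) (2 * N) : ℝ) ≤ τ}} := by
      rintro x ⟨m, hm, rfl⟩
      rw [Finset.mem_coe, Finset.mem_Ico] at hm
      obtain ⟨g1, g2⟩ := gg_lower T F h0 hij hF ω m
      have g3 : gg T F ω m ≤ J * (K + 1 + L) := g2.trans (Nat.mul_le_mul_left _ hm.2.le)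
      constructor
      · show k + (gg T F ω m : ℤ) ∈ S
        rw [hS, Finset.mem_filter, Finset.mem_Icc]
        refine ⟨⟨by omega, ?_⟩, hk.add_even (gg_even T F h0 hij hi hj hF ω m)⟩
        have g4 : (gg T F ω m : ℤ) ≤ ((J * (K + 1 + L) : ℕ) : ℤ) := by exact_mod_cast g3
        have g5 : ((J * (K + 1 + L) + K : ℕ) : ℤ) ≤ (N : ℤ) := by exact_mod_cast hLN
        rw [Nat.cast_add] at g5
        omega
      · have e1 : (k + (gg T F ω m : ℤ) - k).toNat = gg T F ω m := by omega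
        show (cnt (posWalk T F (k + (gg T F ω m : ℤ))
          (T^[(k + (gg T F ω m : ℤ) - k).toNat] ω)) (2 * N) : ℝ) ≤ τ
        rw [e1]
        have hω' : (cnt (posWalk T F k ω) (2 * N) : ℝ) ≤ τ := hω
        refine le_trans ?_ hω'
        exact_mod_cast cnt_tail T F hFp k ω m (2 * N)
    have h2 := Set.ncard_le_ncard h1 hfin
    rw [Set.ncard_image_of_injective, Set.ncard_coe_finset, Nat.card_Ico] at h2
    · omega
    · intro a b hab
      have hab' : k + (gg T F ω a : ℤ) = k + (gg T F ω b : ℤ) := hab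
      exact (gg_mono T F h0 hij hF ω).injective (by omega)
  have heq : ∑ x ∈ S, μ (T^[(x - k).toNat] ⁻¹' {ω | (cnt (posWalk T F x ω) (2 * N) : ℝ) ≤ τ}) =
      ∑ x ∈ S, μ {ω | (cnt (posWalk T F x ω) (2 * N) : ℝ) ≤ τ} :=
    Finset.sum_congr rfl fun x _ => (hT.iterate _).measure_preimage (hbad x).nullMeasurableSet
  exact hlow.trans (heq.le.trans hup)

/-- the bad event at scale `2^l` is `O(1/l^2)` -/
private theorem bad_bound {i j : ℤ} (h0 : 0 < i) (hij : i < j) (hi : Even i) (hj : Even j)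
    (h : UDQ i j) {Ω : Type} [MeasurableSpace Ω] (μ : Measure Ω) [IsProbabilityMeasure μ]
    (T : Ω → Ω) (F : Ω → ℤ) (hT : MeasurePreserving T μ μ) (hFm : Measurable F)
    (hF : ∀ ω, F ω = i ∨ F ω = j) (k : ℤ) (hk : Odd k) (η : ℝ) (hη : 0 < η) :
    ∃ l0 : ℕ, ∀ l : ℕ, l0 ≤ l →
      μ {ω | (cnt (posWalk T F k ω) (2 * ((2 ^ l : ℕ) : ℝ)) : ℝ) ≤
        ((2 ^ l : ℕ) : ℝ) / Real.log ((2 ^ l : ℕ) : ℝ) ^ (1 + η)} ≤
      ENNReal.ofReal (2 * (j.toNat : ℝ) / Real.log 2 ^ 2 * (1 / (l : ℝ) ^ 2)) := by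
  obtain ⟨N0, hN0⟩ := h 2 η hη
  set K : ℕ := k.natAbs with hK
  set J : ℕ := j.toNat with hJ
  have hJ1 : 1 ≤ J := by omega
  refine ⟨N0 + 2 * (J * (K + 2) + K) + 1, fun l hl => ?_⟩
  set N : ℕ := 2 ^ l with hNdef
  have hlN : l < N := Nat.lt_two_pow_self
  have hl1 : 1 ≤ l := by omega
  -- the number of positions
  set L : ℕ := (N - (J * (K + 1) + K)) / J with hL
  have hNb : J * (K + 1) + K ≤ N := by nlinarith
  have hLJ : J * L ≤ N - (J * (K + 1) + K) := Nat.mul_div_le _ _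
  have hLN : J * (K + 1 + L) + K ≤ N := by
    rw [Nat.mul_add]
    omega
  have hLlow : N ≤ 2 * (J * L) := by
    have h1 : N - (J * (K + 1) + K) < J * (L + 1) := Nat.lt_mul_div_succ _ (by omega)
    have h2 : J * (L + 1) = J * L + J := by ring
    have h3 : J * (K + 2) = J * (K + 1) + J := by ring
    omega
  have hmain := bad_le h0 hij hi hj μ T F hT hFm hF k hk N L
    ((N : ℝ) / Real.log (N : ℝ) ^ (1 + η)) ((N : ℝ) / Real.log (N : ℝ) ^ 2) hLN
    (hN0 N (by omega))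
  have hNpos : 0 < N := by omega
  have hL1 : 1 ≤ L := by
    rcases Nat.eq_zero_or_pos L with hz | hz
    · rw [hz] at hLlow
      omega
    · exact hz
  have hLne : (L : ENNReal) ≠ 0 := by
    rw [Nat.cast_ne_zero]
    omega
  have hlogN : Real.log (N : ℝ) = l * Real.log 2 := by
    rw [hNdef]
    push_cast
    rw [Real.log_pow]
  have hlog2 : 0 < Real.log 2 := Real.log_pos (by norm_num)
  have hlR : (0 : ℝ) < l := by exact_mod_cast hl1
  refine (ENNReal.mul_le_mul_iff_right hLne (ENNReal.natCast_ne_top L)).1 (hmain.trans ?_)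
  have hnn : 0 ≤ 2 * (J : ℝ) / Real.log 2 ^ 2 * (1 / (l : ℝ) ^ 2) := by positivity
  rw [← ENNReal.ofReal_natCast (n := L), ← ENNReal.ofReal_mul (Nat.cast_nonneg L)]
  refine ENNReal.ofReal_le_ofReal ?_
  rw [hlogN]
  have e1 : (L : ℝ) * (2 * (J : ℝ) / Real.log 2 ^ 2 * (1 / (l : ℝ) ^ 2)) =
      (2 * (J * L)) / (l * Real.log 2) ^ 2 := by
    field_simp
  rw [e1]
  have h5 : (N : ℝ) ≤ 2 * (J * L) := by exact_mod_cast hLlow
  exact div_le_div_of_nonneg_right h5 (by positivity)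

/-- Borel-Cantelli -/
private theorem bc {i j : ℤ} (h0 : 0 < i) (hij : i < j) (hi : Even i) (hj : Even j)
    (h : UDQ i j) {Ω : Type} [MeasurableSpace Ω] (μ : Measure Ω) [IsProbabilityMeasure μ]
    (T : Ω → Ω) (F : Ω → ℤ) (hT : MeasurePreserving T μ μ) (hFm : Measurable F)
    (hF : ∀ ω, F ω = i ∨ F ω = j) (k : ℤ) (hk : Odd k) (η : ℝ) (hη : 0 < η) :
    ∀ᵐ ω ∂μ, ∀ᶠ l : ℕ in Filter.atTop,
      ((2 ^ l : ℕ) : ℝ) / Real.log ((2 ^ l : ℕ) : ℝ) ^ (1 + η) <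
        (cnt (posWalk T F k ω) (2 * ((2 ^ l : ℕ) : ℝ)) : ℝ) := by
  obtain ⟨l0, hl0⟩ := bad_bound h0 hij hi hj h μ T F hT hFm hF k hk η hη
  set B : ℕ → Set Ω := fun l => {ω | (cnt (posWalk T F k ω) (2 * ((2 ^ l : ℕ) : ℝ)) : ℝ) ≤
        ((2 ^ l : ℕ) : ℝ) / Real.log ((2 ^ l : ℕ) : ℝ) ^ (1 + η)} with hB
  have hsum : ∑' l : ℕ, μ (B (l + l0)) ≠ ⊤ := by
    have hs : Summable fun l : ℕ => 2 * (j.toNat : ℝ) / Real.log 2 ^ 2 * (1 / ((l + l0 : ℕ) : ℝ) ^ 2) := by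
      refine Summable.mul_left _ ?_
      exact (summable_nat_add_iff l0).2 (Real.summable_one_div_nat_pow.2 (by norm_num))
    refine ne_top_of_le_ne_top ?_ (ENNReal.tsum_le_tsum fun l => hl0 (l + l0) (by omega))
    exact hs.tsum_ofReal_ne_top
  have h1 := ae_eventually_notMem hsum
  filter_upwards [h1] with ω hω
  rw [Filter.eventually_atTop] at hω ⊢
  obtain ⟨a, ha⟩ := hω
  refine ⟨a + l0, fun l hl => ?_⟩
  have h2 := ha (l - l0) (by omega)
  rw [Nat.sub_add_cancel (by omega : l0 ≤ l)] at h2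
  exact not_le.1 h2

/-- interpolation -/
private theorem interp {Ω : Type} (T : Ω → Ω) (F : Ω → ℤ) (hF : ∀ ω, 0 < F ω) (k : ℤ) (ω : Ω)
    (h : ∀ m : ℕ, ∀ᶠ l : ℕ in Filter.atTop,
      ((2 ^ l : ℕ) : ℝ) / Real.log ((2 ^ l : ℕ) : ℝ) ^ (1 + 1 / ((m : ℝ) + 1)) <
        (cnt (posWalk T F k ω) (2 * ((2 ^ l : ℕ) : ℝ)) : ℝ)) :
    Rich (posWalk T F k ω) := by
  intro η hη
  obtain ⟨m, hm⟩ := exists_nat_one_div_lt (half_pos hη)
  obtain ⟨l0, hl0⟩ := Filter.eventually_atTop.1 (h m)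
  set e : ℝ := 1 / ((m : ℝ) + 1) with he
  have he0 : 0 < e := by positivity
  -- log x ^ (η - e) ≥ 4 for large x
  have htend : Filter.Tendsto (fun x : ℝ => Real.log x ^ (η - e)) Filter.atTop Filter.atTop :=
    (tendsto_rpow_atTop (by linarith : 0 < η - e)).comp Real.tendsto_log_atTop
  obtain ⟨x1, hx1⟩ := Filter.eventually_atTop.1 (htend.eventually_ge_atTop 4)
  refine ⟨max x1 (max 4 ((2 : ℝ) ^ (l0 + 2))), fun x hx => ?_⟩
  have hxx1 : x1 ≤ x := (le_max_left _ _).trans hx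
  have hx4 : 4 ≤ x := (le_max_left _ _).trans ((le_max_right _ _).trans hx)
  have hxl0 : (2 : ℝ) ^ (l0 + 2) ≤ x := (le_max_right _ _).trans ((le_max_right _ _).trans hx)
  -- the scale
  set M : ℕ := ⌊x⌋₊ with hM
  have hM4 : 4 ≤ M := Nat.le_floor (by exact_mod_cast hx4)
  have hMl0 : 2 ^ (l0 + 2) ≤ M := Nat.le_floor (by exact_mod_cast hxl0)
  set q : ℕ := Nat.log 2 M with hq
  have hq1 : 2 ^ q ≤ M := Nat.pow_log_le_self 2 (by omega)
  have hq2 : M < 2 ^ (q + 1) := Nat.lt_pow_succ_log_self (by norm_num) M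
  have hq3 : l0 + 2 ≤ q := (Nat.le_log_iff_pow_le (by norm_num) (by omega)).2 hMl0
  obtain ⟨l, hl1⟩ : ∃ l, q = l + 1 := ⟨q - 1, by omega⟩
  rw [hl1] at hq1 hq2 hq3
  have hl := hl0 l (by omega)
  have hMx : (M : ℝ) ≤ x := Nat.floor_le (by linarith)
  have hxM : x < M + 1 := Nat.lt_floor_add_one x
  have a1 : (2 : ℝ) * ((2 ^ l : ℕ) : ℝ) ≤ x := by
    have : ((2 ^ (l + 1) : ℕ) : ℝ) ≤ M := by exact_mod_cast hq1
    push_cast at this ⊢
    rw [pow_succ] at this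
    linarith
  have a2 : x ≤ 4 * ((2 ^ l : ℕ) : ℝ) := by
    have : ((M + 1 : ℕ) : ℝ) ≤ ((2 ^ (l + 1 + 1) : ℕ) : ℝ) := by exact_mod_cast hq2
    push_cast at this ⊢
    rw [pow_succ, pow_succ] at this
    linarith
  have a3 : (1 : ℝ) < ((2 ^ l : ℕ) : ℝ) := by
    have h3 : 1 < 2 ^ l := Nat.one_lt_two_pow (by omega)
    exact_mod_cast h3
  have hlogl : 0 < Real.log ((2 ^ l : ℕ) : ℝ) := Real.log_pos a3
  have hlogx : 0 < Real.log x := Real.log_pos (by linarith)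
  have hloglx : Real.log ((2 ^ l : ℕ) : ℝ) ≤ Real.log x := Real.log_le_log (by linarith) (by linarith)
  have b1 : (cnt (posWalk T F k ω) (2 * ((2 ^ l : ℕ) : ℝ)) : ℝ) ≤ (cnt (posWalk T F k ω) x : ℝ) := by
    exact_mod_cast cnt_mono T F hF k ω a1
  refine le_trans ?_ (hl.le.trans b1)
  have c1 : Real.log x ^ (1 + η) = Real.log x ^ (1 + e) * Real.log x ^ (η - e) := by
    rw [← Real.rpow_add hlogx]
    congr 1
    ring
  have c2 : 4 ≤ Real.log x ^ (η - e) := hx1 x hxx1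
  have c3 : Real.log ((2 ^ l : ℕ) : ℝ) ^ (1 + e) ≤ Real.log x ^ (1 + e) :=
    Real.rpow_le_rpow hlogl.le hloglx (by linarith)
  have c4 : 0 < Real.log x ^ (1 + e) := Real.rpow_pos_of_pos hlogx _
  have c5 : 0 < Real.log ((2 ^ l : ℕ) : ℝ) ^ (1 + e) := Real.rpow_pos_of_pos hlogl _
  calc x / Real.log x ^ (1 + η) ≤ (4 * ((2 ^ l : ℕ) : ℝ)) / (Real.log x ^ (1 + e) * 4) := by
        rw [c1]
        refine div_le_div₀ (by positivity) a2 (by positivity) ?_
        exact mul_le_mul_of_nonneg_left c2 c4.le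
    _ = ((2 ^ l : ℕ) : ℝ) / Real.log x ^ (1 + e) := by
        rw [mul_comm (Real.log x ^ (1 + e)) 4, mul_div_mul_left _ _ (by norm_num : (4 : ℝ) ≠ 0)]
    _ ≤ ((2 ^ l : ℕ) : ℝ) / Real.log ((2 ^ l : ℕ) : ℝ) ^ (1 + e) :=
        div_le_div_of_nonneg_left (by positivity) c5 c3

theorem pos_q {i j : ℤ} (h0 : 0 < i) (hij : i < j) (hi : Even i) (hj : Even j) (h : UDQ i j) :
    PositionStationary i j := by
  intro Ω mΩ μ hμ T F hT hFm hF
  have hFp : ∀ ω, 0 < F ω := fun ω => by rcases hF ω with h | h <;> omega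
  rw [ae_all_iff]
  intro k
  by_cases hk : Odd k
  · have h1 : ∀ᵐ ω ∂μ, ∀ m : ℕ, ∀ᶠ l : ℕ in Filter.atTop,
        ((2 ^ l : ℕ) : ℝ) / Real.log ((2 ^ l : ℕ) : ℝ) ^ (1 + 1 / ((m : ℝ) + 1)) <
        (cnt (posWalk T F k ω) (2 * ((2 ^ l : ℕ) : ℝ)) : ℝ) := by
      rw [ae_all_iff]
      intro m
      exact bc h0 hij hi hj h μ T F hT hFm hF k hk (1 / ((m : ℝ) + 1)) (by positivity)
    filter_upwards [h1] with ω hω _
    exact interp T F hFp k ω hω
  · exact Filter.Eventually.of_forall fun ω h => absurd h hk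

end Pool.Agent.SWQ
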