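import Pool.Agent.SWQ.UD
import Pool.Agent.SW.Strat

/-! SWQ/Strat.  From fixed sequences of steps to all strategies, quantitative form: adapt `Pool/Agent/SW/Strat.lean`.

`N = 2X + j.toNat`; a bad `t` with its `k` gives an odd `z ∈ [X, X + j]` on the walk `follow f (k - t)` and the starting point `k' = t + z ∈ [1, N]`; the tail of the walk is
`stepWalk s_z k'`, `s_z n = f (follow f z n)`, and `cnt (tail) (2N) ≤ cnt (follow …) (5X) ≤ X/(log X)^(1+η) ≤ N/(log N)^(1+η)` because `2N = 4X + 2j ≤ 5X` and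
`x/(log x)^(1+η)` increases for large `x` (finite sets: the walk is strictly increasing).  So `t` is determined by `z` (at most `j + 1` values) and a bad `k'` for
`s_z`: at most `(j+1) N/(log N)^(A+1) ≤ X/(log X)^A` for large `X` (use `UDQ` with `A + 1`). -/

set_option autoImplicit false

namespace Pool.Agent.SWQ

open Pool.Agent.Helper27 Pool.Agent.SW

private theorem sq_follow (f : ℤ → ℤ) (t k : ℤ) (n : ℕ) :
    follow (fun x => f (x - t)) k n = t + follow f (k - t) n := by
  induction n with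
  | zero =>
    show k = t + (k - t)
    ring
  | succ n ih =>
    show follow (fun x => f (x - t)) k n + f (follow (fun x => f (x - t)) k n - t) =
      t + (follow f (k - t) n + f (follow f (k - t) n))
    rw [ih, add_sub_cancel_left]
    ring

private theorem sq_tail (f : ℤ → ℤ) (k : ℤ) (m n : ℕ) :
    follow f k (m + n) = follow f (follow f k m) n := by
  induction n with
  | zero => rfl
  | succ n ih =>
    show follow f k (m + n) + f (follow f k (m + n)) = _
    rw [ih]
    rfl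

private theorem sq_sum (f : ℤ → ℤ) (z : ℤ) (n : ℕ) :
    follow f z n = z + ∑ l ∈ Finset.range n, f (follow f z l) := by
  induction n with
  | zero =>
    rw [Finset.sum_range_zero, add_zero]
    rfl
  | succ n ih =>
    rw [Finset.sum_range_succ, ← add_assoc, ← ih]
    rfl

private theorem sq_odd {f : ℤ → ℤ} (hf : ∀ x, Even (f x)) {k : ℤ} (hk : Odd k) (n : ℕ) :
    Odd (follow f k n) := by
  induction n with
  | zero => exact hk
  | succ n ih => exact ih.add_even (hf _)

private theorem sq_ge {f : ℤ → ℤ} (hf : ∀ x, 1 ≤ f x) (k : ℤ) (n : ℕ) :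
    k + n ≤ follow f k n := by
  induction n with
  | zero =>
    show k + ((0 : ℕ) : ℤ) ≤ k
    simp
  | succ n ih =>
    show k + ((n + 1 : ℕ) : ℤ) ≤ follow f k n + f (follow f k n)
    have := hf (follow f k n)
    push_cast
    linarith

private theorem sq_reach {f : ℤ → ℤ} {j : ℤ} (hf : ∀ x, 1 ≤ f x) (hf2 : ∀ x, f x ≤ j) {k X : ℤ}
    (hk : k ≤ X) : ∃ m, X ≤ follow f k m ∧ follow f k m ≤ X + j := by
  classical
  have hex : ∃ m, X ≤ follow f k m := by
    refine ⟨(X - k).toNat, ?_⟩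
    have h1 := sq_ge hf k (X - k).toNat
    rw [Int.toNat_of_nonneg (by linarith)] at h1
    linarith
  obtain ⟨m, hm⟩ : ∃ m, m = Nat.find hex := ⟨_, rfl⟩
  have h1 : X ≤ follow f k m := by
    rw [hm]
    exact Nat.find_spec hex
  refine ⟨m, h1, ?_⟩
  have hj : 1 ≤ j := (hf 0).trans (hf2 0)
  rcases m with _ | m
  · show k ≤ X + j
    linarith
  · have h2 : ¬ X ≤ follow f k m := Nat.find_min hex (by omega)
    push Not at h2
    show follow f k m + f (follow f k m) ≤ X + j
    have := hf2 (follow f k m)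
    linarith

private theorem sq_cnt {x y : ℝ} {A B : ℕ → ℤ} (m : ℕ) (hxy : x ≤ y) (h : ∀ n, B n = A (m + n))
    (hA : ∀ n : ℕ, A 0 + n ≤ A n) : cnt B x ≤ cnt A y := by
  unfold cnt
  have hinj : Function.Injective (fun n : ℕ => m + n) := fun a b hab => Nat.add_left_cancel hab
  rw [← Set.ncard_image_of_injective _ hinj]
  refine Set.ncard_le_ncard ?_ ?_
  · rintro _ ⟨n, hn, rfl⟩
    rw [Set.mem_ofPred_eq, h n] at hn
    exact ⟨hn.1, hn.2.trans hxy⟩
  · refine (Set.finite_Iic (⌈y - A 0⌉₊)).subset fun n hn => ?_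
    have h1 := hn.2
    have h2 : ((A 0 + n : ℤ) : ℝ) ≤ (A n : ℝ) := by exact_mod_cast hA n
    push_cast at h2
    have h3 : (n : ℝ) ≤ y - A 0 := by linarith
    exact_mod_cast h3.trans (Nat.le_ceil _)

private theorem sq_mono {c X N : ℝ} (hc : 0 < c) (hX : 0 < X) (hXN : X ≤ N) (hl : c ≤ Real.log X) :
    X / Real.log X ^ c ≤ N / Real.log N ^ c := by
  have hlX : 0 < Real.log X := hc.trans_le hl
  have hN : 0 < N := hX.trans_le hXN
  have hlN : Real.log X ≤ Real.log N := Real.log_le_log hX hXN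
  have hlN0 : 0 < Real.log N := hlX.trans_le hlN
  have h1 : Real.log N = Real.log X + Real.log (N / X) := by
    rw [Real.log_div hN.ne' hX.ne']
    ring
  have h2 : 0 ≤ Real.log (N / X) := by linarith
  have h3 : (Real.log N / Real.log X) ^ c ≤ N / X := by
    have h4 : Real.log N / Real.log X ≤ Real.exp (Real.log (N / X) / c) := by
      have h5 : Real.log N / Real.log X = 1 + Real.log (N / X) / Real.log X := by
        rw [h1]
        field_simp
      have h6 : Real.log (N / X) / Real.log X ≤ Real.log (N / X) / c :=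
        div_le_div_of_nonneg_left h2 hc hl
      have h7 := Real.add_one_le_exp (Real.log (N / X) / c)
      rw [h5]
      linarith
    have h8 : (Real.exp (Real.log (N / X) / c)) ^ c = N / X := by
      rw [← Real.exp_mul, div_mul_cancel₀ _ hc.ne', Real.exp_log (div_pos hN hX)]
    rw [← h8]
    exact Real.rpow_le_rpow (div_nonneg hlN0.le hlX.le) h4 hc.le
  rw [Real.div_rpow hlN0.le hlX.le] at h3
  have hp1 : 0 < Real.log X ^ c := Real.rpow_pos_of_pos hlX c
  have hp2 : 0 < Real.log N ^ c := Real.rpow_pos_of_pos hlN0 c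
  rw [div_le_div_iff₀ hp1 hX] at h3
  rw [div_le_div_iff₀ hp1 hp2]
  linarith

theorem strat_q {i j : ℤ} (h0 : 0 < i) (hij : i < j) (hi : Even i) (hj : Even j) (h : UDQ i j) :
    AlmostAllTranslates i j := by
  intro A η hη
  have hj0 : 0 < j := h0.trans hij
  have hjr : (0 : ℝ) < j := by exact_mod_cast hj0
  obtain ⟨N0, hN0⟩ := h (A + 1) η hη
  have hlog : ∀ᶠ X : ℕ in Filter.atTop, max (1 + η) (3 * ((j : ℝ) + 1)) ≤ Real.log X :=
    (Real.tendsto_log_atTop.comp tendsto_natCast_atTop_atTop).eventually_ge_atTop _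
  obtain ⟨X1, hX1l⟩ := Filter.eventually_atTop.1 hlog
  refine ⟨max N0 (max (2 * j.toNat) (max 1 X1)), fun X hX f hf => ?_⟩
  have hXN : N0 ≤ X := (le_max_left _ _).trans hX
  have hXj : 2 * j.toNat ≤ X := ((le_max_left _ _).trans (le_max_right _ _)).trans hX
  have hX1 : 1 ≤ X := ((le_max_left _ _).trans ((le_max_right _ _).trans (le_max_right _ _))).trans hX
  have hX2 : X1 ≤ X := ((le_max_right _ _).trans ((le_max_right _ _).trans (le_max_right _ _))).trans hX
  have hlX := hX1l X hX2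
  have hl1 : 1 + η ≤ Real.log X := (le_max_left _ _).trans hlX
  have hl2 : 3 * ((j : ℝ) + 1) ≤ Real.log X := (le_max_right _ _).trans hlX
  have hjn : ((j.toNat : ℕ) : ℤ) = j := Int.toNat_of_nonneg hj0.le
  obtain ⟨N, hN⟩ : ∃ N : ℕ, N = 2 * X + j.toNat := ⟨_, rfl⟩
  have hXr : (0 : ℝ) < X := by exact_mod_cast hX1
  have h5 : 2 * (j : ℝ) ≤ X := by
    have : 2 * j ≤ (X : ℤ) := by
      rw [← hjn]
      exact_mod_cast hXj
    exact_mod_cast this
  have hNr : (N : ℝ) = 2 * X + j := by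
    have e2 : (N : ℤ) = 2 * X + j := by
      rw [hN]
      push_cast
      rw [hjn]
    exact_mod_cast e2
  have hXNr : (X : ℝ) ≤ N := by linarith
  have hmono : (X : ℝ) / Real.log X ^ (1 + η) ≤ N / Real.log N ^ (1 + η) :=
    sq_mono (by linarith) hXr hXNr hl1
  obtain ⟨K, hK⟩ : ∃ K : ℤ → Set ℤ, K = fun z => {k : ℤ | 1 ≤ k ∧ k ≤ N ∧ Odd k ∧
      (cnt (stepWalk (fun n => f (follow f z n)) k) (2 * N) : ℝ) ≤ N / Real.log N ^ (1 + η)} := ⟨_, rfl⟩
  have hKfin : ∀ z, (K z).Finite := by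
    intro z
    refine (Set.finite_Icc (1 : ℤ) N).subset fun k hk => ?_
    rw [hK] at hk
    exact ⟨hk.1, hk.2.1⟩
  have hKc : ∀ z, (((K z).ncard : ℕ) : ℝ) ≤ N / Real.log N ^ (A + 1) := by
    intro z
    have h1 := hN0 N (by omega) (fun n => f (follow f z n)) (fun n => hf _)
    rw [hK]
    exact h1
  have hf1 : ∀ x, 1 ≤ f x := by
    intro x
    rcases hf x with h1 | h1 <;> rw [h1] <;> omega
  have hf2 : ∀ x, f x ≤ j := by
    intro x
    rcases hf x with h1 | h1 <;> rw [h1]
    exact hij.le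
  have hfe : ∀ x, Even (f x) := by
    intro x
    rcases hf x with h1 | h1 <;> rw [h1]
    · exact hi
    · exact hj
  have hsub : {t : ℤ | 0 ≤ t ∧ t ≤ X ∧ Even t ∧ ∃ k : ℤ, Odd k ∧ |k| ≤ X ∧
      (cnt (follow (fun x => f (x - t)) k) (5 * X) : ℝ) ≤ X / Real.log X ^ (1 + η)} ⊆
      ⋃ z ∈ Finset.Icc (X : ℤ) (X + j), (fun k => k - z) '' K z := by
    rintro t ⟨ht0, htX, hte, k, hko, hkX, hfew⟩
    rw [abs_le] at hkX
    obtain ⟨m, hm1, hm2⟩ := sq_reach (k := k - t) (X := X) hf1 hf2 (by linarith [hkX.2])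
    obtain ⟨z, hz⟩ : ∃ z, z = follow f (k - t) m := ⟨_, rfl⟩
    rw [← hz] at hm1 hm2
    rw [Set.mem_iUnion₂]
    refine ⟨z, Finset.mem_Icc.2 ⟨hm1, hm2⟩, t + z, ?_, by simp⟩
    have hzo : Odd z := by
      rw [hz]
      exact sq_odd hfe (hko.sub_even hte) m
    have hX1' : (1 : ℤ) ≤ X := by exact_mod_cast hX1
    rw [hK]
    refine ⟨by linarith, ?_, hte.add_odd hzo, ?_⟩
    · rw [hN]
      push_cast
      rw [hjn]
      linarith
    · have hc : cnt (stepWalk (fun n => f (follow f z n)) (t + z)) (2 * N) ≤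
          cnt (follow (fun x => f (x - t)) k) (5 * X) := by
        refine sq_cnt m (by rw [hNr]; linarith) (fun n => ?_) (fun n => ?_)
        · rw [sq_follow, sq_tail, ← hz, sq_sum f z n]
          unfold stepWalk
          ring
        · exact sq_ge (f := fun x => f (x - t)) (fun x => hf1 _) k n
      exact ((Nat.cast_le.2 hc).trans hfew).trans hmono
  have hfinU : (⋃ z ∈ Finset.Icc (X : ℤ) (X + j), (fun k => k - z) '' K z).Finite :=
    Set.Finite.biUnion (Finset.finite_toSet _) fun z _ => (hKfin z).image _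
  have h1 := Set.ncard_le_ncard hsub hfinU
  have h2 : (⋃ z ∈ Finset.Icc (X : ℤ) (X + j), (fun k => k - z) '' K z).ncard ≤
      ∑ z ∈ Finset.Icc (X : ℤ) (X + j), ((fun k => k - z) '' K z).ncard :=
    Finset.set_ncard_biUnion_le _ _
  have h3 : (((⋃ z ∈ Finset.Icc (X : ℤ) (X + j), (fun k => k - z) '' K z).ncard : ℕ) : ℝ) ≤
      ∑ z ∈ Finset.Icc (X : ℤ) (X + j), (N : ℝ) / Real.log N ^ (A + 1) := by
    refine (Nat.cast_le.2 h2).trans ?_
    rw [Nat.cast_sum]
    refine Finset.sum_le_sum fun z _ => ?_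
    exact (Nat.cast_le.2 (Set.ncard_image_le (hKfin z))).trans (hKc z)
  rw [Finset.sum_const, Int.card_Icc, nsmul_eq_mul] at h3
  have h4 : ((((X : ℤ) + j + 1 - X).toNat : ℕ) : ℝ) = (j : ℝ) + 1 := by
    have e1 : ((((X : ℤ) + j + 1 - X).toNat : ℕ) : ℤ) = j + 1 := by
      rw [Int.toNat_of_nonneg (by linarith)]
      ring
    have e2 : (((((X : ℤ) + j + 1 - X).toNat : ℕ) : ℤ) : ℝ) = ((j + 1 : ℤ) : ℝ) := by rw [e1]
    push_cast at e2
    exact e2
  rw [h4] at h3
  have h6 : (N : ℝ) ≤ 3 * X := by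
    rw [hNr]
    linarith
  refine (Nat.cast_le.2 h1).trans (h3.trans ?_)
  have hlX0 : 0 < Real.log X := by linarith
  have hlN : Real.log X ≤ Real.log N := Real.log_le_log hXr hXNr
  have h7 : (N : ℝ) / Real.log N ^ (A + 1) ≤ 3 * X / Real.log X ^ (A + 1) :=
    div_le_div₀ (by positivity) h6 (by positivity) (pow_le_pow_left₀ hlX0.le hlN _)
  refine (mul_le_mul_of_nonneg_left h7 (by linarith)).trans ?_
  rw [pow_succ, mul_div_assoc', div_le_div_iff₀ (by positivity) (by positivity)]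
  have h8 : 0 ≤ (X : ℝ) * Real.log X ^ A := by positivity
  nlinarith [mul_le_mul_of_nonneg_left hl2 h8]

end Pool.Agent.SWQ
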