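import Pool.Agent.SWQ.UD
import Pool.Agent.SW.Tim

/-! SWQ/Tim.  Stationary steps, quantitative form: adapt `Pool/Agent/SW/Tim.lean`, plus Borel-Cantelli.

Fix `k`, `η > 0`, `N` large, `Bad x = {ω : cnt (timeWalk T F x ω) (2N) ≤ N/(log N)^(1+η)}`, `M = ⌊(N - |k|)/j⌋`; for `n < M` the position after `n` steps
`x = k + r ω n ≤ N`, and as in `SW/Tim` `(T^[M-n]) ⁻¹ (Bad k) ⊆ {ω : T^[M] ω ∈ Bad (k + r ω n)}` (a tail has at most as many primes `≤ 2N`).  `UDQ` with `A = 2`:
`M μ (Bad k) ≤ N/(log N)^2 + |k| + 1`, so `μ (Bad k) ≤ 3j/(log N)^2` for `N ≥ N1(k)`.  Borel-Cantelli along `N = 2^l` and interpolation as in `SWQ/Pos`. -/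

set_option autoImplicit false

namespace Pool.Agent.SWQ

open MeasureTheory Pool.Agent.Helper27 Pool.Agent.SW

private theorem tq_ge {s : ℕ → ℤ} (hs : ∀ n, 1 ≤ s n) (k : ℤ) (n : ℕ) :
    k + n ≤ stepWalk s k n := by
  unfold stepWalk
  have h : (n : ℤ) ≤ ∑ m ∈ Finset.range n, s m := by
    calc (n : ℤ) = ∑ _m ∈ Finset.range n, (1 : ℤ) := by simp
      _ ≤ _ := Finset.sum_le_sum fun m _ => hs m
  linarith

private theorem tq_lt {s : ℕ → ℤ} (hs : ∀ n, 1 ≤ s n) (k : ℤ) (x : ℝ) {K n : ℕ} (hK : x < K + k)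
    (hn : ((stepWalk s k n : ℤ) : ℝ) ≤ x) : n < K := by
  by_contra hc
  have h1 := tq_ge hs k n
  have h2 : (K : ℤ) ≤ n := by exact_mod_cast not_lt.mp hc
  have h3 : (((K : ℤ) + k : ℤ) : ℝ) ≤ ((stepWalk s k n : ℤ) : ℝ) := by
    exact_mod_cast (by linarith : (K : ℤ) + k ≤ stepWalk s k n)
  push_cast at h3
  linarith

private theorem tq_fin {s : ℕ → ℤ} (hs : ∀ n, 1 ≤ s n) (k : ℤ) (x : ℝ) :
    {n : ℕ | IsPosPrime (stepWalk s k n) ∧ ((stepWalk s k n : ℤ) : ℝ) ≤ x}.Finite := by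
  obtain ⟨K, hK⟩ := exists_nat_gt (x - k)
  refine (Finset.range K).finite_toSet.subset fun n hn => ?_
  rw [Finset.mem_coe, Finset.mem_range]
  exact tq_lt hs k x (by linarith) hn.2

private theorem tq_mono {s : ℕ → ℤ} (hs : ∀ n, 1 ≤ s n) (k : ℤ) {x y : ℝ} (hxy : x ≤ y) :
    cnt (stepWalk s k) x ≤ cnt (stepWalk s k) y :=
  Set.ncard_le_ncard (fun _ hn => ⟨hn.1, hn.2.trans hxy⟩) (tq_fin hs k y)

private theorem tq_tail {s : ℕ → ℤ} (hs : ∀ n, 1 ≤ s n) (k : ℤ) (n : ℕ) (x : ℝ) :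
    cnt (stepWalk (fun m => s (n + m)) (k + ∑ m ∈ Finset.range n, s m)) x ≤
      cnt (stepWalk s k) x := by
  have e : ∀ l, stepWalk (fun m => s (n + m)) (k + ∑ m ∈ Finset.range n, s m) l =
      stepWalk s k (n + l) := by
    intro l
    unfold stepWalk
    rw [Finset.sum_range_add, add_assoc]
  refine Set.ncard_le_ncard_of_injOn (fun l => n + l) ?_ ?_ (tq_fin hs k x)
  · intro l hl
    have hl' : IsPosPrime (stepWalk (fun m => s (n + m)) (k + ∑ m ∈ Finset.range n, s m) l) ∧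
        ((stepWalk (fun m => s (n + m)) (k + ∑ m ∈ Finset.range n, s m) l : ℤ) : ℝ) ≤ x := hl
    rw [e l] at hl'
    exact hl'
  · intro a _ b _ hab
    exact Nat.add_left_cancel hab

private theorem tq_cnt {i j : ℤ} (h0 : 0 < i) (hij : i < j) (hi : Even i) (hj : Even j) {N : ℕ}
    {θ C : ℝ} (hUD : ∀ s : ℕ → ℤ, (∀ n, s n = i ∨ s n = j) →
      (({k : ℤ | 1 ≤ k ∧ k ≤ N ∧ Odd k ∧ (cnt (stepWalk s k) (2 * N) : ℝ) ≤ θ}.ncard : ℕ) : ℝ) ≤ C)
    {Ω : Type} {T : Ω → Ω} {F : Ω → ℤ} (hF : ∀ ω, F ω = i ∨ F ω = j) {k : ℤ} (hk : Odd k) {M : ℕ}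
    (hM : k + j * M ≤ N) (ω : Ω) (A : Finset ℕ) (hA : A ⊆ Finset.range M)
    (hA2 : ∀ n ∈ A, (cnt (timeWalk T F k (T^[M - n] ω)) (2 * N) : ℝ) ≤ θ) :
    (A.card : ℝ) ≤ C + ((k.natAbs : ℝ) + 1) := by
  classical
  set f : ℕ → ℤ := fun m => F (T^[m] ω) with hf
  have hfij : ∀ m, f m = i ∨ f m = j := fun m => hF _
  set x : ℕ → ℤ := fun n => k + ∑ m ∈ Finset.range n, f (M - n + m) with hx
  have hx0 : x 0 = k := by simp [hx]
  have hstep : ∀ n, n < M → x (n + 1) = f (M - (n + 1)) + x n := by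
    intro n hn
    simp only [hx]
    rw [Finset.sum_range_succ']
    have h1 : ∀ m, M - (n + 1) + (m + 1) = M - n + m := by intro m; omega
    simp only [h1, add_zero]
    ring
  have hprop : ∀ n, n ≤ M → k + n ≤ x n ∧ x n ≤ k + j * n ∧ Odd (x n) := by
    intro n
    induction n with
    | zero => intro _; rw [hx0]; simp [hk]
    | succ n ih =>
      intro hn
      obtain ⟨h1, h2, h3⟩ := ih (by omega)
      rw [hstep n (by omega)]
      push_cast
      rcases hfij (M - (n + 1)) with h4 | h4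
      · rw [h4]
        exact ⟨by linarith, by linarith, hi.add_odd h3⟩
      · rw [h4]
        exact ⟨by linarith, by linarith, hj.add_odd h3⟩
  have hlt : ∀ n, n < M → x n < x (n + 1) := by
    intro n hn
    rw [hstep n hn]
    rcases hfij (M - (n + 1)) with h4 | h4
    · rw [h4]; linarith
    · rw [h4]; linarith
  have hmono : ∀ a b, a < b → b ≤ M → x a < x b := by
    intro a b hab
    induction b with
    | zero => omega
    | succ b ih =>
      intro hb
      rcases Nat.lt_succ_iff_lt_or_eq.mp hab with h1 | h1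
      · exact (ih h1 (by omega)).trans (hlt b (by omega))
      · subst h1
        exact hlt a (by omega)
  set s : ℕ → ℤ := fun m => F (T^[m] (T^[M] ω)) with hs
  set S : Set ℤ := {y : ℤ | 1 ≤ y ∧ y ≤ N ∧ Odd y ∧
    (cnt (stepWalk s y) (2 * N) : ℝ) ≤ θ} with hS
  have hSf : S.Finite := (Set.finite_Icc (1 : ℤ) N).subset (fun y hy => ⟨hy.1, hy.2.1⟩)
  have hSc := hUD s (fun n => hF _)
  have hkabs : k ≤ k.natAbs := Int.le_natAbs
  have hkabs' : -k ≤ k.natAbs := by
    have := Int.le_natAbs (a := -k)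
    rwa [Int.natAbs_neg] at this
  set A1 := A.filter (fun n => x n ≤ 0) with hA1
  set A2 := A.filter (fun n => ¬ x n ≤ 0) with hA2'
  have hcard : A1.card + A2.card = A.card := Finset.card_filter_add_card_filter_not _
  have hc1 : A1.card ≤ k.natAbs + 1 := by
    have h1 : A1 ⊆ Finset.range (k.natAbs + 1) := by
      intro n hn
      rw [hA1, Finset.mem_filter] at hn
      have h2 := Finset.mem_range.mp (hA hn.1)
      have h3 := (hprop n (by omega)).1
      rw [Finset.mem_range]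
      have h4 := hn.2
      omega
    simpa using Finset.card_le_card h1
  have hc2 : A2.card ≤ S.ncard := by
    rw [Set.ncard_eq_toFinset_card S hSf]
    apply Finset.card_le_card_of_injOn x
    · intro n hn
      rw [Finset.mem_coe, hA2', Finset.mem_filter] at hn
      have h2 := Finset.mem_range.mp (hA hn.1)
      obtain ⟨h3, h4, h5⟩ := hprop n (by omega)
      rw [Finset.mem_coe, hSf.mem_toFinset]
      refine ⟨by omega, ?_, h5, ?_⟩
      · have h6 : j * n ≤ j * M := by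
          apply mul_le_mul_of_nonneg_left _ (by linarith)
          exact_mod_cast (by omega : n ≤ M)
        linarith
      · have h7 := tq_tail (s := fun m => F (T^[m] (T^[M - n] ω))) (fun m => by
          rcases hF (T^[m] (T^[M - n] ω)) with h | h <;> rw [h] <;> linarith) k n (2 * N)
        have h8 : ∀ m, F (T^[n + m] (T^[M - n] ω)) = F (T^[m] (T^[M] ω)) := by
          intro m
          rw [← Function.iterate_add_apply, ← Function.iterate_add_apply]
          congr 2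
          omega
        have h9 : ∀ m, F (T^[m] (T^[M - n] ω)) = f (M - n + m) := by
          intro m
          rw [← Function.iterate_add_apply, add_comm]
        simp only [h8] at h7
        have h10 : k + ∑ m ∈ Finset.range n, F (T^[m] (T^[M - n] ω)) = x n := by
          simp only [h9, hx]
        rw [h10] at h7
        have h11 : (cnt (stepWalk s (x n)) (2 * N) : ℝ) ≤
            (cnt (timeWalk T F k (T^[M - n] ω)) (2 * N) : ℝ) := by
          exact_mod_cast h7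
        exact h11.trans (hA2 n hn.1)
    · intro a ha b hb hab
      rw [Finset.mem_coe, hA2', Finset.mem_filter] at ha hb
      have h2 := Finset.mem_range.mp (hA ha.1)
      have h3 := Finset.mem_range.mp (hA hb.1)
      rcases lt_trichotomy a b with h4 | h4 | h4
      · exact absurd hab (ne_of_lt (hmono a b h4 (by omega)))
      · exact h4
      · exact absurd hab.symm (ne_of_lt (hmono b a h4 (by omega)))
  have h1 : (A.card : ℝ) = (A1.card : ℝ) + (A2.card : ℝ) := by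
    rw [← hcard]
    push_cast
    ring
  have h2 : (A1.card : ℝ) ≤ (k.natAbs : ℝ) + 1 := by exact_mod_cast hc1
  have h3 : (A2.card : ℝ) ≤ (S.ncard : ℝ) := by exact_mod_cast hc2
  rw [h1]
  linarith

private theorem tq_meas {Ω : Type} [MeasurableSpace Ω] {T : Ω → Ω} {F : Ω → ℤ} (hT : Measurable T)
    (hF : Measurable F) (hF1 : ∀ ω, 1 ≤ F ω) (k : ℤ) (x θ : ℝ) :
    MeasurableSet {ω | (cnt (timeWalk T F k ω) x : ℝ) ≤ θ} := by
  classical
  have hw : ∀ n, Measurable (fun ω => timeWalk T F k ω n) := by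
    intro n
    unfold timeWalk
    exact measurable_const.add
      (Finset.measurable_fun_sum _ (fun m _ => hF.comp (hT.iterate m)))
  have hs : ∀ n, MeasurableSet {ω | IsPosPrime (timeWalk T F k ω n) ∧
      ((timeWalk T F k ω n : ℤ) : ℝ) ≤ x} := fun n =>
    (hw n) (MeasurableSet.of_discrete (s := {y : ℤ | IsPosPrime y ∧ (y : ℝ) ≤ x}))
  obtain ⟨K, hK⟩ := exists_nat_gt (x - k)
  have hc : ∀ ω, cnt (timeWalk T F k ω) x = ∑ n ∈ Finset.range K,
      if IsPosPrime (timeWalk T F k ω n) ∧ ((timeWalk T F k ω n : ℤ) : ℝ) ≤ x then 1 else 0 := by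
    intro ω
    rw [← Finset.card_filter]
    unfold cnt
    rw [← Set.ncard_coe_finset]
    congr 1
    ext n
    rw [Finset.mem_coe, Finset.mem_filter, Finset.mem_range]
    constructor
    · intro hn
      exact ⟨tq_lt (s := fun m => F (T^[m] ω)) (fun m => hF1 _) k x (by linarith) hn.2, hn⟩
    · intro hn
      exact hn.2
  have hm : Measurable (fun ω => cnt (timeWalk T F k ω) x) := by
    have e : (fun ω => cnt (timeWalk T F k ω) x) = fun ω => ∑ n ∈ Finset.range K,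
      if IsPosPrime (timeWalk T F k ω n) ∧ ((timeWalk T F k ω n : ℤ) : ℝ) ≤ x then 1 else 0 :=
      funext hc
    rw [e]
    exact Finset.measurable_fun_sum _ fun n _ =>
      Measurable.ite (hs n) measurable_const measurable_const
  exact hm (MeasurableSet.of_discrete (s := {m : ℕ | (m : ℝ) ≤ θ}))

private theorem tq_mu {i j : ℤ} (h0 : 0 < i) (hij : i < j) (hi : Even i) (hj : Even j) {N : ℕ}
    {θ C : ℝ} (hC : 0 ≤ C) (hUD : ∀ s : ℕ → ℤ, (∀ n, s n = i ∨ s n = j) →
      (({k : ℤ | 1 ≤ k ∧ k ≤ N ∧ Odd k ∧ (cnt (stepWalk s k) (2 * N) : ℝ) ≤ θ}.ncard : ℕ) : ℝ) ≤ C)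
    {Ω : Type} [MeasurableSpace Ω] {μ : Measure Ω} [IsProbabilityMeasure μ]
    {T : Ω → Ω} {F : Ω → ℤ} (hT : MeasurePreserving T μ μ) (hFm : Measurable F)
    (hF : ∀ ω, F ω = i ∨ F ω = j) {k : ℤ} (hk : Odd k) {M : ℕ} (hM : k + j * M ≤ N) :
    (M : ENNReal) * μ {ω | (cnt (timeWalk T F k ω) (2 * N) : ℝ) ≤ θ} ≤
      ENNReal.ofReal (C + ((k.natAbs : ℝ) + 1)) := by
  classical
  set B := {ω | (cnt (timeWalk T F k ω) (2 * N) : ℝ) ≤ θ} with hB
  have hBm : MeasurableSet B := tq_meas hT.measurable hFm (fun ω => by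
    rcases hF ω with h | h <;> rw [h] <;> linarith) k _ θ
  have hP : ∀ n, MeasurableSet (T^[M - n] ⁻¹' B) := fun n =>
    (hT.measurable.iterate _) hBm
  have h1 : ∀ n ∈ Finset.range M, μ B = ∫⁻ ω, (T^[M - n] ⁻¹' B).indicator 1 ω ∂μ := by
    intro n _
    rw [lintegral_indicator_one (hP n), (hT.iterate _).measure_preimage hBm.nullMeasurableSet]
  calc (M : ENNReal) * μ B = ∑ n ∈ Finset.range M, μ B := by
        rw [Finset.sum_const, Finset.card_range, nsmul_eq_mul]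
    _ = ∑ n ∈ Finset.range M, ∫⁻ ω, (T^[M - n] ⁻¹' B).indicator 1 ω ∂μ :=
        Finset.sum_congr rfl h1
    _ = ∫⁻ ω, ∑ n ∈ Finset.range M, (T^[M - n] ⁻¹' B).indicator 1 ω ∂μ := by
        rw [lintegral_finsetSum]
        intro n _
        exact measurable_one.indicator (hP n)
    _ ≤ ∫⁻ _, ENNReal.ofReal (C + ((k.natAbs : ℝ) + 1)) ∂μ := by
        apply lintegral_mono
        intro ω
        change ∑ n ∈ Finset.range M, (T^[M - n] ⁻¹' B).indicator (1 : Ω → ENNReal) ω ≤ _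
        set A := (Finset.range M).filter (fun n => T^[M - n] ω ∈ B) with hA
        have h3 : ∑ n ∈ Finset.range M, (T^[M - n] ⁻¹' B).indicator (1 : Ω → ENNReal) ω =
            (A.card : ENNReal) := by
          rw [hA, Finset.card_filter, Nat.cast_sum]
          apply Finset.sum_congr rfl
          intro n _
          rw [Set.indicator_apply]
          by_cases h4 : T^[M - n] ω ∈ B
          · rw [if_pos h4, if_pos (Set.mem_preimage.mpr h4), Pi.one_apply, Nat.cast_one]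
          · rw [if_neg h4, if_neg (fun h5 => h4 (Set.mem_preimage.mp h5)), Nat.cast_zero]
        rw [h3]
        have h4 := tq_cnt h0 hij hi hj hUD hF hk hM ω A (Finset.filter_subset _ _)
          (fun n hn => (Finset.mem_filter.mp hn).2)
        rw [← ENNReal.ofReal_natCast]
        exact ENNReal.ofReal_le_ofReal h4
    _ = ENNReal.ofReal (C + ((k.natAbs : ℝ) + 1)) := by
        rw [lintegral_const, measure_univ, mul_one]

private theorem tq_ev {i j : ℤ} (h0 : 0 < i) (hij : i < j) (hi : Even i) (hj : Even j)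
    (h : UDQ i j) {Ω : Type} [MeasurableSpace Ω] {μ : Measure Ω} [IsProbabilityMeasure μ]
    {T : Ω → Ω} {F : Ω → ℤ} (hT : MeasurePreserving T μ μ) (hFm : Measurable F)
    (hF : ∀ ω, F ω = i ∨ F ω = j) {k : ℤ} (hk : Odd k) {η : ℝ} (hη : 0 < η) :
    ∀ᵐ ω ∂μ, ∀ᶠ l : ℕ in Filter.atTop,
      ((2 ^ l : ℕ) : ℝ) / Real.log ((2 ^ l : ℕ) : ℝ) ^ (1 + η) <
        (cnt (timeWalk T F k ω) (2 * ((2 ^ l : ℕ) : ℝ)) : ℝ) := by
  obtain ⟨N0, hN0⟩ := h 2 η hη
  have hj0 : 0 < j.toNat := by omega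
  have hj1 : (0 : ℝ) < j.toNat := by exact_mod_cast hj0
  have hjj : ((j.toNat : ℕ) : ℤ) = j := Int.toNat_of_nonneg (by linarith)
  set l0 : ℕ := N0 + 2 * k.natAbs + 4 * j.toNat + 2 with hl0
  set g : ℕ → ℝ := fun l => 4 * j.toNat / Real.log 2 ^ 2 * (1 / (l : ℝ) ^ 2) +
    4 * j.toNat * ((k.natAbs : ℝ) + 1) * (1 / 2 : ℝ) ^ l with hg
  have hgs : Summable g :=
    ((Real.summable_one_div_nat_pow.mpr (by norm_num)).mul_left _).add
      (summable_geometric_two.mul_left _)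
  have hlog2 : (0 : ℝ) < Real.log 2 := Real.log_pos (by norm_num)
  set B : ℕ → Set Ω := fun l => {ω | (cnt (timeWalk T F k ω) (2 * ((2 ^ l : ℕ) : ℝ)) : ℝ) ≤
    ((2 ^ l : ℕ) : ℝ) / Real.log ((2 ^ l : ℕ) : ℝ) ^ (1 + η)} with hB
  have hBd : ∀ l, l0 ≤ l → μ (B l) ≤ ENNReal.ofReal (g l) := by
    intro l hl
    have hl2 : l < 2 ^ l := Nat.lt_two_pow_self
    set N : ℕ := 2 ^ l with hN
    have hNN : N0 ≤ N := by omega
    set M : ℕ := (N - k.natAbs) / j.toNat with hM
    have hMj : j.toNat * M ≤ N - k.natAbs := Nat.mul_div_le _ _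
    have hkabs : k ≤ k.natAbs := Int.le_natAbs
    have hM1 : k + j * M ≤ N := by
      have h1 : ((j.toNat * M : ℕ) : ℤ) ≤ ((N - k.natAbs : ℕ) : ℤ) := by exact_mod_cast hMj
      rw [Nat.cast_sub (by omega)] at h1
      push_cast at h1
      rw [hjj] at h1
      have h2 := le_abs_self k
      linarith
    have hM2 : (N : ℝ) ≤ 4 * j.toNat * M := by
      have h1 : N - k.natAbs < j.toNat * (M + 1) := Nat.lt_mul_div_succ _ hj0
      have h2 : N < j.toNat * (M + 1) + k.natAbs := by omega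
      have h3 : (N : ℝ) < j.toNat * (M + 1) + k.natAbs := by exact_mod_cast h2
      have h4 : (2 * k.natAbs + 4 * j.toNat : ℕ) ≤ N := by omega
      have h5 : 2 * (k.natAbs : ℝ) + 4 * j.toNat ≤ N := by exact_mod_cast h4
      nlinarith
    have hNpos : (0 : ℝ) < N := by
      have : 0 < N := by omega
      exact_mod_cast this
    have hMpos : (0 : ℝ) < M := by
      by_contra hc
      have h1 : (M : ℝ) = 0 := le_antisymm (not_lt.mp hc) (Nat.cast_nonneg _)
      rw [h1, mul_zero] at hM2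
      linarith
    have hlogN : Real.log N = l * Real.log 2 := by
      rw [hN]
      push_cast
      rw [Real.log_pow]
    have hl0' : (0 : ℝ) < l := by
      have : 0 < l := by omega
      exact_mod_cast this
    have hC : 0 ≤ (N : ℝ) / Real.log N ^ 2 := by positivity
    have hkey := tq_mu h0 hij hi hj hC (fun s hs => hN0 N hNN s hs) hT hFm hF hk hM1
    have hBfin : μ (B l) ≠ ⊤ := measure_ne_top μ _
    have h6 : (M : ℝ) * (μ (B l)).toReal ≤ (N : ℝ) / Real.log N ^ 2 + ((k.natAbs : ℝ) + 1) := by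
      have h7 := ENNReal.toReal_mono ENNReal.ofReal_ne_top hkey
      rw [ENNReal.toReal_mul, ENNReal.toReal_natCast, ENNReal.toReal_ofReal (by positivity)] at h7
      exact h7
    rw [← ENNReal.ofReal_toReal hBfin]
    apply ENNReal.ofReal_le_ofReal
    have h8 : (μ (B l)).toReal * N ≤ g l * N := by
      have h9 : (0 : ℝ) ≤ (μ (B l)).toReal := ENNReal.toReal_nonneg
      calc (μ (B l)).toReal * N ≤ (μ (B l)).toReal * (4 * j.toNat * M) := by gcongr
        _ = 4 * j.toNat * (M * (μ (B l)).toReal) := by ring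
        _ ≤ 4 * j.toNat * ((N : ℝ) / Real.log N ^ 2 + ((k.natAbs : ℝ) + 1)) := by gcongr
        _ = g l * N := by
            have hN' : (N : ℝ) = 2 ^ l := by
              rw [hN]
              push_cast
              rfl
            have hh : (1 / 2 : ℝ) ^ l = 1 / 2 ^ l := by
              rw [one_div, inv_pow, one_div]
            simp only [hg]
            rw [hlogN, hN', hh]
            field_simp
    exact le_of_mul_le_mul_right h8 hNpos
  set B' : ℕ → Set Ω := fun l => if l < l0 then ∅ else B l with hB'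
  have hB'd : ∀ l, μ (B' l) ≤ ENNReal.ofReal (g l) := by
    intro l
    simp only [hB']
    split_ifs with hl
    · rw [measure_empty]
      simp
    · exact hBd l (not_lt.mp hl)
  have hsum : ∑' l, μ (B' l) ≠ ⊤ :=
    ne_top_of_le_ne_top hgs.tsum_ofReal_ne_top (ENNReal.tsum_le_tsum hB'd)
  filter_upwards [ae_eventually_notMem hsum] with ω hω
  filter_upwards [hω, Filter.eventually_ge_atTop l0] with l hl hl1
  simp only [hB'] at hl
  rw [if_neg (not_lt.mpr hl1)] at hl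
  exact not_le.mp hl

private theorem tq_rich {s : ℕ → ℤ} (hs : ∀ n, 1 ≤ s n) {k : ℤ}
    (h : ∀ m : ℕ, ∀ᶠ l : ℕ in Filter.atTop,
      ((2 ^ l : ℕ) : ℝ) / Real.log ((2 ^ l : ℕ) : ℝ) ^ (1 + 1 / ((m : ℝ) + 1)) <
        (cnt (stepWalk s k) (2 * ((2 ^ l : ℕ) : ℝ)) : ℝ)) : Rich (stepWalk s k) := by
  intro η hη
  obtain ⟨m, hm⟩ := exists_nat_one_div_lt (half_pos hη)
  obtain ⟨l1, hl1⟩ := Filter.eventually_atTop.mp (h m)
  have hlim : Filter.Tendsto (fun x : ℝ => Real.log x ^ (η / 2)) Filter.atTop Filter.atTop :=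
    (tendsto_rpow_atTop (half_pos hη)).comp Real.tendsto_log_atTop
  obtain ⟨x1, hx1⟩ := Filter.eventually_atTop.mp (hlim.eventually_ge_atTop 4)
  refine ⟨max (max x1 (Real.exp 1)) (2 * 2 ^ (l1 + 1)), fun x hx => ?_⟩
  have hxa : x1 ≤ x := ((le_max_left _ _).trans (le_max_left _ _)).trans hx
  have hxb : Real.exp 1 ≤ x := ((le_max_right _ _).trans (le_max_left _ _)).trans hx
  have hxc : 2 * 2 ^ (l1 + 1) ≤ x := (le_max_right _ _).trans hx
  have hx0 : 0 < x := (Real.exp_pos 1).trans_le hxb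
  have hlogx : 1 ≤ Real.log x := by
    rw [Real.le_log_iff_exp_le hx0]
    exact hxb
  have hp1 : (2 : ℝ) ^ (l1 + 1) ≤ x / 2 := by linarith
  have hfl : 2 ^ (l1 + 1) ≤ ⌊x / 2⌋₊ := by
    apply Nat.le_floor
    push_cast
    exact hp1
  set l := Nat.log 2 ⌊x / 2⌋₊ with hl
  have hfl0 : ⌊x / 2⌋₊ ≠ 0 := by
    have : 0 < 2 ^ (l1 + 1) := by positivity
    omega
  have hl2 : l1 + 1 ≤ l := (Nat.le_log_iff_pow_le (by norm_num) hfl0).mpr hfl
  have hlow : 2 ^ l ≤ ⌊x / 2⌋₊ := Nat.pow_log_le_self 2 hfl0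
  have hup : ⌊x / 2⌋₊ < 2 ^ (l + 1) := Nat.lt_pow_succ_log_self (by norm_num) _
  have hlowR : ((2 ^ l : ℕ) : ℝ) ≤ x / 2 :=
    (by exact_mod_cast hlow : ((2 ^ l : ℕ) : ℝ) ≤ (⌊x / 2⌋₊ : ℝ)).trans
      (Nat.floor_le (by positivity))
  have hupR : x / 4 < ((2 ^ l : ℕ) : ℝ) := by
    have h1 : x / 2 < ((2 ^ (l + 1) : ℕ) : ℝ) := by
      have h2 := Nat.lt_floor_add_one (x / 2)
      have h3 : (⌊x / 2⌋₊ : ℝ) + 1 ≤ ((2 ^ (l + 1) : ℕ) : ℝ) := by exact_mod_cast hup
      linarith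
    have h4 : ((2 ^ (l + 1) : ℕ) : ℝ) = 2 * ((2 ^ l : ℕ) : ℝ) := by
      push_cast
      ring
    linarith
  have hkey := hl1 l (by omega)
  have hmo : (cnt (stepWalk s k) (2 * ((2 ^ l : ℕ) : ℝ)) : ℝ) ≤ (cnt (stepWalk s k) x : ℝ) := by
    exact_mod_cast tq_mono hs k (by linarith : 2 * ((2 ^ l : ℕ) : ℝ) ≤ x)
  refine le_trans ?_ (hkey.le.trans hmo)
  set η' : ℝ := 1 / ((m : ℝ) + 1) with hη'
  have hη'0 : 0 < η' := by positivity
  have hlog2 : (0 : ℝ) < Real.log 2 := Real.log_pos (by norm_num)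
  have hlogN0 : 0 < Real.log ((2 ^ l : ℕ) : ℝ) := by
    push_cast
    rw [Real.log_pow]
    have : (0 : ℝ) < l := by
      have : 0 < l := by omega
      exact_mod_cast this
    positivity
  have hlogN : Real.log ((2 ^ l : ℕ) : ℝ) ≤ Real.log x := by
    apply Real.log_le_log
    · positivity
    · linarith
  have e1 : Real.log ((2 ^ l : ℕ) : ℝ) ^ (1 + η') ≤ Real.log x ^ (1 + η') :=
    Real.rpow_le_rpow hlogN0.le hlogN (by linarith)
  have e2 : (4 : ℝ) * Real.log x ^ (1 + η') ≤ Real.log x ^ (1 + η) := by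
    have h1 : Real.log x ^ (1 + η) = Real.log x ^ (η - η') * Real.log x ^ (1 + η') := by
      rw [← Real.rpow_add (by linarith)]
      congr 1
      ring
    rw [h1]
    have h2 : (4 : ℝ) ≤ Real.log x ^ (η - η') := by
      refine (hx1 x hxa).trans ?_
      exact Real.rpow_le_rpow_of_exponent_le hlogx (by linarith)
    exact mul_le_mul_of_nonneg_right h2 (by positivity)
  have hpos1 : 0 < Real.log x ^ (1 + η') := Real.rpow_pos_of_pos (by linarith) _
  have hpos2 : 0 < Real.log ((2 ^ l : ℕ) : ℝ) ^ (1 + η') := Real.rpow_pos_of_pos hlogN0 _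
  have hpos3 : 0 < Real.log x ^ (1 + η) := Real.rpow_pos_of_pos (by linarith) _
  calc x / Real.log x ^ (1 + η) ≤ x / (4 * Real.log x ^ (1 + η')) := by gcongr
    _ = (x / 4) / Real.log x ^ (1 + η') := by field_simp
    _ ≤ ((2 ^ l : ℕ) : ℝ) / Real.log x ^ (1 + η') := by gcongr
    _ ≤ ((2 ^ l : ℕ) : ℝ) / Real.log ((2 ^ l : ℕ) : ℝ) ^ (1 + η') := by gcongr

theorem tim_q {i j : ℤ} (h0 : 0 < i) (hij : i < j) (hi : Even i) (hj : Even j) (h : UDQ i j) :
    TimeStationary i j := by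
  intro Ω mΩ μ hμ T F hT hFm hF
  have h1 : ∀ᵐ ω ∂μ, ∀ k : ℤ, Odd k → ∀ m : ℕ, ∀ᶠ l : ℕ in Filter.atTop,
      ((2 ^ l : ℕ) : ℝ) / Real.log ((2 ^ l : ℕ) : ℝ) ^ (1 + 1 / ((m : ℝ) + 1)) <
        (cnt (timeWalk T F k ω) (2 * ((2 ^ l : ℕ) : ℝ)) : ℝ) := by
    rw [ae_all_iff]
    intro k
    by_cases hk : Odd k
    · have h2 : ∀ᵐ ω ∂μ, ∀ m : ℕ, ∀ᶠ l : ℕ in Filter.atTop,
          ((2 ^ l : ℕ) : ℝ) / Real.log ((2 ^ l : ℕ) : ℝ) ^ (1 + 1 / ((m : ℝ) + 1)) <
            (cnt (timeWalk T F k ω) (2 * ((2 ^ l : ℕ) : ℝ)) : ℝ) := by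
        rw [ae_all_iff]
        intro m
        exact tq_ev h0 hij hi hj h hT hFm hF hk (by positivity)
      filter_upwards [h2] with ω hω _
      exact hω
    · exact Filter.Eventually.of_forall (fun ω h3 => absurd h3 hk)
  filter_upwards [h1] with ω hω k hk
  exact tq_rich (s := fun m => F (T^[m] ω)) (fun m => by
    rcases hF (T^[m] ω) with h | h <;> rw [h] <;> linarith) (hω k hk)

end Pool.Agent.SWQ
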