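import Pool.Agent.SWQ.FDefs

/-! SWQ/Weak.  The quantitative statements imply the qualitative ones of `Pool/Agent/SW/FDefs.lean`.

`rich_inf`: if only finitely many `n` give primes then `cnt A x` is bounded, but `x/(log x)^2 → ∞`.
`translates_weak`: `A = 1`, `η = 1`: if `FewPrimes R` holds then `cnt ≤ R ≤ X/(log X)^2` for large `X`, and `X/log X ≤ ε X`; the set of the weak statement is contained in the
(finite) set of the strong one. -/

set_option autoImplicit false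

namespace Pool.Agent.SWQ

open Pool.Agent.Helper27 Pool.Agent.SW

open Filter in
private theorem wk_large (C : ℝ) : ∀ᶠ x : ℝ in atTop, C ≤ x / Real.log x ^ ((1 : ℝ) + 1) := by
  have h1 := isLittleO_log_rpow_rpow_atTop ((1 : ℝ) + 1) one_pos
  have hc : 0 < 1 / (|C| + 1) := by positivity
  filter_upwards [h1.def hc, eventually_gt_atTop (1 : ℝ)] with x hx hx1
  have hl : 0 < Real.log x := Real.log_pos hx1
  have hp : 0 < Real.log x ^ ((1 : ℝ) + 1) := Real.rpow_pos_of_pos hl _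
  have hx0 : 0 < x := by linarith
  rw [Real.norm_of_nonneg hp.le, Real.rpow_one, Real.norm_of_nonneg hx0.le] at hx
  rw [le_div_iff₀ hp]
  have h2 : (|C| + 1) * Real.log x ^ ((1 : ℝ) + 1) ≤ x := by
    have h3 := mul_le_mul_of_nonneg_left hx (by positivity : 0 ≤ |C| + 1)
    have h4 : (|C| + 1) * (1 / (|C| + 1) * x) = x := by
      field_simp
    rwa [h4] at h3
  have h5 := le_abs_self C
  nlinarith

theorem rich_inf {A : ℕ → ℤ} (h : Rich A) : InfPrimes A := by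
  unfold InfPrimes
  intro hfin
  obtain ⟨x0, hx0⟩ := h 1 one_pos
  obtain ⟨x, h1, h2⟩ := ((wk_large ((({n : ℕ | IsPosPrime (A n)}.ncard : ℕ) : ℝ) + 1)).and
    (Filter.eventually_ge_atTop x0)).exists
  have h3 := hx0 x h2
  have h4 : cnt A x ≤ {n : ℕ | IsPosPrime (A n)}.ncard :=
    Set.ncard_le_ncard (fun n hn => hn.1) hfin
  have h5 : (cnt A x : ℝ) ≤ (({n : ℕ | IsPosPrime (A n)}.ncard : ℕ) : ℝ) := by exact_mod_cast h4
  linarith

theorem translates_weak {i j : ℤ} (h : AlmostAllTranslates i j) : SW.AlmostAllTranslates i j := by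
  intro R ε hε
  obtain ⟨X0, hX0⟩ := h 1 1 one_pos
  have e1 : ∀ᶠ X : ℕ in Filter.atTop, (R : ℝ) ≤ (X : ℝ) / Real.log X ^ ((1 : ℝ) + 1) :=
    tendsto_natCast_atTop_atTop.eventually (wk_large (R : ℝ))
  have e2 : ∀ᶠ X : ℕ in Filter.atTop, max 1 (1 / ε) ≤ Real.log (X : ℝ) :=
    (Real.tendsto_log_atTop.comp tendsto_natCast_atTop_atTop).eventually_ge_atTop _
  obtain ⟨X1, hX1⟩ := Filter.eventually_atTop.1 (e1.and e2)
  refine ⟨max X0 X1, fun X hX f hf => ?_⟩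
  obtain ⟨h1, h2⟩ := hX1 X ((le_max_right _ _).trans hX)
  have h3 := hX0 X ((le_max_left _ _).trans hX) f hf
  have hfin : {t : ℤ | 0 ≤ t ∧ t ≤ X ∧ Even t ∧ ∃ k : ℤ, Odd k ∧ |k| ≤ X ∧
      (cnt (follow (fun x => f (x - t)) k) (5 * X) : ℝ) ≤
        X / Real.log X ^ ((1 : ℝ) + 1)}.Finite :=
    (Set.finite_Icc (0 : ℤ) X).subset fun t ht => ⟨ht.1, ht.2.1⟩
  have h4 := Set.ncard_le_ncard (s := {t : ℤ | 0 ≤ t ∧ t ≤ X ∧ Even t ∧ ∃ k : ℤ, Odd k ∧ |k| ≤ X ∧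
      FewPrimes R (follow (fun x => f (x - t)) k)}) (t := {t : ℤ | 0 ≤ t ∧ t ≤ X ∧ Even t ∧
      ∃ k : ℤ, Odd k ∧ |k| ≤ X ∧ (cnt (follow (fun x => f (x - t)) k) (5 * X) : ℝ) ≤
        X / Real.log X ^ ((1 : ℝ) + 1)}) (by
    rintro t ⟨g1, g2, g3, k, g4, g5, g6⟩
    refine ⟨g1, g2, g3, k, g4, g5, ?_⟩
    unfold FewPrimes at g6
    have g7 : {n : ℕ | IsPosPrime (follow (fun x => f (x - t)) k n)}.Finite :=
      Set.finite_of_encard_le_coe g6
    have g8 : {n : ℕ | IsPosPrime (follow (fun x => f (x - t)) k n)}.ncard ≤ R := by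
      have g9 := g7.cast_ncard_eq
      rw [← g9] at g6
      exact_mod_cast g6
    have g10 : cnt (follow (fun x => f (x - t)) k) (5 * X) ≤
        {n : ℕ | IsPosPrime (follow (fun x => f (x - t)) k n)}.ncard :=
      Set.ncard_le_ncard (fun n hn => hn.1) g7
    have g11 : (cnt (follow (fun x => f (x - t)) k) (5 * X) : ℝ) ≤ R := by
      exact_mod_cast g10.trans g8
    exact g11.trans h1) hfin
  have h5 : (({t : ℤ | 0 ≤ t ∧ t ≤ X ∧ Even t ∧ ∃ k : ℤ, Odd k ∧ |k| ≤ X ∧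
      FewPrimes R (follow (fun x => f (x - t)) k)}.ncard : ℕ) : ℝ) ≤
      (({t : ℤ | 0 ≤ t ∧ t ≤ X ∧ Even t ∧
      ∃ k : ℤ, Odd k ∧ |k| ≤ X ∧ (cnt (follow (fun x => f (x - t)) k) (5 * X) : ℝ) ≤
        X / Real.log X ^ ((1 : ℝ) + 1)}.ncard : ℕ) : ℝ) := by exact_mod_cast h4
  refine (h5.trans h3).trans ?_
  have hl : 0 < Real.log (X : ℝ) := lt_of_lt_of_le one_pos ((le_max_left _ _).trans h2)
  rw [pow_one, div_le_iff₀ hl]
  have h6 : 1 / ε ≤ Real.log (X : ℝ) := (le_max_right _ _).trans h2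
  have h7 : 1 ≤ ε * Real.log (X : ℝ) := by
    have h8 := mul_le_mul_of_nonneg_left h6 hε.le
    have h9 : ε * (1 / ε) = 1 := by field_simp
    rwa [h9] at h8
  have h10 : (0 : ℝ) ≤ X := Nat.cast_nonneg X
  nlinarith

end Pool.Agent.SWQ
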