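import Pool.Agent.SWQ.UDL
import Pool.Agent.SWQ.Strat
import Pool.Agent.SWQ.Pos
import Pool.Agent.SWQ.Tim
import Pool.Agent.SWQ.Per
import Pool.Agent.SWQ.Weak
import Pool.Agent.SW.Final

/-! SWQ/Final.  The equivalences, quantitative form. -/

set_option autoImplicit false

namespace Pool.Agent.SWQ

open MeasureTheory Pool.Agent.Helper27 Pool.Agent.SW

theorem final (i j : ℤ) (hi : Even i) (hj : Even j) (h0 : 0 < i) (hij : i < j) :
    [Listed i j, AlmostAllTranslates i j, PositionStationary i j, TimeStationary i j,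
      PeriodicForced i j].TFAE := by
  tfae_have 1 → 2 := fun h => strat_q h0 hij hi hj (udq_of_listed h)
  tfae_have 1 → 3 := fun h => pos_q h0 hij hi hj (udq_of_listed h)
  tfae_have 1 → 4 := fun h => tim_q h0 hij hi hj (udq_of_listed h)
  tfae_have 4 → 5 := per_q h0 hij hi hj
  tfae_have 2 → 1 := fun h => conv_b hi hj h0 hij (translates_weak h)
  tfae_have 3 → 1 := fun h => conv_p hi hj h0 hij fun Ω mΩ μ hμ T F hT hF hij' => by
    filter_upwards [h Ω mΩ μ hμ T F hT hF hij'] with ω hω k hk
    exact rich_inf (hω k hk)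
  tfae_have 5 → 1 := fun h => conv_d hi hj h0 hij fun k hk A hA hper => rich_inf (h k hk A hA hper)
  tfae_finish

end Pool.Agent.SWQ
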