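import Pool.Agent.SWQ.Tail
import Pool.Agent.Helper52.PrimeSums

/-! SWQ/BrunE.  The model with `w = lev D N` is close to a divisor sum of small level.

PROOF.  `r = rr D N`, `W = primorial (lev D N)`.  For every `n ≥ 1` Bonferroni: `|1_{(n,W)=1} - ∑_{d ∣ (n,W), ω(d) < r} μ(d)| ≤ #{d ∣ (n,W) : ω(d) = r}`
(`ω(d) = d.primeFactors.card`; binomial sums `∑_{j < r} (-1)^j C(m,j) = ± C(m-1, r-1)`, `≤ C(m,r)` in absolute value for `m ≥ 1`; for `m = 0` both sides are `0` if `r ≥ 1`).
Sum over `n ≤ N`: `≤ ∑_{d ∣ W, ω(d) = r} N/d ≤ N/(log N)^A` (`bp_tail` with `b = 1`). -/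

set_option linter.unusedVariables false
set_option autoImplicit false

namespace Pool.Agent.SWQ

open Finset Pool.Agent.SW

theorem be_alt (m r : ℕ) :
    |(if m = 0 then (1 : ℝ) else 0) - ∑ j ∈ range r, (-1 : ℝ) ^ j * (m.choose j : ℝ)| ≤ (m.choose r : ℝ) := by
  rcases r with _ | k
  · simp only [Finset.range_zero, Finset.sum_empty, sub_zero, Nat.choose_zero_right, Nat.cast_one]
    split_ifs <;> simp
  · rcases m with _ | n
    · have h : ∑ j ∈ range (k + 1), (-1 : ℝ) ^ j * ((Nat.choose 0 j : ℕ) : ℝ) = 1 := by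
        rw [Finset.sum_range_succ']
        simp
      rw [h]
      simp
    · have h := @Int.alternating_sum_range_choose_eq_choose n k
      have h2 : ∑ j ∈ range (k + 1), (-1 : ℝ) ^ j * (((n + 1).choose j : ℕ) : ℝ) = (-1 : ℝ) ^ k * (n.choose k : ℝ) := by
        have h3 := congrArg (fun z : ℤ => (z : ℝ)) h
        push_cast at h3
        exact h3
      rw [h2, if_neg (Nat.succ_ne_zero n), zero_sub, abs_neg, abs_mul, abs_pow, abs_neg, abs_one, one_pow, one_mul,
        abs_of_nonneg (Nat.cast_nonneg _)]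
      rw [Nat.choose_succ_succ]
      push_cast
      linarith [Nat.cast_nonneg (α := ℝ) (n.choose (k + 1))]

theorem be_bij (g : ℕ) (hg : Squarefree g) (F : Finset ℕ → ℝ) :
    ∑ d ∈ g.divisors, F d.primeFactors = ∑ s ∈ g.primeFactors.powerset, F s := by
  have hg0 : g ≠ 0 := hg.ne_zero
  refine Finset.sum_nbij' (fun d => d.primeFactors) (fun s => ∏ p ∈ s, p) ?_ ?_ ?_ ?_ ?_
  · intro d hd
    rw [Nat.mem_divisors] at hd
    rw [Finset.mem_powerset]
    exact Nat.primeFactors_mono hd.1 hg0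
  · intro s hs
    rw [Finset.mem_powerset] at hs
    rw [Nat.mem_divisors]
    refine ⟨?_, hg0⟩
    rw [← Nat.prod_primeFactors_of_squarefree hg]
    exact Finset.prod_dvd_prod_of_subset _ _ _ hs
  · intro d hd
    rw [Nat.mem_divisors] at hd
    exact Nat.prod_primeFactors_of_squarefree (hg.squarefree_of_dvd hd.1)
  · intro s hs
    rw [Finset.mem_powerset] at hs
    exact Nat.primeFactors_prod (fun p hp => Nat.prime_of_mem_primeFactors (hs hp))
  · intro d _
    rfl

theorem be_moeb (d : ℕ) (hd : Squarefree d) :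
    ((ArithmeticFunction.moebius d : ℤ) : ℝ) = (-1 : ℝ) ^ d.primeFactors.card := by
  rw [ArithmeticFunction.moebius_apply_of_squarefree hd]
  rw [← (ArithmeticFunction.cardDistinctFactors_eq_cardFactors_iff_squarefree hd.ne_zero).mpr hd]
  rw [ArithmeticFunction.cardDistinctFactors_apply]
  push_cast
  congr 1

theorem be_lt (g r : ℕ) (hg : Squarefree g) :
    ∑ d ∈ g.divisors.filter (fun d => d.primeFactors.card < r), ((ArithmeticFunction.moebius d : ℤ) : ℝ)
      = ∑ j ∈ range r, (-1 : ℝ) ^ j * (g.primeFactors.card.choose j : ℝ) := by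
  have h1 : ∑ d ∈ g.divisors.filter (fun d => d.primeFactors.card < r), ((ArithmeticFunction.moebius d : ℤ) : ℝ)
      = ∑ d ∈ g.divisors, (fun s : Finset ℕ => if s.card < r then (-1 : ℝ) ^ s.card else 0) d.primeFactors := by
    rw [Finset.sum_filter]
    refine Finset.sum_congr rfl (fun d hd => ?_)
    have hsq : Squarefree d := hg.squarefree_of_dvd (Nat.dvd_of_mem_divisors hd)
    show (if d.primeFactors.card < r then ((ArithmeticFunction.moebius d : ℤ) : ℝ) else 0)
      = if d.primeFactors.card < r then (-1 : ℝ) ^ d.primeFactors.card else 0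
    rw [be_moeb d hsq]
  rw [h1, be_bij g hg (fun s : Finset ℕ => if s.card < r then (-1 : ℝ) ^ s.card else 0)]
  rw [Finset.sum_powerset_apply_card (fun k => if k < r then (-1 : ℝ) ^ k else 0)]
  simp only [nsmul_eq_mul]
  set m := g.primeFactors.card
  have h2 : ∀ M : ℕ, m + 1 ≤ M → ∑ x ∈ range (m + 1), (m.choose x : ℝ) * (if x < r then (-1 : ℝ) ^ x else 0)
      = ∑ x ∈ range M, (m.choose x : ℝ) * (if x < r then (-1 : ℝ) ^ x else 0) := by
    intro M hM
    refine Finset.sum_subset (Finset.range_subset_range.mpr hM) (fun x _ hx => ?_)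
    rw [Finset.mem_range, not_lt] at hx
    rw [Nat.choose_eq_zero_of_lt (by omega)]
    simp
  have h3 : ∀ M : ℕ, r ≤ M → ∑ j ∈ range r, (-1 : ℝ) ^ j * (m.choose j : ℝ)
      = ∑ x ∈ range M, (m.choose x : ℝ) * (if x < r then (-1 : ℝ) ^ x else 0) := by
    intro M hM
    rw [← Finset.sum_subset (Finset.range_subset_range.mpr hM) (fun x _ hx => ?_)]
    · refine Finset.sum_congr rfl (fun x hx => ?_)
      rw [if_pos (Finset.mem_range.mp hx)]
      ring
    · rw [Finset.mem_range] at hx
      rw [if_neg hx, mul_zero]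
  rw [h2 (m + 1 + r) (by omega), h3 (m + 1 + r) (by omega)]

theorem be_eq (g r : ℕ) (hg : Squarefree g) :
    ((g.divisors.filter (fun d => d.primeFactors.card = r)).card : ℝ) = (g.primeFactors.card.choose r : ℝ) := by
  have h1 : ((g.divisors.filter (fun d => d.primeFactors.card = r)).card : ℝ)
      = ∑ d ∈ g.divisors, (fun s : Finset ℕ => if s.card = r then (1 : ℝ) else 0) d.primeFactors := by
    rw [Finset.card_filter]
    push_cast
    rfl
  rw [h1, be_bij g hg (fun s : Finset ℕ => if s.card = r then (1 : ℝ) else 0)]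
  rw [← Finset.sum_filter, Finset.sum_const, nsmul_eq_mul, mul_one]
  congr 1
  have : (g.primeFactors.powerset.filter (fun s => s.card = r)) = g.primeFactors.powersetCard r := by
    ext s
    rw [Finset.mem_filter, Finset.mem_powerset, Finset.mem_powersetCard]
  rw [this, Finset.card_powersetCard]

theorem be_fil (W n : ℕ) (hW : W ≠ 0) (P : ℕ → Prop) [DecidablePred P] :
    W.divisors.filter (fun d => P d ∧ d ∣ n) = (n.gcd W).divisors.filter (fun d => P d) := by
  ext d
  have hg : n.gcd W ≠ 0 := Nat.gcd_ne_zero_right hW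
  rw [Finset.mem_filter, Finset.mem_filter, Nat.mem_divisors, Nat.mem_divisors]
  constructor
  · rintro ⟨⟨h1, _⟩, h3, h4⟩
    exact ⟨⟨Nat.dvd_gcd h4 h1, hg⟩, h3⟩
  · rintro ⟨⟨h1, _⟩, h3⟩
    exact ⟨⟨h1.trans (Nat.gcd_dvd_right n W), hW⟩, h3, h1.trans (Nat.gcd_dvd_left n W)⟩

theorem be_pt (W n r : ℕ) (hW : Squarefree W) :
    |(if n.Coprime W then (1 : ℝ) else 0)
      - ∑ d ∈ W.divisors.filter (fun d => d.primeFactors.card < r ∧ d ∣ n), ((ArithmeticFunction.moebius d : ℤ) : ℝ)|
      ≤ ((W.divisors.filter (fun d => d.primeFactors.card = r ∧ d ∣ n)).card : ℝ) := by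
  have hg0 : n.gcd W ≠ 0 := Nat.gcd_ne_zero_right hW.ne_zero
  have hg : Squarefree (n.gcd W) := hW.squarefree_of_dvd (Nat.gcd_dvd_right n W)
  rw [be_fil W n hW.ne_zero (fun d => d.primeFactors.card < r), be_fil W n hW.ne_zero (fun d => d.primeFactors.card = r)]
  rw [be_lt _ r hg, be_eq _ r hg]
  have h1 : (if n.Coprime W then (1 : ℝ) else 0) = if (n.gcd W).primeFactors.card = 0 then (1 : ℝ) else 0 := by
    have hiff : n.Coprime W ↔ (n.gcd W).primeFactors.card = 0 := by
      rw [Nat.coprime_iff_gcd_eq_one, Finset.card_eq_zero, Nat.primeFactors_eq_empty]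
      constructor
      · intro h; exact Or.inr h
      · rintro (h | h)
        · exact absurd h hg0
        · exact h
    by_cases h : n.Coprime W
    · rw [if_pos h, if_pos (hiff.mp h)]
    · rw [if_neg h, if_neg (fun h' => h (hiff.mpr h'))]
  rw [h1]
  exact be_alt _ r

/-- truncated inclusion-exclusion -/
noncomputable def tr (D N n : ℕ) : ℝ :=
  ∑ d ∈ (primorial (lev D N)).divisors.filter (fun d => d.primeFactors.card < rr D N ∧ d ∣ n),
    ((ArithmeticFunction.moebius d : ℤ) : ℝ)

theorem brun_l1 (D A : ℕ) (hD : 1 ≤ D) : ∃ N0 : ℕ, ∀ N : ℕ, N0 ≤ N →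
    ∑ n ∈ Ioc 0 N, |(if n.Coprime (primorial (lev D N)) then (1 : ℝ) else 0) - tr D N n| ≤ N / Real.log N ^ A := by
  obtain ⟨N0, hN0⟩ := bp_tail D 1 A hD
  refine ⟨N0, fun N hN => ?_⟩
  have ht := hN0 N hN
  set W := primorial (lev D N) with hWdef
  have hW : Squarefree W := squarefree_primorial _
  set r := rr D N with hr
  calc ∑ n ∈ Ioc 0 N, |(if n.Coprime W then (1 : ℝ) else 0) - tr D N n|
      ≤ ∑ n ∈ Ioc 0 N, ((W.divisors.filter (fun d => d.primeFactors.card = r ∧ d ∣ n)).card : ℝ) :=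
        Finset.sum_le_sum (fun n _ => be_pt W n r hW)
    _ = ∑ n ∈ Ioc 0 N, ∑ d ∈ W.divisors.filter (fun d => d.primeFactors.card = r), if d ∣ n then (1 : ℝ) else 0 := by
        refine Finset.sum_congr rfl (fun n _ => ?_)
        rw [← Finset.sum_filter, Finset.filter_filter, Finset.sum_const, nsmul_eq_mul, mul_one]
    _ = ∑ d ∈ W.divisors.filter (fun d => d.primeFactors.card = r), ∑ n ∈ Ioc 0 N, if d ∣ n then (1 : ℝ) else 0 :=
        Finset.sum_comm
    _ ≤ ∑ d ∈ W.divisors.filter (fun d => d.primeFactors.card = r), (N : ℝ) * ((1 : ℝ) / d) := by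
        refine Finset.sum_le_sum (fun d _ => ?_)
        rw [← Finset.sum_filter, Finset.sum_const, nsmul_eq_mul, mul_one, Nat.Ioc_filter_dvd_card_eq_div]
        rw [mul_one_div]
        exact Nat.cast_div_le
    _ = (N : ℝ) * ∑ d ∈ W.divisors.filter (fun d => d.primeFactors.card = r), (1 : ℝ) / d := by
        rw [Finset.mul_sum]
    _ ≤ (N : ℝ) * (1 / Real.log N ^ A) := by
        refine mul_le_mul_of_nonneg_left ?_ (Nat.cast_nonneg _)
        refine le_trans ?_ ht
        have hsub : W.divisors.filter (fun d => d.primeFactors.card = r)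
            ⊆ W.divisors.filter (fun d => r ≤ d.primeFactors.card + 1) := by
          intro d hd
          rw [Finset.mem_filter] at hd ⊢
          exact ⟨hd.1, by omega⟩
        refine le_trans (Finset.sum_le_sum_of_subset_of_nonneg hsub (fun d _ _ => by positivity)) (le_of_eq ?_)
        refine Finset.sum_congr rfl (fun d _ => ?_)
        rw [Nat.cast_one, one_pow]
    _ = N / Real.log N ^ A := by rw [mul_one_div]

theorem be_ev (D : ℕ) : ∀ᶠ x : ℝ in Filter.atTop, Real.exp 9 * (D * Real.log x / Real.log 2 + 1) ≤ x := by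
  have hl2 : 0 < Real.log 2 := Real.log_pos (by norm_num)
  have he : 0 < Real.exp 9 := Real.exp_pos _
  have hc : 0 < Real.log 2 / (2 * Real.exp 9 * (D + 1)) := by positivity
  have h1 := Real.isLittleO_log_id_atTop.def hc
  filter_upwards [h1, Filter.eventually_ge_atTop (2 * Real.exp 9), Filter.eventually_ge_atTop (1 : ℝ)] with x hx hx2 hx3
  rw [Real.norm_eq_abs, Real.norm_eq_abs, id, abs_of_nonneg (Real.log_nonneg hx3), abs_of_nonneg (by linarith)] at hx
  have hD0 : (0 : ℝ) ≤ D := Nat.cast_nonneg _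
  have h3 : Real.exp 9 * (D * Real.log x / Real.log 2) ≤ x / 2 := by
    have h4 : (D : ℝ) * Real.log x ≤ (D + 1) * (Real.log 2 / (2 * Real.exp 9 * (D + 1)) * x) := by
      refine mul_le_mul (by linarith) hx (Real.log_nonneg hx3) (by linarith)
    have h5 : ((D : ℝ) + 1) * (Real.log 2 / (2 * Real.exp 9 * (D + 1)) * x) = Real.log 2 * x / (2 * Real.exp 9) := by
      field_simp
    rw [h5] at h4
    calc Real.exp 9 * (D * Real.log x / Real.log 2) ≤ Real.exp 9 * ((Real.log 2 * x / (2 * Real.exp 9)) / Real.log 2) := by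
          refine mul_le_mul_of_nonneg_left ?_ he.le
          exact div_le_div_of_nonneg_right h4 hl2.le
      _ = x / 2 := by field_simp
  linarith [mul_add (Real.exp 9) (D * Real.log x / Real.log 2) 1]

theorem be_prod (w a : ℕ) (ha : 1 ≤ a) (hw : w ≤ 2 ^ a) :
    (primorial w : ℝ) / ((primorial w).totient : ℝ) ≤ Real.exp 9 * a := by
  have h1 : (((primorial w).totient : ℚ)) = (primorial w : ℚ) * ∏ p ∈ (primorial w).primeFactors, (1 - (p : ℚ)⁻¹) :=
    Nat.totient_eq_mul_prod_factors _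
  have h2 : (((primorial w).totient : ℝ)) = (primorial w : ℝ) * ∏ p ∈ (primorial w).primeFactors, (1 - (p : ℝ)⁻¹) := by
    have h3 := congrArg (fun z : ℚ => (z : ℝ)) h1
    push_cast at h3
    exact h3
  have hWp : (0 : ℝ) < (primorial w : ℝ) := by exact_mod_cast primorial_pos w
  have haR : (0 : ℝ) < a := by exact_mod_cast ha
  have h4 : Real.exp (-9) / a ≤ ∏ p ∈ (primorial w).primeFactors, (1 - (p : ℝ)⁻¹) := by
    refine le_trans (Pool.Agent.Helper52.prod_lower ha) ?_
    have hsub : (primorial w).primeFactors ⊆ Pool.Agent.Helper52.pr 0 (2 ^ a) := by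
      intro p hp
      have hpp := Nat.prime_of_mem_primeFactors hp
      rw [Pool.Agent.Helper52.mem_pr]
      refine ⟨hpp.pos, ?_, hpp⟩
      have hd := Nat.dvd_of_mem_primeFactors hp
      have : p ≤ w := (Nat.Prime.dvd_primorial_iff hpp).mp hd
      exact this.trans hw
    rw [← Finset.prod_sdiff hsub]
    have hle1 : ∏ p ∈ Pool.Agent.Helper52.pr 0 (2 ^ a) \ (primorial w).primeFactors, (1 - 1 / (p : ℝ)) ≤ 1 := by
      refine Finset.prod_le_one (fun p hp => ?_) (fun p hp => ?_)
      · have hpp := (Pool.Agent.Helper52.mem_pr.mp (Finset.mem_sdiff.mp hp).1).2.2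
        have : (1 : ℝ) ≤ p := by exact_mod_cast hpp.one_le
        rw [sub_nonneg, div_le_one (by linarith)]
        exact this
      · have : (0 : ℝ) ≤ 1 / (p : ℝ) := by positivity
        linarith
    have hnn : 0 ≤ ∏ p ∈ (primorial w).primeFactors, (1 - 1 / (p : ℝ)) := by
      refine Finset.prod_nonneg (fun p hp => ?_)
      have hpp := Nat.prime_of_mem_primeFactors hp
      have : (1 : ℝ) ≤ p := by exact_mod_cast hpp.one_le
      rw [sub_nonneg, div_le_one (by linarith)]
      exact this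
    refine le_trans (mul_le_of_le_one_left hnn hle1) (le_of_eq ?_)
    refine Finset.prod_congr rfl (fun p _ => ?_)
    rw [one_div]
  have h5 : 0 < Real.exp (-9) / a := by positivity
  have h6 : 0 < ∏ p ∈ (primorial w).primeFactors, (1 - (p : ℝ)⁻¹) := lt_of_lt_of_le h5 h4
  rw [h2, div_mul_eq_div_div, div_self hWp.ne', div_le_iff₀ h6]
  calc (1 : ℝ) = Real.exp 9 * a * (Real.exp (-9) / a) := by
        rw [Real.exp_neg]
        field_simp
    _ ≤ _ := mul_le_mul_of_nonneg_left h4 (by positivity)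

theorem w_phi (D : ℕ) (hD : 1 ≤ D) : ∃ N0 : ℕ, ∀ N : ℕ, N0 ≤ N →
    (primorial (lev D N) : ℝ) / ((primorial (lev D N)).totient : ℝ) ≤ Real.log N := by
  have htend : Filter.Tendsto (fun N : ℕ => Real.log (N : ℝ)) Filter.atTop Filter.atTop :=
    Real.tendsto_log_atTop.comp tendsto_natCast_atTop_atTop
  obtain ⟨N0, hN0⟩ := Filter.eventually_atTop.mp
    ((htend.eventually (be_ev D)).and (htend.eventually (Filter.eventually_ge_atTop (1 : ℝ))))
  refine ⟨N0, fun N hN => ?_⟩
  obtain ⟨h1, h2⟩ := hN0 N hN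
  have hl2 : 0 < Real.log 2 := Real.log_pos (by norm_num)
  set w := lev D N with hw
  refine le_trans (be_prod w (Nat.log 2 w + 1) (by omega) (Nat.lt_pow_succ_log_self (by norm_num) w).le) ?_
  refine le_trans (mul_le_mul_of_nonneg_left ?_ (Real.exp_pos _).le) h1
  push_cast
  have hwle : (w : ℝ) ≤ Real.log N ^ D := Nat.floor_le (by positivity)
  have hw1 : 1 ≤ w := by
    rw [hw, lev, Nat.one_le_floor_iff]
    exact one_le_pow₀ h2
  have h3 : ((Nat.log 2 w : ℕ) : ℝ) * Real.log 2 ≤ D * Real.log (Real.log N) := by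
    rw [← Real.log_pow, ← Real.log_pow]
    refine le_trans (Real.log_le_log (by positivity) ?_) (Real.log_le_log (by exact_mod_cast hw1) hwle)
    exact_mod_cast Nat.pow_log_le_self 2 (by omega)
  have h4 : ((Nat.log 2 w : ℕ) : ℝ) ≤ D * Real.log (Real.log N) / Real.log 2 := by
    rw [le_div_iff₀ hl2]
    exact h3
  linarith

end Pool.Agent.SWQ
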