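import Pool.Agent.SWQ.Tail
import Pool.Agent.Helper24.ResidueSieve

/-! SWQ/BrunL.  Brun's lower bound for the number of integers avoiding residue classes modulo the odd primes `≤ lev D N`. -/

set_option autoImplicit false

namespace Pool.Agent.SWQ

open Finset Pool.Agent.SW

/-- Bonferroni's inequality -/
private lemma bl_bonf (U : Finset ℕ) (r : ℕ) (hr : Even r) :
    ∑ T ∈ U.powerset.filter (fun T => T.card < r), ((-1 : ℝ)) ^ T.card ≤
      if U = ∅ then 1 else 0 := by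
  rw [Finset.sum_filter]
  have h1 := Finset.sum_powerset_apply_card (fun j => if j < r then ((-1 : ℝ)) ^ j else 0) (x := U)
  rw [h1]
  have h2 : ∑ m ∈ range (U.card + 1), U.card.choose m • (if m < r then ((-1 : ℝ)) ^ m else 0) =
      ∑ m ∈ range r, ((-1 : ℝ)) ^ m * U.card.choose m := by
    have e1 : ∑ m ∈ range (U.card + 1), U.card.choose m • (if m < r then ((-1 : ℝ)) ^ m else 0) =
        ∑ m ∈ range (max (U.card + 1) r), (if m < r then ((-1 : ℝ)) ^ m * U.card.choose m else 0) := by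
      symm
      rw [← Finset.sum_subset (Finset.range_subset_range.2 (le_max_left (U.card + 1) r))]
      · refine Finset.sum_congr rfl fun m _ => ?_
        rw [nsmul_eq_mul]
        split_ifs
        · ring
        · ring
      · intro m _ hm
        rw [mem_range, not_lt] at hm
        rw [Nat.choose_eq_zero_of_lt (by omega)]
        simp
    have e2 : ∑ m ∈ range (max (U.card + 1) r), (if m < r then ((-1 : ℝ)) ^ m * U.card.choose m else 0) =
        ∑ m ∈ range r, ((-1 : ℝ)) ^ m * U.card.choose m := by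
      rw [← Finset.sum_filter]
      congr 1
      ext m
      rw [mem_filter, mem_range, mem_range]
      constructor
      · exact fun h => h.2
      · exact fun h => ⟨lt_of_lt_of_le h (le_max_right _ _), h⟩
    rw [e1, e2]
  rw [h2]
  rcases r with _ | r
  · rw [Finset.range_zero, Finset.sum_empty]
    split_ifs <;> norm_num
  · by_cases hU : U = ∅
    · rw [if_pos hU, hU, Finset.card_empty, Finset.sum_range_succ']
      have e : ∑ k ∈ range r, ((-1 : ℝ)) ^ (k + 1) * ((Nat.choose 0 (k + 1) : ℕ) : ℝ) = 0 := by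
        refine Finset.sum_eq_zero fun k _ => ?_
        rw [Nat.choose_zero_succ]
        simp
      rw [e]
      simp
    · rw [if_neg hU]
      obtain ⟨n, hn⟩ : ∃ n, U.card = n + 1 :=
        Nat.exists_eq_succ_of_ne_zero (fun h => hU (Finset.card_eq_zero.1 h))
      rw [hn]
      have h3 := Int.alternating_sum_range_choose_eq_choose (n := n) (m := r)
      have h4 : ∑ m ∈ range (r + 1), ((-1 : ℝ)) ^ m * (((n + 1).choose m : ℕ) : ℝ) =
          (-1) ^ r * ((n.choose r : ℕ) : ℝ) := by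
        have h5 := congrArg (fun z : ℤ => (z : ℝ)) h3
        push_cast at h5
        exact h5
      rw [h4]
      have hodd : Odd r := by
        rcases Nat.even_or_odd r with h | h
        · exact absurd hr (Nat.not_even_iff_odd.2 h.add_one)
        · exact h
      rw [hodd.neg_one_pow]
      have : (0 : ℝ) ≤ ((n.choose r : ℕ) : ℝ) := Nat.cast_nonneg _
      linarith

private noncomputable def blS (w : ℕ) : Finset ℕ := (Icc 3 w).filter Nat.Prime

private lemma blS_prime {w p : ℕ} (hp : p ∈ blS w) : p.Prime := (mem_filter.1 hp).2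

private lemma bl_prod_mem {w : ℕ} {T : Finset ℕ} (hT : T ⊆ blS w) :
    (∏ p ∈ T, p) ∈ (primorial w).divisors ∧ (∏ p ∈ T, p).primeFactors = T := by
  have hTp : ∀ p ∈ T, p.Prime := fun p hp => blS_prime (hT hp)
  refine ⟨?_, Nat.primeFactors_prod hTp⟩
  rw [Nat.mem_divisors]
  refine ⟨?_, (primorial_pos w).ne'⟩
  unfold primorial
  refine Finset.prod_dvd_prod_of_subset _ _ _ fun p hp => ?_
  have h1 := mem_filter.1 (hT hp)
  rw [mem_filter, mem_range]
  exact ⟨Nat.lt_succ_of_le (mem_Icc.1 h1.1).2, h1.2⟩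

private lemma bl_inj {w : ℕ} : Set.InjOn (fun T : Finset ℕ => ∏ p ∈ T, p)
    ((blS w).powerset : Set (Finset ℕ)) := by
  intro T hT T' hT' h
  rw [mem_coe, mem_powerset] at hT hT'
  rw [← (bl_prod_mem hT).2, ← (bl_prod_mem hT').2]
  exact congrArg Nat.primeFactors h

private lemma bl_sum (w : ℕ) (P : ℕ → Prop) [DecidablePred P] (g : ℕ → ℝ) (hg : ∀ d, 0 ≤ g d)
    (Q : Finset ℕ → Prop) [DecidablePred Q] (hPQ : ∀ T, T ⊆ blS w → Q T → P (∏ p ∈ T, p)) :
    ∑ T ∈ (blS w).powerset.filter Q, g (∏ p ∈ T, p) ≤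
      ∑ d ∈ (primorial w).divisors.filter P, g d := by
  have hinj : Set.InjOn (fun T : Finset ℕ => ∏ p ∈ T, p)
      ((blS w).powerset.filter Q : Set (Finset ℕ)) :=
    bl_inj.mono (by
      intro T hT
      exact mem_of_mem_filter T hT)
  rw [← Finset.sum_image (f := g) hinj]
  refine Finset.sum_le_sum_of_subset_of_nonneg ?_ fun d _ _ => hg d
  intro d hd
  obtain ⟨T, hT, rfl⟩ := mem_image.1 hd
  rw [mem_filter, mem_powerset] at hT
  exact mem_filter.2 ⟨(bl_prod_mem hT.1).1, hPQ T hT.1 hT.2⟩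

private lemma bl_ev (k : ℕ) (c : ℝ) {s : ℝ} (hs : 0 < s) :
    ∃ N0 : ℕ, ∀ N : ℕ, N0 ≤ N → c * Real.log N ^ k ≤ (N : ℝ) ^ s := by
  have hc : 0 < 1 / (|c| + 1) := by positivity
  have h1 := (isLittleO_log_rpow_rpow_atTop (k : ℝ) hs).bound hc
  have h2 := (tendsto_natCast_atTop_atTop (R := ℝ)).eventually h1
  obtain ⟨N0, hN0⟩ := Filter.eventually_atTop.1 h2
  refine ⟨N0, fun N hN => ?_⟩
  have h3 := hN0 N hN
  rw [Real.rpow_natCast, Real.norm_eq_abs, Real.norm_eq_abs,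
    abs_of_nonneg (Real.rpow_nonneg (Nat.cast_nonneg N) s)] at h3
  have h4 : c * Real.log N ^ k ≤ |c| * |Real.log N ^ k| := by
    rw [← abs_mul]
    exact le_abs_self _
  have h5 : 0 ≤ |Real.log (N : ℝ) ^ k| := abs_nonneg _
  have h6 : |Real.log (N : ℝ) ^ k| * (|c| + 1) ≤ (N : ℝ) ^ s := by
    calc |Real.log (N : ℝ) ^ k| * (|c| + 1) ≤ 1 / (|c| + 1) * (N : ℝ) ^ s * (|c| + 1) :=
          mul_le_mul_of_nonneg_right h3 (by positivity)
      _ = (N : ℝ) ^ s := by field_simp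
  nlinarith

private lemma bl_log (c : ℝ) : ∃ N0 : ℕ, ∀ N : ℕ, N0 ≤ N → c ≤ Real.log N := by
  have h := (Real.tendsto_log_atTop.comp (tendsto_natCast_atTop_atTop (R := ℝ))).eventually
    (Filter.eventually_ge_atTop c)
  exact Filter.eventually_atTop.1 h

/-- the sieve inequality -/
private lemma bl_main (w b r M : ℕ) (hr : Even r) (R : ℕ → Finset ℕ)
    (hR : ∀ p ∈ blS w, ∀ c ∈ R p, c < p) (hRb : ∀ p ∈ blS w, (R p).card ≤ min b (p - 1)) :
    M * dens b w - M * ∑ T ∈ (blS w).powerset.filter (fun T => ¬ T.card < r),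
        (b : ℝ) ^ T.card / ((∏ p ∈ T, p : ℕ) : ℝ) -
      ∑ T ∈ (blS w).powerset.filter (fun T => T.card < r), (b : ℝ) ^ T.card ≤
      (((Ioc 0 M).filter (fun t => ∀ p ∈ blS w, t % p ∉ R p)).card : ℝ) := by
  classical
  obtain ⟨S, hS⟩ : ∃ S, S = blS w := ⟨_, rfl⟩
  rw [← hS] at hR hRb ⊢
  have hSp : ∀ p ∈ S, p.Prime := by
    intro p hp
    rw [hS] at hp
    exact blS_prime hp
  obtain ⟨ρ, hρ⟩ : ∃ ρ : ℕ → ℝ, ρ = fun p => ((R p).card : ℝ) := ⟨_, rfl⟩
  have hρ0 : ∀ p, 0 ≤ ρ p := fun p => by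
    rw [hρ]
    exact Nat.cast_nonneg _
  have hρb : ∀ p ∈ S, ρ p ≤ b := by
    intro p hp
    rw [hρ]
    show ((R p).card : ℝ) ≤ b
    exact_mod_cast (hRb p hp).trans (min_le_left _ _)
  -- counting
  have hcnt : ∀ T ∈ S.powerset, |(((Ioc 0 M).filter (fun t => ∀ p ∈ T, t % p ∈ R p)).card : ℝ) -
      (M : ℝ) * ∏ p ∈ T, (ρ p / p)| ≤ (b : ℝ) ^ T.card := by
    intro T hT
    rw [mem_powerset] at hT
    have h1 := Pool.Agent.Helper24.abs_card_residues_sub_le 0 M T (fun p hp => hSp p (hT hp)) R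
      (fun p hp => hR p (hT hp))
    rw [Nat.zero_add] at h1
    rw [hρ]
    refine h1.trans ?_
    rw [← Finset.prod_const]
    refine Finset.prod_le_prod (fun p _ => Nat.cast_nonneg _) fun p hp => ?_
    have := hρb p (hT hp)
    rw [hρ] at this
    exact this
  -- Bonferroni
  have hbonf : ∑ T ∈ S.powerset.filter (fun T => T.card < r), (-1 : ℝ) ^ T.card *
      (((Ioc 0 M).filter (fun t => ∀ p ∈ T, t % p ∈ R p)).card : ℝ) ≤
      (((Ioc 0 M).filter (fun t => ∀ p ∈ S, t % p ∉ R p)).card : ℝ) := by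
    have e1 : ∀ T ∈ S.powerset.filter (fun T => T.card < r), (-1 : ℝ) ^ T.card *
        (((Ioc 0 M).filter (fun t => ∀ p ∈ T, t % p ∈ R p)).card : ℝ) =
        ∑ t ∈ Ioc 0 M, (if ∀ p ∈ T, t % p ∈ R p then (-1 : ℝ) ^ T.card else 0) := by
      intro T _
      rw [← Finset.sum_filter, Finset.sum_const, nsmul_eq_mul]
      ring
    rw [Finset.sum_congr rfl e1, Finset.sum_comm, Finset.card_filter, Nat.cast_sum]
    refine Finset.sum_le_sum fun t _ => ?_
    rw [← Finset.sum_filter, Finset.filter_filter]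
    have h2 := bl_bonf (S.filter fun p => t % p ∈ R p) r hr
    have e2 : S.powerset.filter (fun T => T.card < r ∧ ∀ p ∈ T, t % p ∈ R p) =
        (S.filter fun p => t % p ∈ R p).powerset.filter (fun T => T.card < r) := by
      ext T
      rw [mem_filter, mem_filter, mem_powerset, mem_powerset]
      constructor
      · rintro ⟨h3, h4, h5⟩
        exact ⟨fun p hp => mem_filter.2 ⟨h3 hp, h5 p hp⟩, h4⟩
      · rintro ⟨h3, h4⟩
        exact ⟨fun p hp => (mem_filter.1 (h3 hp)).1, h4, fun p hp => (mem_filter.1 (h3 hp)).2⟩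
    rw [e2]
    refine h2.trans (le_of_eq ?_)
    have e3 : (S.filter fun p => t % p ∈ R p) = ∅ ↔ ∀ p ∈ S, t % p ∉ R p := by
      rw [Finset.filter_eq_empty_iff]
    by_cases hc : ∀ p ∈ S, t % p ∉ R p
    · rw [if_pos (e3.2 hc), if_pos hc]
      norm_num
    · rw [if_neg (fun h => hc (e3.1 h)), if_neg hc]
      norm_num
  -- lower bound of the left hand side
  have hlow : (M : ℝ) * ∑ T ∈ S.powerset.filter (fun T => T.card < r), ∏ p ∈ T, (-(ρ p / p)) -
      ∑ T ∈ S.powerset.filter (fun T => T.card < r), (b : ℝ) ^ T.card ≤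
      ∑ T ∈ S.powerset.filter (fun T => T.card < r), (-1 : ℝ) ^ T.card *
      (((Ioc 0 M).filter (fun t => ∀ p ∈ T, t % p ∈ R p)).card : ℝ) := by
    rw [Finset.mul_sum, ← Finset.sum_sub_distrib]
    refine Finset.sum_le_sum fun T hT => ?_
    have h1 := hcnt T (mem_filter.1 hT).1
    have e1 : ∏ p ∈ T, (-(ρ p / p)) = (-1 : ℝ) ^ T.card * ∏ p ∈ T, (ρ p / p) := by
      rw [Finset.prod_neg]
    rw [e1]
    rw [abs_le] at h1
    rcases neg_one_pow_eq_or ℝ T.card with h2 | h2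
    · rw [h2]
      linarith [h1.1]
    · rw [h2]
      linarith [h1.2]
  -- the complete product
  have hfull : ∑ T ∈ S.powerset.filter (fun T => T.card < r), ∏ p ∈ T, (-(ρ p / p)) +
      ∑ T ∈ S.powerset.filter (fun T => ¬ T.card < r), ∏ p ∈ T, (-(ρ p / p)) =
      ∏ p ∈ S, (1 - ρ p / p) := by
    rw [Finset.sum_filter_add_sum_filter_not, ← Finset.prod_one_add]
    refine Finset.prod_congr rfl fun p _ => ?_
    ring
  have hdens : SW.dens b w ≤ ∏ p ∈ S, (1 - ρ p / p) := by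
    unfold SW.dens
    rw [hS]
    show ∏ p ∈ blS w, (1 - ((min b (p - 1) : ℕ) : ℝ) / (p : ℝ)) ≤ _
    rw [← hS]
    refine Finset.prod_le_prod (fun p hp => ?_) fun p hp => ?_
    · have hp0 : (0 : ℝ) < p := by exact_mod_cast (hSp p hp).pos
      rw [sub_nonneg, div_le_one hp0]
      exact_mod_cast (min_le_right _ _).trans (Nat.sub_le p 1)
    · have h1 : ρ p ≤ ((min b (p - 1) : ℕ) : ℝ) := by
        rw [hρ]
        show ((R p).card : ℝ) ≤ ((min b (p - 1) : ℕ) : ℝ)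
        exact_mod_cast hRb p hp
      have hp0 : (0 : ℝ) < p := by exact_mod_cast (hSp p hp).pos
      have := div_le_div_of_nonneg_right h1 hp0.le
      linarith
  have htl : ∑ T ∈ S.powerset.filter (fun T => ¬ T.card < r), ∏ p ∈ T, (-(ρ p / p)) ≤
      ∑ T ∈ S.powerset.filter (fun T => ¬ T.card < r),
        (b : ℝ) ^ T.card / ((∏ p ∈ T, p : ℕ) : ℝ) := by
    refine Finset.sum_le_sum fun T hT => ?_
    have hTS := mem_powerset.1 (mem_filter.1 hT).1
    refine (le_abs_self _).trans ?_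
    rw [Finset.abs_prod]
    have e1 : (b : ℝ) ^ T.card / ((∏ p ∈ T, p : ℕ) : ℝ) = ∏ p ∈ T, ((b : ℝ) / p) := by
      rw [Finset.prod_div_distrib, Finset.prod_const, Nat.cast_prod]
    rw [e1]
    refine Finset.prod_le_prod (fun p _ => abs_nonneg _) fun p hp => ?_
    have hp0 : (0 : ℝ) < p := by exact_mod_cast (hSp p (hTS hp)).pos
    rw [abs_neg, abs_of_nonneg (div_nonneg (hρ0 p) hp0.le)]
    exact div_le_div_of_nonneg_right (hρb p (hTS hp)) hp0.le
  have hM : (0 : ℝ) ≤ M := Nat.cast_nonneg M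
  have h9 : (M : ℝ) * dens b w ≤ M * (∑ T ∈ S.powerset.filter (fun T => T.card < r),
      ∏ p ∈ T, (-(ρ p / p)) + ∑ T ∈ S.powerset.filter (fun T => ¬ T.card < r),
        (b : ℝ) ^ T.card / ((∏ p ∈ T, p : ℕ) : ℝ)) := by
    apply mul_le_mul_of_nonneg_left _ hM
    linarith
  rw [mul_add] at h9
  linarith

theorem brun_low (D b A : ℕ) (hD : 1 ≤ D) (hb : 1 ≤ b) : ∃ N0 : ℕ, ∀ N : ℕ, N0 ≤ N → ∀ M : ℕ, M ≤ N →
    ∀ Ω : ℕ → ℕ → Prop, (∀ p c : ℕ, p.Prime → (Ω p (c % p) ↔ Ω p c)) →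
    (∀ p : ℕ, p.Prime → 3 ≤ p → {c : ℕ | c < p ∧ Ω p c}.ncard ≤ min b (p - 1)) →
    M * dens b (lev D N) - N / Real.log N ^ A ≤
      (({t : ℕ | 1 ≤ t ∧ t ≤ M ∧ ∀ p : ℕ, p.Prime → 3 ≤ p → p ≤ lev D N → ¬ Ω p t}.ncard : ℕ) : ℝ) := by
  classical
  obtain ⟨N1, h1⟩ := bp_tail D b (A + 1) hD
  obtain ⟨N2, h2⟩ := bp_level D b hD
  obtain ⟨N3, h3⟩ := bl_log 2
  obtain ⟨N4, h4⟩ := bl_ev A 2 (s := 5 / 8) (by norm_num)
  refine ⟨max (max N1 N2) (max N3 (max N4 1)), fun N hN M hM Ω hΩ hΩb => ?_⟩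
  simp only [max_le_iff] at hN
  obtain ⟨⟨hN1, hN2⟩, hN3, hN4, hN5⟩ := hN
  have htail := h1 N hN1
  have hlev := h2 N hN2
  have hL := h3 N hN3
  have hLv := h4 N hN4
  obtain ⟨L, hLdef⟩ : ∃ L, L = Real.log N := ⟨_, rfl⟩
  rw [← hLdef] at htail hL hLv ⊢
  have hL1 : 1 ≤ L := by linarith
  have hL0 : 0 < L := by linarith
  have hN0 : (0 : ℝ) < N := by exact_mod_cast (by omega : 0 < N)
  have hN1' : (1 : ℝ) ≤ N := by exact_mod_cast hN5
  obtain ⟨w, hw⟩ : ∃ w, w = lev D N := ⟨_, rfl⟩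
  rw [← hw] at htail hlev ⊢
  obtain ⟨R, hRdef⟩ : ∃ R : ℕ → Finset ℕ, R = fun p => (range p).filter (fun c => Ω p c) := ⟨_, rfl⟩
  have hR : ∀ p ∈ blS w, ∀ c ∈ R p, c < p := by
    intro p _ c hc
    rw [hRdef] at hc
    exact mem_range.1 (mem_filter.1 hc).1
  have hRb : ∀ p ∈ blS w, (R p).card ≤ min b (p - 1) := by
    intro p hp
    have hp3 : 3 ≤ p := (mem_Icc.1 (mem_filter.1 hp).1).1
    have h5 := hΩb p (blS_prime hp) hp3
    have e : {c : ℕ | c < p ∧ Ω p c} = ((R p : Finset ℕ) : Set ℕ) := by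
      ext c
      rw [hRdef]
      simp only [Set.mem_ofPred_eq, coe_filter, mem_range]
    rw [e, Set.ncard_coe_finset] at h5
    exact h5
  obtain ⟨r, hr⟩ : ∃ r, r = 2 * (rr D N / 2) := ⟨_, rfl⟩
  have hre : Even r := by
    rw [hr]
    exact even_two_mul _
  have hr1 : r ≤ rr D N := by omega
  have hr2 : rr D N ≤ r + 1 := by omega
  have hmain := bl_main w b r M hre R hR hRb
  -- the target set
  have hset : {t : ℕ | 1 ≤ t ∧ t ≤ M ∧ ∀ p : ℕ, p.Prime → 3 ≤ p → p ≤ w → ¬ Ω p t} =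
      (((Ioc 0 M).filter (fun t => ∀ p ∈ blS w, t % p ∉ R p) : Finset ℕ) : Set ℕ) := by
    ext t
    rw [coe_filter, Set.mem_ofPred_eq, Set.mem_ofPred_eq, mem_Ioc]
    constructor
    · rintro ⟨h5, h6, h7⟩
      refine ⟨⟨h5, h6⟩, fun p hp hc => ?_⟩
      have hp' := mem_filter.1 hp
      have hp'' := mem_Icc.1 hp'.1
      apply h7 p hp'.2 hp''.1 hp''.2
      rw [hRdef] at hc
      exact (hΩ p t hp'.2).1 (mem_filter.1 hc).2
    · rintro ⟨⟨h5, h6⟩, h7⟩
      refine ⟨h5, h6, fun p hp hp3 hpw hc => ?_⟩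
      apply h7 p (mem_filter.2 ⟨mem_Icc.2 ⟨hp3, hpw⟩, hp⟩)
      rw [hRdef]
      exact mem_filter.2 ⟨mem_range.2 (Nat.mod_lt _ hp.pos), (hΩ p t hp).2 hc⟩
  rw [hset, Set.ncard_coe_finset]
  -- the tail
  have ht1 : ∑ T ∈ (blS w).powerset.filter (fun T => ¬ T.card < r),
      (b : ℝ) ^ T.card / ((∏ p ∈ T, p : ℕ) : ℝ) ≤ 1 / L ^ (A + 1) := by
    refine le_trans ?_ htail
    have h5 := bl_sum w (fun d => rr D N ≤ d.primeFactors.card + 1)
      (fun d => (b : ℝ) ^ d.primeFactors.card / d) (fun d => by positivity)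
      (fun T => ¬ T.card < r) (fun T hT hc => by
        rw [(bl_prod_mem hT).2]
        omega)
    refine le_trans (le_of_eq ?_) h5
    refine Finset.sum_congr rfl fun T hT => ?_
    show _ = (b : ℝ) ^ (∏ p ∈ T, p).primeFactors.card / ((∏ p ∈ T, p : ℕ) : ℝ)
    rw [(bl_prod_mem (mem_powerset.1 (mem_filter.1 hT).1)).2]
  -- the error
  have hx : ∀ T ∈ (blS w).powerset.filter (fun T => T.card < r),
      ((∏ p ∈ T, p : ℕ) : ℝ) ≤ (N : ℝ) ^ ((1 : ℝ) / 4) ∧ (b : ℝ) ^ T.card ≤ (N : ℝ) ^ ((1 : ℝ) / 8) := by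
    intro T hT
    rw [mem_filter, mem_powerset] at hT
    have h5 := bl_prod_mem hT.1
    have h6 := hlev _ h5.1 (by rw [h5.2]; omega)
    rw [h5.2] at h6
    exact h6
  have hcard : (((blS w).powerset.filter (fun T => T.card < r)).card : ℝ) ≤ (N : ℝ) ^ ((1 : ℝ) / 4) := by
    have h5 : ((blS w).powerset.filter (fun T => T.card < r)).card ≤
        (Icc 1 ⌊(N : ℝ) ^ ((1 : ℝ) / 4)⌋₊).card := by
      refine Finset.card_le_card_of_injOn (fun T : Finset ℕ => ∏ p ∈ T, p) ?_ ?_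
      · intro T hT
        have hT' := hT
        rw [mem_coe, mem_filter, mem_powerset] at hT'
        rw [mem_coe, mem_Icc]
        exact ⟨Nat.pos_of_mem_divisors (bl_prod_mem hT'.1).1, Nat.le_floor (hx T hT).1⟩
      · exact bl_inj.mono (fun T hT => mem_of_mem_filter T hT)
    rw [Nat.card_Icc, Nat.add_sub_cancel] at h5
    exact (Nat.cast_le.2 h5).trans (Nat.floor_le (by positivity))
  have ht2 : ∑ T ∈ (blS w).powerset.filter (fun T => T.card < r), (b : ℝ) ^ T.card ≤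
      (N : ℝ) ^ ((3 : ℝ) / 8) := by
    refine (Finset.sum_le_card_nsmul _ _ _ fun T hT => (hx T hT).2).trans ?_
    rw [nsmul_eq_mul]
    calc (((blS w).powerset.filter (fun T => T.card < r)).card : ℝ) * (N : ℝ) ^ ((1 : ℝ) / 8)
        ≤ (N : ℝ) ^ ((1 : ℝ) / 4) * (N : ℝ) ^ ((1 : ℝ) / 8) :=
          mul_le_mul_of_nonneg_right hcard (by positivity)
      _ = (N : ℝ) ^ ((3 : ℝ) / 8) := by
          rw [← Real.rpow_add hN0]
          norm_num
  have hMN : (M : ℝ) ≤ N := by exact_mod_cast hM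
  have ht3 : (M : ℝ) * ∑ T ∈ (blS w).powerset.filter (fun T => ¬ T.card < r),
      (b : ℝ) ^ T.card / ((∏ p ∈ T, p : ℕ) : ℝ) ≤ N * (1 / L ^ (A + 1)) := by
    refine mul_le_mul hMN ht1 (Finset.sum_nonneg fun T _ => by positivity) hN0.le
  have ht4 : (N : ℝ) * (1 / L ^ (A + 1)) ≤ N / L ^ A * (1 / 2) := by
    have e : (N : ℝ) * (1 / L ^ (A + 1)) = N / L ^ A * (1 / L) := by
      rw [pow_succ]
      field_simp
    rw [e]
    apply mul_le_mul_of_nonneg_left _ (by positivity)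
    exact one_div_le_one_div_of_le (by norm_num) hL
  have ht5 : (N : ℝ) ^ ((3 : ℝ) / 8) ≤ N / L ^ A * (1 / 2) := by
    rw [div_mul_eq_mul_div, le_div_iff₀ (by positivity)]
    have e : (N : ℝ) ^ ((3 : ℝ) / 8) * (N : ℝ) ^ ((5 : ℝ) / 8) = N := by
      rw [← Real.rpow_add hN0]
      norm_num
    have h5 : (N : ℝ) ^ ((3 : ℝ) / 8) * (2 * L ^ A) ≤ N := by
      calc (N : ℝ) ^ ((3 : ℝ) / 8) * (2 * L ^ A) ≤ (N : ℝ) ^ ((3 : ℝ) / 8) * (N : ℝ) ^ ((5 : ℝ) / 8) :=
            mul_le_mul_of_nonneg_left hLv (by positivity)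
        _ = N := e
    linarith
  linarith

end Pool.Agent.SWQ
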