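import Pool.Agent.SW.Mert

/-! SWQ/DensLow.  `dens b w ≥ c/(log w)^C`.

PROOF.  As in `Pool/Agent/SW/Mert.lean`: the primes `p ≤ 2b` give a positive constant, `1 - b/p ≥ exp (-2b/p)` for `p > 2b`, and Mertens
`∑_{p ≤ w} 1/p ≤ log log w + K` (`Pool/Agent/Helper24/Mertens.lean` or `Helper52/PrimeSums.lean`): `dens b w ≥ c exp (-2b (log log w + K)) = c' (log w)^(-2b)`. -/

set_option autoImplicit false

namespace Pool.Agent.SWQ

open Finset Pool.Agent.SW

private theorem factor_pos (b p : ℕ) (hp : 3 ≤ p) :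
    1 / (p : ℝ) ≤ 1 - ((min b (p - 1) : ℕ) : ℝ) / (p : ℝ) := by
  have hp0 : (0 : ℝ) < p := by
    have : 0 < p := by omega
    exact_mod_cast this
  have h1 : ((min b (p - 1) : ℕ) : ℝ) + 1 ≤ (p : ℝ) := by
    have : min b (p - 1) + 1 ≤ p := by
      have := min_le_right b (p - 1)
      omega
    exact_mod_cast this
  rw [le_sub_iff_add_le, ← add_div, div_le_one hp0]
  linarith

private theorem one_sub_ge_exp (x : ℝ) (h0 : 0 ≤ x) (h1 : x ≤ 1 / 2) :
    Real.exp (-(2 * x)) ≤ 1 - x := by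
  have h2 : (0 : ℝ) < 1 - x := by linarith
  rw [← Real.le_log_iff_exp_le h2]
  have h3 := Real.one_sub_inv_le_log_of_pos h2
  have h4 : -(2 * x) ≤ 1 - (1 - x)⁻¹ := by
    rw [le_sub_iff_add_le, ← sub_neg_eq_add]
    have h5 : (1 - x)⁻¹ ≤ 1 + 2 * x := by
      rw [inv_le_comm₀ h2 (by linarith), inv_eq_one_div, div_le_iff₀ (by linarith)]
      nlinarith
    linarith
  linarith

private theorem factor_ge (b p : ℕ) (hp : 3 ≤ p) :
    Real.exp (-(2 * b * (1 / (p : ℝ)))) * (if p ≤ 2 * b then 1 / (p : ℝ) else 1) ≤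
      1 - ((min b (p - 1) : ℕ) : ℝ) / (p : ℝ) := by
  have hp0 : (0 : ℝ) < p := by
    have : 0 < p := by omega
    exact_mod_cast this
  split_ifs with h
  · refine le_trans ?_ (factor_pos b p hp)
    have h1 : Real.exp (-(2 * b * (1 / (p : ℝ)))) ≤ 1 := by
      rw [Real.exp_le_one_iff]
      have : 0 ≤ 2 * (b : ℝ) * (1 / (p : ℝ)) := by positivity
      linarith
    have h2 : (0 : ℝ) ≤ 1 / (p : ℝ) := by positivity
    nlinarith
  · have hlt : 2 * b < p := not_le.1 h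
    have hm : min b (p - 1) = b := min_eq_left (by omega)
    rw [hm, mul_one]
    have h1 : (b : ℝ) / p ≤ 1 / 2 := by
      rw [div_le_div_iff₀ hp0 (by norm_num)]
      have : (2 : ℝ) * b < p := by exact_mod_cast hlt
      linarith
    have h2 := one_sub_ge_exp ((b : ℝ) / p) (by positivity) h1
    have h3 : 2 * (b : ℝ) * (1 / (p : ℝ)) = 2 * ((b : ℝ) / p) := by ring
    rw [h3]
    exact h2

private theorem small_prod (b : ℕ) (s : Finset ℕ) (hs : ∀ p ∈ s, 1 ≤ p) :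
    ∏ p ∈ Icc 1 (2 * b), (1 / (p : ℝ)) ≤ ∏ p ∈ s, (if p ≤ 2 * b then 1 / (p : ℝ) else 1) := by
  classical
  rw [← Finset.prod_filter]
  have hsub : s.filter (fun p => p ≤ 2 * b) ⊆ Icc 1 (2 * b) := by
    intro p hp
    rw [Finset.mem_filter] at hp
    rw [Finset.mem_Icc]
    exact ⟨hs p hp.1, hp.2⟩
  rw [← Finset.prod_sdiff hsub]
  have h1 : ∏ p ∈ Icc 1 (2 * b) \ s.filter (fun p => p ≤ 2 * b), (1 / (p : ℝ)) ≤ 1 := by
    apply Finset.prod_le_one
    · intro p _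
      positivity
    · intro p hp
      have hp1 : 1 ≤ p := (Finset.mem_Icc.1 (Finset.mem_sdiff.1 hp).1).1
      have hp1' : (1 : ℝ) ≤ p := by exact_mod_cast hp1
      rw [div_le_one (by linarith)]
      exact hp1'
  have h2 : 0 ≤ ∏ p ∈ s.filter (fun p => p ≤ 2 * b), (1 / (p : ℝ)) :=
    Finset.prod_nonneg (fun p _ => by positivity)
  nlinarith

private theorem dens_ge (b n : ℕ) (hn : 1 ≤ n) :
    Real.exp (-(2 * b * (Real.log n + 8))) * ∏ p ∈ Icc 1 (2 * b), (1 / (p : ℝ)) ≤ dens b (2 ^ n) := by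
  have hs : ∀ p ∈ (Icc 3 (2 ^ n)).filter Nat.Prime, 3 ≤ p := by
    intro p hp
    exact (Finset.mem_Icc.1 (Finset.mem_filter.1 hp).1).1
  have h1 : ∏ p ∈ (Icc 3 (2 ^ n)).filter Nat.Prime,
      (Real.exp (-(2 * b * (1 / (p : ℝ)))) * (if p ≤ 2 * b then 1 / (p : ℝ) else 1)) ≤ dens b (2 ^ n) := by
    unfold SW.dens
    apply Finset.prod_le_prod
    · intro p _
      split_ifs <;> positivity
    · intro p hp
      exact factor_ge b p (hs p hp)
  refine le_trans ?_ h1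
  rw [Finset.prod_mul_distrib]
  have hsum : ∑ p ∈ (Icc 3 (2 ^ n)).filter Nat.Prime, (1 / (p : ℝ)) ≤ Real.log n + 8 := by
    refine le_trans ?_ (Pool.Agent.Helper52.mertens2 hn)
    apply Finset.sum_le_sum_of_subset_of_nonneg
    · intro p hp
      rw [Finset.mem_filter, Finset.mem_Icc] at hp
      rw [Pool.Agent.Helper52.mem_pr]
      exact ⟨by omega, hp.1.2, hp.2⟩
    · intro p _ _
      positivity
  have h2 : Real.exp (-(2 * b * (Real.log n + 8))) ≤
      ∏ p ∈ (Icc 3 (2 ^ n)).filter Nat.Prime, Real.exp (-(2 * b * (1 / (p : ℝ)))) := by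
    rw [← Real.exp_sum, Real.exp_le_exp, Finset.sum_neg_distrib, ← Finset.mul_sum]
    have hb : (0 : ℝ) ≤ 2 * b := by positivity
    have := mul_le_mul_of_nonneg_left hsum hb
    linarith
  have h3 := small_prod b ((Icc 3 (2 ^ n)).filter Nat.Prime) (fun p hp => by have := hs p hp; omega)
  have h4 : 0 ≤ ∏ p ∈ Icc 1 (2 * b), (1 / (p : ℝ)) := Finset.prod_nonneg (fun p _ => by positivity)
  exact mul_le_mul h2 h3 h4 (Finset.prod_nonneg (fun p _ => (Real.exp_pos _).le))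

private theorem dens_anti (b : ℕ) {w v : ℕ} (h : w ≤ v) : dens b v ≤ dens b w := by
  unfold SW.dens
  have hsub : (Icc 3 w).filter Nat.Prime ⊆ (Icc 3 v).filter Nat.Prime :=
    Finset.filter_subset_filter _ (Finset.Icc_subset_Icc le_rfl h)
  rw [← Finset.prod_sdiff hsub]
  have h1 : ∏ p ∈ (Icc 3 v).filter Nat.Prime \ (Icc 3 w).filter Nat.Prime,
      (1 - ((min b (p - 1) : ℕ) : ℝ) / (p : ℝ)) ≤ 1 := by
    apply Finset.prod_le_one
    · intro p hp
      have h3 : 3 ≤ p := (Finset.mem_Icc.1 (Finset.mem_filter.1 (Finset.mem_sdiff.1 hp).1).1).1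
      exact le_trans (by positivity) (factor_pos b p h3)
    · intro p _
      have : (0 : ℝ) ≤ ((min b (p - 1) : ℕ) : ℝ) / (p : ℝ) := by positivity
      linarith
  have h2 : 0 ≤ ∏ p ∈ (Icc 3 w).filter Nat.Prime, (1 - ((min b (p - 1) : ℕ) : ℝ) / (p : ℝ)) :=
    (dens_pos b w).le
  nlinarith

theorem dens_low (b : ℕ) : ∃ c : ℝ, 0 < c ∧ ∃ C : ℕ, ∀ w : ℕ, 3 ≤ w → c / Real.log w ^ C ≤ dens b w := by
  set c : ℝ := ∏ p ∈ Icc 1 (2 * b), (1 / (p : ℝ)) with hc
  have hcpos : 0 < c := by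
    apply Finset.prod_pos
    intro p hp
    have hp1 : 1 ≤ p := (Finset.mem_Icc.1 hp).1
    have hp1' : (1 : ℝ) ≤ p := by exact_mod_cast hp1
    positivity
  refine ⟨c / (Real.exp (16 * b) * 3 ^ (2 * b)), by positivity, 2 * b, fun w hw => ?_⟩
  set n : ℕ := Nat.clog 2 w with hn
  have hwn : w ≤ 2 ^ n := Nat.le_pow_clog (by norm_num) w
  have hn2 : 2 ≤ n := by
    by_contra h
    have h1 : n ≤ 1 := by omega
    have h2 : 2 ^ n ≤ 2 ^ 1 := Nat.pow_le_pow_right (by norm_num) h1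
    omega
  have hlt : 2 ^ (n - 1) < w := by
    have := Nat.pow_pred_clog_lt_self (b := 2) (by norm_num) (x := w) (by omega)
    exact this
  have hw3 : (3 : ℝ) ≤ (w : ℝ) := by exact_mod_cast hw
  have hw0 : (0 : ℝ) < (w : ℝ) := by linarith
  have hlog1 : 1 ≤ Real.log w := by
    rw [Real.le_log_iff_exp_le hw0]
    have := Real.exp_one_lt_d9
    linarith
  have hnl : (n : ℝ) ≤ 3 * Real.log w := by
    have h1 : ((2 : ℝ) ^ (n - 1)) ≤ w := by exact_mod_cast hlt.le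
    have h2 : Real.log ((2 : ℝ) ^ (n - 1)) ≤ Real.log w := Real.log_le_log (by positivity) h1
    rw [Real.log_pow, Nat.cast_sub (by omega), Nat.cast_one] at h2
    have h3 := Real.log_two_gt_d9
    have hn2' : (2 : ℝ) ≤ n := by exact_mod_cast hn2
    nlinarith
  have h1 := dens_ge b n (by omega)
  have hn0 : (0 : ℝ) < n := by
    have : 0 < n := by omega
    exact_mod_cast this
  have h2 : Real.exp (-(2 * b * (Real.log n + 8))) = 1 / ((n : ℝ) ^ (2 * b) * Real.exp (16 * b)) := by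
    rw [show -(2 * (b : ℝ) * (Real.log n + 8)) = -(((2 * b : ℕ) : ℝ) * Real.log n + 16 * b) by
      push_cast; ring, Real.exp_neg, Real.exp_add, Real.exp_nat_mul, Real.exp_log hn0, one_div]
  rw [h2] at h1
  refine le_trans ?_ (le_trans h1 (dens_anti b hwn))
  have h5 : (n : ℝ) ^ (2 * b) ≤ 3 ^ (2 * b) * Real.log w ^ (2 * b) := by
    rw [← mul_pow]
    exact pow_le_pow_left₀ hn0.le hnl _
  have hE : 0 < Real.exp (16 * (b : ℝ)) := Real.exp_pos _
  have hN : (0 : ℝ) < (n : ℝ) ^ (2 * b) := by positivity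
  have hL : (0 : ℝ) < Real.log w ^ (2 * b) := by positivity
  rw [one_div_mul_eq_div, div_div]
  apply div_le_div_of_nonneg_left hcpos.le (by positivity)
  calc (n : ℝ) ^ (2 * b) * Real.exp (16 * b) ≤ (3 ^ (2 * b) * Real.log w ^ (2 * b)) * Real.exp (16 * b) :=
        mul_le_mul_of_nonneg_right h5 hE.le
    _ = Real.exp (16 * b) * 3 ^ (2 * b) * Real.log w ^ (2 * b) := by ring

end Pool.Agent.SWQ
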