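import Pool.Agent.SWQ.BrunL
import Pool.Agent.SWQ.DensLow
import Pool.Agent.SW.Loc

/-! SWQ/LocQ.  Every walk meets many numbers coprime to `primorial (lev D (2N))` (the level is taken at the scale `2N`).

PROOF.  As `Pool/Agent/SW/Loc.lean`, with `brun_low` at the scale `2N` (`M ≤ 2N` arbitrary) in place of the Chinese remainder count:
`Ω p c :↔ ∃ x ∈ L, p ∣ k + 2^u (c + x)` (at most `min b (p-1)` classes modulo the odd prime `p`: `L` has `b` elements, and misses a class),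
`M = ⌊N/2^u⌋ - max L`, exponent `A` larger than the exponent `C` of `dens_low` (plus one), so that the error `2N/(log 2N)^A` is `≤ M dens/4`
(`log (lev D (2N)) ≤ D log log (2N) ≤ log (2N)`).  For a good `t ≥ 1` `crossing` gives `n`, `x ∈ L` with `hs s n = 2^u (t + x) ≤ N`; each `n` belongs to
at most `b` values of `t`. -/

set_option autoImplicit false

namespace Pool.Agent.SWQ

open Finset Pool.Agent.SW Pool.Agent.Helper27

private theorem lq_modEq {p u k t t' x x' : ℕ} (hcop : Nat.Coprime (2 ^ u) p)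
    (h : p ∣ k + 2 ^ u * (t + x)) (h' : p ∣ k + 2 ^ u * (t' + x')) :
    t + x ≡ t' + x' [MOD p] := by
  have h1 : k + 2 ^ u * (t + x) ≡ k + 2 ^ u * (t' + x') [MOD p] :=
    ((Nat.modEq_zero_iff_dvd).2 h).trans ((Nat.modEq_zero_iff_dvd).2 h').symm
  have h2 : 2 ^ u * (t + x) ≡ 2 ^ u * (t' + x') [MOD p] := Nat.ModEq.add_left_cancel' k h1
  exact Nat.ModEq.cancel_left_of_coprime hcop.symm h2

private def lqOm (L : List ℕ) (k u p c : ℕ) : Prop := ∃ x ∈ L, p ∣ k + 2 ^ u * (c + x)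

private theorem lq_mod (L : List ℕ) (k u p c : ℕ) : lqOm L k u p (c % p) ↔ lqOm L k u p c := by
  have key : ∀ x, (p ∣ k + 2 ^ u * (c % p + x)) ↔ (p ∣ k + 2 ^ u * (c + x)) := by
    intro x
    have h : k + 2 ^ u * (c % p + x) ≡ k + 2 ^ u * (c + x) [MOD p] :=
      Nat.ModEq.add_left _ (Nat.ModEq.mul_left _ (Nat.ModEq.add_right _ (Nat.mod_modEq _ _)))
    exact h.dvd_iff (dvd_refl _)
  unfold lqOm
  constructor
  · rintro ⟨x, hx, h⟩
    exact ⟨x, hx, (key x).1 h⟩
  · rintro ⟨x, hx, h⟩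
    exact ⟨x, hx, (key x).2 h⟩

private theorem lq_card {p : ℕ} (hp : p.Prime) (hp2 : p ≠ 2) (u b : ℕ) (L : List ℕ)
    (hLb : L.length = b) (hmiss : ∃ a, Misses L p a) (k : ℕ) :
    {c : ℕ | c < p ∧ lqOm L k u p c}.ncard ≤ min b (p - 1) := by
  classical
  have hcop : Nat.Coprime (2 ^ u) p :=
    Nat.Coprime.pow_left u ((Nat.coprime_primes Nat.prime_two hp).2 fun h => hp2 h.symm)
  have hset : {c : ℕ | c < p ∧ lqOm L k u p c} =
      (((range p).filter fun c => lqOm L k u p c : Finset ℕ) : Set ℕ) := by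
    ext c
    simp
  rw [hset, Set.ncard_coe_finset]
  refine le_min ?_ ?_
  · have hsub : ((range p).filter fun c => lqOm L k u p c) ⊆
        L.toFinset.biUnion fun x => (range p).filter fun t => p ∣ k + 2 ^ u * (t + x) := by
      intro t ht
      rw [mem_filter, mem_range] at ht
      obtain ⟨h2, x, hx, hd⟩ := ht
      rw [mem_biUnion]
      exact ⟨x, List.mem_toFinset.2 hx, mem_filter.2 ⟨mem_range.2 h2, hd⟩⟩
    refine (card_le_card hsub).trans ?_
    refine (card_biUnion_le_card_mul _ _ 1 fun x _ => ?_).trans ?_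
    · rw [card_le_one]
      intro t ht t' ht'
      rw [mem_filter, mem_range] at ht ht'
      have h3 := lq_modEq hcop ht.2 ht'.2
      exact Nat.ModEq.eq_of_lt_of_lt (Nat.ModEq.add_right_cancel' x h3) ht.1 ht'.1
    · rw [mul_one, ← hLb]
      exact List.toFinset_card_le L
  · obtain ⟨a, ha⟩ := hmiss
    obtain ⟨v, _, hv⟩ := Nat.exists_mul_mod_eq_one_of_coprime hcop hp.one_lt
    have hz : p ∣ k + 2 ^ u * ((v * ((p - 1) * k) + (p - 1) * a) % p + a) := by
      rw [← ZMod.natCast_eq_zero_iff]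
      have hv' : ((2 : ZMod p) ^ u) * (v : ZMod p) = 1 := by
        have h3 : ((2 ^ u * v : ℕ) : ZMod p) = ((1 : ℕ) : ZMod p) := by
          rw [ZMod.natCast_eq_natCast_iff]
          rw [Nat.ModEq, hv, Nat.mod_eq_of_lt hp.one_lt]
        push_cast at h3
        exact h3
      have hp1 : ((p - 1 : ℕ) : ZMod p) = -1 := by
        rw [Nat.cast_sub hp.one_lt.le]
        simp
      push_cast
      rw [ZMod.natCast_mod]
      push_cast
      rw [hp1]
      linear_combination (-(k : ZMod p)) * hv'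
    set c0 : ℕ := (v * ((p - 1) * k) + (p - 1) * a) % p with hc0
    have hc0p : c0 < p := Nat.mod_lt _ hp.pos
    have hsub : ((range p).filter fun c => lqOm L k u p c) ⊆ (range p).erase c0 := by
      intro c hc
      rw [mem_filter] at hc
      rw [mem_erase]
      refine ⟨?_, hc.1⟩
      rintro rfl
      obtain ⟨x, hx, hd⟩ := hc.2
      have h3 := lq_modEq hcop hd hz
      exact ha x hx (Nat.ModEq.add_left_cancel' _ h3)
    refine (card_le_card hsub).trans ?_
    rw [card_erase_of_mem (mem_range.2 hc0p), card_range]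

private theorem lq_large (D u C : ℕ) (hD : 1 ≤ D) (c : ℝ) (hc : 0 < c) :
    ∃ N0 : ℕ, ∀ N : ℕ, N0 ≤ N → 3 ≤ lev D (2 * N) ∧
      2 ^ (u + 3) ≤ c / Real.log (lev D (2 * N)) ^ C * Real.log ((2 * N : ℕ) : ℝ) ^ (C + 1) := by
  have hlog : Filter.Tendsto (fun N : ℕ => Real.log ((2 * N : ℕ) : ℝ)) Filter.atTop Filter.atTop := by
    refine Real.tendsto_log_atTop.comp ?_
    refine tendsto_natCast_atTop_atTop.comp ?_
    exact Filter.tendsto_id.const_mul_atTop' (by norm_num)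
  have hD0 : (0 : ℝ) < D := by exact_mod_cast hD
  have h1 : ∀ᶠ y : ℝ in Filter.atTop, D * Real.log y ≤ y := by
    have h2 := Real.isLittleO_log_id_atTop.bound (show (0 : ℝ) < 1 / D by positivity)
    filter_upwards [h2, Filter.eventually_ge_atTop (1 : ℝ)] with y hy hy1
    rw [Real.norm_of_nonneg (Real.log_nonneg hy1), id, Real.norm_of_nonneg (by linarith)] at hy
    calc (D : ℝ) * Real.log y ≤ D * (1 / D * y) := by gcongr
      _ = y := by field_simp
  have h2 : ∀ᶠ N : ℕ in Filter.atTop, D * Real.log (Real.log ((2 * N : ℕ) : ℝ)) ≤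
      Real.log ((2 * N : ℕ) : ℝ) := hlog.eventually h1
  have h3 : ∀ᶠ N : ℕ in Filter.atTop, 3 ≤ Real.log ((2 * N : ℕ) : ℝ) :=
    hlog.eventually (Filter.eventually_ge_atTop 3)
  have h4 : ∀ᶠ N : ℕ in Filter.atTop, 2 ^ (u + 3) / c ≤ Real.log ((2 * N : ℕ) : ℝ) :=
    hlog.eventually (Filter.eventually_ge_atTop _)
  obtain ⟨N0, hN0⟩ := Filter.eventually_atTop.1 (h2.and (h3.and h4))
  refine ⟨N0, fun N hN => ?_⟩
  obtain ⟨a2, a3, a4⟩ := hN0 N hN
  set y : ℝ := Real.log ((2 * N : ℕ) : ℝ) with hy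
  have hyD : y ≤ y ^ D := by
    calc y = y ^ 1 := (pow_one y).symm
      _ ≤ y ^ D := pow_le_pow_right₀ (by linarith) hD
  have hw3 : 3 ≤ lev D (2 * N) := by
    unfold lev
    refine Nat.le_floor ?_
    have : ((3 : ℕ) : ℝ) = 3 := by norm_num
    rw [this]
    linarith
  refine ⟨hw3, ?_⟩
  have hwR : ((lev D (2 * N) : ℕ) : ℝ) ≤ y ^ D := Nat.floor_le (by positivity)
  have hw0 : (3 : ℝ) ≤ ((lev D (2 * N) : ℕ) : ℝ) := by exact_mod_cast hw3
  have hlw : Real.log (lev D (2 * N)) ≤ y := by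
    calc Real.log (lev D (2 * N)) ≤ Real.log (y ^ D) := Real.log_le_log (by linarith) hwR
      _ = D * Real.log y := Real.log_pow y D
      _ ≤ y := a2
  have hlw0 : 0 < Real.log (lev D (2 * N)) := Real.log_pos (by linarith)
  have hy0 : 0 < y := by linarith
  calc (2 : ℝ) ^ (u + 3) = c * (2 ^ (u + 3) / c) := by field_simp
    _ ≤ c * y := by gcongr
    _ = c / y ^ C * y ^ (C + 1) := by
        rw [pow_succ]
        field_simp
    _ ≤ c / Real.log (lev D (2 * N)) ^ C * y ^ (C + 1) := by gcongr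

private theorem lq_final {b u N M cnt : ℕ} {d E : ℝ} (hb : 0 < b) (hd : 0 ≤ d)
    (hN : (N : ℝ) ≤ 2 ^ (u + 1) * M) (hE : 2 ^ (u + 2) * E ≤ d * N)
    (h : M * d - E ≤ b * (cnt : ℝ)) : d * N / (2 ^ (u + 2) * b) ≤ (cnt : ℝ) := by
  have hb0 : (0 : ℝ) < b := by exact_mod_cast hb
  rw [div_le_iff₀ (by positivity)]
  have h1 : d * N ≤ d * (2 ^ (u + 1) * M) := mul_le_mul_of_nonneg_left hN hd
  have h2 : (2 : ℝ) ^ (u + 2) * (M * d - E) ≤ 2 ^ (u + 2) * (b * (cnt : ℝ)) :=
    mul_le_mul_of_nonneg_left h (by positivity)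
  have h3 : (2 : ℝ) ^ (u + 2) = 2 * 2 ^ (u + 1) := by ring
  rw [h3] at hE h2 ⊢
  nlinarith

theorem loc_q (u b D : ℕ) (hu : 1 ≤ u) (hb : 2 ≤ b) (hD : 1 ≤ D) (L : List ℕ) (hL : IsCut b L)
    (hadm : ∀ q : ℕ, q.Prime → q ≠ 2 → ∃ a, Misses L q a) : ∃ N0 : ℕ, ∀ N : ℕ, N0 ≤ N →
    ∀ s : ℕ → ℕ, (∀ n, s n = 2 ^ u ∨ s n = 2 ^ u * b) → ∀ k : ℕ, Odd k →
    dens b (lev D (2 * N)) * N / (2 ^ (u + 2) * b) ≤
      (((range (N + 1)).filter fun n => hs s n ≤ N ∧
        (k + hs s n).Coprime (primorial (lev D (2 * N)))).card : ℝ) := by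
  classical
  obtain ⟨c, hc, C, hdens⟩ := dens_low b
  obtain ⟨N1, hN1⟩ := brun_low D b (C + 1) hD (by omega)
  obtain ⟨N2, hN2⟩ := lq_large D u C hD c hc
  obtain ⟨B, hB⟩ : ∃ B : ℕ, ∀ x ∈ L, x ≤ B :=
    ⟨L.sum, fun x hx => List.single_le_sum (by simp) x hx⟩
  refine ⟨N1 + N2 + 2 ^ (u + 1) * (1 + B), fun N hN s hs' k hk => ?_⟩
  obtain ⟨w, hw⟩ : ∃ w, w = lev D (2 * N) := ⟨_, rfl⟩
  obtain ⟨hw3, hbig⟩ := hN2 N (by omega)
  have hdw := hdens (lev D (2 * N)) hw3
  rw [← hw] at hw3 hbig hdw ⊢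
  -- numbers
  obtain ⟨M, hM⟩ : ∃ M, M = N / 2 ^ u - B := ⟨_, rfl⟩
  have h2u : 0 < 2 ^ u := by positivity
  have hNu : 2 ^ u * (N / 2 ^ u) ≤ N := Nat.mul_div_le N (2 ^ u)
  have hNM : N < 2 ^ u * (N / 2 ^ u + 1) := Nat.lt_mul_div_succ N h2u
  have hM2 : 2 * (1 + B) ≤ N / 2 ^ u := by
    rw [Nat.le_div_iff_mul_le h2u]
    have h1 : 2 * (1 + B) * 2 ^ u = 2 ^ (u + 1) * (1 + B) := by
      rw [pow_succ]
      ring
    rw [h1]
    omega
  have hNM2 : N ≤ 2 ^ (u + 1) * M := by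
    have h1 : N / 2 ^ u + 1 ≤ 2 * M := by omega
    have h2 : 2 ^ u * (N / 2 ^ u + 1) ≤ 2 ^ u * (2 * M) := Nat.mul_le_mul_left _ h1
    have h3 : 2 ^ (u + 1) * M = 2 ^ u * (2 * M) := by
      rw [pow_succ]
      ring
    omega
  have hMB : M + B ≤ N / 2 ^ u := by omega
  have hMN : M ≤ 2 * N := by
    have h1 : N / 2 ^ u ≤ N := Nat.div_le_self _ _
    omega
  have hbr := hN1 (2 * N) (by omega) M hMN (lqOm L k u) (fun p c _ => lq_mod L k u p c)
    (fun p hp hp3 => lq_card hp (by omega) u b L hL.1 (hadm p hp (by omega)) k)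
  rw [← hw] at hbr
  -- the walk in scaled coordinates
  obtain ⟨τ, hτ⟩ : ∃ τ : ℕ → ℕ, τ = fun n => ∑ m ∈ range n, (if s m = 2 ^ u then 1 else b) :=
    ⟨_, rfl⟩
  have hτs : ∀ n, τ (n + 1) = τ n + (if s n = 2 ^ u then 1 else b) := by
    intro n
    rw [hτ]
    exact Finset.sum_range_succ _ _
  have hhs : ∀ n, hs s n = 2 ^ u * τ n := by
    intro n
    rw [hτ]
    unfold hs
    rw [Finset.mul_sum]
    refine Finset.sum_congr rfl fun m _ => ?_
    split_ifs with h
    · rw [h, mul_one]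
    · rcases hs' m with h1 | h1
      · exact absurd h1 h
      · exact h1
  have hτn : ∀ n, n ≤ τ n := by
    intro n
    induction n with
    | zero => exact Nat.zero_le _
    | succ n ih =>
      rw [hτs]
      split_ifs
      · omega
      · omega
  have hcross : ∀ t : ℕ, ∃ n x : ℕ, 0 < t → (x ∈ L ∧ τ n = t + x) := by
    intro t
    by_cases ht : 0 < t
    · obtain ⟨n, x, hx, hn⟩ := crossing b (by omega) L hL (fun n => (τ n : ℤ)) (fun n => by
        rw [hτs]
        split_ifs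
        · left
          push_cast
          ring
        · right
          push_cast
          ring) (t : ℤ) (by
        have h0 : τ 0 = 0 := by
          rw [hτ]
          exact Finset.sum_range_zero _
        simp only [h0]
        exact_mod_cast ht)
      exact ⟨n, x, fun _ => ⟨hx, by exact_mod_cast hn⟩⟩
    · exact ⟨0, 0, fun h => absurd h ht⟩
  choose nf xf hnx using hcross
  obtain ⟨G, hG⟩ : ∃ G : Finset ℕ, G = (Icc 1 M).filter fun t => ∀ p : ℕ, p.Prime → 3 ≤ p → p ≤ w →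
      ¬ lqOm L k u p t := ⟨_, rfl⟩
  have hset : {t : ℕ | 1 ≤ t ∧ t ≤ M ∧ ∀ p : ℕ, p.Prime → 3 ≤ p → p ≤ w → ¬ lqOm L k u p t} =
      (G : Set ℕ) := by
    ext t
    rw [hG, mem_coe, mem_filter, mem_Icc]
    constructor
    · rintro ⟨h1, h2, h3⟩
      exact ⟨⟨h1, h2⟩, h3⟩
    · rintro ⟨⟨h1, h2⟩, h3⟩
      exact ⟨h1, h2, h3⟩
  rw [hset, Set.ncard_coe_finset] at hbr
  have hGm : ∀ t ∈ G, 0 < t ∧ t ≤ M ∧ ∀ p : ℕ, p.Prime → 3 ≤ p → p ≤ w → ¬ lqOm L k u p t := by
    intro t ht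
    rw [hG, mem_filter, mem_Icc] at ht
    exact ⟨ht.1.1, ht.1.2, ht.2⟩
  have hkey : G.card ≤ b * ((range (N + 1)).filter fun n => hs s n ≤ N ∧
      (k + hs s n).Coprime (primorial w)).card := by
    have himg : G.image nf ⊆ (range (N + 1)).filter fun n => hs s n ≤ N ∧
        (k + hs s n).Coprime (primorial w) := by
      intro n hn
      rw [mem_image] at hn
      obtain ⟨t, ht, rfl⟩ := hn
      obtain ⟨h0, h1, h2⟩ := hGm t ht
      obtain ⟨hx, hn⟩ := hnx t h0
      have h5 : τ (nf t) ≤ N / 2 ^ u := by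
        have := hB _ hx
        omega
      have h6 : hs s (nf t) ≤ N := by
        rw [hhs]
        exact (Nat.mul_le_mul_left _ h5).trans hNu
      rw [mem_filter, mem_range]
      refine ⟨?_, h6, ?_⟩
      · have h7 := hτn (nf t)
        have h8 : τ (nf t) ≤ 2 ^ u * τ (nf t) := Nat.le_mul_of_pos_left _ h2u
        rw [← hhs] at h8
        omega
      · unfold primorial
        refine Nat.Coprime.prod_right fun p hp => ?_
        rw [mem_filter, mem_range] at hp
        refine ((Nat.Prime.coprime_iff_not_dvd hp.2).2 fun hd => ?_).symm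
        rw [hhs, hn] at hd
        by_cases hp2 : p = 2
        · subst hp2
          have h9 : Even (2 ^ u * (t + xf t)) := by
            refine Even.mul_right ?_ _
            exact (Nat.even_pow.2 ⟨even_two, by omega⟩)
          exact (Nat.not_even_iff_odd.2 (hk.add_even h9)) (even_iff_two_dvd.2 hd)
        · have := hp.2.two_le
          exact h2 p hp.2 (by omega) (by omega) ⟨xf t, hx, hd⟩
    have hfib : ∀ n ∈ G.image nf, (G.filter fun t => nf t = n).card ≤ b := by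
      intro n _
      refine le_trans ?_ (le_trans (List.toFinset_card_le L) (le_of_eq hL.1))
      refine card_le_card_of_injOn xf (fun t ht => ?_) (fun t ht t' ht' htt => ?_)
      · rw [mem_coe, mem_filter] at ht
        rw [mem_coe, List.mem_toFinset]
        exact (hnx _ (hGm t ht.1).1).1
      · rw [mem_coe, mem_filter] at ht ht'
        have e1 := (hnx _ (hGm t ht.1).1).2
        have e2 := (hnx _ (hGm t' ht'.1).1).2
        rw [ht.2] at e1
        rw [ht'.2] at e2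
        omega
    exact (card_le_mul_card_image G b hfib).trans (Nat.mul_le_mul_left b (card_le_card himg))
  have hkR : (G.card : ℝ) ≤ b * ((((range (N + 1)).filter fun n => hs s n ≤ N ∧
      (k + hs s n).Coprime (primorial w)).card : ℕ) : ℝ) := by exact_mod_cast hkey
  have hlogpos : 0 < Real.log ((2 * N : ℕ) : ℝ) := by
    apply Real.log_pos
    have h1 : 1 < 2 * N := by
      have h2 : 1 ≤ 2 ^ (u + 1) := Nat.one_le_two_pow
      have h3 : 1 ≤ 2 ^ (u + 1) * (1 + B) := Nat.one_le_iff_ne_zero.2 (by positivity)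
      omega
    exact_mod_cast h1
  have hlw0 : 0 < Real.log w := Real.log_pos (by exact_mod_cast (by omega : 1 < w))
  have hd0 : 0 ≤ dens b w := le_trans (by positivity) hdw
  refine lq_final (E := ((2 * N : ℕ) : ℝ) / Real.log ((2 * N : ℕ) : ℝ) ^ (C + 1)) (M := M)
    (by omega) hd0 ?_ ?_ (hbr.trans hkR)
  · exact_mod_cast hNM2
  · have h1 : (2 : ℝ) ^ (u + 3) ≤ dens b w * Real.log ((2 * N : ℕ) : ℝ) ^ (C + 1) :=
      hbig.trans (mul_le_mul_of_nonneg_right hdw (by positivity))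
    have hpos : 0 < Real.log ((2 * N : ℕ) : ℝ) ^ (C + 1) := by positivity
    have h2 : (2 : ℝ) ^ (u + 3) / Real.log ((2 * N : ℕ) : ℝ) ^ (C + 1) ≤ dens b w := by
      rw [div_le_iff₀ hpos]
      exact h1
    calc (2 : ℝ) ^ (u + 2) * (((2 * N : ℕ) : ℝ) / Real.log ((2 * N : ℕ) : ℝ) ^ (C + 1))
        = (2 : ℝ) ^ (u + 3) / Real.log ((2 * N : ℕ) : ℝ) ^ (C + 1) * N := by
          push_cast
          ring
      _ ≤ dens b w * N := by gcongr

end Pool.Agent.SWQ
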