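import Pool.Agent.SWQ.UniQ
import Pool.Agent.SWQ.LocQ
import Pool.Agent.SW.Bil
import Pool.Agent.SW.DensM

/-! SWQ/DensQ.  THE DENSITY THEOREM, quantitative form.  As `Pool/Agent/SW/DensM.lean`, with the level `w = lev (A + 2) (2N)`:
for `K` the set of the bad starting points and `H` the set of the positions up to `N`, the sum of the model over `K + H` is
large (`loc_q`, `dens_low`), the sum of `Λ` is small (`inner_prime`), and the difference is small (`bil`, `uni_q`). -/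

set_option autoImplicit false

namespace Pool.Agent.SWQ

open Finset Filter Topology Pool.Agent.SW Pool.Agent.Helper27

private theorem hs_mono {s : ℕ → ℕ} (h1 : ∀ n, 1 ≤ s n) : StrictMono (hs s) := by
  refine strictMono_nat_of_lt_succ fun n => ?_
  rw [hs, hs, Finset.sum_range_succ]
  have := h1 n
  omega

private theorem hs_ge {s : ℕ → ℕ} (h1 : ∀ n, 1 ≤ s n) (n : ℕ) : n ≤ hs s n := (hs_mono h1).le_apply

private theorem lam_nonneg (w n : ℕ) : 0 ≤ lam w n := by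
  rw [lam]
  split_ifs
  · positivity
  · exact le_rfl

private theorem lam_ge {w n : ℕ} (h : n.Coprime (primorial w)) : 1 ≤ lam w n := by
  rw [lam, if_pos h]
  have h1 : 0 < (primorial w).totient := Nat.totient_pos.2 (primorial_pos w)
  have h2 : (0 : ℝ) < ((primorial w).totient : ℝ) := by exact_mod_cast h1
  rw [le_div_iff₀ h2, one_mul]
  exact_mod_cast Nat.totient_le _

/-- the positions up to `N` -/
private def HH (s : ℕ → ℕ) (N : ℕ) : Finset ℕ := ((range (N + 1)).filter fun n => hs s n ≤ N).image (hs s)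

private theorem HH_sub (s : ℕ → ℕ) (N : ℕ) : HH s N ⊆ Icc 0 N := by
  intro x hx
  rw [HH, mem_image] at hx
  obtain ⟨n, hn, rfl⟩ := hx
  exact mem_Icc.2 ⟨Nat.zero_le _, (mem_filter.1 hn).2⟩

private theorem HH_card (s : ℕ → ℕ) (N : ℕ) : (HH s N).card ≤ N + 1 := by
  have := card_le_card (HH_sub s N)
  simpa using this

private theorem HH_sum {s : ℕ → ℕ} (h1 : ∀ n, 1 ≤ s n) (N : ℕ) (f : ℕ → ℝ) :
    ∑ h ∈ HH s N, f h = ∑ n ∈ (range (N + 1)).filter (fun n => hs s n ≤ N), f (hs s n) := by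
  rw [HH, sum_image]
  intro a _ b _ hab
  exact (hs_mono h1).injective hab

private theorem inner_lam {s : ℕ → ℕ} (h1 : ∀ n, 1 ≤ s n) (N w k : ℕ) {c : ℝ}
    (h : c ≤ (((range (N + 1)).filter fun n => hs s n ≤ N ∧ (k + hs s n).Coprime (primorial w)).card : ℝ)) :
    c ≤ ∑ h ∈ HH s N, lam w (k + h) := by
  rw [HH_sum h1 N (fun h => lam w (k + h))]
  refine h.trans ?_
  rw [← filter_filter]
  have h2 : ((((range (N + 1)).filter fun n => hs s n ≤ N).filter
      fun n => (k + hs s n).Coprime (primorial w)).card : ℝ) =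
      ∑ _n ∈ ((range (N + 1)).filter fun n => hs s n ≤ N).filter
        (fun n => (k + hs s n).Coprime (primorial w)), (1 : ℝ) := by
    rw [sum_const, nsmul_eq_mul, mul_one]
  rw [h2]
  refine (sum_le_sum fun n hn => lam_ge (mem_filter.1 hn).2).trans ?_
  exact sum_le_sum_of_subset_of_nonneg (filter_subset _ _) fun n _ _ => lam_nonneg _ _

private theorem inner_prime {s : ℕ → ℕ} (h1 : ∀ n, 1 ≤ s n) {N k : ℕ} {R : ℝ} (hk1 : 1 ≤ k) (hk : k ≤ N)
    (hR : (({n : ℕ | (k + hs s n).Prime ∧ k + hs s n ≤ 2 * N}.ncard : ℕ) : ℝ) ≤ R) :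
    ∑ h ∈ HH s N, ArithmeticFunction.vonMangoldt (k + h) ≤
      R * Real.log ((2 * N : ℕ) : ℝ) + 2 * √((2 * N : ℕ) : ℝ) * Real.log ((2 * N : ℕ) : ℝ) := by
  have hN : 1 ≤ N := hk1.trans hk
  have hN2 : (1 : ℝ) ≤ ((2 * N : ℕ) : ℝ) := by
    exact_mod_cast (by omega : 1 ≤ 2 * N)
  have hlog : 0 ≤ Real.log ((2 * N : ℕ) : ℝ) := Real.log_nonneg hN2
  rw [← sum_filter_add_sum_filter_not (HH s N) (fun h => (k + h).Prime)]
  refine add_le_add ?_ ?_
  · have h2 : (((HH s N).filter fun h => (k + h).Prime).card : ℝ) ≤ R := by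
      have h3 : (((HH s N).filter fun h => (k + h).Prime)).card ≤
          (((range (N + 1)).filter fun n => hs s n ≤ N).filter fun n => (k + hs s n).Prime).card := by
        rw [HH, filter_image]
        exact card_image_le
      have hfin : {n : ℕ | (k + hs s n).Prime ∧ k + hs s n ≤ 2 * N}.Finite := by
        refine (Set.finite_Iic (2 * N)).subset fun n hn => ?_
        have h5 := hs_ge h1 n
        have h6 : k + hs s n ≤ 2 * N := hn.2
        exact Set.mem_Iic.2 (by omega)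
      have h4 : ((((range (N + 1)).filter fun n => hs s n ≤ N).filter fun n => (k + hs s n).Prime : Finset ℕ) : Set ℕ)
          ⊆ {n : ℕ | (k + hs s n).Prime ∧ k + hs s n ≤ 2 * N} := by
        intro n hn
        rw [mem_coe, mem_filter, mem_filter] at hn
        exact ⟨hn.2, by omega⟩
      have h5 := Set.ncard_le_ncard h4 hfin
      rw [Set.ncard_coe_finset] at h5
      have h6 : ((((HH s N).filter fun h => (k + h).Prime).card : ℕ) : ℝ) ≤
          (({n : ℕ | (k + hs s n).Prime ∧ k + hs s n ≤ 2 * N}.ncard : ℕ) : ℝ) := by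
        exact_mod_cast h3.trans h5
      exact h6.trans hR
    calc ∑ h ∈ (HH s N).filter (fun h => (k + h).Prime), ArithmeticFunction.vonMangoldt (k + h)
        ≤ ∑ h ∈ (HH s N).filter (fun h => (k + h).Prime), Real.log ((2 * N : ℕ) : ℝ) := by
          refine sum_le_sum fun h hh => ?_
          rw [mem_filter] at hh
          have h6 := (mem_Icc.1 (HH_sub s N hh.1)).2
          rw [ArithmeticFunction.vonMangoldt_apply_prime hh.2]
          refine Real.log_le_log ?_ ?_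
          · exact_mod_cast hh.2.pos
          · exact_mod_cast (by omega : k + h ≤ 2 * N)
      _ = (((HH s N).filter fun h => (k + h).Prime).card : ℝ) * Real.log ((2 * N : ℕ) : ℝ) := by
          rw [sum_const, nsmul_eq_mul]
      _ ≤ R * Real.log ((2 * N : ℕ) : ℝ) := by
          exact mul_le_mul_of_nonneg_right h2 hlog
  · have h2 := Chebyshev.psi_sub_theta_le hN2
    rw [Chebyshev.psi_sub_theta_eq_sum_not_prime, Nat.floor_natCast] at h2
    refine le_trans ?_ h2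
    rw [← sum_image (f := fun m => ArithmeticFunction.vonMangoldt m) (g := fun h => k + h)
      (s := (HH s N).filter fun h => ¬ (k + h).Prime) (by
        intro a _ b _ hab
        exact Nat.add_left_cancel hab)]
    refine sum_le_sum_of_subset_of_nonneg ?_ fun n _ _ => ArithmeticFunction.vonMangoldt_nonneg
    intro m hm
    rw [mem_image] at hm
    obtain ⟨h, hh, rfl⟩ := hm
    rw [mem_filter] at hh ⊢
    have h6 := (mem_Icc.1 (HH_sub s N hh.1)).2
    refine ⟨mem_Ioc.2 ⟨by omega, by omega⟩, hh.2⟩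

/-- the final inequality: the error terms are smaller than the main term -/
private theorem fin_ineq (C D : ℕ) (hD : 1 ≤ D) {c c0 η : ℝ} (hc : 0 < c) (hc0 : 0 < c0) (hη : 0 < η) :
    ∃ x0 : ℝ, ∀ x : ℝ, x0 ≤ x → 4 ≤ x ∧
      2 ^ (1 + η) * x ^ (-η) + 1584 / x ^ 2 < c / (D * Real.log x) ^ C / c0 := by
  have h1 := (isLittleO_log_rpow_rpow_atTop (C : ℝ) hη).tendsto_div_nhds_zero
  have h2 := (isLittleO_log_rpow_rpow_atTop (C : ℝ) (show (0 : ℝ) < 2 by norm_num)).tendsto_div_nhds_zero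
  have h3 : Tendsto (fun x : ℝ => (D : ℝ) ^ C * 2 ^ (1 + η) * (Real.log x ^ (C : ℝ) / x ^ η) +
      (D : ℝ) ^ C * 1584 * (Real.log x ^ (C : ℝ) / x ^ (2 : ℝ))) atTop (𝓝 0) := by
    have := (h1.const_mul ((D : ℝ) ^ C * 2 ^ (1 + η))).add (h2.const_mul ((D : ℝ) ^ C * 1584))
    simpa using this
  have h4 := h3.eventually (gt_mem_nhds (show (0 : ℝ) < c / c0 by positivity))
  obtain ⟨x0, hx0⟩ := eventually_atTop.1 h4
  refine ⟨max x0 4, fun x hx => ⟨(le_max_right _ _).trans hx, ?_⟩⟩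
  have h5 := hx0 x ((le_max_left _ _).trans hx)
  have hx4 : 4 ≤ x := (le_max_right _ _).trans hx
  have hlog : 0 < Real.log x := Real.log_pos (by linarith)
  have hD' : (0 : ℝ) < D := by exact_mod_cast hD
  have hpos : 0 < ((D : ℝ) * Real.log x) ^ C := by positivity
  rw [div_div, mul_comm _ c0, ← div_div, lt_div_iff₀ hpos]
  refine lt_of_le_of_lt (le_of_eq ?_) h5
  rw [Real.rpow_natCast, Real.rpow_neg (by linarith), Real.rpow_ofNat, mul_pow]
  have hxη : 0 < x ^ η := Real.rpow_pos_of_pos (by linarith) _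
  field_simp

private theorem sqrt_part {N : ℕ} {x : ℝ} (hx : x = Real.log ((2 * N : ℕ) : ℝ)) (hx4 : 4 ≤ x) :
    2 * √((2 * N : ℕ) : ℝ) * x ≤ N * (1536 / x ^ 2) := by
  have hN : (0 : ℝ) < ((2 * N : ℕ) : ℝ) := by
    rcases Nat.eq_zero_or_pos N with h | h
    · rw [h] at hx
      simp at hx
      linarith
    · exact_mod_cast (by omega : 0 < 2 * N)
  have h1 : ((2 * N : ℕ) : ℝ) = Real.exp (x / 2) * Real.exp (x / 2) := by
    rw [← Real.exp_add, add_halves, hx, Real.exp_log hN]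
  have h2 : √((2 * N : ℕ) : ℝ) = Real.exp (x / 2) := by
    rw [h1]
    exact Real.sqrt_mul_self (Real.exp_pos _).le
  have h3 := Real.pow_div_factorial_le_exp (x / 2) (by linarith) 4
  have h4 : ((4 : ℕ).factorial : ℝ) = 24 := by norm_num [Nat.factorial]
  rw [h4] at h3
  rw [h2]
  obtain ⟨S, hS⟩ : ∃ S, S = Real.exp (x / 2) := ⟨_, rfl⟩
  rw [← hS] at h1 h3 ⊢
  have h5 : (N : ℝ) = S * S / 2 := by
    rw [← h1]
    push_cast
    ring
  have h6 : x ^ 3 ≤ 384 * S := by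
    have h7 : x ^ 3 * 1 ≤ x ^ 3 * x := mul_le_mul_of_nonneg_left (by linarith) (by positivity)
    have h8 : (x / 2) ^ 4 / 24 = x ^ 3 * x / 384 := by ring
    rw [h8] at h3
    linarith
  have hS0 : 0 < S := by rw [hS]; exact Real.exp_pos _
  rw [h5, mul_div_assoc', le_div_iff₀ (by positivity)]
  nlinarith

private theorem prime_part {N : ℕ} {x ℓ η : ℝ} (hx4 : 4 ≤ x) (hℓ : x / 2 ≤ ℓ) (hη : 0 < η) :
    N / ℓ ^ (1 + η) * x ≤ N * (2 ^ (1 + η) * x ^ (-η)) := by
  have hx0 : 0 < x := by linarith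
  have h1 : (x / 2) ^ (1 + η) ≤ ℓ ^ (1 + η) := Real.rpow_le_rpow (by linarith) hℓ (by linarith)
  have h2 : 0 < (x / 2) ^ (1 + η) := Real.rpow_pos_of_pos (by linarith) _
  calc N / ℓ ^ (1 + η) * x ≤ N / (x / 2) ^ (1 + η) * x := by gcongr
    _ = N * (2 ^ (1 + η) * x ^ (-η)) := by
      have h3 : 0 < x ^ η := Real.rpow_pos_of_pos hx0 _
      have h4 : (0 : ℝ) < 2 ^ (1 + η) := Real.rpow_pos_of_pos (by norm_num) _
      rw [Real.div_rpow hx0.le (by norm_num), Real.rpow_add hx0 1 η, Real.rpow_one, Real.rpow_neg hx0.le]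
      field_simp

theorem dens_q (u b : ℕ) (hu : 1 ≤ u) (hb : 2 ≤ b) (L : List ℕ) (hL : IsCut b L)
    (hadm : ∀ q : ℕ, q.Prime → q ≠ 2 → ∃ a, Misses L q a) (A : ℕ) (η : ℝ) (hη : 0 < η) :
    ∃ N0 : ℕ, ∀ N : ℕ, N0 ≤ N → ∀ s : ℕ → ℕ, (∀ n, s n = 2 ^ u ∨ s n = 2 ^ u * b) →
    (({k : ℕ | 1 ≤ k ∧ k ≤ N ∧ Odd k ∧
      (({n : ℕ | (k + hs s n).Prime ∧ k + hs s n ≤ 2 * N}.ncard : ℕ) : ℝ) ≤ N / Real.log N ^ (1 + η)}.ncard : ℕ) : ℝ) ≤
      N / Real.log N ^ A := by
  classical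
  have hb' : (0 : ℝ) < b := by
    have : 0 < b := by omega
    exact_mod_cast this
  set c0 : ℝ := 2 ^ (u + 2) * b with hc0
  have hc0p : 0 < c0 := by positivity
  obtain ⟨c, hc, C, hdl⟩ := dens_low b
  obtain ⟨x0, hx0⟩ := fin_ineq C (A + 2) (by omega) hc hc0p hη
  obtain ⟨N1, hN1⟩ := loc_q u b (A + 2) hu hb (by omega) L hL hadm
  obtain ⟨N2, hN2⟩ := uni_q (A + 2) (by omega)
  refine ⟨max (max N1 N2) (max ⌈Real.exp x0⌉₊ 3), fun N hN s hs' => ?_⟩
  have hNN1 : N1 ≤ N := ((le_max_left _ _).trans (le_max_left _ _)).trans hN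
  have hNN2 : N2 ≤ N := ((le_max_right _ _).trans (le_max_left _ _)).trans hN
  have hNN3 : ⌈Real.exp x0⌉₊ ≤ N := ((le_max_left _ _).trans (le_max_right _ _)).trans hN
  have hN3 : 3 ≤ N := ((le_max_right _ _).trans (le_max_right _ _)).trans hN
  have hNp : (0 : ℝ) < N := by exact_mod_cast (by omega : 0 < N)
  have hN2p : (0 : ℝ) < ((2 * N : ℕ) : ℝ) := by exact_mod_cast (by omega : 0 < 2 * N)
  have h1 : ∀ n, 1 ≤ s n := by
    intro n
    have h2u : 1 ≤ 2 ^ u := Nat.one_le_two_pow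
    rcases hs' n with h | h
    · rw [h]; exact h2u
    · rw [h]
      exact Nat.one_le_iff_ne_zero.2 (Nat.mul_ne_zero (by omega) (by omega))
  obtain ⟨x, hx⟩ : ∃ x, x = Real.log ((2 * N : ℕ) : ℝ) := ⟨_, rfl⟩
  obtain ⟨ℓ, hℓ⟩ : ∃ ℓ, ℓ = Real.log (N : ℝ) := ⟨_, rfl⟩
  have hxx0 : x0 ≤ x := by
    rw [hx, Real.le_log_iff_exp_le hN2p]
    have h2 := Nat.ceil_le.1 hNN3
    push_cast
    linarith
  obtain ⟨hx4, hfin⟩ := hx0 x hxx0
  have hx1 : x = Real.log 2 + ℓ := by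
    rw [hx, hℓ]
    push_cast
    rw [Real.log_mul (by norm_num) hNp.ne']
  have hlog2 : 0 < Real.log 2 := Real.log_pos (by norm_num)
  have hlog2' : Real.log 2 ≤ ℓ := by
    rw [hℓ]
    exact Real.log_le_log (by norm_num) (by exact_mod_cast (by omega : 2 ≤ N))
  have hℓ1 : x / 2 ≤ ℓ := by linarith
  have hℓ2 : ℓ ≤ x := by linarith
  have hℓ3 : 1 ≤ ℓ := by linarith
  -- the level
  obtain ⟨w, hw⟩ : ∃ w, w = lev (A + 2) (2 * N) := ⟨_, rfl⟩
  have hxpow : x ≤ x ^ (A + 2) := le_self_pow₀ (by linarith) (by omega)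
  have hwle : (w : ℝ) ≤ x ^ (A + 2) := by
    rw [hw, lev, ← hx]
    exact Nat.floor_le (by positivity)
  have hw3 : 3 ≤ w := by
    rw [hw, lev, ← hx]
    refine Nat.le_floor ?_
    push_cast
    linarith
  have hwp : (0 : ℝ) < w := by exact_mod_cast (by omega : 0 < w)
  have hlogw : 0 < Real.log w := Real.log_pos (by exact_mod_cast (by omega : 1 < w))
  have hlogw' : Real.log w ≤ ((A + 2 : ℕ) : ℝ) * Real.log x := by
    rw [← Real.log_pow]
    exact Real.log_le_log hwp hwle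
  have hdens : c / (((A + 2 : ℕ) : ℝ) * Real.log x) ^ C ≤ dens b w := by
    refine le_trans ?_ (hdl w hw3)
    exact div_le_div_of_nonneg_left hc.le (by positivity) (pow_le_pow_left₀ hlogw.le hlogw' C)
  set K : Finset ℕ := (Icc 1 N).filter fun k => Odd k ∧
    (({n : ℕ | (k + hs s n).Prime ∧ k + hs s n ≤ 2 * N}.ncard : ℕ) : ℝ) ≤ N / Real.log N ^ (1 + η) with hK
  have hKset : {k : ℕ | 1 ≤ k ∧ k ≤ N ∧ Odd k ∧
      (({n : ℕ | (k + hs s n).Prime ∧ k + hs s n ≤ 2 * N}.ncard : ℕ) : ℝ) ≤ N / Real.log N ^ (1 + η)} =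
      (K : Set ℕ) := by
    ext k
    rw [hK, mem_coe, mem_filter, mem_Icc, Set.mem_ofPred_eq, and_assoc]
  rw [hKset, Set.ncard_coe_finset]
  by_contra hcon
  rw [not_le, ← hℓ] at hcon
  have hKc : 0 < (K.card : ℝ) := lt_trans (by positivity) hcon
  have hKsub : K ⊆ Icc 1 N := filter_subset _ _
  -- the three sums
  have hA : (K.card : ℝ) * (dens b w * N / c0) ≤ ∑ k ∈ K, ∑ h ∈ HH s N, lam w (k + h) := by
    rw [← nsmul_eq_mul, ← sum_const]
    refine sum_le_sum fun k hk => ?_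
    rw [hK, mem_filter] at hk
    rw [hw]
    exact inner_lam h1 N _ k (hN1 N hNN1 s hs' k hk.2.1)
  have hB : ∑ k ∈ K, ∑ h ∈ HH s N, ArithmeticFunction.vonMangoldt (k + h) ≤
      (K.card : ℝ) * (N / ℓ ^ (1 + η) * x + 2 * √((2 * N : ℕ) : ℝ) * x) := by
    rw [← nsmul_eq_mul, ← sum_const]
    refine sum_le_sum fun k hk => ?_
    rw [hK, mem_filter, mem_Icc] at hk
    rw [hx, hℓ]
    exact inner_prime h1 hk.1.1 hk.1.2 hk.2.2
  have hC : ‖∑ k ∈ K, ∑ h ∈ HH s N, (((ArithmeticFunction.vonMangoldt (k + h) - lam w (k + h) : ℝ)) : ℂ)‖ ≤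
      3 * ((2 * N : ℕ) : ℝ) / x ^ (A + 2) * √((K.card : ℝ) * (HH s N).card) := by
    refine bil (N := N) (fun n => (((ArithmeticFunction.vonMangoldt n - lam w n : ℝ)) : ℂ)) (fun θ => ?_) K (HH s N)
      hKsub (HH_sub s N)
    have h2 := hN2 (2 * N) (by omega) θ
    rw [← hw, ← hx] at h2
    refine le_trans (le_of_eq ?_) h2
    congr 1
    rw [SL, SM, ← sum_sub_distrib]
    refine sum_congr rfl fun n _ => ?_
    push_cast
    ring
  have hC' : |∑ k ∈ K, ∑ h ∈ HH s N, (ArithmeticFunction.vonMangoldt (k + h) - lam w (k + h))| ≤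
      3 * ((2 * N : ℕ) : ℝ) / x ^ (A + 2) * √((K.card : ℝ) * (HH s N).card) := by
    rw [← Real.norm_eq_abs, ← Complex.norm_real]
    refine le_trans (le_of_eq ?_) hC
    congr 1
    push_cast
    rfl
  have hD : ∑ k ∈ K, ∑ h ∈ HH s N, (ArithmeticFunction.vonMangoldt (k + h) - lam w (k + h)) =
      ∑ k ∈ K, ∑ h ∈ HH s N, ArithmeticFunction.vonMangoldt (k + h) - ∑ k ∈ K, ∑ h ∈ HH s N, lam w (k + h) := by
    simp only [sum_sub_distrib]
  rw [hD] at hC'
  have hC'' := (abs_le.1 hC').1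
  -- the square root
  have hH : ((HH s N).card : ℝ) ≤ 2 * N := by
    have := HH_card s N
    exact_mod_cast (by omega : (HH s N).card ≤ 2 * N)
  have hℓA : 1 ≤ ℓ ^ A := one_le_pow₀ hℓ3
  have hNK : (N : ℝ) ≤ K.card * ℓ ^ A := by
    rw [div_lt_iff₀ (by positivity)] at hcon
    exact hcon.le
  have hsq : √((K.card : ℝ) * (HH s N).card) ≤ (K.card : ℝ) * (2 * ℓ ^ A) := by
    refine Real.sqrt_le_iff.2 ⟨by positivity, ?_⟩
    calc (K.card : ℝ) * (HH s N).card ≤ K.card * (2 * N) := by gcongr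
      _ ≤ K.card * (2 * (K.card * ℓ ^ A)) := by gcongr
      _ = (K.card : ℝ) ^ 2 * (2 * ℓ ^ A * 1) := by ring
      _ ≤ (K.card : ℝ) ^ 2 * (2 * ℓ ^ A * (2 * ℓ ^ A)) := by
        gcongr
        linarith
      _ = ((K.card : ℝ) * (2 * ℓ ^ A)) ^ 2 := by ring
  have hE : 3 * ((2 * N : ℕ) : ℝ) / x ^ (A + 2) * √((K.card : ℝ) * (HH s N).card) ≤
      (K.card : ℝ) * (N * (12 / x ^ 2)) := by
    have hxA : 0 < x ^ A := by positivity
    calc 3 * ((2 * N : ℕ) : ℝ) / x ^ (A + 2) * √((K.card : ℝ) * (HH s N).card)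
        ≤ 3 * ((2 * N : ℕ) : ℝ) / x ^ (A + 2) * ((K.card : ℝ) * (2 * ℓ ^ A)) := by gcongr
      _ ≤ 3 * ((2 * N : ℕ) : ℝ) / x ^ (A + 2) * ((K.card : ℝ) * (2 * x ^ A)) := by gcongr
      _ = (K.card : ℝ) * (N * (12 / x ^ 2)) := by
        push_cast
        field_simp
        ring
  have hF : N * (2 ^ (1 + η) * x ^ (-η) + 1584 / x ^ 2) < dens b w * N / c0 := by
    calc N * (2 ^ (1 + η) * x ^ (-η) + 1584 / x ^ 2)
        < N * (c / (((A + 2 : ℕ) : ℝ) * Real.log x) ^ C / c0) := mul_lt_mul_of_pos_left hfin hNp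
      _ ≤ N * (dens b w / c0) := by gcongr
      _ = dens b w * N / c0 := by ring
  have hG1 := prime_part (N := N) hx4 hℓ1 hη
  have hG2 := sqrt_part hx hx4
  have hG3 : (N : ℝ) * (1536 / x ^ 2) + N * (12 / x ^ 2) ≤ N * (1584 / x ^ 2) := by
    have h4 : (N : ℝ) * (1584 / x ^ 2) - (N * (1536 / x ^ 2) + N * (12 / x ^ 2)) = N * (36 / x ^ 2) := by ring
    have h5 : 0 ≤ (N : ℝ) * (36 / x ^ 2) := by positivity
    linarith
  have hG : (N / ℓ ^ (1 + η) * x + 2 * √((2 * N : ℕ) : ℝ) * x) + N * (12 / x ^ 2) < dens b w * N / c0 := by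
    refine lt_of_le_of_lt ?_ hF
    rw [mul_add]
    linarith
  have hI := mul_lt_mul_of_pos_left hG hKc
  rw [mul_add] at hI
  linarith

end Pool.Agent.SWQ
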