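import Pool.Agent.SWQ.SWz
import Pool.Agent.SW.Pnt
import Pool.Agent.SW.Gs
import Pool.Agent.SW.AbelE

/-! SWQ/MajQ.  The major arcs with an arbitrary power of the logarithm.

PROOF: as in `Pool/Agent/SW/Maj.lean`, `L = log N`, `B = 2D + 20`: `SL N (a/q + β) = (1/φ(q)) ∑_χ gs q a χ⁻¹ ∑_{n ≤ N} Λ(n) χ(n) e(nβ) + O(L^(B+1))`;
`χ = 1` by `pnt`, all the other characters by `siegel_walfisz` and `abel_ee`, `gs_norm` (error exponent `A = 3B + D + 10`); no exceptional characters. -/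

set_option autoImplicit false

namespace Pool.Agent.SWQ

open Finset Pool.Agent.SW Pool.Agent.Helper98.Bern

private theorem mj_ncop {q N : ℕ} (hq : 1 ≤ q) (hN : 1 ≤ N) :
    ∑ n ∈ Ioc 0 N, (if n.Coprime q then 0 else ArithmeticFunction.vonMangoldt n) ≤
      q * Real.log N := by
  classical
  have hlog : 0 ≤ Real.log N := Real.log_nonneg (by exact_mod_cast hN)
  have h1 : ∀ n ∈ Ioc 0 N, (if n.Coprime q then 0 else ArithmeticFunction.vonMangoldt n) ≤
      ∑ p ∈ q.primeFactors, if ∃ k, 1 ≤ k ∧ n = p ^ k then Real.log p else 0 := by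
    intro n _
    have hnn : ∀ p ∈ q.primeFactors, 0 ≤ if ∃ k, 1 ≤ k ∧ n = p ^ k then Real.log p else 0 := by
      intro p hp
      split_ifs
      · exact Real.log_nonneg (by exact_mod_cast (Nat.prime_of_mem_primeFactors hp).one_le)
      · exact le_rfl
    by_cases hc : n.Coprime q
    · rw [if_pos hc]
      exact Finset.sum_nonneg hnn
    · rw [if_neg hc]
      by_cases h0 : ArithmeticFunction.vonMangoldt n = 0
      · rw [h0]
        exact Finset.sum_nonneg hnn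
      · have hpp := ArithmeticFunction.vonMangoldt_ne_zero_iff.mp h0
        obtain ⟨p, k, hp, hk, rfl⟩ := (isPrimePow_nat_iff n).mp hpp
        have hdvd : p ∣ q := by
          by_contra hnd
          exact hc (Nat.Coprime.pow_left k ((Nat.Prime.coprime_iff_not_dvd hp).mpr hnd))
        have hmem : p ∈ q.primeFactors := Nat.mem_primeFactors.mpr ⟨hp, hdvd, by omega⟩
        have h2 := Finset.single_le_sum hnn hmem
        refine le_trans ?_ h2
        rw [if_pos ⟨k, hk, rfl⟩, ArithmeticFunction.vonMangoldt_apply_pow hk.ne',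
          ArithmeticFunction.vonMangoldt_apply_prime hp]
  refine (Finset.sum_le_sum h1).trans ?_
  rw [Finset.sum_comm]
  have h2 : ∀ p ∈ q.primeFactors,
      ∑ n ∈ Ioc 0 N, (if ∃ k, 1 ≤ k ∧ n = p ^ k then Real.log p else 0) ≤ Real.log N := by
    intro p hp
    have hpp := Nat.prime_of_mem_primeFactors hp
    have hlp : 0 ≤ Real.log p := Real.log_nonneg (by exact_mod_cast hpp.one_le)
    rw [← Finset.sum_filter, Finset.sum_const, nsmul_eq_mul]
    have hcard : ((Ioc 0 N).filter fun n => ∃ k, 1 ≤ k ∧ n = p ^ k).card ≤ Nat.log p N := by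
      have hsub : ((Ioc 0 N).filter fun n => ∃ k, 1 ≤ k ∧ n = p ^ k) ⊆
          (Finset.Icc 1 (Nat.log p N)).image fun k => p ^ k := by
        intro n hn
        rw [Finset.mem_filter, Finset.mem_Ioc] at hn
        obtain ⟨⟨_, hnN⟩, k, hk, rfl⟩ := hn
        rw [Finset.mem_image]
        exact ⟨k, Finset.mem_Icc.mpr ⟨hk, Nat.le_log_of_pow_le hpp.one_lt hnN⟩, rfl⟩
      refine (Finset.card_le_card hsub).trans (Finset.card_image_le.trans ?_)
      simp
    have hpow : (p : ℝ) ^ (Nat.log p N) ≤ N := by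
      exact_mod_cast Nat.pow_log_le_self p (by omega)
    have h3 : (Nat.log p N : ℝ) * Real.log p ≤ Real.log N := by
      rw [← Real.log_pow]
      exact Real.log_le_log (by have := hpp.pos; positivity) hpow
    refine le_trans (mul_le_mul_of_nonneg_right ?_ hlp) h3
    exact_mod_cast hcard
  refine (Finset.sum_le_sum h2).trans ?_
  rw [Finset.sum_const, nsmul_eq_mul]
  refine mul_le_mul_of_nonneg_right ?_ hlog
  have h3 : q.primeFactors.card ≤ q := by
    have : q.primeFactors ⊆ Finset.Icc 1 q := by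
      intro p hp
      rw [Finset.mem_Icc]
      exact ⟨(Nat.prime_of_mem_primeFactors hp).one_le,
        Nat.le_of_dvd hq (Nat.dvd_of_mem_primeFactors hp)⟩
    refine (Finset.card_le_card this).trans ?_
    simp
  exact_mod_cast h3

/-- the twisted sums -/
private noncomputable def mjS (N : ℕ) (β : ℝ) {q : ℕ} (χ : DirichletCharacter ℂ q) : ℂ :=
  ∑ n ∈ Ioc 0 N, ((ArithmeticFunction.vonMangoldt n : ℝ) : ℂ) * χ n * ee (n * β)

private theorem mj_char_zero {q n : ℕ} (h : ¬ n.Coprime q) (χ : DirichletCharacter ℂ q) :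
    χ (n : ZMod q) = 0 := by
  apply χ.map_nonunit
  rw [ZMod.isUnit_iff_coprime]
  exact h

private theorem mj_split (N : ℕ) {q : ℕ} [NeZero q] (a : ℤ) (β : ℝ) :
    SL N ((a : ℝ) / q + β) = (1 / (q.totient : ℂ)) * ∑ χ : DirichletCharacter ℂ q,
      gs q a χ⁻¹ * mjS N β χ +
      ∑ n ∈ Ioc 0 N, (if n.Coprime q then 0 else
        ((ArithmeticFunction.vonMangoldt n : ℝ) : ℂ) * ee (n * ((a : ℝ) / q + β))) := by
  have h1 : (1 / (q.totient : ℂ)) * ∑ χ : DirichletCharacter ℂ q, gs q a χ⁻¹ * mjS N β χ =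
      ∑ n ∈ Ioc 0 N, (if n.Coprime q then
        ((ArithmeticFunction.vonMangoldt n : ℝ) : ℂ) * ee (n * ((a : ℝ) / q + β)) else 0) := by
    unfold mjS
    simp only [Finset.mul_sum]
    rw [Finset.sum_comm]
    refine Finset.sum_congr rfl fun n _ => ?_
    have h2 : ∑ χ : DirichletCharacter ℂ q, 1 / (q.totient : ℂ) * (gs q a χ⁻¹ *
        (((ArithmeticFunction.vonMangoldt n : ℝ) : ℂ) * χ n * ee (n * β))) =
        ((ArithmeticFunction.vonMangoldt n : ℝ) : ℂ) * ((1 / (q.totient : ℂ)) *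
          ∑ χ : DirichletCharacter ℂ q, gs q a χ⁻¹ * χ n) * ee (n * β) := by
      rw [Finset.mul_sum, Finset.mul_sum, Finset.sum_mul]
      exact Finset.sum_congr rfl fun χ _ => by ring
    rw [h2]
    by_cases hc : n.Coprime q
    · rw [if_pos hc, ← ee_expand a hc]
      have h3 : (n : ℝ) * ((a : ℝ) / q + β) = (a : ℝ) * n / q + n * β := by ring
      rw [h3, ee_add, mul_assoc]
    · rw [if_neg hc]
      have h3 : ∑ χ : DirichletCharacter ℂ q, gs q a χ⁻¹ * χ n = 0 :=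
        Finset.sum_eq_zero fun χ _ => by rw [mj_char_zero hc, mul_zero]
      rw [h3, mul_zero, mul_zero, zero_mul]
  rw [h1, ← Finset.sum_add_distrib]
  unfold SL
  refine Finset.sum_congr rfl fun n _ => ?_
  split_ifs <;> simp

private theorem mj_one (N : ℕ) (β : ℝ) (q : ℕ) :
    mjS N β (1 : DirichletCharacter ℂ q) = TT N β +
      ∑ n ∈ Ioc 0 N, (((ArithmeticFunction.vonMangoldt n - 1 : ℝ)) : ℂ) * ee (n * β) -
      ∑ n ∈ Ioc 0 N, (if n.Coprime q then 0 else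
        ((ArithmeticFunction.vonMangoldt n : ℝ) : ℂ) * ee (n * β)) := by
  unfold mjS TT
  rw [← Finset.sum_add_distrib, ← Finset.sum_sub_distrib]
  refine Finset.sum_congr rfl fun n _ => ?_
  by_cases hc : n.Coprime q
  · have h1 : (1 : DirichletCharacter ℂ q) (n : ZMod q) = 1 := by
      apply MulChar.one_apply
      rw [ZMod.isUnit_iff_coprime]
      exact hc
    rw [if_pos hc, h1]
    push_cast
    ring
  · rw [if_neg hc, mj_char_zero hc]
    push_cast
    ring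

private theorem mj_bad {q N : ℕ} (hq : 1 ≤ q) (hN : 1 ≤ N) (f : ℕ → ℝ) :
    ‖∑ n ∈ Ioc 0 N, (if n.Coprime q then 0 else
        ((ArithmeticFunction.vonMangoldt n : ℝ) : ℂ) * ee (f n))‖ ≤ q * Real.log N := by
  refine (norm_sum_le _ _).trans (le_trans (Finset.sum_le_sum fun n _ => ?_) (mj_ncop hq hN))
  split_ifs
  · simp
  · rw [norm_mul, norm_ee, mul_one, Complex.norm_real, Real.norm_eq_abs,
      abs_of_nonneg ArithmeticFunction.vonMangoldt_nonneg]

private theorem mj_triv {N : ℕ} (hΛ : ∑ n ∈ Ioc 0 N, ArithmeticFunction.vonMangoldt n ≤ 2 * N)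
    (β : ℝ) {q : ℕ} (χ : DirichletCharacter ℂ q) : ‖mjS N β χ‖ ≤ 2 * N := by
  unfold mjS
  refine (norm_sum_le _ _).trans (le_trans (Finset.sum_le_sum fun n _ => ?_) hΛ)
  rw [norm_mul, norm_mul, norm_ee, mul_one, Complex.norm_real, Real.norm_eq_abs,
    abs_of_nonneg ArithmeticFunction.vonMangoldt_nonneg]
  have h3 := DirichletCharacter.norm_le_one χ (n : ZMod q)
  have h4 : 0 ≤ ArithmeticFunction.vonMangoldt n := ArithmeticFunction.vonMangoldt_nonneg
  exact mul_le_of_le_one_right h4 h3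

private theorem mj_cq {q : ℕ} (hq : 1 ≤ q) : ‖cq q‖ ≤ 1 := by
  unfold cq
  rw [norm_div]
  have h1 : ‖((ArithmeticFunction.moebius q : ℤ) : ℂ)‖ ≤ 1 := by
    rw [Complex.norm_intCast]
    have := ArithmeticFunction.abs_moebius_le_one (n := q)
    exact_mod_cast this
  have h2 : (1 : ℝ) ≤ ‖(q.totient : ℂ)‖ := by
    rw [Complex.norm_natCast]
    exact_mod_cast Nat.totient_pos.mpr hq
  rw [div_le_one (by linarith)]
  linarith

private theorem mj_main {N q : ℕ} [NeZero q] (hN : 1 ≤ N) {a : ℤ} (ha : IsCoprime a (q : ℤ)) {β : ℝ}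
    {D1 D2 : ℝ} (hD2 : 0 ≤ D2)
    (h1 : ‖∑ n ∈ Ioc 0 N, (((ArithmeticFunction.vonMangoldt n - 1 : ℝ)) : ℂ) * ee (n * β)‖ ≤ D1)
    (hΛ : ∑ n ∈ Ioc 0 N, ArithmeticFunction.vonMangoldt n ≤ 2 * N)
    (X : Finset (DirichletCharacter ℂ q))
    (h2 : ∀ χ : DirichletCharacter ℂ q, χ ≠ 1 → χ ∉ X → ‖mjS N β χ‖ ≤ D2) :
    ‖SL N ((a : ℝ) / q + β) - cq q * TT N β‖ ≤ 2 * (q * Real.log N) + D1 + √(q : ℝ) * D2 +
      X.card * (2 * √(q : ℝ) / (q.totient : ℝ) * N) := by
  classical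
  have hq : 1 ≤ q := Nat.pos_of_ne_zero (NeZero.ne q)
  have hφ : (0 : ℝ) < q.totient := by exact_mod_cast Nat.totient_pos.mpr hq
  have hφC : (q.totient : ℂ) ≠ 0 := by exact_mod_cast (Nat.totient_pos.mpr hq).ne'
  obtain ⟨E0, hE0⟩ : ∃ E0, E0 = ∑ n ∈ Ioc 0 N, (if n.Coprime q then 0 else
        ((ArithmeticFunction.vonMangoldt n : ℝ) : ℂ) * ee (n * ((a : ℝ) / q + β))) := ⟨_, rfl⟩
  obtain ⟨E1, hE1⟩ : ∃ E1, E1 = ∑ n ∈ Ioc 0 N,
    (((ArithmeticFunction.vonMangoldt n - 1 : ℝ)) : ℂ) * ee (n * β) := ⟨_, rfl⟩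
  obtain ⟨E2, hE2⟩ : ∃ E2, E2 = ∑ n ∈ Ioc 0 N, (if n.Coprime q then 0 else
        ((ArithmeticFunction.vonMangoldt n : ℝ) : ℂ) * ee (n * β)) := ⟨_, rfl⟩
  obtain ⟨E3, hE3⟩ : ∃ E3, E3 = ∑ χ ∈ (Finset.univ : Finset (DirichletCharacter ℂ q)).erase 1,
    gs q a χ⁻¹ * mjS N β χ := ⟨_, rfl⟩
  have e1 : SL N ((a : ℝ) / q + β) - cq q * TT N β =
      E0 + cq q * (E1 - E2) + (1 / (q.totient : ℂ)) * E3 := by
    rw [mj_split, ← Finset.add_sum_erase _ _ (Finset.mem_univ (1 : DirichletCharacter ℂ q)),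
      ← hE0, ← hE3, inv_one, gs_one ha, mj_one, ← hE1, ← hE2]
    unfold cq
    field_simp
    ring
  have b0 : ‖E0‖ ≤ q * Real.log N := by
    rw [hE0]
    exact mj_bad hq hN fun n => n * ((a : ℝ) / q + β)
  have b2 : ‖E2‖ ≤ q * Real.log N := by
    rw [hE2]
    exact mj_bad hq hN fun n => n * β
  have b1 : ‖E1‖ ≤ D1 := by rw [hE1]; exact h1
  have b12 : ‖cq q * (E1 - E2)‖ ≤ D1 + q * Real.log N := by
    rw [norm_mul]
    have h5 : ‖E1 - E2‖ ≤ D1 + q * Real.log N := (norm_sub_le _ _).trans (add_le_add b1 b2)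
    have h6 := mj_cq hq
    have h7 : 0 ≤ ‖E1 - E2‖ := norm_nonneg _
    nlinarith [norm_nonneg (cq q)]
  have hcard : Fintype.card (DirichletCharacter ℂ q) = q.totient := by
    have := DirichletCharacter.card_eq_totient_of_hasEnoughRootsOfUnity ℂ q
    rw [← this, Nat.card_eq_fintype_card]
  have b3 : ‖E3‖ ≤ √(q : ℝ) * (q.totient * D2 + X.card * (2 * N)) := by
    rw [hE3]
    refine (norm_sum_le _ _).trans ?_
    have h5 : ∀ χ ∈ (Finset.univ : Finset (DirichletCharacter ℂ q)).erase 1,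
        ‖gs q a χ⁻¹ * mjS N β χ‖ ≤ √(q : ℝ) * (D2 + if χ ∈ X then (2 * (N : ℝ)) else 0) := by
      intro χ hχ
      rw [norm_mul]
      refine mul_le_mul (gs_norm ha _) ?_ (norm_nonneg _) (Real.sqrt_nonneg _)
      by_cases hx : χ ∈ X
      · rw [if_pos hx]
        have := mj_triv hΛ β χ
        linarith
      · rw [if_neg hx, add_zero]
        exact h2 χ (Finset.ne_of_mem_erase hχ) hx
    refine (Finset.sum_le_sum h5).trans ?_
    rw [← Finset.mul_sum]
    refine mul_le_mul_of_nonneg_left ?_ (Real.sqrt_nonneg _)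
    have h6 : ∀ χ : DirichletCharacter ℂ q, 0 ≤ D2 + if χ ∈ X then (2 * (N : ℝ)) else 0 := by
      intro χ
      split_ifs <;> positivity
    refine (Finset.sum_le_sum_of_subset_of_nonneg (Finset.erase_subset _ _)
      fun χ _ _ => h6 χ).trans ?_
    rw [Finset.sum_add_distrib, Finset.sum_const, Finset.card_univ, hcard, nsmul_eq_mul,
      Finset.sum_ite_mem, Finset.univ_inter, Finset.sum_const, nsmul_eq_mul]
  have b3' : ‖(1 / (q.totient : ℂ)) * E3‖ ≤ √(q : ℝ) * D2 +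
      X.card * (2 * √(q : ℝ) / (q.totient : ℝ) * N) := by
    rw [norm_mul, norm_div, norm_one, Complex.norm_natCast]
    refine (mul_le_mul_of_nonneg_left b3 (by positivity)).trans (le_of_eq ?_)
    field_simp
  rw [e1]
  refine (norm_add₃_le).trans ?_
  linarith

private theorem mj_lim (K : ℕ) : ∀ᶠ N : ℕ in Filter.atTop, 4 ≤ Real.log N ∧ 4 * Real.log N ^ K ≤ N := by
  have h1 : Filter.Tendsto (fun N : ℕ => Real.log N) Filter.atTop Filter.atTop :=
    Real.tendsto_log_atTop.comp tendsto_natCast_atTop_atTop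
  have h2 : (fun x : ℝ => Real.log x ^ K) =o[Filter.atTop] (id : ℝ → ℝ) :=
    Real.isLittleO_pow_log_id_atTop
  have h3 := (h2.def (show (0 : ℝ) < 1 / 4 by norm_num))
  have h4 := tendsto_natCast_atTop_atTop (R := ℝ) |>.eventually h3
  filter_upwards [h1.eventually_ge_atTop 4, h4] with N ha hb
  refine ⟨ha, ?_⟩
  simp only [id, Real.norm_eq_abs] at hb
  have h5 : (0 : ℝ) ≤ N := Nat.cast_nonneg N
  rw [abs_of_nonneg h5, abs_of_nonneg (by positivity)] at hb
  linarith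

theorem maj_q (D : ℕ) : ∃ N0 : ℕ, ∀ N : ℕ, N0 ≤ N → ∀ q : ℕ, 1 ≤ q → (q : ℝ) ≤ Real.log N ^ (2 * D + 20) →
    ∀ a : ℤ, IsCoprime a (q : ℤ) → ∀ β : ℝ, |β| ≤ Real.log N ^ (2 * D + 20) / N →
    ‖SL N ((a : ℝ) / q + β) - cq q * TT N β‖ ≤ N / Real.log N ^ (D + 1) := by
  classical
  obtain ⟨B, hB⟩ : ∃ B, B = 2 * D + 20 := ⟨_, rfl⟩
  rw [← hB]
  obtain ⟨N1, hN1⟩ := pnt (3 * B + D + 10)
  obtain ⟨N2, hN2⟩ := pnt 1
  obtain ⟨N5, hN5⟩ := siegel_walfisz (3 * B + D + 10) B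
  obtain ⟨N6, hN6⟩ := Filter.eventually_atTop.mp (mj_lim (B + D + 2))
  refine ⟨N1 + N2 + N5 + N6 + 1, fun N hN q hq hqL a ha β hβ => ?_⟩
  obtain ⟨hR4, hR18⟩ := hN6 N (by omega)
  obtain ⟨R, hR⟩ : ∃ R, R = Real.log N := ⟨_, rfl⟩
  rw [← hR] at hR4 hR18 hqL hβ ⊢
  have hNpos : (0 : ℝ) < N := by
    have : 0 < N := by omega
    exact_mod_cast this
  have hq0 : NeZero q := ⟨by omega⟩
  have hβN : |β| * N ≤ R ^ B := by
    rw [le_div_iff₀ hNpos] at hβ
    exact hβ
  have hR0 : (0 : ℝ) < R := by linarith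
  have hR1 : (1 : ℝ) ≤ R := by linarith
  have hfac : 1 + 7 * |β| * N ≤ 8 * R ^ B := by
    have h1 : (1 : ℝ) ≤ R ^ B := one_le_pow₀ hR1
    nlinarith
  have hfac0 : 0 ≤ 1 + 7 * |β| * N := by positivity
  obtain ⟨E, hE⟩ : ∃ E, E = 8 * R ^ B * (N / R ^ (3 * B + D + 10)) := ⟨_, rfl⟩
  have hE0 : 0 ≤ E := by rw [hE]; positivity
  -- the principal part
  have hD1 : ‖∑ n ∈ Ioc 0 N, (((ArithmeticFunction.vonMangoldt n - 1 : ℝ)) : ℂ) * ee (n * β)‖ ≤ E := by
    have h1 := abel_ee (N := N) (fun n => (((ArithmeticFunction.vonMangoldt n - 1 : ℝ)) : ℂ))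
      (D := N / R ^ (3 * B + D + 10)) (fun t ht => by
        have h2 := hN1 N (by omega) t ht
        rw [← hR] at h2
        have h3 : ∑ n ∈ Ioc 0 t, (((ArithmeticFunction.vonMangoldt n - 1 : ℝ)) : ℂ) =
            ((∑ n ∈ Ioc 0 t, (ArithmeticFunction.vonMangoldt n - 1) : ℝ) : ℂ) := by
          push_cast
          rfl
        rw [h3, Complex.norm_real, Real.norm_eq_abs]
        exact h2) β
    rw [hE]
    exact h1.trans (mul_le_mul_of_nonneg_right hfac (by positivity))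
  have hΛ : ∑ n ∈ Ioc 0 N, ArithmeticFunction.vonMangoldt n ≤ 2 * N := by
    have h2 := hN2 N (by omega) N le_rfl
    rw [← hR, pow_one, Finset.sum_sub_distrib, Finset.sum_const, Nat.card_Ioc, Nat.sub_zero,
      nsmul_eq_mul, mul_one] at h2
    have h3 : (N : ℝ) / R ≤ N := div_le_self hNpos.le (by linarith)
    have h4 := (abs_le.mp h2).2
    linarith
  have hD2 : ∀ χ : DirichletCharacter ℂ q, χ ≠ 1 → χ ∉ (∅ : Finset (DirichletCharacter ℂ q)) →
      ‖mjS N β χ‖ ≤ E := by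
    intro χ h1 _
    have h3 := abel_ee (N := N) (fun n => ((ArithmeticFunction.vonMangoldt n : ℝ) : ℂ) * χ n)
      (D := N / R ^ (3 * B + D + 10)) (fun t ht => by
        have h4 := hN5 N (by omega) q (by rw [← hR]; exact hqL) χ h1 t ht
        rw [← hR] at h4
        exact h4) β
    rw [hE]
    exact h3.trans (mul_le_mul_of_nonneg_right hfac (by positivity))
  have key := mj_main (N := N) (q := q) (by omega) ha (β := β) (D1 := E) (D2 := E) hE0 hD1 hΛ ∅ hD2
  rw [← hR, Finset.card_empty, Nat.cast_zero, zero_mul, add_zero] at key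
  have hRB : (1 : ℝ) ≤ R ^ B := one_le_pow₀ hR1
  have hsq : √(q : ℝ) ≤ R ^ B := by
    rw [Real.sqrt_le_left (by positivity)]
    nlinarith
  have t1 : 2 * ((q : ℝ) * R) ≤ N / R ^ (D + 1) / 2 := by
    rw [le_div_iff₀ (by norm_num), le_div_iff₀ (by positivity)]
    calc 2 * ((q : ℝ) * R) * 2 * R ^ (D + 1) = 4 * (q * (R * R ^ (D + 1))) := by ring
      _ ≤ 4 * (R ^ B * (R * R ^ (D + 1))) := by
          have := mul_le_mul_of_nonneg_right hqL (show 0 ≤ R * R ^ (D + 1) by positivity)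
          linarith
      _ = 4 * R ^ (B + D + 2) := by ring
      _ ≤ N := hR18
  have t2 : E + √(q : ℝ) * E ≤ N / R ^ (D + 1) / 2 := by
    have h0 : E + √(q : ℝ) * E ≤ 2 * R ^ B * E := by
      have h1 := mul_le_mul_of_nonneg_right hsq hE0
      have h2 := mul_le_mul_of_nonneg_right hRB hE0
      nlinarith
    have h1 : 2 * R ^ B * E = N / R ^ (D + 1) * (16 / R ^ (B + 9)) := by
      rw [hE]
      have e1 : R ^ (3 * B + D + 10) = R ^ B * R ^ B * R ^ (D + 1) * R ^ (B + 9) := by ring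
      rw [e1]
      field_simp
      ring
    have h2 : (16 : ℝ) / R ^ (B + 9) ≤ 1 / 2 := by
      rw [div_le_div_iff₀ (by positivity) (by norm_num)]
      have h3 : (32 : ℝ) ≤ R ^ (B + 9) := by
        calc (32 : ℝ) ≤ 4 ^ 9 := by norm_num
          _ ≤ R ^ 9 := pow_le_pow_left₀ (by norm_num) hR4 _
          _ ≤ R ^ (B + 9) := pow_le_pow_right₀ hR1 (by omega)
      linarith
    rw [h1] at h0
    refine h0.trans ?_
    calc (N : ℝ) / R ^ (D + 1) * (16 / R ^ (B + 9)) ≤ N / R ^ (D + 1) * (1 / 2) :=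
          mul_le_mul_of_nonneg_left h2 (by positivity)
      _ = N / R ^ (D + 1) / 2 := by ring
  linarith

end Pool.Agent.SWQ
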