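import Pool.Agent.SWQ.BrunE
import Pool.Agent.SW.Geo
import Pool.Agent.SW.VinB
import Pool.Agent.SW.AbelE

/-! SWQ/ModQ.  The exponential sums of the model at the level `w = lev D N`. -/

set_option autoImplicit false

namespace Pool.Agent.SWQ

open Finset Pool.Agent.SW Pool.Agent.Helper98.Bern

private lemma mq_norm_ee_sub_one_le (t : ℝ) : ‖ee t - 1‖ ≤ 7 * |t| := by
  have h1 : ee t = Complex.exp (Complex.I * ((2 * Real.pi * t : ℝ) : ℂ)) := by
    unfold ee
    congr 1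
    push_cast
    ring
  rw [h1]
  refine (Real.norm_exp_I_mul_ofReal_sub_one_le).trans ?_
  rw [Real.norm_eq_abs, abs_mul, abs_of_pos (by positivity : (0 : ℝ) < 2 * Real.pi)]
  have h2 : Real.pi < 3.15 := Real.pi_lt_d2
  nlinarith [abs_nonneg t]

private lemma mq_norm_ee_sub_le (x y : ℝ) : ‖ee x - ee y‖ ≤ 7 * |x - y| := by
  have h1 : ee x - ee y = ee y * (ee (x - y) - 1) := by
    rw [mul_sub, ← ee_add]
    congr 2
    · ring
    · ring
  rw [h1, norm_mul, norm_ee, one_mul]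
  exact mq_norm_ee_sub_one_le _

private lemma mq_sum_mult (N d : ℕ) (hd : 0 < d) (f : ℕ → ℂ) :
    ∑ n ∈ (Ioc 0 N).filter (fun n => d ∣ n), f n = ∑ m ∈ Ioc 0 (N / d), f (m * d) := by
  symm
  refine Finset.sum_bij (fun m _ => m * d) ?_ ?_ ?_ ?_
  · intro m hm
    rw [mem_Ioc] at hm
    rw [mem_filter, mem_Ioc]
    exact ⟨⟨Nat.mul_pos hm.1 hd, (Nat.le_div_iff_mul_le hd).1 hm.2⟩, dvd_mul_left _ _⟩
  · intro m _ m' _ h
    exact Nat.eq_of_mul_eq_mul_right hd h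
  · intro n hn
    rw [mem_filter, mem_Ioc] at hn
    obtain ⟨⟨h0, h1⟩, k, hk⟩ := hn
    have hk' : n = k * d := by rw [hk, mul_comm]
    refine ⟨k, ?_, hk'.symm⟩
    rw [mem_Ioc]
    refine ⟨?_, (Nat.le_div_iff_mul_le hd).2 (hk' ▸ h1)⟩
    rcases Nat.eq_zero_or_pos k with h | h
    · rw [hk', h] at h0
      simp at h0
    · exact h
  · intro m _
    rfl

private lemma mq_geo_bd {φ : ℝ} {q : ℕ} (hq : 1 ≤ q) (h : 1 / (2 * (q : ℝ)) ≤ dn φ) (M : ℕ) :
    ‖∑ m ∈ Ioc 0 M, ee (m * φ)‖ ≤ 2 * q := by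
  have hq0 : (0 : ℝ) < q := by exact_mod_cast hq
  have h0 : 0 < dn φ := lt_of_lt_of_le (by positivity) h
  have hX : (((M - 0 : ℕ) : ℝ)) ≤ (M : ℝ) + 1 := by
    rw [Nat.sub_zero]
    linarith
  have hX1 : (1 : ℝ) ≤ (M : ℝ) + 1 := by
    have : (0 : ℝ) ≤ M := Nat.cast_nonneg M
    linarith
  refine (geo (Nat.zero_le M) φ hX hX1).trans ((mn_le_inv (by linarith) h0).trans ?_)
  rw [div_le_iff₀ h0]
  have h2 : 2 * (q : ℝ) * (1 / (2 * q)) = 1 := by field_simp
  calc (1 : ℝ) = 2 * (q : ℝ) * (1 / (2 * q)) := h2.symm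
    _ ≤ 2 * q * dn φ := by gcongr

private lemma mq_moeb_norm (d : ℕ) : ‖((ArithmeticFunction.moebius d : ℤ) : ℂ)‖ ≤ 1 := by
  rw [Complex.norm_intCast]
  exact_mod_cast ArithmeticFunction.abs_moebius_le_one

private lemma mq_block (d : ℕ) (β : ℝ) (M : ℕ) :
    ‖∑ n ∈ Ioc 0 (d * M), ee (n * β) - d * ∑ m ∈ Ioc 0 M, ee (m * (d * β))‖ ≤ 7 * d * |β| * (d * M) := by
  induction M with
  | zero => simp
  | succ M ih =>
    rw [← Finset.sum_Ioc_consecutive (fun n : ℕ => ee (n * β)) (Nat.zero_le (d * M))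
      (Nat.mul_le_mul_left d (Nat.le_succ M)), Finset.sum_Ioc_succ_top (Nat.zero_le M)]
    have h1 : ∑ n ∈ Ioc (d * M) (d * (M + 1)), ee (n * β) - d * ee (((M + 1 : ℕ) : ℝ) * (d * β)) =
        ∑ n ∈ Ioc (d * M) (d * (M + 1)), (ee (n * β) - ee (((M + 1 : ℕ) : ℝ) * (d * β))) := by
      rw [Finset.sum_sub_distrib, Finset.sum_const, Nat.card_Ioc, nsmul_eq_mul]
      congr 3
      rw [Nat.mul_succ]
      omega
    have h2 : ‖∑ n ∈ Ioc (d * M) (d * (M + 1)), (ee (n * β) - ee (((M + 1 : ℕ) : ℝ) * (d * β)))‖ ≤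
        7 * d * |β| * d := by
      refine (norm_sum_le _ _).trans ?_
      have h3 : ∀ n ∈ Ioc (d * M) (d * (M + 1)), ‖ee (n * β) - ee (((M + 1 : ℕ) : ℝ) * (d * β))‖ ≤
          7 * d * |β| := by
        intro n hn
        rw [mem_Ioc] at hn
        refine (mq_norm_ee_sub_le _ _).trans ?_
        have h4 : (n : ℝ) * β - ((M + 1 : ℕ) : ℝ) * (d * β) = ((n : ℝ) - d * (M + 1)) * β := by
          push_cast
          ring
        have h5 : |(n : ℝ) - d * (M + 1)| ≤ d := by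
          have h6 : ((d * M : ℕ) : ℝ) < n := by exact_mod_cast hn.1
          have h7 : (n : ℝ) ≤ ((d * (M + 1) : ℕ) : ℝ) := by exact_mod_cast hn.2
          push_cast at h6 h7
          rw [abs_le]
          constructor
          · linarith
          · have : (0 : ℝ) ≤ d := Nat.cast_nonneg d
            linarith
        rw [h4, abs_mul, mul_assoc]
        gcongr
      refine (Finset.sum_le_sum h3).trans ?_
      rw [Finset.sum_const, Nat.card_Ioc, nsmul_eq_mul]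
      have h8 : ((d * (M + 1) - d * M : ℕ) : ℝ) = d := by
        congr 1
        rw [Nat.mul_succ]
        omega
      rw [h8]
      exact le_of_eq (by ring)
    calc ‖∑ n ∈ Ioc 0 (d * M), ee (n * β) + ∑ n ∈ Ioc (d * M) (d * (M + 1)), ee (n * β) -
          d * (∑ m ∈ Ioc 0 M, ee (m * (d * β)) + ee (((M + 1 : ℕ) : ℝ) * (d * β)))‖
        = ‖(∑ n ∈ Ioc 0 (d * M), ee (n * β) - d * ∑ m ∈ Ioc 0 M, ee (m * (d * β))) +
          (∑ n ∈ Ioc (d * M) (d * (M + 1)), ee (n * β) - d * ee (((M + 1 : ℕ) : ℝ) * (d * β)))‖ := by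
          congr 1
          ring
      _ ≤ 7 * d * |β| * (d * M) + 7 * d * |β| * d := by
          refine (norm_add_le _ _).trans (add_le_add ih ?_)
          rw [h1]
          exact h2
      _ = 7 * d * |β| * (d * ((M + 1 : ℕ) : ℝ)) := by
          push_cast
          ring

private lemma mq_block2 {d : ℕ} (hd : 0 < d) (β : ℝ) (N : ℕ) :
    ‖∑ m ∈ Ioc 0 (N / d), ee (m * (d * β)) - (1 / (d : ℂ)) * TT N β‖ ≤ 1 + 7 * |β| * N := by
  have hd0 : (0 : ℝ) < d := by exact_mod_cast hd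
  have hdc : (d : ℂ) ≠ 0 := by exact_mod_cast hd.ne'
  have hle : d * (N / d) ≤ N := Nat.mul_div_le N d
  have hT : TT N β = ∑ n ∈ Ioc 0 (d * (N / d)), ee (n * β) + ∑ n ∈ Ioc (d * (N / d)) N, ee (n * β) := by
    unfold TT
    rw [← Finset.sum_Ioc_consecutive (fun n : ℕ => ee (n * β)) (Nat.zero_le _) hle]
  have h1 : ‖∑ n ∈ Ioc (d * (N / d)) N, ee (n * β)‖ ≤ d := by
    refine (norm_sum_le _ _).trans ?_
    simp only [norm_ee]
    rw [Finset.sum_const, Nat.card_Ioc, nsmul_eq_mul, mul_one]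
    have h2 : N - d * (N / d) ≤ d := by
      have h3 := Nat.div_add_mod N d
      have h4 := Nat.mod_lt N hd
      omega
    exact_mod_cast h2
  have h2 := mq_block d β (N / d)
  have h3 : ‖TT N β - d * ∑ m ∈ Ioc 0 (N / d), ee (m * (d * β))‖ ≤ 7 * d * |β| * N + d := by
    rw [hT]
    calc ‖∑ n ∈ Ioc 0 (d * (N / d)), ee (n * β) + ∑ n ∈ Ioc (d * (N / d)) N, ee (n * β) -
          d * ∑ m ∈ Ioc 0 (N / d), ee (m * (d * β))‖
        = ‖(∑ n ∈ Ioc 0 (d * (N / d)), ee (n * β) - d * ∑ m ∈ Ioc 0 (N / d), ee (m * (d * β))) +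
          ∑ n ∈ Ioc (d * (N / d)) N, ee (n * β)‖ := by
          congr 1
          ring
      _ ≤ 7 * d * |β| * (d * ((N / d : ℕ) : ℝ)) + d := (norm_add_le _ _).trans (add_le_add h2 h1)
      _ ≤ 7 * d * |β| * N + d := by
          have h5 : (d : ℝ) * ((N / d : ℕ) : ℝ) ≤ N := by exact_mod_cast hle
          gcongr
  have h4 : ∑ m ∈ Ioc 0 (N / d), ee (m * (d * β)) - (1 / (d : ℂ)) * TT N β =
      -(1 / (d : ℂ)) * (TT N β - d * ∑ m ∈ Ioc 0 (N / d), ee (m * (d * β))) := by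
    have h5 : (1 / (d : ℂ)) * d = 1 := by field_simp
    linear_combination (-∑ m ∈ Ioc 0 (N / d), ee (m * (d * β))) * h5
  rw [h4, norm_mul, norm_neg, norm_div, norm_one, Complex.norm_natCast]
  calc 1 / (d : ℝ) * ‖TT N β - d * ∑ m ∈ Ioc 0 (N / d), ee (m * (d * β))‖
      ≤ 1 / (d : ℝ) * (7 * d * |β| * N + d) := by gcongr
    _ = 1 + 7 * |β| * N := by
        field_simp
        ring

private lemma mq_phi_sum (n : ℕ) (hn : 0 < n) :
    ∑ d ∈ n.divisors, ((ArithmeticFunction.moebius d : ℤ) : ℂ) / d = (n.totient : ℂ) / n := by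
  have h1 := (ArithmeticFunction.sum_eq_iff_sum_mul_moebius_eq (R := ℂ) (f := fun n => (n.totient : ℂ))
    (g := fun n => (n : ℂ))).1 (by
      intro n hn
      have := Nat.sum_totient n
      exact_mod_cast this) n hn
  have hnc : (n : ℂ) ≠ 0 := by exact_mod_cast hn.ne'
  rw [eq_div_iff hnc, ← h1, Finset.sum_mul, Nat.sum_divisorsAntidiagonal
    (f := fun i j => ((ArithmeticFunction.moebius i : ℤ) : ℂ) * (j : ℂ))]
  refine Finset.sum_congr rfl fun d hd => ?_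
  have hd0 : (d : ℂ) ≠ 0 := by exact_mod_cast (Nat.pos_of_mem_divisors hd).ne'
  rw [Nat.cast_div (Nat.dvd_of_mem_divisors hd) hd0]
  field_simp

private lemma mq_coef (W q : ℕ) (hW : 0 < W) (hsq : Squarefree W) (hq : q ∣ W) :
    (((W : ℝ) / (W.totient : ℝ) : ℝ) : ℂ) *
      ∑ d ∈ W.divisors.filter (fun d => q ∣ d), ((ArithmeticFunction.moebius d : ℤ) : ℂ) * (1 / (d : ℂ)) =
      cq q := by
  obtain ⟨k, hk⟩ := hq
  have hq0 : 0 < q := Nat.pos_of_ne_zero (by rintro rfl; simp at hk; omega)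
  have hk0 : 0 < k := Nat.pos_of_ne_zero (by rintro rfl; simp at hk; omega)
  have hcop : Nat.Coprime q k := by
    rw [hk] at hsq
    exact Nat.coprime_of_squarefree_mul hsq
  have h1 : ∑ d ∈ W.divisors.filter (fun d => q ∣ d), ((ArithmeticFunction.moebius d : ℤ) : ℂ) * (1 / (d : ℂ)) =
      ∑ d ∈ k.divisors, ((ArithmeticFunction.moebius (q * d) : ℤ) : ℂ) * (1 / ((q * d : ℕ) : ℂ)) := by
    symm
    refine Finset.sum_bij (fun d _ => q * d) ?_ ?_ ?_ ?_
    · intro d hd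
      rw [Nat.mem_divisors] at hd
      rw [mem_filter, Nat.mem_divisors, hk]
      exact ⟨⟨Nat.mul_dvd_mul_left q hd.1, by positivity⟩, dvd_mul_right _ _⟩
    · intro d _ d' _ h
      exact Nat.eq_of_mul_eq_mul_left hq0 h
    · intro n hn
      rw [mem_filter, Nat.mem_divisors, hk] at hn
      obtain ⟨⟨h2, h3⟩, e, he⟩ := hn
      refine ⟨e, ?_, he.symm⟩
      rw [Nat.mem_divisors]
      rw [he] at h2
      exact ⟨Nat.dvd_of_mul_dvd_mul_left hq0 h2, hk0.ne'⟩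
    · intro d _
      rfl
  have h2 : ∀ d ∈ k.divisors, ((ArithmeticFunction.moebius (q * d) : ℤ) : ℂ) * (1 / ((q * d : ℕ) : ℂ)) =
      ((ArithmeticFunction.moebius q : ℤ) : ℂ) / q * (((ArithmeticFunction.moebius d : ℤ) : ℂ) / d) := by
    intro d hd
    have hc : Nat.Coprime q d := Nat.Coprime.coprime_dvd_right (Nat.dvd_of_mem_divisors hd) hcop
    rw [ArithmeticFunction.isMultiplicative_moebius.map_mul_of_coprime hc]
    have hd0 : (d : ℂ) ≠ 0 := by exact_mod_cast (Nat.pos_of_mem_divisors hd).ne'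
    have hqc : (q : ℂ) ≠ 0 := by exact_mod_cast hq0.ne'
    push_cast
    field_simp
  rw [h1, Finset.sum_congr rfl h2, ← Finset.mul_sum, mq_phi_sum k hk0]
  unfold cq
  have hqc : (q : ℂ) ≠ 0 := by exact_mod_cast hq0.ne'
  have hkc : (k : ℂ) ≠ 0 := by exact_mod_cast hk0.ne'
  have hφq : (q.totient : ℂ) ≠ 0 := by exact_mod_cast (Nat.totient_pos.2 hq0).ne'
  have hφk : (k.totient : ℂ) ≠ 0 := by exact_mod_cast (Nat.totient_pos.2 hk0).ne'
  rw [hk, Nat.totient_mul hcop]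
  push_cast
  field_simp

private lemma mq_dn_ge {q d : ℕ} {B : ℝ} (hq : 1 ≤ q) (hqd : ¬ q ∣ d) (hdB : (d : ℝ) ≤ B)
    (hB : 0 < B) {a : ℤ} (ha : IsCoprime a (q : ℤ)) {β : ℝ} (hβ : |β| ≤ 1 / (2 * q * B)) :
    1 / (2 * (q : ℝ)) ≤ dn (d * ((a : ℝ) / q + β)) := by
  unfold dn
  set k : ℤ := round ((d : ℝ) * ((a : ℝ) / q + β)) with hk
  have hq0 : (0 : ℝ) < q := by exact_mod_cast hq
  have h1 : (d : ℤ) * a - k * q ≠ 0 := by
    intro h
    apply hqd
    have h2 : (q : ℤ) ∣ (d : ℤ) * a := ⟨k, by linarith⟩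
    have h3 : (q : ℤ) ∣ (d : ℤ) := ha.symm.dvd_of_dvd_mul_right h2
    exact_mod_cast h3
  have h2 : (1 : ℝ) ≤ |(d : ℝ) * a - k * q| := by
    have := Int.one_le_abs h1
    exact_mod_cast this
  have h3 : (1 : ℝ) / q ≤ |((d : ℝ) * a - k * q) / q| := by
    rw [abs_div, abs_of_pos hq0]
    gcongr
  have h4 : (d : ℝ) * ((a : ℝ) / q + β) - k = ((d : ℝ) * a - k * q) / q + d * β := by
    field_simp
    ring
  have h5 : |(d : ℝ) * β| ≤ 1 / (2 * q) := by
    rw [abs_mul, Nat.abs_cast]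
    calc (d : ℝ) * |β| ≤ B * (1 / (2 * q * B)) := by
          gcongr
      _ = 1 / (2 * q) := by
          field_simp
  rw [h4]
  have h6 : |((d : ℝ) * a - k * q) / q| ≤ |((d : ℝ) * a - k * q) / q + d * β| + |(d : ℝ) * β| := by
    have := abs_sub (((d : ℝ) * a - k * q) / q + d * β) (d * β)
    simpa using this
  have h7 : (1 : ℝ) / q = 1 / (2 * q) + 1 / (2 * q) := by
    field_simp
    norm_num
  linarith

/-- the divisors of small level -/
private noncomputable def mqF (D N : ℕ) : Finset ℕ :=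
  (primorial (lev D N)).divisors.filter (fun d => d.primeFactors.card < rr D N)

private noncomputable def mqT (D N : ℕ) (θ : ℝ) : ℂ :=
  ∑ d ∈ mqF D N, ((ArithmeticFunction.moebius d : ℤ) : ℂ) * ∑ m ∈ Ioc 0 (N / d), ee (m * (d * θ))

private lemma mqF_pos {D N d : ℕ} (hd : d ∈ mqF D N) : 0 < d :=
  Nat.pos_of_mem_divisors (mem_filter.1 hd).1

private lemma mqT_eq (D N : ℕ) (θ : ℝ) :
    ∑ n ∈ Ioc 0 N, ((tr D N n : ℝ) : ℂ) * ee (n * θ) = mqT D N θ := by
  unfold mqT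
  have h1 : ∀ n ∈ Ioc 0 N, ((tr D N n : ℝ) : ℂ) * ee (n * θ) =
      ∑ d ∈ mqF D N, (if d ∣ n then ((ArithmeticFunction.moebius d : ℤ) : ℂ) * ee (n * θ) else 0) := by
    intro n _
    unfold tr mqF
    rw [Complex.ofReal_sum, Finset.sum_mul, ← Finset.sum_filter, Finset.filter_filter]
    refine Finset.sum_congr rfl fun d _ => ?_
    push_cast
    rfl
  rw [Finset.sum_congr rfl h1, Finset.sum_comm]
  refine Finset.sum_congr rfl fun d hd => ?_
  rw [← Finset.sum_filter, mq_sum_mult N d (mqF_pos hd), Finset.mul_sum]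
  refine Finset.sum_congr rfl fun m _ => ?_
  congr 2
  push_cast
  ring

private noncomputable def mqκ (D N : ℕ) : ℝ :=
  (primorial (lev D N) : ℝ) / ((primorial (lev D N)).totient : ℝ)

private lemma mqκ_nonneg (D N : ℕ) : 0 ≤ mqκ D N := by
  unfold mqκ
  positivity

private lemma mq_approx {D N : ℕ} {E : ℝ} (h : ∑ n ∈ Ioc 0 N,
    |(if n.Coprime (primorial (lev D N)) then (1 : ℝ) else 0) - tr D N n| ≤ E) (θ : ℝ) :
    ‖SM (lev D N) N θ - (mqκ D N : ℂ) * mqT D N θ‖ ≤ mqκ D N * E := by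
  rw [← mqT_eq]
  unfold SM
  rw [Finset.mul_sum, ← Finset.sum_sub_distrib]
  refine (norm_sum_le _ _).trans ?_
  have h1 : ∀ n ∈ Ioc 0 N, ‖((lam (lev D N) n : ℝ) : ℂ) * ee (n * θ) -
      (mqκ D N : ℂ) * (((tr D N n : ℝ) : ℂ) * ee (n * θ))‖ ≤
      mqκ D N * |(if n.Coprime (primorial (lev D N)) then (1 : ℝ) else 0) - tr D N n| := by
    intro n _
    have h2 : lam (lev D N) n =
        mqκ D N * (if n.Coprime (primorial (lev D N)) then (1 : ℝ) else 0) := by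
      unfold lam mqκ
      split_ifs <;> simp
    have h3 : ((lam (lev D N) n : ℝ) : ℂ) * ee (n * θ) -
        (mqκ D N : ℂ) * (((tr D N n : ℝ) : ℂ) * ee (n * θ)) =
        ((mqκ D N * ((if n.Coprime (primorial (lev D N)) then (1 : ℝ) else 0) - tr D N n) : ℝ) : ℂ)
          * ee (n * θ) := by
      rw [h2]
      push_cast
      ring
    rw [h3, norm_mul, norm_ee, mul_one, Complex.norm_real, Real.norm_eq_abs, abs_mul,
      abs_of_nonneg (mqκ_nonneg D N)]
  refine (Finset.sum_le_sum h1).trans ?_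
  rw [← Finset.mul_sum]
  exact mul_le_mul_of_nonneg_left h (mqκ_nonneg D N)

/-- powers of the logarithm are smaller than powers -/
private lemma mq_ev (k : ℕ) (c : ℝ) {s : ℝ} (hs : 0 < s) :
    ∃ N0 : ℕ, ∀ N : ℕ, N0 ≤ N → c * Real.log N ^ k ≤ (N : ℝ) ^ s := by
  have hc : 0 < 1 / (|c| + 1) := by positivity
  have h1 := (isLittleO_log_rpow_rpow_atTop (k : ℝ) hs).bound hc
  have h2 := (tendsto_natCast_atTop_atTop (R := ℝ)).eventually h1
  obtain ⟨N0, hN0⟩ := Filter.eventually_atTop.1 h2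
  refine ⟨N0, fun N hN => ?_⟩
  have h3 := hN0 N hN
  rw [Real.rpow_natCast, Real.norm_eq_abs, Real.norm_eq_abs,
    abs_of_nonneg (Real.rpow_nonneg (Nat.cast_nonneg N) s)] at h3
  have h4 : c * Real.log N ^ k ≤ |c| * |Real.log N ^ k| := by
    rw [← abs_mul]
    exact le_abs_self _
  have h5 : 0 ≤ |Real.log (N : ℝ) ^ k| := abs_nonneg _
  have h6 : |Real.log (N : ℝ) ^ k| * (|c| + 1) ≤ (N : ℝ) ^ s := by
    calc |Real.log (N : ℝ) ^ k| * (|c| + 1) ≤ 1 / (|c| + 1) * (N : ℝ) ^ s * (|c| + 1) :=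
          mul_le_mul_of_nonneg_right h3 (by positivity)
      _ = (N : ℝ) ^ s := by field_simp
  nlinarith

private lemma mq_log (c : ℝ) : ∃ N0 : ℕ, ∀ N : ℕ, N0 ≤ N → c ≤ Real.log N := by
  have h := (Real.tendsto_log_atTop.comp (tendsto_natCast_atTop_atTop (R := ℝ))).eventually
    (Filter.eventually_ge_atTop c)
  exact Filter.eventually_atTop.1 h

theorem mod_min (D : ℕ) (hD : 1 ≤ D) : ∃ N0 : ℕ, ∀ N : ℕ, N0 ≤ N → ∀ (θ : ℝ) (a : ℤ) (q : ℕ), 1 ≤ q →
    IsCoprime a (q : ℤ) → |θ - a / q| ≤ 1 / (q : ℝ) ^ 2 → Real.log N ^ (2 * D + 20) ≤ q →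
    (q : ℝ) ≤ N / Real.log N ^ (2 * D + 20) → ‖SM (lev D N) N θ‖ ≤ N / Real.log N ^ (D + 1) := by
  obtain ⟨N1, h1⟩ := brun_l1 D (D + 5) hD
  obtain ⟨N2, h2⟩ := w_phi D hD
  obtain ⟨N3, h3⟩ := bp_level D 1 hD
  obtain ⟨C, hC, hvin⟩ := vin_b
  obtain ⟨N4, h4⟩ := mq_log (6 * C + 2)
  obtain ⟨N5, h5⟩ := mq_ev (2 * D + 20) 1 (s := 3 / 4) (by norm_num)
  refine ⟨max (max (max N1 N2) (max N3 N4)) (max N5 2), fun N hN θ a q hq hc hθ hq1 hq2 => ?_⟩
  simp only [max_le_iff] at hN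
  obtain ⟨⟨⟨hN1, hN2⟩, hN3, hN4⟩, hN5, hN6⟩ := hN
  have hκ := h2 N hN2
  have hL := h4 N hN4
  have hLv := h5 N hN5
  have hB := h1 N hN1
  have hlev := h3 N hN3
  obtain ⟨L, hLdef⟩ : ∃ L, L = Real.log N := ⟨_, rfl⟩
  rw [← hLdef] at hκ hL hLv hB hq1 hq2 ⊢
  have hL1 : 1 ≤ L := by linarith
  have hL2 : 2 ≤ L := by linarith
  have hL0 : 0 < L := by linarith
  have hN0 : (0 : ℝ) < N := by exact_mod_cast (by omega : 0 < N)
  have hN1' : (1 : ℝ) ≤ N := by exact_mod_cast (by omega : 1 ≤ N)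
  have hqN : q ≤ N := by
    have : (q : ℝ) ≤ N := hq2.trans (div_le_self hN0.le (one_le_pow₀ hL1))
    exact_mod_cast this
  obtain ⟨B, hBdef⟩ : ∃ B : ℕ, B = ⌊(N : ℝ) ^ ((1 : ℝ) / 4)⌋₊ := ⟨_, rfl⟩
  have hBle : (B : ℝ) ≤ (N : ℝ) ^ ((1 : ℝ) / 4) := by
    rw [hBdef]
    exact Nat.floor_le (by positivity)
  have hN14 : (N : ℝ) ^ ((1 : ℝ) / 4) ≤ N := by
    calc (N : ℝ) ^ ((1 : ℝ) / 4) ≤ (N : ℝ) ^ (1 : ℝ) :=
          Real.rpow_le_rpow_of_exponent_le hN1' (by norm_num)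
      _ = N := Real.rpow_one _
  have hBN : B ≤ N := by exact_mod_cast hBle.trans hN14
  have hprod : (N : ℝ) ^ ((1 : ℝ) / 4) * (N : ℝ) ^ ((3 : ℝ) / 4) = N := by
    rw [← Real.rpow_add hN0]
    norm_num
  have hBQ : (B : ℝ) ≤ N / L ^ (2 * D + 20) := by
    rw [le_div_iff₀ (by positivity)]
    calc (B : ℝ) * L ^ (2 * D + 20) ≤ (N : ℝ) ^ ((1 : ℝ) / 4) * (N : ℝ) ^ ((3 : ℝ) / 4) := by
          apply mul_le_mul hBle (by linarith) (by positivity) (by positivity)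
      _ = N := hprod
  have hsub : mqF D N ⊆ Icc 1 B := by
    intro d hd
    have hd0 := mqF_pos hd
    have hd1 := mem_filter.1 hd
    have hd2 := (hlev d hd1.1 hd1.2.le).1
    rw [mem_Icc]
    refine ⟨hd0, ?_⟩
    rw [hBdef]
    exact Nat.le_floor hd2
  have hT : ‖mqT D N θ‖ ≤ ∑ d ∈ Icc 1 B, mn ((N : ℝ) / d) (d * θ) := by
    unfold mqT
    refine (norm_sum_le _ _).trans ?_
    refine (Finset.sum_le_sum (f := fun d => ‖((ArithmeticFunction.moebius d : ℤ) : ℂ) *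
      ∑ m ∈ Ioc 0 (N / d), ee (m * (d * θ))‖) (g := fun d => mn ((N : ℝ) / d) (d * θ)) ?_).trans ?_
    · intro d hd
      have hd0 := mqF_pos hd
      have hdB := (mem_Icc.1 (hsub hd)).2
      have hd0' : (0 : ℝ) < d := by exact_mod_cast hd0
      have hdN : (d : ℝ) ≤ N := by exact_mod_cast hdB.trans hBN
      have hX1 : (1 : ℝ) ≤ (N : ℝ) / d := by
        rw [le_div_iff₀ hd0', one_mul]
        exact hdN
      have hX : (((N / d - 0 : ℕ) : ℝ)) ≤ (N : ℝ) / d := by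
        rw [Nat.sub_zero]
        exact Nat.cast_div_le
      have hg := geo (Nat.zero_le (N / d)) ((d : ℝ) * θ) hX hX1
      show ‖((ArithmeticFunction.moebius d : ℤ) : ℂ) * ∑ m ∈ Ioc 0 (N / d), ee (m * (d * θ))‖ ≤ _
      rw [norm_mul]
      calc ‖((ArithmeticFunction.moebius d : ℤ) : ℂ)‖ * ‖∑ m ∈ Ioc 0 (N / d), ee (m * (d * θ))‖
          ≤ 1 * mn ((N : ℝ) / d) (d * θ) :=
            mul_le_mul (mq_moeb_norm d) hg (norm_nonneg _) zero_le_one
        _ = mn ((N : ℝ) / d) (d * θ) := one_mul _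
    · refine Finset.sum_le_sum_of_subset_of_nonneg hsub fun d hd _ => ?_
      have hd0 : (0 : ℝ) < d := by exact_mod_cast (mem_Icc.1 hd).1
      exact (mn_pos (div_pos hN0 hd0) _).le
  have hv := hvin θ a q hq hc hθ N B hN6 hqN hBN
  rw [← hLdef] at hv
  have hq0 : (0 : ℝ) < q := by exact_mod_cast hq
  have hNq : (N : ℝ) / q ≤ N / L ^ (2 * D + 20) :=
    div_le_div_of_nonneg_left hN0.le (by positivity) hq1
  have hT2 : ‖mqT D N θ‖ ≤ C * (3 * (N / L ^ (2 * D + 20))) * L := by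
    refine hT.trans (hv.trans ?_)
    apply mul_le_mul_of_nonneg_right _ hL0.le
    apply mul_le_mul_of_nonneg_left _ hC.le
    linarith
  have hap := mq_approx hB θ
  have hκ' : mqκ D N ≤ L := hκ
  have hκ0 := mqκ_nonneg D N
  have hfin : ‖SM (lev D N) N θ‖ ≤ L * (N / L ^ (D + 5)) + L * (C * (3 * (N / L ^ (2 * D + 20))) * L) := by
    have e : SM (lev D N) N θ = (SM (lev D N) N θ - (mqκ D N : ℂ) * mqT D N θ) +
        (mqκ D N : ℂ) * mqT D N θ := by ring
    rw [e]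
    refine (norm_add_le _ _).trans (add_le_add (hap.trans ?_) ?_)
    · exact mul_le_mul_of_nonneg_right hκ' (by positivity)
    · rw [norm_mul, Complex.norm_real, Real.norm_of_nonneg hκ0]
      exact mul_le_mul hκ' hT2 (norm_nonneg _) hL0.le
  refine hfin.trans ?_
  have e1 : L * (N / L ^ (D + 5)) = N / L ^ (D + 1) * (1 / L ^ 3) := by
    field_simp
    ring
  have e2 : L * (C * (3 * (N / L ^ (2 * D + 20))) * L) = N / L ^ (D + 1) * (3 * C / L ^ (D + 17)) := by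
    field_simp
    ring
  rw [e1, e2, ← mul_add]
  have h6 : 1 / L ^ 3 ≤ 1 / 2 := by
    apply one_div_le_one_div_of_le (by norm_num)
    calc (2 : ℝ) ≤ L := hL2
      _ ≤ L ^ 3 := le_self_pow₀ hL1 (by norm_num)
  have h7 : 3 * C / L ^ (D + 17) ≤ 1 / 2 := by
    rw [div_le_iff₀ (by positivity)]
    have h8 : L ≤ L ^ (D + 17) := le_self_pow₀ hL1 (by omega)
    linarith
  calc (N : ℝ) / L ^ (D + 1) * (1 / L ^ 3 + 3 * C / L ^ (D + 17)) ≤ N / L ^ (D + 1) * 1 := by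
        apply mul_le_mul_of_nonneg_left _ (by positivity)
        linarith
    _ = N / L ^ (D + 1) := mul_one _

theorem mod_maj (D : ℕ) (hD : 1 ≤ D) : ∃ N0 : ℕ, ∀ N : ℕ, N0 ≤ N → ∀ q : ℕ, 1 ≤ q →
    (q : ℝ) ≤ Real.log N ^ (2 * D + 20) → ∀ a : ℤ, IsCoprime a (q : ℤ) → ∀ β : ℝ,
    |β| ≤ Real.log N ^ (2 * D + 20) / N →
    ‖SM (lev D N) N ((a : ℝ) / q + β) - (if q ∣ primorial (lev D N) then cq q * TT N β else 0)‖ ≤
      N / Real.log N ^ (D + 1) := by
  obtain ⟨N1, h1⟩ := brun_l1 D (D + 5) hD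
  obtain ⟨N2, h2⟩ := w_phi D hD
  obtain ⟨N3, h3⟩ := bp_level D 1 hD
  obtain ⟨N4, h4⟩ := mq_log 4
  obtain ⟨N5, h5⟩ := mq_ev (3 * D + 22) 32 (s := 1 / 2) (by norm_num)
  obtain ⟨N6, h6⟩ := mq_ev (4 * D + 40) 2 (s := 3 / 4) (by norm_num)
  obtain ⟨N7, h7⟩ := bp_tail D 1 (D + 5) hD
  refine ⟨max (max (max N1 N2) (max N3 N4)) (max (max N5 N6) (max N7 2)), fun N hN q hq hqQ a ha β hβ => ?_⟩
  simp only [max_le_iff] at hN
  obtain ⟨⟨⟨hN1, hN2⟩, hN3, hN4⟩, ⟨hN5, hN6⟩, hN7, hN8⟩ := hN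
  have hκ := h2 N hN2
  have hL := h4 N hN4
  have hLv := h5 N hN5
  have hLw := h6 N hN6
  have hB := h1 N hN1
  have hlev := h3 N hN3
  have htail := h7 N hN7
  obtain ⟨L, hLdef⟩ : ∃ L, L = Real.log N := ⟨_, rfl⟩
  rw [← hLdef] at hκ hL hLv hLw hB htail hqQ hβ ⊢
  have hL1 : 1 ≤ L := by linarith
  have hL0 : 0 < L := by linarith
  have hN0 : (0 : ℝ) < N := by exact_mod_cast (by omega : 0 < N)
  have hN1' : (1 : ℝ) ≤ N := by exact_mod_cast (by omega : 1 ≤ N)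
  obtain ⟨Q, hQ⟩ : ∃ Q, Q = L ^ (2 * D + 20) := ⟨_, rfl⟩
  rw [← hQ] at hqQ hβ
  have hQ1 : 1 ≤ Q := by
    rw [hQ]
    exact one_le_pow₀ hL1
  have hq0 : (0 : ℝ) < q := by exact_mod_cast hq
  obtain ⟨R, hR⟩ : ∃ R, R = (N : ℝ) ^ ((1 : ℝ) / 4) := ⟨_, rfl⟩
  have hR1 : 1 ≤ R := by
    rw [hR]
    exact Real.one_le_rpow hN1' (by norm_num)
  have hR0 : 0 < R := by linarith
  have hprod : R * (N : ℝ) ^ ((3 : ℝ) / 4) = N := by
    rw [hR, ← Real.rpow_add hN0]
    norm_num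
  have hprod2 : R * R * (N : ℝ) ^ ((1 : ℝ) / 2) = N := by
    rw [hR, ← Real.rpow_add hN0, ← Real.rpow_add hN0]
    norm_num
  have hQ2 : 2 * Q ^ 2 * R ≤ N := by
    have e : Q ^ 2 = L ^ (4 * D + 40) := by
      rw [hQ, ← pow_mul]
      congr 1
      ring
    rw [e]
    calc 2 * L ^ (4 * D + 40) * R ≤ (N : ℝ) ^ ((3 : ℝ) / 4) * R :=
          mul_le_mul_of_nonneg_right hLw hR0.le
      _ = N := by rw [mul_comm, hprod]
  have hβ2 : |β| ≤ 1 / (2 * q * R) := by
    refine hβ.trans ?_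
    rw [div_le_div_iff₀ hN0 (by positivity), one_mul]
    calc Q * (2 * q * R) ≤ Q * (2 * Q * R) := by
          gcongr
      _ = 2 * Q ^ 2 * R := by ring
      _ ≤ N := hQ2
  have hdR : ∀ d ∈ mqF D N, (d : ℝ) ≤ R := by
    intro d hd
    have hd1 := mem_filter.1 hd
    rw [hR]
    exact (hlev d hd1.1 hd1.2.le).1
  have hcard : ((mqF D N).card : ℝ) ≤ R := by
    have hsub : mqF D N ⊆ Icc 1 ⌊R⌋₊ := by
      intro d hd
      rw [mem_Icc]
      exact ⟨mqF_pos hd, Nat.le_floor (hdR d hd)⟩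
    have := Finset.card_le_card hsub
    rw [Nat.card_Icc, Nat.add_sub_cancel] at this
    exact (Nat.cast_le.2 this).trans (Nat.floor_le hR0.le)
  -- the main part of the truncated sum
  have hmain : ‖mqT D N ((a : ℝ) / q + β) - (∑ d ∈ (mqF D N).filter (fun d => q ∣ d),
      ((ArithmeticFunction.moebius d : ℤ) : ℂ) * (1 / (d : ℂ))) * TT N β‖ ≤ R * (8 * Q) := by
    unfold mqT
    rw [Finset.sum_filter, Finset.sum_mul, ← Finset.sum_sub_distrib]
    refine (norm_sum_le _ _).trans ?_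
    have hterm : ∀ d ∈ mqF D N, ‖((ArithmeticFunction.moebius d : ℤ) : ℂ) *
        ∑ m ∈ Ioc 0 (N / d), ee (m * (d * ((a : ℝ) / q + β))) -
        (if q ∣ d then ((ArithmeticFunction.moebius d : ℤ) : ℂ) * (1 / (d : ℂ)) else 0) * TT N β‖ ≤
        8 * Q := by
      intro d hd
      have hd0 := mqF_pos hd
      by_cases hqd : q ∣ d
      · rw [if_pos hqd]
        obtain ⟨e, he⟩ := hqd
        have h1 : ∀ m : ℕ, ee (m * (d * ((a : ℝ) / q + β))) = ee (m * (d * β)) := by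
          intro m
          have h2 : (m : ℝ) * (d * ((a : ℝ) / q + β)) = m * (d * β) + ((m * e * a : ℤ) : ℝ) := by
            rw [he]
            push_cast
            field_simp
            ring
          rw [h2, ee_add_int]
        simp only [h1]
        have h3 : ((ArithmeticFunction.moebius d : ℤ) : ℂ) * ∑ m ∈ Ioc 0 (N / d), ee (m * (d * β)) -
            ((ArithmeticFunction.moebius d : ℤ) : ℂ) * (1 / (d : ℂ)) * TT N β =
            ((ArithmeticFunction.moebius d : ℤ) : ℂ) *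
              (∑ m ∈ Ioc 0 (N / d), ee (m * (d * β)) - (1 / (d : ℂ)) * TT N β) := by
          ring
        rw [h3, norm_mul]
        calc ‖((ArithmeticFunction.moebius d : ℤ) : ℂ)‖ *
              ‖∑ m ∈ Ioc 0 (N / d), ee (m * (d * β)) - (1 / (d : ℂ)) * TT N β‖
            ≤ 1 * (1 + 7 * |β| * N) :=
              mul_le_mul (mq_moeb_norm d) (mq_block2 hd0 β N) (norm_nonneg _) zero_le_one
          _ ≤ 8 * Q := by
              have h4 : |β| * N ≤ Q := by
                have := mul_le_mul_of_nonneg_right hβ hN0.le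
                rwa [div_mul_cancel₀ _ hN0.ne'] at this
              nlinarith
      · rw [if_neg hqd, zero_mul, sub_zero, norm_mul]
        have h1 := mq_geo_bd hq (mq_dn_ge hq hqd (hdR d hd) hR0 ha hβ2) (N / d)
        calc ‖((ArithmeticFunction.moebius d : ℤ) : ℂ)‖ *
              ‖∑ m ∈ Ioc 0 (N / d), ee (m * (d * ((a : ℝ) / q + β)))‖
            ≤ 1 * (2 * q) := mul_le_mul (mq_moeb_norm d) h1 (norm_nonneg _) zero_le_one
          _ ≤ 8 * Q := by linarith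
    refine (Finset.sum_le_card_nsmul _ _ _ hterm).trans ?_
    rw [nsmul_eq_mul]
    exact mul_le_mul_of_nonneg_right hcard (by positivity)
  -- comparison with the complete sum
  have hκ' : mqκ D N ≤ L := hκ
  have hκ0 := mqκ_nonneg D N
  have hW : 0 < primorial (lev D N) := primorial_pos _
  have hcoef : ‖(mqκ D N : ℂ) * (∑ d ∈ (mqF D N).filter (fun d => q ∣ d),
      ((ArithmeticFunction.moebius d : ℤ) : ℂ) * (1 / (d : ℂ))) * TT N β -
      (if q ∣ primorial (lev D N) then cq q * TT N β else 0)‖ ≤ L * (1 / L ^ (D + 5)) * N := by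
    by_cases hqW : q ∣ primorial (lev D N)
    · rw [if_pos hqW, ← sub_mul, norm_mul]
      refine mul_le_mul ?_ (tt_le N β) (norm_nonneg _) (by positivity)
      rw [← mq_coef _ q hW (squarefree_primorial _) hqW]
      have e1 : (((primorial (lev D N) : ℝ) / ((primorial (lev D N)).totient : ℝ) : ℝ) : ℂ) =
          (mqκ D N : ℂ) := rfl
      rw [e1, ← mul_sub, norm_mul, Complex.norm_real, Real.norm_of_nonneg hκ0]
      refine mul_le_mul hκ' ?_ (norm_nonneg _) hL0.le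
      have hsub : (mqF D N).filter (fun d => q ∣ d) ⊆
          (primorial (lev D N)).divisors.filter (fun d => q ∣ d) :=
        Finset.filter_subset_filter _ (Finset.filter_subset _ _)
      rw [← Finset.sum_sdiff hsub]
      have e2 : ∀ x y : ℂ, ‖x - (y + x)‖ = ‖y‖ := by
        intro x y
        rw [← norm_neg]
        congr 1
        ring
      rw [e2]
      refine (norm_sum_le _ _).trans ?_
      refine le_trans ?_ htail
      refine (Finset.sum_le_sum (f := fun d => ‖((ArithmeticFunction.moebius d : ℤ) : ℂ) *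
        (1 / (d : ℂ))‖) (g := fun d : ℕ => ((1 : ℕ) : ℝ) ^ d.primeFactors.card / d) ?_).trans ?_
      · intro d _
        show ‖((ArithmeticFunction.moebius d : ℤ) : ℂ) * (1 / (d : ℂ))‖ ≤ _
        rw [norm_mul, norm_div, norm_one, Complex.norm_natCast, Nat.cast_one, one_pow]
        calc ‖((ArithmeticFunction.moebius d : ℤ) : ℂ)‖ * (1 / (d : ℝ)) ≤ 1 * (1 / (d : ℝ)) :=
              mul_le_mul_of_nonneg_right (mq_moeb_norm d) (by positivity)
          _ = 1 / (d : ℝ) := one_mul _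
      · refine Finset.sum_le_sum_of_subset_of_nonneg ?_ fun d _ _ => by positivity
        intro d hd
        rw [mem_sdiff, mem_filter, mem_filter] at hd
        rw [mem_filter]
        refine ⟨hd.1.1, ?_⟩
        by_contra hcon
        apply hd.2
        refine ⟨mem_filter.2 ⟨hd.1.1, by omega⟩, hd.1.2⟩
    · rw [if_neg hqW, sub_zero]
      have e1 : (mqF D N).filter (fun d => q ∣ d) = ∅ := by
        rw [Finset.filter_eq_empty_iff]
        intro d hd hqd
        exact hqW (hqd.trans (Nat.dvd_of_mem_divisors (mem_filter.1 hd).1))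
      rw [e1, Finset.sum_empty, mul_zero, zero_mul, norm_zero]
      positivity
  have hap := mq_approx hB ((a : ℝ) / q + β)
  have htot : ‖SM (lev D N) N ((a : ℝ) / q + β) -
      (if q ∣ primorial (lev D N) then cq q * TT N β else 0)‖ ≤
      L * (N / L ^ (D + 5)) + L * (R * (8 * Q)) + L * (1 / L ^ (D + 5)) * N := by
    have e : SM (lev D N) N ((a : ℝ) / q + β) -
        (if q ∣ primorial (lev D N) then cq q * TT N β else 0) =
        (SM (lev D N) N ((a : ℝ) / q + β) - (mqκ D N : ℂ) * mqT D N ((a : ℝ) / q + β)) +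
        (mqκ D N : ℂ) * (mqT D N ((a : ℝ) / q + β) - (∑ d ∈ (mqF D N).filter (fun d => q ∣ d),
          ((ArithmeticFunction.moebius d : ℤ) : ℂ) * (1 / (d : ℂ))) * TT N β) +
        ((mqκ D N : ℂ) * (∑ d ∈ (mqF D N).filter (fun d => q ∣ d),
          ((ArithmeticFunction.moebius d : ℤ) : ℂ) * (1 / (d : ℂ))) * TT N β -
          (if q ∣ primorial (lev D N) then cq q * TT N β else 0)) := by ring
    rw [e]
    refine (norm_add_le _ _).trans (add_le_add ((norm_add_le _ _).trans (add_le_add ?_ ?_)) hcoef)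
    · exact hap.trans (mul_le_mul_of_nonneg_right hκ' (by positivity))
    · rw [norm_mul, Complex.norm_real, Real.norm_of_nonneg hκ0]
      exact mul_le_mul hκ' hmain (norm_nonneg _) hL0.le
  refine htot.trans ?_
  have e1 : L * (N / L ^ (D + 5)) = N / L ^ (D + 1) * (1 / L ^ 3) := by
    field_simp
    ring
  have e3 : L * (1 / L ^ (D + 5)) * N = N / L ^ (D + 1) * (1 / L ^ 3) := by
    field_simp
    ring
  have h8 : 1 / L ^ 3 ≤ 1 / 4 := by
    apply one_div_le_one_div_of_le (by norm_num)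
    calc (4 : ℝ) ≤ L := hL
      _ ≤ L ^ 3 := le_self_pow₀ hL1 (by norm_num)
  have h9 : L * (R * (8 * Q)) ≤ N / L ^ (D + 1) * (1 / 4) := by
    rw [div_mul_eq_mul_div, le_div_iff₀ (by positivity)]
    have e : L * (R * (8 * Q)) * L ^ (D + 1) = R * (8 * L ^ (3 * D + 22)) := by
      rw [hQ]
      have e4 : L ^ (3 * D + 22) = L * L ^ (2 * D + 20) * L ^ (D + 1) := by
        rw [← pow_succ', ← pow_add]
        congr 1
        ring
      rw [e4]
      ring
    rw [e]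
    have h10 : R * (32 * L ^ (3 * D + 22)) ≤ N := by
      calc R * (32 * L ^ (3 * D + 22)) ≤ R * (N : ℝ) ^ ((1 : ℝ) / 2) :=
            mul_le_mul_of_nonneg_left hLv hR0.le
        _ ≤ R * R * (N : ℝ) ^ ((1 : ℝ) / 2) := by
            have : 0 ≤ (N : ℝ) ^ ((1 : ℝ) / 2) := by positivity
            nlinarith [mul_nonneg hR0.le this]
        _ = N := hprod2
    linarith
  rw [e1, e3]
  have hpos : 0 ≤ (N : ℝ) / L ^ (D + 1) := by positivity
  nlinarith

end Pool.Agent.SWQ
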