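import Pool.Agent.REC.QMain

/-! SWQ/Qp.  The prime number theorem for a character of modulus `q ≤ (log N)^B` with `‖L(1,χ)‖ ≥ (log N)^(-1/8)` if `χ` is real.

PROOF (adapt `Pool/Agent/REC/QMain.lean`, `Pool/Agent/SW/Pnt.lean`).  `X = log N`, `x = 1/X`, `k = 3A + 6`, `T = X^(k+3)`, `V = X^(1/240)/16` (large `N`: `q (2T+3) ≤ exp V`),
so `(16V)^30 = X^(1/8)` and `REC.low_bound`, `REC.deriv_bound`, `REC.logderiv_bound` give for `|t| ≤ T`:
`‖∑' co χ k x n n^(-it)‖ ≤ k! (16V)^(64(k+1)) = k! X^((4/15)(k+1)) =: E1`, and `≤ (k+1)! (4X)^(k+2) =: E2` for all `t` (`REC.co_norm`, `REC.co_series`).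
`REC.riesz_bound`: Riesz means `≤ E = E1 + E2/T`.  `REC.diff_bound` with `β = (X+3)^(k+1)`, `η = X^(-(A+2))`:
`‖∑_{n ≤ m} b n‖ ≤ C N (X^((4/15)(k+1) + A + 2) + X^(k-1-A))`; remove the weights (`REC.abel_anti`, `REC.weight_anti`) on `√N < n ≤ t`: divide by `(X/2)^k`, loss `3`;
`(11/15) k ≥ 2A + 4`.  The part `n ≤ √N` is trivial. -/

set_option autoImplicit false

namespace Pool.Agent.SWQ

open Finset DirichletCharacter

private theorem qp_co_zero {q : ℕ} (χ : DirichletCharacter ℂ q) (k : ℕ) (x : ℝ) :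
    REC.co χ k x 0 = 0 := by
  simp [REC.co]

private theorem qp_cpow_le (n : ℕ) (t : ℝ) : ‖(n : ℂ) ^ (-(Complex.I * t))‖ ≤ 1 := by
  rcases Nat.eq_zero_or_pos n with rfl | hn
  · by_cases h : -(Complex.I * (t : ℂ)) = 0
    · rw [h]
      simp
    · rw [Nat.cast_zero, Complex.zero_cpow h]
      simp
  · rw [Complex.norm_natCast_cpow_of_pos hn]
    have : (-(Complex.I * (t : ℂ))).re = 0 := by simp
    rw [this, Real.rpow_zero]

/-- bound for all `t` -/
private theorem qp_bd {q : ℕ} (χ : DirichletCharacter ℂ q) (k : ℕ) {x : ℝ} (hx : 0 < x)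
    (hx1 : x ≤ 1) (t : ℝ) : ‖∑' n : ℕ, REC.co χ k x n * (n : ℂ) ^ (-(Complex.I * t))‖ ≤
      (k + 1).factorial * (4 / x) ^ (k + 2) := by
  obtain ⟨h1, h2⟩ := REC.co_norm χ k hx hx1
  have h3 : ∀ n : ℕ, ‖REC.co χ k x n * (n : ℂ) ^ (-(Complex.I * t))‖ ≤ ‖REC.co χ k x n‖ := by
    intro n
    rw [norm_mul]
    exact mul_le_of_le_one_right (norm_nonneg _) (qp_cpow_le n t)
  have h4 : Summable fun n : ℕ => ‖REC.co χ k x n * (n : ℂ) ^ (-(Complex.I * t))‖ :=
    Summable.of_nonneg_of_le (fun n => norm_nonneg _) h3 h1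
  exact (norm_tsum_le_tsum_norm h4).trans ((h4.tsum_le_tsum h3 h1).trans h2)

/-- bound for small `t` -/
private theorem qp_sm {q : ℕ} [NeZero q] {χ : DirichletCharacter ℂ q} (hχ : χ ≠ 1) (k : ℕ)
    {V : ℝ} (hV : 1 ≤ V) {x : ℝ} (hx : 0 < x) (hx1 : x ≤ 1) {t : ℝ}
    (hq : (q : ℝ) * (2 * |t| + 3) ≤ Real.exp V)
    (hex : χ ^ 2 = 1 → 1 / (16 * V) ^ 30 ≤ ‖LFunction χ 1‖) :
    ‖∑' n : ℕ, REC.co χ k x n * (n : ℂ) ^ (-(Complex.I * t))‖ ≤
      k.factorial * (16 * V) ^ (64 * (k + 1)) := by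
  rw [REC.co_series χ k hx t, norm_mul]
  have h1 : ‖((-1 : ℂ)) ^ k‖ = 1 := by
    rw [norm_pow, norm_neg, norm_one, one_pow]
  rw [h1, one_mul]
  have hre : ((1 : ℂ) + x + Complex.I * t).re = 1 + x := by simp
  have him : ((1 : ℂ) + x + Complex.I * t).im = t := by simp
  apply REC.logderiv_bound (differentiable_LFunction hχ) (by linarith)
  · intro j
    apply REC.deriv_bound hχ hV
    · rw [hre]
      linarith
    · rw [hre]
      linarith
    · rw [him]
      refine le_trans ?_ hq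
      apply mul_le_mul_of_nonneg_left _ (Nat.cast_nonneg q)
      have := abs_nonneg t
      linarith
  · exact REC.low_bound hχ hV hx hx1 hq hex

private theorem qp_lam_nonneg (n : ℕ) : 0 ≤ (ArithmeticFunction.vonMangoldt n : ℝ) :=
  ArithmeticFunction.vonMangoldt_nonneg

private theorem qp_b {q : ℕ} (χ : DirichletCharacter ℂ q) (k : ℕ) {x : ℝ} (hx : 0 < x) {n : ℕ}
    (hn : 1 ≤ n) : ‖(n : ℂ) * REC.co χ k x n‖ ≤ Real.log n ^ (k + 1) := by
  have hn0 : (0 : ℝ) < n := by exact_mod_cast hn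
  have hn1 : (1 : ℝ) ≤ n := by exact_mod_cast hn
  have hl : 0 ≤ Real.log n := Real.log_nonneg hn1
  have h1 : (n : ℝ) * (n : ℝ) ^ (-(1 + x)) ≤ 1 := by
    have h2 : (n : ℝ) ^ (-(1 + x)) = (n : ℝ)⁻¹ * (n : ℝ) ^ (-x) := by
      rw [← Real.rpow_neg_one, ← Real.rpow_add hn0]
      congr 1
      ring
    rw [h2, ← mul_assoc, mul_inv_cancel₀ hn0.ne', one_mul]
    exact Real.rpow_le_one_of_one_le_of_nonpos hn1 (by linarith)
  unfold REC.co
  rw [norm_mul, norm_mul, Complex.norm_natCast, Complex.norm_real]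
  have h3 : 0 ≤ (ArithmeticFunction.vonMangoldt n : ℝ) * Real.log n ^ k *
      (n : ℝ) ^ (-(1 + x)) := by
    have := qp_lam_nonneg n
    positivity
  rw [Real.norm_of_nonneg h3]
  have h4 := DirichletCharacter.norm_le_one χ (n : ZMod q)
  have h5 : (ArithmeticFunction.vonMangoldt n : ℝ) ≤ Real.log n :=
    ArithmeticFunction.vonMangoldt_le_log
  have h6 : (ArithmeticFunction.vonMangoldt n : ℝ) * Real.log n ^ k ≤
      Real.log n * Real.log n ^ k := mul_le_mul_of_nonneg_right h5 (by positivity)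
  have h7 : 0 ≤ (ArithmeticFunction.vonMangoldt n : ℝ) * Real.log n ^ k := by
    have := qp_lam_nonneg n
    positivity
  calc (n : ℝ) * ((ArithmeticFunction.vonMangoldt n : ℝ) * Real.log n ^ k *
        (n : ℝ) ^ (-(1 + x)) * ‖χ n‖)
      = ((ArithmeticFunction.vonMangoldt n : ℝ) * Real.log n ^ k) *
        ((n : ℝ) * (n : ℝ) ^ (-(1 + x))) * ‖χ n‖ := by ring
    _ ≤ ((ArithmeticFunction.vonMangoldt n : ℝ) * Real.log n ^ k) * 1 * 1 := by
        apply mul_le_mul _ h4 (norm_nonneg _) (by positivity)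
        exact mul_le_mul_of_nonneg_left h1 h7
    _ ≤ Real.log n * Real.log n ^ k := by linarith
    _ = Real.log n ^ (k + 1) := by ring

private theorem qp_gb {q : ℕ} (χ : DirichletCharacter ℂ q) (k : ℕ) (x : ℝ) {n : ℕ}
    (hn : 2 ≤ n) :
    (((Real.log n ^ k)⁻¹ * (n : ℝ) ^ x : ℝ) : ℂ) * ((n : ℂ) * REC.co χ k x n) =
      ((ArithmeticFunction.vonMangoldt n : ℝ) : ℂ) * χ n := by
  have hn0 : (0 : ℝ) < n := by
    have : 0 < n := by omega
    exact_mod_cast this
  have hl : Real.log n ≠ 0 := by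
    apply (Real.log_pos _).ne'
    have : 1 < n := by omega
    exact_mod_cast this
  have h1 : (Real.log n ^ k)⁻¹ * (n : ℝ) ^ x * ((n : ℝ) *
      ((ArithmeticFunction.vonMangoldt n : ℝ) * Real.log n ^ k * (n : ℝ) ^ (-(1 + x)))) =
      (ArithmeticFunction.vonMangoldt n : ℝ) := by
    have h2 : (n : ℝ) ^ x * ((n : ℝ) * (n : ℝ) ^ (-(1 + x))) = 1 := by
      have h3 : (n : ℝ) * (n : ℝ) ^ (-(1 + x)) = (n : ℝ) ^ (-x) := by
        nth_rewrite 1 [← Real.rpow_one (n : ℝ)]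
        rw [← Real.rpow_add hn0]
        congr 1
        ring
      rw [h3, ← Real.rpow_add hn0, add_neg_cancel, Real.rpow_zero]
    have h4 : (Real.log n ^ k)⁻¹ * Real.log n ^ k = 1 :=
      inv_mul_cancel₀ (pow_ne_zero _ hl)
    calc (Real.log n ^ k)⁻¹ * (n : ℝ) ^ x * ((n : ℝ) *
      ((ArithmeticFunction.vonMangoldt n : ℝ) * Real.log n ^ k * (n : ℝ) ^ (-(1 + x))))
        = (ArithmeticFunction.vonMangoldt n : ℝ) * ((Real.log n ^ k)⁻¹ * Real.log n ^ k) *
          ((n : ℝ) ^ x * ((n : ℝ) * (n : ℝ) ^ (-(1 + x)))) := by ring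
      _ = _ := by rw [h2, h4, mul_one, mul_one]
  unfold REC.co
  conv_rhs => rw [← h1]
  push_cast
  ring


private theorem qp_triv {q : ℕ} (χ : DirichletCharacter ℂ q) {t : ℕ} {L : ℝ} (hL0 : 0 ≤ L)
    (hL : Real.log t ≤ L) :
    ‖∑ n ∈ Ioc 0 t, ((ArithmeticFunction.vonMangoldt n : ℝ) : ℂ) * χ n‖ ≤ t * L := by
  refine (norm_sum_le _ _).trans ?_
  have h1 : ∀ n ∈ Ioc 0 t, ‖((ArithmeticFunction.vonMangoldt n : ℝ) : ℂ) * χ n‖ ≤ L := by
    intro n hn
    obtain ⟨hn1, hn2⟩ := Finset.mem_Ioc.1 hn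
    rw [norm_mul, Complex.norm_real, Real.norm_of_nonneg (qp_lam_nonneg n)]
    have h2 : Real.log n ≤ Real.log t :=
      Real.log_le_log (by exact_mod_cast hn1) (by exact_mod_cast hn2)
    have h3 : (ArithmeticFunction.vonMangoldt n : ℝ) ≤ Real.log n :=
      ArithmeticFunction.vonMangoldt_le_log
    have h4 := DirichletCharacter.norm_le_one χ (n : ZMod q)
    calc (ArithmeticFunction.vonMangoldt n : ℝ) * ‖χ n‖ ≤ L * 1 :=
          mul_le_mul (by linarith) h4 (norm_nonneg _) hL0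
      _ = L := mul_one L
  refine (Finset.sum_le_card_nsmul _ _ _ h1).trans ?_
  rw [Nat.card_Ioc, Nat.sub_zero, nsmul_eq_mul]

private theorem qp_par (A B k : ℕ) :
    ∀ᶠ X : ℝ in Filter.atTop, 10 ≤ X ∧ 16 ≤ X ^ (1 / 240 : ℝ) ∧
      X ^ B * (2 * X ^ (k + 3) + 3) ≤ Real.exp (X ^ (1 / 240 : ℝ) / 16) ∧
      (k + 1).factorial * (4 * X) ^ (k + 2) / X ^ (k + 3) ≤ 1 ∧
      288 * 2 ^ k * k.factorial ≤ X ^ (1 / 240 : ℝ) ∧ 144 * 4 ^ k ≤ X ∧
      72 * 4 ^ k * X ^ (A + 1) ≤ Real.exp X ∧ 4 * X * X ^ A ≤ Real.exp (X / 2) := by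
  have hw : Filter.Tendsto (fun X : ℝ => X ^ (1 / 240 : ℝ)) Filter.atTop Filter.atTop :=
    tendsto_rpow_atTop (by norm_num)
  obtain ⟨m, hm⟩ : ∃ m : ℕ, m = 240 * (B + k + 4) := ⟨_, rfl⟩
  have h1 : ∀ᶠ X : ℝ in Filter.atTop, (X ^ (1 / 240 : ℝ) / 16) ^ m *
      Real.exp (-(X ^ (1 / 240 : ℝ) / 16)) < 1 / 16 ^ m :=
    (hw.atTop_div_const (by norm_num : (0 : ℝ) < 16)).eventually
      ((Real.tendsto_pow_mul_exp_neg_atTop_nhds_zero m).eventually
        (gt_mem_nhds (by positivity)))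
  have h2 : ∀ᶠ X : ℝ in Filter.atTop, X ^ (A + 1) * Real.exp (-X) < 1 / (72 * 4 ^ k) :=
    (Real.tendsto_pow_mul_exp_neg_atTop_nhds_zero (A + 1)).eventually (gt_mem_nhds (by positivity))
  have h3 : ∀ᶠ X : ℝ in Filter.atTop,
      (X / 2) ^ (A + 1) * Real.exp (-(X / 2)) < 1 / (4 * 2 ^ (A + 1)) :=
    (Filter.tendsto_id.atTop_div_const (by norm_num : (0 : ℝ) < 2)).eventually
      ((Real.tendsto_pow_mul_exp_neg_atTop_nhds_zero (A + 1)).eventually
        (gt_mem_nhds (by positivity)))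
  filter_upwards [h1, h2, h3, Filter.eventually_ge_atTop (10 : ℝ),
    hw.eventually (Filter.eventually_ge_atTop (16 : ℝ)),
    hw.eventually (Filter.eventually_ge_atTop (288 * 2 ^ k * k.factorial : ℝ)),
    Filter.eventually_ge_atTop ((k + 1).factorial * 4 ^ (k + 2) : ℝ),
    Filter.eventually_ge_atTop (144 * 4 ^ k : ℝ)] with X a1 a2 a3 a4 a5 a6 a7 a8
  have hX0 : 0 < X := by linarith
  have hX1 : 1 ≤ X := by linarith
  refine ⟨a4, a5, ?_, ?_, a6, a8, ?_, ?_⟩
  · obtain ⟨w, hwd⟩ : ∃ w : ℝ, w = X ^ (1 / 240 : ℝ) := ⟨_, rfl⟩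
    rw [← hwd] at a1 a5 ⊢
    have hw240 : w ^ 240 = X := by
      rw [hwd, ← Real.rpow_natCast, ← Real.rpow_mul hX0.le]
      norm_num
    have c1 : X ^ B * (2 * X ^ (k + 3) + 3) ≤ w ^ m := by
      have e1 : w ^ m = X ^ B * (X * X ^ (k + 3)) := by
        rw [hm, pow_mul, hw240]
        ring
      rw [e1]
      apply mul_le_mul_of_nonneg_left _ (by positivity)
      have c2 : 1 ≤ X ^ (k + 3) := one_le_pow₀ hX1
      nlinarith
    refine c1.trans ?_
    have b1 : (w / 16) ^ m * Real.exp (-(w / 16)) * (16 ^ m * Real.exp (w / 16)) ≤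
        1 / 16 ^ m * (16 ^ m * Real.exp (w / 16)) :=
      mul_le_mul_of_nonneg_right a1.le (by positivity)
    have b2 : (w / 16) ^ m * Real.exp (-(w / 16)) * (16 ^ m * Real.exp (w / 16)) = w ^ m := by
      rw [div_pow, Real.exp_neg]
      field_simp
    have b3 : 1 / 16 ^ m * (16 ^ m * Real.exp (w / 16)) = Real.exp (w / 16) := by
      field_simp
    rw [b2, b3] at b1
    exact b1
  · have c1 : (k + 1).factorial * (4 * X) ^ (k + 2) / X ^ (k + 3) =
        (k + 1).factorial * 4 ^ (k + 2) / X := by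
      rw [mul_pow]
      field_simp
      ring
    rw [c1, div_le_one hX0]
    exact a7
  · have b1 : X ^ (A + 1) * Real.exp (-X) * (72 * 4 ^ k * Real.exp X) ≤
        1 / (72 * 4 ^ k) * (72 * 4 ^ k * Real.exp X) :=
      mul_le_mul_of_nonneg_right a2.le (by positivity)
    have b2 : X ^ (A + 1) * Real.exp (-X) * (72 * 4 ^ k * Real.exp X) =
        72 * 4 ^ k * X ^ (A + 1) := by
      rw [Real.exp_neg]
      field_simp
    have b3 : 1 / (72 * 4 ^ k) * (72 * 4 ^ k * Real.exp X) = Real.exp X := by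
      field_simp
    rw [b2, b3] at b1
    exact b1
  · have b1 : (X / 2) ^ (A + 1) * Real.exp (-(X / 2)) * (4 * 2 ^ (A + 1) * Real.exp (X / 2)) ≤
        1 / (4 * 2 ^ (A + 1)) * (4 * 2 ^ (A + 1) * Real.exp (X / 2)) :=
      mul_le_mul_of_nonneg_right a3.le (by positivity)
    have b2 : (X / 2) ^ (A + 1) * Real.exp (-(X / 2)) * (4 * 2 ^ (A + 1) * Real.exp (X / 2)) =
        4 * X * X ^ A := by
      rw [div_pow, Real.exp_neg]
      field_simp
      ring
    have b3 : 1 / (4 * 2 ^ (A + 1)) * (4 * 2 ^ (A + 1) * Real.exp (X / 2)) =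
        Real.exp (X / 2) := by
      field_simp
    rw [b2, b3] at b1
    exact b1

theorem qp (A B : ℕ) : ∃ N0 : ℕ, ∀ N : ℕ, N0 ≤ N → ∀ (q : ℕ) [NeZero q], (q : ℝ) ≤ Real.log N ^ B →
    ∀ χ : DirichletCharacter ℂ q, χ ≠ 1 → (χ ^ 2 = 1 → Real.log N ^ (-(1 / 8) : ℝ) ≤ ‖LFunction χ 1‖) →
    ∀ t : ℕ, t ≤ N →
    ‖∑ n ∈ Ioc 0 t, ((ArithmeticFunction.vonMangoldt n : ℝ) : ℂ) * χ n‖ ≤ N / Real.log N ^ A := by
  obtain ⟨k, hk⟩ : ∃ k : ℕ, k = 3 * A + 6 := ⟨_, rfl⟩
  obtain ⟨X0, hX0⟩ := Filter.eventually_atTop.1 (qp_par A B k)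
  refine ⟨⌈Real.exp (max X0 2)⌉₊, ?_⟩
  intro N hN q _ hq χ hχ hex t htN
  set X := Real.log N with hX
  have hN1 : Real.exp (max X0 2) ≤ N := Nat.ceil_le.1 hN
  have hN0 : (0 : ℝ) < N := (Real.exp_pos _).trans_le hN1
  have hXm : max X0 2 ≤ X := by
    rw [hX, Real.le_log_iff_exp_le hN0]
    exact hN1
  have hexpX : Real.exp X = N := by rw [hX, Real.exp_log hN0]
  obtain ⟨hX10, hw16, hqX, hE2, hCX, h144, hbX, hsX⟩ := hX0 X ((le_max_left _ _).trans hXm)
  have hXpos : 0 < X := by linarith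
  have hX2 : 2 ≤ X := by linarith
  obtain ⟨w, hwd⟩ : ∃ w : ℝ, w = X ^ (1 / 240 : ℝ) := ⟨_, rfl⟩
  rw [← hwd] at hw16 hqX hCX
  have hw240 : w ^ 240 = X := by
    rw [hwd, ← Real.rpow_natCast, ← Real.rpow_mul hXpos.le]
    norm_num
  have hw30 : w ^ 30 = X ^ (1 / 8 : ℝ) := by
    rw [hwd, ← Real.rpow_natCast, ← Real.rpow_mul hXpos.le]
    norm_num
  have hw1 : 1 ≤ w := by linarith
  have hw0 : 0 < w := by linarith
  set T := X ^ (k + 3) with hT
  have hT1 : 1 ≤ T := one_le_pow₀ (by linarith)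
  have hT0 : 0 < T := by linarith
  set V := w / 16 with hV
  have hV1 : 1 ≤ V := by
    rw [hV, le_div_iff₀ (by norm_num)]
    linarith
  have hWV : 16 * V = w := by
    rw [hV]
    ring
  have hx0 : 0 < 1 / X := by positivity
  have hx1 : 1 / X ≤ 1 := by
    rw [div_le_one hXpos]
    linarith
  have h4X : 4 / (1 / X) = 4 * X := by
    field_simp
  set F : ℝ := k.factorial * w ^ (64 * (k + 1)) with hF
  set E2 : ℝ := (k + 1).factorial * (4 * X) ^ (k + 2) with hE2d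
  have hfac : (1 : ℝ) ≤ k.factorial := by exact_mod_cast Nat.one_le_iff_ne_zero.2 (Nat.factorial_ne_zero k)
  have hF1 : 1 ≤ F := by
    have := one_le_pow₀ (n := 64 * (k + 1)) hw1
    rw [hF]
    nlinarith
  have hF0 : 0 ≤ F := by linarith
  have hE20 : 0 ≤ E2 := by positivity
  have hcn := (REC.co_norm χ k hx0 hx1).1
  have hA1 : ∀ t : ℝ, |t| ≤ T →
      ‖∑' n : ℕ, REC.co χ k (1 / X) n * (n : ℂ) ^ (-(Complex.I * t))‖ ≤ F := by
    intro t ht
    have h1 := qp_sm hχ k hV1 hx0 hx1 (t := t) ?_ ?_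
    · rw [hWV] at h1
      exact h1
    · refine le_trans ?_ hqX
      apply mul_le_mul hq _ (by positivity) (by positivity)
      linarith
    · rw [hWV, hw30]
      intro h
      refine le_trans (le_of_eq ?_) (hex h)
      rw [Real.rpow_neg hXpos.le, one_div]
  have hB1 : ∀ t : ℝ, ‖∑' n : ℕ, REC.co χ k (1 / X) n * (n : ℂ) ^ (-(Complex.I * t))‖ ≤ E2 := by
    intro t
    have h1 := qp_bd χ k hx0 hx1 t
    rw [h4X] at h1
    exact h1
  set b : ℕ → ℂ := fun n => (n : ℂ) * REC.co χ k (1 / X) n with hb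
  have hb0 : b 0 = 0 := by
    simp [hb]
  have hbn : ∀ n : ℕ, b n / n = REC.co χ k (1 / X) n := by
    intro n
    rcases Nat.eq_zero_or_pos n with rfl | hn
    · rw [hb0, qp_co_zero, zero_div]
    · have : (n : ℂ) ≠ 0 := by
        exact_mod_cast hn.ne'
      simp only [hb]
      rw [mul_comm, mul_div_assoc, div_self this, mul_one]
  have hlog3 : Real.log 3 ≤ 2 := by
    have := Real.log_le_sub_one_of_pos (by norm_num : (0 : ℝ) < 3)
    linarith
  have hNpos : 1 ≤ N := by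
    have : (0 : ℝ) < N := hN0
    exact_mod_cast this
  have hβ : ∀ n : ℕ, (n : ℝ) ≤ 3 * (N : ℝ) → ‖b n‖ ≤ (X + 3) ^ (k + 1) := by
    intro n hn
    rcases Nat.eq_zero_or_pos n with rfl | hn0
    · rw [hb0, norm_zero]
      positivity
    · refine (qp_b χ k hx0 hn0).trans ?_
      have hn1 : (1 : ℝ) ≤ n := by exact_mod_cast hn0
      have hl0 := Real.log_nonneg hn1
      have h2 : Real.log n ≤ X + 3 := by
        calc Real.log n ≤ Real.log (3 * N) := Real.log_le_log (by linarith) hn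
          _ = Real.log 3 + X := by rw [Real.log_mul (by norm_num) hN0.ne']
          _ ≤ X + 3 := by linarith
      exact pow_le_pow_left₀ hl0 h2 _
  have hG : ∀ y : ℝ, 1 ≤ y → y ≤ 3 * (N : ℝ) →
      ‖∑' n : ℕ, b n / n * (((n : ℝ) / y * max (Real.log (y / n)) 0 : ℝ) : ℂ)‖ ≤ 2 * F := by
    intro y hy _
    simp only [hbn]
    refine (REC.riesz_bound hcn (qp_co_zero χ k _) hT1 hF0 hE20 hA1 hB1
      (by linarith)).trans ?_
    linarith
  set η : ℝ := (X ^ (A + 2))⁻¹ with hη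
  have hη0 : 0 < η := by positivity
  have hη1 : η ≤ 1 := by
    apply inv_le_one_of_one_le₀
    exact one_le_pow₀ (by linarith)
  set D : ℝ := 8 * N * F * X ^ (A + 2) + (2 * X) ^ (k + 1) * (2 * η * N + 1) with hDd
  have hD0 : 0 ≤ D := by positivity
  have hD : ∀ m : ℕ, m ≤ N → ‖∑ n ∈ Ioc 0 m, b n‖ ≤ D := by
    intro m hm
    have h1 := REC.diff_bound hb0 (by linarith : 0 ≤ 2 * F) hη0 hη1 (N := N) hNpos hβ hG hm
    refine h1.trans ?_
    have h2 : 4 * (N : ℝ) * (2 * F) / η = 8 * N * F * X ^ (A + 2) := by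
      rw [hη, div_inv_eq_mul]
      ring
    have h4 : (X + 3) ^ (k + 1) ≤ (2 * X) ^ (k + 1) :=
      pow_le_pow_left₀ (by linarith) (by linarith) _
    rw [h2, hDd]
    have h5 := mul_le_mul_of_nonneg_right h4 (by positivity : 0 ≤ 2 * η * N + 1)
    linarith
  -- the final inequality
  have hfinal : 2 * D * (3 * (2 ^ k / X ^ k)) ≤ N / X ^ A / 2 := by
    have hXk : 0 < X ^ k := by positivity
    have hXA : 0 < X ^ A := by positivity
    have i1 : 2 * (8 * N * F * X ^ (A + 2)) * (3 * (2 ^ k / X ^ k)) ≤ N / X ^ A / 6 := by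
      have j1 : 288 * 2 ^ k * F * (X ^ (A + 2) * X ^ A) ≤ X ^ k := by
        have e1 : X ^ (A + 2) * X ^ A = w ^ (240 * (2 * A + 2)) := by
          rw [pow_mul, hw240, ← pow_add]
          congr 1
          ring
        have e2 : X ^ k = w ^ (240 * k) := by
          rw [pow_mul, hw240]
        rw [e1, e2]
        calc 288 * 2 ^ k * F * w ^ (240 * (2 * A + 2))
            = (288 * 2 ^ k * k.factorial) * (w ^ (64 * (k + 1)) * w ^ (240 * (2 * A + 2))) := by
              rw [hF]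
              ring
          _ ≤ w * (w ^ (64 * (k + 1)) * w ^ (240 * (2 * A + 2))) :=
              mul_le_mul_of_nonneg_right hCX (by positivity)
          _ = w ^ (1 + (64 * (k + 1) + 240 * (2 * A + 2))) := by
              rw [pow_add w 1, pow_one, pow_add]
          _ ≤ w ^ (240 * k) := by
              apply pow_le_pow_right₀ hw1
              omega
      have e3 : 2 * (8 * N * F * X ^ (A + 2)) * (3 * (2 ^ k / X ^ k)) =
          (N / X ^ A / 6) * ((288 * 2 ^ k * F * (X ^ (A + 2) * X ^ A)) / X ^ k) := by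
        field_simp
        ring
      rw [e3]
      apply mul_le_of_le_one_right (by positivity)
      rw [div_le_one hXk]
      exact j1
    have i2 : 2 * ((2 * X) ^ (k + 1) * (2 * η * N)) * (3 * (2 ^ k / X ^ k)) ≤ N / X ^ A / 6 := by
      have e4 : (4 : ℝ) ^ k = 2 ^ k * 2 ^ k := by
        rw [← mul_pow]
        norm_num
      have e3 : 2 * ((2 * X) ^ (k + 1) * (2 * η * N)) * (3 * (2 ^ k / X ^ k)) =
          (N / X ^ A / 6) * ((144 * 4 ^ k) / X) := by
        rw [hη, mul_pow, e4, pow_succ, pow_succ X k, pow_add X A 2]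
        field_simp
        ring
      rw [e3]
      apply mul_le_of_le_one_right (by positivity)
      rw [div_le_one hXpos]
      exact h144
    have i3 : 2 * ((2 * X) ^ (k + 1) * 1) * (3 * (2 ^ k / X ^ k)) ≤ N / X ^ A / 6 := by
      have e4 : (4 : ℝ) ^ k = 2 ^ k * 2 ^ k := by
        rw [← mul_pow]
        norm_num
      have e3 : 2 * ((2 * X) ^ (k + 1) * 1) * (3 * (2 ^ k / X ^ k)) =
          (72 * 4 ^ k * X ^ (A + 1)) / X ^ A / 6 := by
        rw [mul_pow, e4, pow_succ, pow_succ X k, pow_succ X A]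
        field_simp
        ring
      rw [e3, ← hexpX]
      apply div_le_div_of_nonneg_right _ (by norm_num)
      exact div_le_div_of_nonneg_right hbX hXA.le
    calc 2 * D * (3 * (2 ^ k / X ^ k)) = 2 * (8 * N * F * X ^ (A + 2)) * (3 * (2 ^ k / X ^ k)) +
          2 * ((2 * X) ^ (k + 1) * (2 * η * N)) * (3 * (2 ^ k / X ^ k)) +
          2 * ((2 * X) ^ (k + 1) * 1) * (3 * (2 ^ k / X ^ k)) := by
          rw [hDd]
          ring
      _ ≤ N / X ^ A / 6 + N / X ^ A / 6 + N / X ^ A / 6 := add_le_add (add_le_add i1 i2) i3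
      _ = N / X ^ A / 2 := by ring
  -- the cut
  set P : ℕ := ⌈Real.exp (X / 2)⌉₊ with hP
  have hPge : Real.exp (X / 2) ≤ P := Nat.le_ceil _
  have hexp2 : 1 ≤ Real.exp (X / 2) := Real.one_le_exp (by positivity)
  have hPle : (P : ℝ) ≤ 2 * Real.exp (X / 2) := by
    have := Nat.ceil_lt_add_one (Real.exp_pos (X / 2)).le
    linarith
  have hP0 : (0 : ℝ) < P := by linarith
  have hlogP : X / 2 ≤ Real.log P := by
    rw [Real.le_log_iff_exp_le hP0]
    exact hPge
  have hNsq : (N : ℝ) = Real.exp (X / 2) * Real.exp (X / 2) := by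
    rw [← Real.exp_add, add_halves, hexpX]
  have hPN : P ≤ N := by
    have h1 : 2 ≤ Real.exp (X / 2) := by
      have := Real.add_one_le_exp (X / 2)
      linarith
    have h2 : (P : ℝ) ≤ N := by
      rw [hNsq]
      nlinarith
    exact_mod_cast h2
  have hsmall : (P : ℝ) * X ≤ N / X ^ A / 2 := by
    have h1 : 4 * X * X ^ A * Real.exp (X / 2) ≤ Real.exp (X / 2) * Real.exp (X / 2) :=
      mul_le_mul_of_nonneg_right hsX (Real.exp_pos _).le
    rw [← hNsq] at h1
    rw [div_div, le_div_iff₀ (by positivity)]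
    calc (P : ℝ) * X * (X ^ A * 2)
        ≤ 2 * Real.exp (X / 2) * X * (X ^ A * 2) := by
          apply mul_le_mul_of_nonneg_right _ (by positivity)
          exact mul_le_mul_of_nonneg_right hPle (by linarith)
      _ = 4 * X * X ^ A * Real.exp (X / 2) := by ring
      _ ≤ N := h1
  have hNA : 0 ≤ (N : ℝ) / X ^ A := by positivity
  by_cases htP : t ≤ P
  · have h1 : Real.log t ≤ X := by
      rcases Nat.eq_zero_or_pos t with rfl | ht0
      · rw [Nat.cast_zero, Real.log_zero]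
        exact hXpos.le
      · exact Real.log_le_log (by exact_mod_cast ht0) (by exact_mod_cast htN)
    have h2 := qp_triv χ (t := t) hXpos.le h1
    have h3 : (t : ℝ) * X ≤ P * X :=
      mul_le_mul_of_nonneg_right (by exact_mod_cast htP) hXpos.le
    linarith
  · have hPt : P ≤ t := by omega
    set g : ℕ → ℝ := fun n => (Real.log n ^ k)⁻¹ * (n : ℝ) ^ (1 / X) with hg
    have hlogn : ∀ n : ℕ, P ≤ n → X / 2 ≤ Real.log n := by
      intro n hn
      have : (P : ℝ) ≤ n := by exact_mod_cast hn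
      exact hlogP.trans (Real.log_le_log hP0 this)
    have hanti : ∀ n, P ≤ n → n < t → g (n + 1) ≤ g n := by
      intro n hn1 hn2
      have h1 := hlogn n hn1
      apply REC.weight_anti hX2 (by omega) (by linarith)
      have h2 : (n : ℝ) + 1 ≤ N := by
        have : n + 1 ≤ N := by omega
        exact_mod_cast this
      have h3 : Real.log ((n : ℝ) + 1) ≤ Real.log N :=
        Real.log_le_log (by positivity) h2
      linarith
    have hg0 : ∀ n, P ≤ n → n ≤ t → 0 ≤ g n := by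
      intro n hn1 _
      have h1 := hlogn n hn1
      simp only [hg]
      have : 0 ≤ Real.log n := by linarith
      positivity
    have hab := REC.abel_anti (b := b) hPt hanti hg0 (D := D)
      (fun n _ hn => hD n (hn.trans htN))
    have hP2 : 2 ≤ P := by
      have h1 : (2 : ℝ) ≤ P := by
        have := Real.add_one_le_exp (X / 2)
        linarith
      exact_mod_cast h1
    have hsum : ∑ n ∈ Ioc P t, ((ArithmeticFunction.vonMangoldt n : ℝ) : ℂ) * χ n =
        ∑ m ∈ Ioc P t, (g m : ℂ) * b m := by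
      refine Finset.sum_congr rfl fun n hn => ?_
      rw [mem_Ioc] at hn
      exact (qp_gb χ k (1 / X) (by omega)).symm
    have hg1 : g P ≤ 3 * (2 ^ k / X ^ k) := by
      have h2 : (Real.log P ^ k)⁻¹ ≤ ((X / 2) ^ k)⁻¹ := by
        apply inv_anti₀ (by positivity)
        exact pow_le_pow_left₀ (by positivity) hlogP k
      have h3 : (P : ℝ) ^ (1 / X) ≤ 3 := by
        have h4 : (P : ℝ) ^ (1 / X) ≤ (N : ℝ) ^ (1 / X) :=
          Real.rpow_le_rpow hP0.le (by exact_mod_cast hPN) hx0.le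
        have h5 : (N : ℝ) ^ (1 / X) = Real.exp 1 := by
          rw [Real.rpow_def_of_pos hN0, ← hX, mul_one_div, div_self hXpos.ne']
        have h6 := Real.exp_one_lt_d9
        rw [h5] at h4
        linarith
      calc g P = (Real.log P ^ k)⁻¹ * (P : ℝ) ^ (1 / X) := rfl
        _ ≤ ((X / 2) ^ k)⁻¹ * 3 := by
            apply mul_le_mul h2 h3 (by positivity) (by positivity)
        _ = 3 * (2 ^ k / X ^ k) := by
            rw [div_pow, inv_div]
            ring
    have hbig : ‖∑ n ∈ Ioc P t, ((ArithmeticFunction.vonMangoldt n : ℝ) : ℂ) * χ n‖ ≤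
        N / X ^ A / 2 := by
      rw [hsum]
      refine hab.trans (le_trans ?_ hfinal)
      exact mul_le_mul_of_nonneg_left hg1 (by positivity)
    have hPX : Real.log P ≤ X := Real.log_le_log hP0 (by exact_mod_cast hPN)
    have htr := qp_triv χ (t := P) hXpos.le hPX
    have hsplit : ∑ n ∈ Ioc 0 t, ((ArithmeticFunction.vonMangoldt n : ℝ) : ℂ) * χ n =
        ∑ n ∈ Ioc 0 P, ((ArithmeticFunction.vonMangoldt n : ℝ) : ℂ) * χ n +
          ∑ n ∈ Ioc P t, ((ArithmeticFunction.vonMangoldt n : ℝ) : ℂ) * χ n :=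
      (Finset.sum_Ioc_consecutive _ (Nat.zero_le P) hPt).symm
    rw [hsplit]
    refine (norm_add_le _ _).trans ?_
    linarith

end Pool.Agent.SWQ
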