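import Pool.Agent.SWQ.Siegel
import Pool.Agent.SWQ.Qp

/-! SWQ/SWz.  THE SIEGEL-WALFISZ THEOREM for characters.

`siegel` with `ε = 1/(16 (B+1))`: `‖L(1,χ)‖ ≥ c q^(-ε) ≥ c (log N)^(-1/16) ≥ (log N)^(-1/8)` for large `N`, then `qp`. -/

set_option autoImplicit false

namespace Pool.Agent.SWQ

open Finset DirichletCharacter

theorem siegel_walfisz (A B : ℕ) : ∃ N0 : ℕ, ∀ N : ℕ, N0 ≤ N → ∀ (q : ℕ) [NeZero q], (q : ℝ) ≤ Real.log N ^ B →
    ∀ χ : DirichletCharacter ℂ q, χ ≠ 1 → ∀ t : ℕ, t ≤ N →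
    ‖∑ n ∈ Ioc 0 t, ((ArithmeticFunction.vonMangoldt n : ℝ) : ℂ) * χ n‖ ≤ N / Real.log N ^ A := by
  have hε : (0 : ℝ) < 1 / (16 * ((B : ℝ) + 1)) := by positivity
  obtain ⟨c, hc, hS⟩ := siegel hε
  obtain ⟨N1, hN1⟩ := qp A B
  have ht : Filter.Tendsto (fun N : ℕ => Real.log (N : ℝ)) Filter.atTop Filter.atTop :=
    Real.tendsto_log_atTop.comp tendsto_natCast_atTop_atTop
  obtain ⟨N2, hN2⟩ := Filter.eventually_atTop.1
    (ht.eventually_ge_atTop (max 1 ((1 / c) ^ 16)))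
  refine ⟨max N1 N2, fun N hN q _ hq χ hχ t htN => ?_⟩
  refine hN1 N (le_trans (le_max_left _ _) hN) q hq χ hχ (fun hreal => ?_) t htN
  have hL := hN2 N (le_trans (le_max_right _ _) hN)
  have hL1 : 1 ≤ Real.log (N : ℝ) := le_trans (le_max_left _ _) hL
  have hLc : (1 / c) ^ 16 ≤ Real.log (N : ℝ) := le_trans (le_max_right _ _) hL
  have hL0 : 0 < Real.log (N : ℝ) := by linarith
  have hq0 : (0 : ℝ) < (q : ℝ) := by
    have := Nat.pos_of_ne_zero (NeZero.ne q)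
    exact_mod_cast this
  have h1 := hS q χ hχ hreal
  refine le_trans ?_ h1
  -- `q ^ (-ε) ≥ (log N) ^ (-1/16)`
  have h2 : Real.log (N : ℝ) ^ (-(1 / 16) : ℝ) ≤ (q : ℝ) ^ (-(1 / (16 * ((B : ℝ) + 1)))) := by
    have h3 : (Real.log (N : ℝ) ^ B) ^ (-(1 / (16 * ((B : ℝ) + 1)))) ≤
        (q : ℝ) ^ (-(1 / (16 * ((B : ℝ) + 1)))) :=
      Real.rpow_le_rpow_of_nonpos hq0 hq (by linarith)
    refine le_trans ?_ h3
    rw [← Real.rpow_natCast, ← Real.rpow_mul hL0.le]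
    refine Real.rpow_le_rpow_of_exponent_le hL1 ?_
    have hB : (0 : ℝ) < (B : ℝ) + 1 := by positivity
    have h4 : (B : ℝ) * (1 / (16 * ((B : ℝ) + 1))) ≤ 1 / 16 := by
      rw [mul_one_div, div_le_div_iff₀ (by positivity) (by norm_num)]
      nlinarith
    linarith
  have h5 : Real.log (N : ℝ) ^ (-(1 / 8) : ℝ) =
      Real.log (N : ℝ) ^ (-(1 / 16) : ℝ) * Real.log (N : ℝ) ^ (-(1 / 16) : ℝ) := by
    rw [← Real.rpow_add hL0]
    norm_num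
  have h6 : Real.log (N : ℝ) ^ (-(1 / 16) : ℝ) ≤ c := by
    have h7 : ((1 / c) ^ 16) ^ (-(1 / 16) : ℝ) = c := by
      rw [← Real.rpow_natCast, ← Real.rpow_mul (by positivity)]
      norm_num
      rw [Real.rpow_neg_one, inv_inv]
    have h8 : Real.log (N : ℝ) ^ (-(1 / 16) : ℝ) ≤ ((1 / c) ^ 16) ^ (-(1 / 16) : ℝ) :=
      Real.rpow_le_rpow_of_nonpos (by positivity) hLc (by norm_num)
    rwa [h7] at h8
  rw [h5]
  have h9 : 0 < Real.log (N : ℝ) ^ (-(1 / 16) : ℝ) := Real.rpow_pos_of_pos hL0 _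
  exact mul_le_mul h6 h2 h9.le hc.le

end Pool.Agent.SWQ
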