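import Pool.Agent.REC.DerivB

/-! SWQ/SgBd.  Siegel's theorem, part 2: bounds.

`sg_bd`: for `Re s > 0`, `L(s, ψ) = s ∫_1^∞ A(t) t^(-s-1) dt`, `|A(t)| ≤ N` (`A` the summatory function of `ψ`), so `|L(s,ψ)| ≤ N |s|/Re s`; on
`|s - 2| ≤ 3/2`: `Re s ≥ 1/2`, `|s| ≤ 7/2`.  (Compare the private lemmas of `Pool/Agent/REC/DerivB.lean`: the same formula with the first terms split off;
with `N = 1` term or `0` terms it is exactly this.)
`sg_bd_zeta`: `riemannZeta` is continuous on the compact circle `|s - 2| = 3/2`, which does not contain `1`.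
`sg_bd_one`: `REC.deriv_bound` with `j = 0`, `V = 1 + log (3N)`…, at `s = 1 + x`, `x → 0+` and continuity of `LFunction`. -/

set_option autoImplicit false

namespace Pool.Agent.SWQ

open DirichletCharacter Filter MeasureTheory Topology

private theorem sum_full {q : ℕ} [NeZero q] {χ : DirichletCharacter ℂ q} (hχ : χ ≠ 1) (j : ℕ) :
    ∑ i ∈ Finset.range q, χ ((j + i : ℕ) : ZMod q) = 0 := by
  have h1 : ∑ i ∈ Finset.range q, χ ((j + i : ℕ) : ZMod q)
      = ∑ x : ZMod q, χ ((j : ZMod q) + x) := by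
    refine Finset.sum_bij (fun i _ => ((i : ℕ) : ZMod q)) (fun _ _ => Finset.mem_univ _) ?_ ?_ ?_
    · intro i hi i' hi' h
      rw [ZMod.natCast_eq_natCast_iff'] at h
      rwa [Nat.mod_eq_of_lt (Finset.mem_range.1 hi), Nat.mod_eq_of_lt (Finset.mem_range.1 hi')] at h
    · intro x _
      exact ⟨x.val, Finset.mem_range.2 (ZMod.val_lt x), ZMod.natCast_zmod_val x⟩
    · intro i _
      rw [Nat.cast_add]
  have h2 := Equiv.sum_comp (Equiv.addLeft (j : ZMod q)) (fun y => χ y)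
  simp only [Equiv.coe_addLeft] at h2
  rw [h1, h2]
  exact MulChar.sum_eq_zero_of_ne_one hχ

private theorem sum_part {q : ℕ} [NeZero q] {χ : DirichletCharacter ℂ q} (hχ : χ ≠ 1) (n : ℕ) :
    ∀ j : ℕ, ‖∑ i ∈ Finset.range n, χ ((j + i : ℕ) : ZMod q)‖ ≤ q := by
  induction n using Nat.strong_induction_on with
  | _ n ih =>
    intro j
    rcases lt_or_ge n q with h | h
    · refine (norm_sum_le _ _).trans ?_
      calc ∑ i ∈ Finset.range n, ‖χ ((j + i : ℕ) : ZMod q)‖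
          ≤ ∑ i ∈ Finset.range n, (1 : ℝ) :=
            Finset.sum_le_sum fun i _ => DirichletCharacter.norm_le_one χ _
        _ = n := by simp
        _ ≤ q := by exact_mod_cast h.le
    · obtain ⟨k, rfl⟩ : ∃ k, n = q + k := ⟨n - q, by omega⟩
      have hq : 0 < q := Nat.pos_of_ne_zero (NeZero.ne q)
      rw [Finset.sum_range_add, sum_full hχ j, zero_add]
      have h1 := ih k (by omega) (j + q)
      have h2 : ∑ x ∈ Finset.range k, χ ((j + (q + x) : ℕ) : ZMod q)
          = ∑ i ∈ Finset.range k, χ ((j + q + i : ℕ) : ZMod q) :=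
        Finset.sum_congr rfl fun i _ => by rw [add_assoc j q i]
      rw [h2]
      exact h1

/-- the tail of the character -/
private noncomputable def tl {q : ℕ} (χ : DirichletCharacter ℂ q) (N n : ℕ) : ℂ :=
  if n ≤ N then 0 else χ (n : ZMod q)

/-- partial sums of the tail -/
private noncomputable def BB {q : ℕ} (χ : DirichletCharacter ℂ q) (N : ℕ) (t : ℝ) : ℂ :=
  ∑ k ∈ Finset.Icc 1 ⌊t⌋₊, tl χ N k

private theorem tl_sum {q : ℕ} [NeZero q] {χ : DirichletCharacter ℂ q} (hχ : χ ≠ 1) (N n : ℕ) :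
    ‖∑ k ∈ Finset.Icc 1 n, tl χ N k‖ ≤ q := by
  have h1 : ∑ k ∈ Finset.Icc 1 n, tl χ N k =
      ∑ i ∈ Finset.range (n + 1 - (N + 1)), χ ((N + 1 + i : ℕ) : ZMod q) := by
    rw [← Finset.sum_Ico_eq_sum_range (fun k => χ ((k : ℕ) : ZMod q))]
    unfold tl
    have h2 : ∀ k ∈ Finset.Icc 1 n, (if k ≤ N then (0 : ℂ) else χ ((k : ℕ) : ZMod q)) =
        if ¬ k ≤ N then χ ((k : ℕ) : ZMod q) else 0 := by
      intro k _
      by_cases h : k ≤ N
      · rw [if_pos h, if_neg (not_not.2 h)]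
      · rw [if_neg h, if_pos h]
    rw [Finset.sum_congr rfl h2, ← Finset.sum_filter]
    apply Finset.sum_congr _ fun _ _ => rfl
    ext k
    rw [Finset.mem_filter, Finset.mem_Icc, Finset.mem_Ico]
    omega
  rw [h1]
  exact sum_part hχ _ _

private theorem BB_zero {q : ℕ} (χ : DirichletCharacter ℂ q) (N : ℕ) {t : ℝ}
    (ht : t < N + 1) : BB χ N t = 0 := by
  unfold BB
  apply Finset.sum_eq_zero
  intro k hk
  have h1 := (Finset.mem_Icc.1 hk).2
  have h2 : ⌊t⌋₊ < N + 1 := by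
    rcases lt_or_ge t 0 with h | h
    · rw [Nat.floor_of_nonpos h.le]
      omega
    · rw [Nat.floor_lt h]
      exact_mod_cast ht
  unfold tl
  rw [if_pos (by omega)]

private theorem BB_le {q : ℕ} [NeZero q] {χ : DirichletCharacter ℂ q} (hχ : χ ≠ 1) (N : ℕ)
    (t : ℝ) : ‖BB χ N t‖ ≤ q := tl_sum hχ N _

private theorem tl_LSeries {q : ℕ} [NeZero q] {χ : DirichletCharacter ℂ q} (hχ : χ ≠ 1) (N : ℕ)
    {w : ℂ} (hw : 1 < w.re) :
    LSeries (tl χ N) w = w * ∫ t in Set.Ioi (1 : ℝ), BB χ N t * t ^ (-(w + 1)) := by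
  have hS : LSeriesSummable (tl χ N) w := by
    refine LSeriesSummable_of_bounded_of_one_lt_re (m := 1) ?_ hw
    intro n _
    unfold tl
    by_cases h : n ≤ N
    · rw [if_pos h, norm_zero]
      exact zero_le_one
    · rw [if_neg h]
      exact DirichletCharacter.norm_le_one χ _
  refine LSeries_eq_mul_integral (tl χ N) le_rfl (by linarith) hS ?_
  refine Asymptotics.IsBigO.of_bound q (Eventually.of_forall fun n => ?_)
  rw [Real.rpow_zero, norm_one, mul_one]
  exact tl_sum hχ N n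

private theorem tl_split {q : ℕ} [NeZero q] (χ : DirichletCharacter ℂ q) (N : ℕ)
    {w : ℂ} (hw : 1 < w.re) :
    LFunction χ w = ∑ n ∈ Finset.Icc 1 N, LSeries.term (fun n => χ (n : ZMod q)) w n +
      LSeries (tl χ N) w := by
  have hb : ∀ n : ℕ, ‖χ (n : ZMod q)‖ ≤ 1 := fun n => DirichletCharacter.norm_le_one χ _
  have h1 : (fun n : ℕ => χ (n : ZMod q)) =
      (fun n : ℕ => if n ≤ N then χ (n : ZMod q) else 0) + tl χ N := by
    funext n
    rw [Pi.add_apply]
    unfold tl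
    by_cases h : n ≤ N
    · rw [if_pos h, if_pos h, add_zero]
    · rw [if_neg h, if_neg h, zero_add]
  have hS : LSeriesSummable (tl χ N) w := by
    refine LSeriesSummable_of_bounded_of_one_lt_re (m := 1) ?_ hw
    intro n _
    unfold tl
    by_cases h : n ≤ N
    · rw [if_pos h, norm_zero]
      exact zero_le_one
    · rw [if_neg h]
      exact hb n
  have hS' : LSeriesSummable (fun n : ℕ => if n ≤ N then χ (n : ZMod q) else 0) w := by
    refine LSeriesSummable_of_bounded_of_one_lt_re (m := 1) ?_ hw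
    intro n _
    show ‖if n ≤ N then χ (n : ZMod q) else 0‖ ≤ 1
    by_cases h : n ≤ N
    · rw [if_pos h]
      exact hb n
    · rw [if_neg h, norm_zero]
      exact zero_le_one
  rw [LFunction_eq_LSeries χ hw, h1, LSeries_add hS' hS]
  congr 1
  unfold LSeries
  rw [tsum_eq_sum (s := Finset.Icc 1 N)]
  · apply Finset.sum_congr rfl
    intro n hn
    have h2 := Finset.mem_Icc.1 hn
    rw [LSeries.term_of_ne_zero (by omega), LSeries.term_of_ne_zero (by omega), if_pos h2.2,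
      Pi.add_apply, if_pos h2.2]
    unfold tl
    rw [if_pos h2.2, add_zero]
  · intro n hn
    rcases Nat.eq_zero_or_pos n with h | h
    · rw [h, LSeries.term_zero]
    · have h3 : ¬ n ≤ N := by
        intro h4
        exact hn (Finset.mem_Icc.2 ⟨h, h4⟩)
      rw [LSeries.term_of_ne_zero (by omega), if_neg h3, zero_div]

/-- the continuation of the tail -/
private noncomputable def GG {q : ℕ} (χ : DirichletCharacter ℂ q) (N : ℕ) (w : ℂ) : ℂ :=
  w * mellin (BB χ N) (-w)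

private theorem GG_eq {q : ℕ} [NeZero q] {χ : DirichletCharacter ℂ q} (hχ : χ ≠ 1) {N : ℕ}
    (hN : 1 ≤ N) {w : ℂ} (hw : 1 < w.re) : LSeries (tl χ N) w = GG χ N w := by
  rw [tl_LSeries hχ N hw]
  unfold GG mellin
  congr 1
  symm
  rw [setIntegral_eq_of_subset_of_forall_sdiff_eq_zero measurableSet_Ioi
    (Set.Ioi_subset_Ioi zero_le_one : Set.Ioi (1 : ℝ) ⊆ Set.Ioi 0)]
  · apply setIntegral_congr_fun measurableSet_Ioi
    intro t _
    show (t : ℂ) ^ (-w - 1) • BB χ N t = BB χ N t * (t : ℂ) ^ (-(w + 1))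
    rw [smul_eq_mul, mul_comm]
    congr 2
    ring
  · intro t ht
    have h1 : t ≤ 1 := not_lt.1 ht.2
    have h2 : (1 : ℝ) ≤ N := by exact_mod_cast hN
    rw [BB_zero χ N (by linarith), smul_zero]

private theorem GG_diff {q : ℕ} [NeZero q] {χ : DirichletCharacter ℂ q} (hχ : χ ≠ 1) (N : ℕ)
    {w : ℂ} (hw : 0 < w.re) : DifferentiableAt ℂ (GG χ N) w := by
  unfold GG
  refine differentiableAt_id.mul ?_
  have h1 : DifferentiableAt ℂ (mellin (BB χ N)) (-w) := by
    refine mellin_differentiableAt_of_isBigO_rpow (a := 0) (b := -w.re - 1) ?_ ?_ ?_ ?_ ?_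
    · have h2 := locallyIntegrableOn_mul_sum_Icc (tl χ N) (m := 1) (le_refl (0 : ℝ))
        (g := fun _ => (1 : ℂ)) ((locallyIntegrable_const (1 : ℂ)).locallyIntegrableOn _)
      simp only [one_mul] at h2
      exact h2.mono_set Set.Ioi_subset_Ici_self
    · refine Asymptotics.IsBigO.of_bound q (Eventually.of_forall fun t => ?_)
      rw [neg_zero, Real.rpow_zero, norm_one, mul_one]
      exact BB_le hχ N t
    · rw [Complex.neg_re]
      linarith
    · refine Asymptotics.IsBigO.of_bound 1 ?_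
      have h3 : Set.Ioo (0 : ℝ) 1 ∈ 𝓝[>] (0 : ℝ) := Ioo_mem_nhdsGT one_pos
      filter_upwards [h3] with t ht
      have h4 : (0 : ℝ) ≤ N := Nat.cast_nonneg N
      rw [BB_zero χ N (by linarith [ht.2]), norm_zero]
      positivity
    · rw [Complex.neg_re]
      linarith
  have h5 : DifferentiableAt ℂ (fun z : ℂ => -z) w := differentiableAt_id.neg
  exact DifferentiableAt.comp (g := mellin (BB χ N)) (f := fun z : ℂ => -z) w h1 h5

private theorem LF_eq {q : ℕ} [NeZero q] {χ : DirichletCharacter ℂ q} (hχ : χ ≠ 1) {N : ℕ}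
    (hN : 1 ≤ N) {w : ℂ} (hw : 0 < w.re) :
    LFunction χ w = ∑ n ∈ Finset.Icc 1 N, LSeries.term (fun n => χ (n : ZMod q)) w n +
      GG χ N w := by
  have hU : IsOpen {w : ℂ | 0 < w.re} := isOpen_lt continuous_const Complex.continuous_re
  have hconv : Convex ℝ {w : ℂ | 0 < w.re} := convex_halfSpace_re_gt 0
  have h1 : AnalyticOnNhd ℂ (LFunction χ) {w : ℂ | 0 < w.re} :=
    (differentiable_LFunction hχ).differentiableOn.analyticOnNhd hU
  have h2 : AnalyticOnNhd ℂ (fun w => ∑ n ∈ Finset.Icc 1 N,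
      LSeries.term (fun n => χ (n : ZMod q)) w n + GG χ N w) {w : ℂ | 0 < w.re} := by
    refine DifferentiableOn.analyticOnNhd ?_ hU
    intro z hz
    refine DifferentiableAt.differentiableWithinAt ?_
    refine DifferentiableAt.add ?_ (GG_diff hχ N hz)
    exact DifferentiableAt.fun_sum fun n _ =>
      (LSeries.hasDerivAt_term (fun n => χ (n : ZMod q)) n z).differentiableAt
  have h3 : (2 : ℂ) ∈ {w : ℂ | 0 < w.re} := by
    show 0 < (2 : ℂ).re
    norm_num
  have h4 : LFunction χ =ᶠ[𝓝 (2 : ℂ)] (fun w => ∑ n ∈ Finset.Icc 1 N,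
      LSeries.term (fun n => χ (n : ZMod q)) w n + GG χ N w) := by
    have h5 : {w : ℂ | 1 < w.re} ∈ 𝓝 (2 : ℂ) :=
      (isOpen_lt continuous_const Complex.continuous_re).mem_nhds (by
        show 1 < (2 : ℂ).re
        norm_num)
    filter_upwards [h5] with z hz
    rw [tl_split χ N hz, GG_eq hχ hN hz]
  exact h1.eqOn_of_preconnected_of_eventuallyEq h2 hconv.isPreconnected h3 h4 hw

private theorem GG_le {q : ℕ} [NeZero q] {χ : DirichletCharacter ℂ q} (hχ : χ ≠ 1) {N : ℕ}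
    {Y : ℝ} (hY : 0 < Y) (hYN : Y < N + 1) {w : ℂ} (hw : 0 < w.re) :
    ‖GG χ N w‖ ≤ ‖w‖ * (q * (Y ^ (-w.re) / w.re)) := by
  unfold GG mellin
  rw [norm_mul]
  refine mul_le_mul_of_nonneg_left ?_ (norm_nonneg _)
  have h1 : ∫ t : ℝ in Set.Ioi 0, (t : ℂ) ^ (-w - 1) • BB χ N t =
      ∫ t : ℝ in Set.Ioi Y, (t : ℂ) ^ (-w - 1) • BB χ N t := by
    refine setIntegral_eq_of_subset_of_forall_sdiff_eq_zero measurableSet_Ioi
      (Set.Ioi_subset_Ioi hY.le) ?_
    intro t ht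
    have h2 : t ≤ Y := not_lt.1 ht.2
    rw [BB_zero χ N (by linarith), smul_zero]
  rw [h1]
  have ha : -w.re - 1 < -1 := by linarith
  have h2 : ∫ t : ℝ in Set.Ioi Y, (q : ℝ) * t ^ (-w.re - 1) = q * (Y ^ (-w.re) / w.re) := by
    rw [integral_const_mul, integral_Ioi_rpow_of_lt ha hY]
    congr 1
    rw [show -w.re - 1 + 1 = -w.re by ring, neg_div_neg_eq]
  rw [← h2]
  refine norm_integral_le_of_norm_le ((integrableOn_Ioi_rpow_of_lt ha hY).const_mul _) ?_
  refine (ae_restrict_iff' measurableSet_Ioi).2 (Eventually.of_forall fun t ht => ?_)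
  have ht0 : 0 < t := hY.trans ht
  rw [norm_smul, Complex.norm_cpow_eq_rpow_re_of_pos ht0, mul_comm]
  have h3 : (-w - 1).re = -w.re - 1 := by simp
  rw [h3]
  exact mul_le_mul_of_nonneg_right (BB_le hχ N t) (Real.rpow_nonneg ht0.le _)

theorem sg_bd : ∃ C : ℝ, 1 ≤ C ∧ ∀ (N : ℕ) [NeZero N] (ψ : DirichletCharacter ℂ N), ψ ≠ 1 →
    ∀ s : ℂ, ‖s - 2‖ ≤ 3 / 2 → ‖LFunction ψ s‖ ≤ C * N := by
  refine ⟨8, by norm_num, fun N _ ψ hψ s hs => ?_⟩
  have hN1 : (1 : ℝ) ≤ N := by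
    exact_mod_cast Nat.pos_of_ne_zero (NeZero.ne N)
  have hre : |(s - 2).re| ≤ 3 / 2 := (Complex.abs_re_le_norm _).trans hs
  have hre2 : (s - 2).re = s.re - 2 := by simp
  rw [hre2] at hre
  have hre' := abs_le.1 hre
  have hs0 : 1 / 2 ≤ s.re := by linarith [hre'.1]
  have hs1 : 0 < s.re := by linarith
  have hns : ‖s‖ ≤ 7 / 2 := by
    have h1 : ‖s‖ ≤ ‖s - 2‖ + ‖(2 : ℂ)‖ := by
      have := norm_add_le (s - 2) 2
      rwa [sub_add_cancel] at this
    have h2 : ‖(2 : ℂ)‖ = 2 := by simp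
    linarith
  rw [LF_eq hψ (le_refl 1) hs1]
  refine (norm_add_le _ _).trans ?_
  have h1 : ‖∑ n ∈ Finset.Icc 1 1, LSeries.term (fun n => ψ (n : ZMod N)) s n‖ ≤ 1 := by
    rw [Finset.Icc_self, Finset.sum_singleton, LSeries.term_of_ne_zero one_ne_zero, norm_div]
    have h2 : ‖ψ ((1 : ℕ) : ZMod N)‖ ≤ 1 := DirichletCharacter.norm_le_one ψ _
    have h3 : ‖((1 : ℕ) : ℂ) ^ s‖ = 1 := by
      rw [Nat.cast_one, Complex.one_cpow, norm_one]
    rw [h3, div_one]
    exact h2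
  have h2 := GG_le hψ (N := 1) (Y := 1) one_pos (by norm_num) hs1
  rw [Real.one_rpow] at h2
  have h3 : ‖s‖ * (N * (1 / s.re)) ≤ 7 * N := by
    have h4 : 1 / s.re ≤ 2 := by
      rw [div_le_iff₀ hs1]
      linarith
    calc ‖s‖ * (N * (1 / s.re)) ≤ 7 / 2 * (N * 2) := by
          refine mul_le_mul hns ?_ (by positivity) (by norm_num)
          exact mul_le_mul_of_nonneg_left h4 (by positivity)
      _ = 7 * N := by ring
  linarith

theorem sg_bd_zeta : ∃ C : ℝ, 1 ≤ C ∧ ∀ s : ℂ, ‖s - 2‖ = 3 / 2 → ‖riemannZeta s‖ ≤ C := by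
  have h1 : ContinuousOn riemannZeta (Metric.sphere (2 : ℂ) (3 / 2)) := by
    intro s hs
    have h2 : s ≠ 1 := by
      rintro rfl
      have h3 : ‖(1 : ℂ) - 2‖ = 3 / 2 := mem_sphere_iff_norm.1 hs
      have h4 : ‖(1 : ℂ) - 2‖ = 1 := by
        have h5 : (1 : ℂ) - 2 = -1 := by norm_num
        rw [h5, norm_neg, norm_one]
      rw [h4] at h3
      norm_num at h3
    exact (differentiableAt_riemannZeta h2).continuousAt.continuousWithinAt
  obtain ⟨C, hC⟩ := (isCompact_sphere (2 : ℂ) (3 / 2)).exists_bound_of_continuousOn h1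
  exact ⟨max 1 C, le_max_left _ _, fun s hs =>
    (hC s (mem_sphere_iff_norm.2 hs)).trans (le_max_right _ _)⟩

theorem sg_bd_one : ∃ C : ℝ, 1 ≤ C ∧ ∀ (N : ℕ) [NeZero N] (ψ : DirichletCharacter ℂ N), ψ ≠ 1 →
    ‖LFunction ψ 1‖ ≤ C * (1 + Real.log N) := by
  refine ⟨48, by norm_num, fun N _ ψ hψ => ?_⟩
  have hN0 : 0 < N := Nat.pos_of_ne_zero (NeZero.ne N)
  have hN1 : (1 : ℝ) ≤ N := by exact_mod_cast hN0
  have hNp : (0 : ℝ) < N := by linarith
  have hlog : 0 ≤ Real.log N := Real.log_nonneg hN1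
  have hl3 : Real.log 3 ≤ 2 := by
    have := Real.log_le_sub_one_of_pos (show (0 : ℝ) < 3 by norm_num)
    linarith
  have hl30 : 0 ≤ Real.log 3 := Real.log_nonneg (by norm_num)
  obtain ⟨V, hV⟩ : ∃ V, V = 1 + (Real.log 3 + Real.log N) := ⟨_, rfl⟩
  have hV1 : 1 ≤ V := by linarith
  have hexp : (N : ℝ) * 3 ≤ Real.exp V := by
    rw [hV, Real.exp_add, Real.exp_add, Real.exp_log (by norm_num : (0 : ℝ) < 3), Real.exp_log hNp]
    have h1 : 1 ≤ Real.exp 1 := Real.one_le_exp zero_le_one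
    nlinarith
  have hcont : Tendsto (fun x : ℝ => ‖LFunction ψ (1 + (x : ℂ))‖) (𝓝[>] (0 : ℝ))
      (𝓝 ‖LFunction ψ 1‖) := by
    have h1 : Continuous fun x : ℝ => ‖LFunction ψ (1 + (x : ℂ))‖ :=
      ((differentiable_LFunction hψ).continuous.comp
        (continuous_const.add Complex.continuous_ofReal)).norm
    have h2 := (h1.tendsto 0).mono_left (nhdsWithin_le_nhds (s := Set.Ioi (0 : ℝ)))
    simpa using h2
  have hev : ∀ᶠ x : ℝ in 𝓝[>] (0 : ℝ), ‖LFunction ψ (1 + (x : ℂ))‖ ≤ 16 * V := by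
    have h3 : Set.Ioo (0 : ℝ) 1 ∈ 𝓝[>] (0 : ℝ) := Ioo_mem_nhdsGT one_pos
    filter_upwards [h3] with x hx
    have h4 := Pool.Agent.REC.deriv_bound hψ hV1 (s := 1 + (x : ℂ)) (by simp [hx.1])
      (by
        have : (1 + (x : ℂ)).re = 1 + x := by simp
        rw [this]
        linarith [hx.2]) (by
        have : (1 + (x : ℂ)).im = 0 := by simp
        rw [this, abs_zero, zero_add]
        exact hexp) 0
    rw [iteratedDeriv_zero, Nat.factorial_zero, Nat.cast_one, one_mul, zero_add, pow_one] at h4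
    exact h4
  have h5 := le_of_tendsto hcont hev
  refine h5.trans ?_
  rw [hV]
  nlinarith

end Pool.Agent.SWQ
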