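import Pool.Agent.SWQ.SgTay

/-! SWQ/SgCase.  Siegel's theorem, part 4: a pair `(χ1, β)` such that `(sgF ψ1 ψ2 β).re ≤ 0` for all real nonprincipal `χ2`
(either an L-function of a real nonprincipal character has a real zero close to `1`, or none has and the sign is found with the
intermediate value theorem). -/

set_option autoImplicit false

namespace Pool.Agent.SWQ

open DirichletCharacter

theorem sg_case {δ : ℝ} (hδ : 0 < δ) : ∃ (N1 : ℕ) (_ : NeZero N1) (χ1 : DirichletCharacter ℂ N1) (β : ℝ),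
    χ1 ≠ 1 ∧ χ1 ^ 2 = 1 ∧ 1 - δ < β ∧ 7 / 8 ≤ β ∧ β < 1 ∧
    ∀ (q : ℕ) [NeZero q] (χ2 : DirichletCharacter ℂ q), χ2 ≠ 1 → χ2 ^ 2 = 1 →
      changeLevel (dvd_mul_right N1 q) χ1 ≠ changeLevel (dvd_mul_left q N1) χ2 →
      (sgF (changeLevel (dvd_mul_right N1 q) χ1) (changeLevel (dvd_mul_left q N1) χ2) β).re ≤ 0 := by
  -- zeta has no zero just to the left of 1
  have hz0 : ∀ᶠ s : ℂ in nhdsWithin 1 {1}ᶜ, riemannZeta s ≠ 0 := by
    have h := riemannZeta_residue_one.eventually_ne (one_ne_zero)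
    filter_upwards [h] with s hs h0
    exact hs (by rw [h0, mul_zero])
  obtain ⟨δ0, hδ0, hz⟩ : ∃ δ0 : ℝ, 0 < δ0 ∧ ∀ σ : ℝ, 1 - δ0 < σ → σ < 1 → riemannZeta σ ≠ 0 := by
    rw [eventually_nhdsWithin_iff, Metric.eventually_nhds_iff] at hz0
    obtain ⟨ε, hε, h⟩ := hz0
    refine ⟨ε, hε, fun σ h1 h2 => h ?_ ?_⟩
    · rw [dist_eq_norm]
      have : ((σ : ℂ) - 1) = ((σ - 1 : ℝ) : ℂ) := by push_cast; ring
      rw [this, Complex.norm_real, Real.norm_eq_abs, abs_lt]
      constructor <;> linarith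
    · simp only [Set.mem_compl_iff, Set.mem_singleton_iff]
      intro h3
      have : σ = 1 := by exact_mod_cast h3
      linarith
  set δ' : ℝ := min δ (min δ0 (1 / 8)) with hδ'
  have hδ'0 : 0 < δ' := lt_min hδ (lt_min hδ0 (by norm_num))
  have hδ'1 : δ' ≤ δ := min_le_left _ _
  have hδ'2 : δ' ≤ δ0 := (min_le_right _ _).trans (min_le_left _ _)
  have hδ'3 : δ' ≤ 1 / 8 := (min_le_right _ _).trans (min_le_right _ _)
  by_cases hcase : ∃ (N1 : ℕ) (_ : NeZero N1) (χ1 : DirichletCharacter ℂ N1) (β : ℝ),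
      χ1 ≠ 1 ∧ χ1 ^ 2 = 1 ∧ 1 - δ' < β ∧ β < 1 ∧ LFunction χ1 β = 0
  · obtain ⟨N1, hN1, χ1, β, h1, h2, h3, h4, h5⟩ := hcase
    refine ⟨N1, hN1, χ1, β, h1, h2, by linarith, by linarith, h4, ?_⟩
    intro q _ χ2 _ _ _
    have h6 : LFunction (changeLevel (dvd_mul_right N1 q) χ1) (β : ℂ) = 0 := by
      rw [LFunction_changeLevel (dvd_mul_right N1 q) χ1 (Or.inl h1), h5, zero_mul]
    unfold sgF
    rw [h6]
    simp
  · push Not at hcase
    have hχ4 : (ZMod.χ₄.ringHomComp (Int.castRingHom ℂ) : DirichletCharacter ℂ 4) ≠ 1 := by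
      intro h
      have h3 : (ZMod.χ₄.ringHomComp (Int.castRingHom ℂ) : DirichletCharacter ℂ 4) (3 : ZMod 4) = (1 : DirichletCharacter ℂ 4) (3 : ZMod 4) := by rw [h]
      have hu : IsUnit (3 : ZMod 4) := by
        refine ⟨⟨3, 3, by decide, by decide⟩, rfl⟩
      rw [MulChar.one_apply hu, MulChar.ringHomComp_apply] at h3
      have h4 : ZMod.χ₄ (3 : ZMod 4) = -1 := by decide
      rw [h4] at h3
      norm_num at h3
    have hχ4s : (ZMod.χ₄.ringHomComp (Int.castRingHom ℂ) : DirichletCharacter ℂ 4) ^ 2 = 1 :=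
      (ZMod.isQuadratic_χ₄.comp _).sq_eq_one
    refine ⟨4, ⟨by norm_num⟩, ZMod.χ₄.ringHomComp (Int.castRingHom ℂ), 1 - δ' / 2, hχ4, hχ4s,
      by linarith, by linarith, by linarith, ?_⟩
    intro q _ χ2 hχ2 hχ2s hne
    set ψ1 := changeLevel (dvd_mul_right 4 q) (ZMod.χ₄.ringHomComp (Int.castRingHom ℂ) : DirichletCharacter ℂ 4) with hψ1
    set ψ2 := changeLevel (dvd_mul_left q 4) χ2 with hψ2
    have h1 : ψ1 ≠ 1 := fun h => hχ4 ((changeLevel_eq_one_iff (dvd_mul_right 4 q)).mp h)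
    have h2 : ψ2 ≠ 1 := fun h => hχ2 ((changeLevel_eq_one_iff (dvd_mul_left q 4)).mp h)
    have h1s : ψ1 ^ 2 = 1 := by rw [hψ1, ← map_pow, hχ4s, map_one]
    have h2s : ψ2 ^ 2 = 1 := by rw [hψ2, ← map_pow, hχ2s, map_one]
    have h12 : ψ1 * ψ2 ≠ 1 := by
      intro h
      apply hne
      have h3 : ψ1 * ψ2 * ψ2 = ψ2 := by rw [h, one_mul]
      rw [mul_assoc, ← pow_two, h2s, mul_one] at h3
      exact h3
    have h12s : (ψ1 * ψ2) ^ 2 = 1 := by rw [mul_pow, h1s, h2s, one_mul]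
    obtain ⟨C, -, hC⟩ := sg_tay
    obtain ⟨hLim, hLre, hσ⟩ := hC (4 * q) ψ1 ψ2 h1s h2s h1 h2 h12
    have hLne : sgL ψ1 ψ2 ≠ 0 := by
      unfold sgL
      exact mul_ne_zero (mul_ne_zero (LFunction_apply_one_ne_zero h1) (LFunction_apply_one_ne_zero h2))
        (LFunction_apply_one_ne_zero h12)
    have hLpos : 0 < (sgL ψ1 ψ2).re := by
      rcases hLre.lt_or_eq with h | h
      · exact h
      · exact absurd (Complex.ext h.symm hLim) hLne
    have hnz : ∀ σ : ℝ, 1 - δ' < σ → σ < 1 → sgF ψ1 ψ2 σ ≠ 0 := by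
      intro σ hσ1 hσ2
      unfold sgF
      refine mul_ne_zero (mul_ne_zero (mul_ne_zero (hz σ (by linarith) hσ2) ?_) ?_) ?_
      · exact hcase (4 * q) inferInstance ψ1 σ h1 h1s hσ1 hσ2
      · exact hcase (4 * q) inferInstance ψ2 σ h2 h2s hσ1 hσ2
      · exact hcase (4 * q) inferInstance (ψ1 * ψ2) σ h12 h12s hσ1 hσ2
    by_contra hpos
    push Not at hpos
    set g : ℝ → ℝ := fun σ => (sgF ψ1 ψ2 (σ : ℂ)).re with hg
    -- the limit at 1
    have hlim : Filter.Tendsto (fun s : ℂ => (s - 1) * sgF ψ1 ψ2 s) (nhdsWithin 1 {1}ᶜ) (nhds (sgL ψ1 ψ2)) := by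
      have ha : Filter.Tendsto (fun s : ℂ => LFunction ψ1 s * LFunction ψ2 s * LFunction (ψ1 * ψ2) s) (nhdsWithin 1 {1}ᶜ)
          (nhds (sgL ψ1 ψ2)) := by
        have hc : Continuous (fun s : ℂ => LFunction ψ1 s * LFunction ψ2 s * LFunction (ψ1 * ψ2) s) :=
          ((differentiable_LFunction h1).continuous.mul (differentiable_LFunction h2).continuous).mul
            (differentiable_LFunction h12).continuous
        exact (hc.tendsto 1).mono_left nhdsWithin_le_nhds
      have hb := riemannZeta_residue_one.mul ha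
      rw [one_mul] at hb
      refine hb.congr fun s => ?_
      unfold sgF
      ring
    have hlim2 : Filter.Tendsto (fun σ : ℝ => (σ - 1) * g σ) (nhdsWithin 1 (Set.Iio 1)) (nhds (sgL ψ1 ψ2).re) := by
      have ha : Filter.Tendsto (fun σ : ℝ => (σ : ℂ)) (nhdsWithin (1 : ℝ) (Set.Iio 1)) (nhdsWithin (1 : ℂ) {1}ᶜ) := by
        rw [tendsto_nhdsWithin_iff]
        constructor
        · have : Filter.Tendsto (fun σ : ℝ => (σ : ℂ)) (nhds (1 : ℝ)) (nhds ((1 : ℝ) : ℂ)) :=
            Complex.continuous_ofReal.tendsto 1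
          rw [Complex.ofReal_one] at this
          exact this.mono_left nhdsWithin_le_nhds
        · filter_upwards [self_mem_nhdsWithin] with σ hσ1
          simp only [Set.mem_compl_iff, Set.mem_singleton_iff]
          intro h3
          have h4 : σ = 1 := by exact_mod_cast h3
          simp only [Set.mem_Iio] at hσ1
          linarith
      have hb := (Complex.continuous_re.tendsto (sgL ψ1 ψ2)).comp (hlim.comp ha)
      refine hb.congr fun σ => ?_
      simp only [Function.comp_apply, hg]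
      have : ((σ : ℂ) - 1) = ((σ - 1 : ℝ) : ℂ) := by push_cast; ring
      rw [this, Complex.re_ofReal_mul]
    have hev : ∀ᶠ σ : ℝ in nhdsWithin 1 (Set.Iio 1), 0 < (σ - 1) * g σ := hlim2.eventually_const_lt hLpos
    have hev2 : ∀ᶠ σ : ℝ in nhdsWithin 1 (Set.Iio 1), 1 - δ' / 2 < σ ∧ σ < 1 := by
      filter_upwards [Ioo_mem_nhdsLT (show 1 - δ' / 2 < (1 : ℝ) by linarith)] with σ hσ1
      exact hσ1
    obtain ⟨σ1, ha, hb, hc⟩ := (hev.and hev2).exists
    have hg1 : g σ1 < 0 := by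
      by_contra h
      push Not at h
      nlinarith
    have hcont : ContinuousOn g (Set.Icc (1 - δ' / 2) σ1) := by
      intro σ hσ1
      apply ContinuousAt.continuousWithinAt
      have hσ2 : σ ≠ 1 := by
        intro h
        have := hσ1.2
        linarith
      have hne1 : (σ : ℂ) ≠ 1 := by exact_mod_cast hσ2
      have hca : ContinuousAt (fun s : ℂ => sgF ψ1 ψ2 s) (σ : ℂ) := by
        unfold sgF
        exact (((differentiableAt_riemannZeta hne1).continuousAt.mul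
          (differentiable_LFunction h1).continuous.continuousAt).mul
          (differentiable_LFunction h2).continuous.continuousAt).mul
            (differentiable_LFunction h12).continuous.continuousAt
      have hcb : ContinuousAt (fun s : ℝ => (s : ℂ)) σ := Complex.continuous_ofReal.continuousAt
      exact Complex.continuous_re.continuousAt.comp (ContinuousAt.comp (f := fun s : ℝ => (s : ℂ)) hca hcb)
    have hivt := intermediate_value_Icc' hb.le hcont
    have h0 : (0 : ℝ) ∈ Set.Icc (g σ1) (g (1 - δ' / 2)) := ⟨hg1.le, hpos.le⟩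
    obtain ⟨σ, hσ1, hσ2⟩ := hivt h0
    have hσ3 : 1 - δ' < σ := by linarith [hσ1.1]
    have hσ4 : σ < 1 := lt_of_le_of_lt hσ1.2 hc
    refine hnz σ hσ3 hσ4 (Complex.ext hσ2 ?_)
    exact (hσ σ (by linarith) hσ4).1


end Pool.Agent.SWQ
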