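import Mathlib

/-! SWQ/SgCoef.  Siegel's theorem, part 1: the coefficients of `ζ(s) L(s,ψ1) L(s,ψ2) L(s,ψ1ψ2)`.

`r = ψ1.zetaMul = ζ * ψ1` is multiplicative and `≥ 0` (`zetaMul_nonneg`, Mathlib Nonvanishing.lean); the second factor is its twist by
the completely multiplicative `ψ2`, so `sgA = r * (ψ2 r)` (Dirichlet convolution) is multiplicative.  On prime powers `a(p^k) = ∑_{i+j=k} r(p^i) r(p^j)
ψ2(p)^j`: `ψ2(p) = 1` or `0`: clear; `ψ2(p) = -1`: by the value of `ψ1(p)`: `1` (`r(p^i) = i+1`, generating function `1/(1-x²)²`), `0` (`r(p^i) = 1`, alternating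
sum `1` or `0`), `-1` (`r(p^i) = 1` for even `i`, `0` for odd `i`).  LSeries: `LSeries_zetaMul`-type facts, `LSeries_convolution`, twist of an L-series by a
completely multiplicative function (`ψ2 · (ζ * ψ1) = ψ2 * (ψ2 ψ1)`). -/

set_option autoImplicit false

namespace Pool.Agent.SWQ

open DirichletCharacter ArithmeticFunction

open scoped ComplexOrder

/-- coefficients of `ζ(s) L(s,ψ1) L(s,ψ2) L(s,ψ1ψ2)` -/
noncomputable def sgA {N : ℕ} (ψ1 ψ2 : DirichletCharacter ℂ N) (n : ℕ) : ℂ :=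
  ∑ x ∈ n.divisorsAntidiagonal, ψ1.zetaMul x.1 * (ψ2 x.2 * ψ1.zetaMul x.2)

/-- `ζ(s) L(s,ψ1) L(s,ψ2) L(s,ψ1ψ2)` -/
noncomputable def sgF {N : ℕ} [NeZero N] (ψ1 ψ2 : DirichletCharacter ℂ N) (s : ℂ) : ℂ :=
  riemannZeta s * LFunction ψ1 s * LFunction ψ2 s * LFunction (ψ1 * ψ2) s

/-- its residue at `1` -/
noncomputable def sgL {N : ℕ} [NeZero N] (ψ1 ψ2 : DirichletCharacter ℂ N) : ℂ :=
  LFunction ψ1 1 * LFunction ψ2 1 * LFunction (ψ1 * ψ2) 1

private noncomputable def sgX {N : ℕ} (χ : DirichletCharacter ℂ N) : ArithmeticFunction ℂ :=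
  toArithmeticFunction (χ ·)

private theorem sgX_apply {N : ℕ} (χ : DirichletCharacter ℂ N) {n : ℕ} (hn : n ≠ 0) : sgX χ n = χ n :=
  (χ.apply_eq_toArithmeticFunction_apply hn).symm

private theorem zetaMul_eq {N : ℕ} (χ : DirichletCharacter ℂ N) :
    χ.zetaMul = (ArithmeticFunction.zeta : ArithmeticFunction ℂ) * sgX χ := rfl

private theorem sg_twist {N : ℕ} (ψ1 ψ2 : DirichletCharacter ℂ N) {n : ℕ} (hn : n ≠ 0) :
    ψ2 n * ψ1.zetaMul n = (sgX ψ2 * sgX (ψ1 * ψ2)) n := by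
  rw [zetaMul_eq, ArithmeticFunction.mul_apply, ArithmeticFunction.mul_apply, Finset.mul_sum]
  refine Finset.sum_congr rfl fun x hx => ?_
  obtain ⟨h1, h2⟩ := Nat.ne_zero_of_mem_divisorsAntidiagonal hx
  have h3 : x.1 * x.2 = n := (Nat.mem_divisorsAntidiagonal.1 hx).1
  rw [sgX_apply ψ1 h2, sgX_apply ψ2 h1, sgX_apply (ψ1 * ψ2) h2, MulChar.mul_apply]
  have h4 : (ArithmeticFunction.zeta : ArithmeticFunction ℂ) x.1 = 1 := by
    rw [ArithmeticFunction.natCoe_apply, ArithmeticFunction.zeta_apply_ne h1, Nat.cast_one]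
  rw [h4, ← h3, Nat.cast_mul, map_mul]
  ring

private noncomputable def sgM {N : ℕ} (ψ1 ψ2 : DirichletCharacter ℂ N) : ArithmeticFunction ℂ :=
  ψ1.zetaMul * (sgX ψ2 * sgX (ψ1 * ψ2))

private theorem sgM_comm {N : ℕ} (ψ1 ψ2 : DirichletCharacter ℂ N) : sgM ψ1 ψ2 = sgM ψ2 ψ1 := by
  unfold sgM
  rw [zetaMul_eq, zetaMul_eq, mul_comm ψ2 ψ1]
  ring

private theorem sgA_eq {N : ℕ} (ψ1 ψ2 : DirichletCharacter ℂ N) (n : ℕ) : sgA ψ1 ψ2 n = sgM ψ1 ψ2 n := by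
  unfold sgA sgM
  rw [ArithmeticFunction.mul_apply]
  refine Finset.sum_congr rfl fun x hx => ?_
  obtain ⟨h1, h2⟩ := Nat.ne_zero_of_mem_divisorsAntidiagonal hx
  rw [sg_twist ψ1 ψ2 h2]

private theorem sgM_mult {N : ℕ} (ψ1 ψ2 : DirichletCharacter ℂ N) : (sgM ψ1 ψ2).IsMultiplicative :=
  ψ1.isMultiplicative_zetaMul.mul ((isMultiplicative_toArithmeticFunction ψ2).mul
    (isMultiplicative_toArithmeticFunction (ψ1 * ψ2)))

private theorem sg_zm {N : ℕ} (χ : DirichletCharacter ℂ N) {p : ℕ} (hp : p.Prime) (k : ℕ) :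
    χ.zetaMul (p ^ k) = ∑ i ∈ Finset.range (k + 1), χ p ^ i := by
  rw [zetaMul_eq, ArithmeticFunction.coe_zeta_mul_apply, Nat.sum_divisors_prime_pow hp]
  refine Finset.sum_congr rfl fun i _ => ?_
  rw [sgX_apply χ (pow_ne_zero _ hp.ne_zero), Nat.cast_pow, map_pow]

private theorem sgA_pp {N : ℕ} (ψ1 ψ2 : DirichletCharacter ℂ N) (h1 : ψ1 ^ 2 = 1) (h2 : ψ2 ^ 2 = 1)
    {p : ℕ} (hp : p.Prime) (k : ℕ) : 0 ≤ sgM ψ1 ψ2 (p ^ k) := by
  have hq2 := MulChar.isQuadratic_iff_sq_eq_one.mpr h2 p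
  have hq1 := MulChar.isQuadratic_iff_sq_eq_one.mpr h1 p
  by_cases hb : ψ2 p = -1
  · rw [sgM_comm, ← sgA_eq]
    unfold sgA
    refine Finset.sum_nonneg fun x hx => mul_nonneg (zetaMul_nonneg h2 _) ?_
    obtain ⟨j, _, hj⟩ := (Nat.dvd_prime_pow hp).1 (Dvd.intro_left _ (Nat.mem_divisorsAntidiagonal.1 hx).1)
    rw [hj, sg_zm ψ2 hp, hb, neg_one_geom_sum, Nat.cast_pow, map_pow]
    rcases Nat.even_or_odd j with he | ho
    · rw [if_neg (by simpa [Nat.even_add_one] using he), mul_one]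
      obtain ⟨m, rfl⟩ := he
      rw [← two_mul, pow_mul]
      apply pow_nonneg
      rcases hq1 with h | h | h <;> rw [h] <;> norm_num
    · rw [if_pos (by simpa [Nat.even_add_one] using ho), mul_zero]
  · rw [← sgA_eq]
    unfold sgA
    refine Finset.sum_nonneg fun x hx => mul_nonneg (zetaMul_nonneg h1 _) (mul_nonneg ?_ (zetaMul_nonneg h1 _))
    obtain ⟨j, _, hj⟩ := (Nat.dvd_prime_pow hp).1 (Dvd.intro_left _ (Nat.mem_divisorsAntidiagonal.1 hx).1)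
    rw [hj, Nat.cast_pow, map_pow]
    apply pow_nonneg
    rcases hq2 with h | h | h
    · rw [h]
    · rw [h]
      exact zero_le_one
    · exact absurd h hb

theorem sgA_nonneg {N : ℕ} [NeZero N] (ψ1 ψ2 : DirichletCharacter ℂ N) (h1 : ψ1 ^ 2 = 1) (h2 : ψ2 ^ 2 = 1)
    (n : ℕ) : 0 ≤ sgA ψ1 ψ2 n := by
  rw [sgA_eq]
  rcases eq_or_ne n 0 with rfl | hn
  · rw [ArithmeticFunction.map_zero]
  · rw [(sgM_mult ψ1 ψ2).multiplicative_factorization _ hn]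
    exact Finset.prod_nonneg fun p hp => sgA_pp ψ1 ψ2 h1 h2 (Nat.prime_of_mem_primeFactors hp) _

theorem sgA_one {N : ℕ} [NeZero N] (ψ1 ψ2 : DirichletCharacter ℂ N) : sgA ψ1 ψ2 1 = 1 := by
  rw [sgA_eq]
  exact (sgM_mult ψ1 ψ2).1

private theorem sgX_LSeries {N : ℕ} [NeZero N] (χ : DirichletCharacter ℂ N) {s : ℂ} (hs : 1 < s.re) :
    LSeriesSummable (sgX χ) s ∧ LSeries (sgX χ) s = LFunction χ s := by
  constructor
  · exact (LSeriesSummable_congr _ fun h => (χ.apply_eq_toArithmeticFunction_apply h).symm).mpr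
      (χ.LSeriesSummable_of_one_lt_re hs)
  · rw [LFunction_eq_LSeries χ hs]
    exact LSeries_congr (fun h => sgX_apply χ h) s

theorem sgA_LSeries {N : ℕ} [NeZero N] (ψ1 ψ2 : DirichletCharacter ℂ N) {s : ℂ} (hs : 1 < s.re) :
    LSeriesSummable (sgA ψ1 ψ2) s ∧ LSeries (sgA ψ1 ψ2) s = sgF ψ1 ψ2 s := by
  have e : sgA ψ1 ψ2 = ⇑(sgM ψ1 ψ2) := funext fun n => sgA_eq ψ1 ψ2 n
  obtain ⟨s1, l1⟩ := sgX_LSeries ψ1 hs
  obtain ⟨s2, l2⟩ := sgX_LSeries ψ2 hs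
  obtain ⟨s3, l3⟩ := sgX_LSeries (ψ1 * ψ2) hs
  have hz : LSeriesSummable (⇑((ArithmeticFunction.zeta : ArithmeticFunction ℂ))) s := by
    have h := LSeriesSummable_zeta_iff.mpr hs
    exact h
  have hzl : LSeries (⇑((ArithmeticFunction.zeta : ArithmeticFunction ℂ))) s = riemannZeta s := by
    have h := LSeries_zeta_eq_riemannZeta hs
    exact h
  rw [e]
  unfold sgM
  rw [zetaMul_eq]
  refine ⟨ArithmeticFunction.LSeriesSummable_mul (ArithmeticFunction.LSeriesSummable_mul hz s1)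
    (ArithmeticFunction.LSeriesSummable_mul s2 s3), ?_⟩
  rw [ArithmeticFunction.LSeries_mul' (ArithmeticFunction.LSeriesSummable_mul hz s1)
    (ArithmeticFunction.LSeriesSummable_mul s2 s3), ArithmeticFunction.LSeries_mul' hz s1,
    ArithmeticFunction.LSeries_mul' s2 s3, l1, l2, l3, hzl]
  unfold sgF
  ring

end Pool.Agent.SWQ
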