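import Pool.Agent.SWQ.SgCoef
import Pool.Agent.SWQ.SgBd

/-! SWQ/SgTay.  Siegel's theorem, part 3: Estermann's inequality (Davenport, Multiplicative Number Theory, Ch. 21).

PROOF.  `λ = sgL ψ1 ψ2`.  `G(s) = sgF s - λ/(s-1)` extends to an entire function (`(s-1) ζ(s)` is entire with value `1` at `1`; the other factors are entire).
Taylor at `2`: `sgF(s) = ∑ b_m (2-s)^m` for `|s-2| < 1`, `b_m = (-1)^m F^(m)(2)/m! ≥ 0` (real), because `F` is the L-series of `sgA ≥ 0`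
(`LSeries.iteratedDeriv_alternating` or similar in Mathlib `LSeries/Positivity.lean`), `b_0 = F(2) ≥ a(1) = 1`; `λ/(s-1) = λ ∑ (2-s)^m`.  So
`G(s) = ∑ (b_m - λ)(2-s)^m`, valid for all `s` (entire).  Cauchy on `|s-2| = 3/2` with `sg_bd`, `sg_bd_zeta`, `sg_bd_one`:
`|b_m - λ| ≤ C N^3 (2/3)^m`.  In particular `b_m → λ`, so `λ` is real and `≥ 0`.  For `7/8 ≤ σ < 1`: `0 < 2 - σ ≤ 9/8`,
`∑_{m ≥ M} |b_m - λ| (2-σ)^m ≤ C N^3 ∑_{m ≥ M} (3/4)^m = 4 C N^3 (3/4)^M`, and `∑_{m < M} (b_m - λ)(2-σ)^m ≥ 1 - λ ∑_{m < M} (2-σ)^m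
= 1 - λ ((2-σ)^M - 1)/(1-σ)`; finally `F(σ) = G(σ) - λ/(1-σ)`. (For `M = 0` the first inequality reads `0 ≥ 1 - …`: then use that the bound
`C N^3 ≥ 1` is enough, or treat `M ≥ 1` and enlarge `C`.) -/

set_option autoImplicit false

namespace Pool.Agent.SWQ

open DirichletCharacter

open scoped ComplexOrder Topology Nat

open Filter

/-- the entire function `(s - 1) F(s)` -/
private noncomputable def tyH {N : ℕ} [NeZero N] (ψ1 ψ2 : DirichletCharacter ℂ N) (s : ℂ) : ℂ :=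
  LFunctionTrivChar₁ 1 s * LFunction ψ1 s * LFunction ψ2 s * LFunction (ψ1 * ψ2) s

private noncomputable def tyG {N : ℕ} [NeZero N] (ψ1 ψ2 : DirichletCharacter ℂ N) : ℂ → ℂ :=
  dslope (tyH ψ1 ψ2) 1

private theorem ty_triv_one : LFunctionTrivChar₁ 1 1 = 1 := by
  unfold LFunctionTrivChar₁
  rw [Function.update_self, Nat.primeFactors_one, Finset.prod_empty]

private theorem ty_triv {s : ℂ} (hs : s ≠ 1) : LFunctionTrivChar₁ 1 s = (s - 1) * riemannZeta s := by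
  unfold LFunctionTrivChar₁
  rw [Function.update_of_ne hs]
  unfold LFunctionTrivChar
  rw [LFunction_modOne_eq]

private theorem tyH_one {N : ℕ} [NeZero N] (ψ1 ψ2 : DirichletCharacter ℂ N) : tyH ψ1 ψ2 1 = sgL ψ1 ψ2 := by
  unfold tyH sgL
  rw [ty_triv_one, one_mul]

private theorem tyH_ne {N : ℕ} [NeZero N] (ψ1 ψ2 : DirichletCharacter ℂ N) {s : ℂ} (hs : s ≠ 1) :
    tyH ψ1 ψ2 s = (s - 1) * sgF ψ1 ψ2 s := by
  unfold tyH sgF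
  rw [ty_triv hs]
  ring

private theorem tyG_ne {N : ℕ} [NeZero N] (ψ1 ψ2 : DirichletCharacter ℂ N) {s : ℂ} (hs : s ≠ 1) :
    tyG ψ1 ψ2 s = sgF ψ1 ψ2 s - sgL ψ1 ψ2 * (s - 1)⁻¹ := by
  unfold tyG
  have h : s - 1 ≠ 0 := sub_ne_zero.2 hs
  rw [dslope_of_ne _ hs, slope_def_field, tyH_one, tyH_ne ψ1 ψ2 hs]
  field_simp

private theorem tyH_diff {N : ℕ} [NeZero N] (ψ1 ψ2 : DirichletCharacter ℂ N) (h1 : ψ1 ≠ 1) (h2 : ψ2 ≠ 1)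
    (h12 : ψ1 * ψ2 ≠ 1) : Differentiable ℂ (tyH ψ1 ψ2) := by
  have a0 : Differentiable ℂ (LFunctionTrivChar₁ 1) := differentiable_LFunctionTrivChar₁ 1
  have a1 := differentiable_LFunction h1
  have a2 := differentiable_LFunction h2
  have a3 := differentiable_LFunction h12
  exact ((a0.mul a1).mul a2).mul a3

private theorem tyG_diff {N : ℕ} [NeZero N] (ψ1 ψ2 : DirichletCharacter ℂ N) (h1 : ψ1 ≠ 1) (h2 : ψ2 ≠ 1)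
    (h12 : ψ1 * ψ2 ≠ 1) : Differentiable ℂ (tyG ψ1 ψ2) := by
  rw [← differentiableOn_univ]
  exact (Complex.differentiableOn_dslope Filter.univ_mem).2 (tyH_diff ψ1 ψ2 h1 h2 h12).differentiableOn

private theorem ty_inv (m : ℕ) (c : ℂ) :
    iteratedDeriv m (fun s : ℂ => c * (s - 1)⁻¹) 2 = c * ((-1) ^ m * m !) := by
  rw [iteratedDeriv_const_mul_field, iteratedDeriv_eq_iterate]
  have h := congrFun (iter_deriv_inv_linear_sub (𝕜 := ℂ) m 1 1) 2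
  simp only [one_mul, one_pow, mul_one] at h
  rw [h]
  have h2 : ((2 : ℂ) - 1) ^ (-1 - (m : ℤ)) = 1 := by
    have : (2 : ℂ) - 1 = 1 := by norm_num
    rw [this, one_zpow]
  rw [h2, mul_one]

private theorem ty_series {N : ℕ} [NeZero N] (ψ1 ψ2 : DirichletCharacter ℂ N) (h1 : ψ1 ≠ 1) (h2 : ψ2 ≠ 1)
    (h12 : ψ1 * ψ2 ≠ 1) (m : ℕ) :
    iteratedDeriv m (LSeries (sgA ψ1 ψ2)) 2 =
      iteratedDeriv m (tyG ψ1 ψ2) 2 + sgL ψ1 ψ2 * ((-1) ^ m * m !) := by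
  have hev : LSeries (sgA ψ1 ψ2) =ᶠ[𝓝 2] fun s => tyG ψ1 ψ2 s + sgL ψ1 ψ2 * (s - 1)⁻¹ := by
    have hopen : IsOpen {s : ℂ | 1 < s.re} := isOpen_lt continuous_const Complex.continuous_re
    have hmem : (2 : ℂ) ∈ {s : ℂ | 1 < s.re} := by
      show (1 : ℝ) < (2 : ℂ).re
      norm_num
    filter_upwards [hopen.mem_nhds hmem] with s hs
    have hs1 : s ≠ 1 := by
      rintro rfl
      have h := (show (1 : ℝ) < (1 : ℂ).re from hs)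
      simp at h
    rw [(sgA_LSeries ψ1 ψ2 hs).2, tyG_ne ψ1 ψ2 hs1]
    ring
  rw [hev.iteratedDeriv_eq]
  have hG : ContDiffAt ℂ m (tyG ψ1 ψ2) 2 := (tyG_diff ψ1 ψ2 h1 h2 h12).contDiff.contDiffAt
  have hI : ContDiffAt ℂ m (fun s : ℂ => sgL ψ1 ψ2 * (s - 1)⁻¹) 2 := by
    refine ContDiffAt.mul contDiffAt_const ?_
    refine ContDiffAt.inv (contDiffAt_id.sub contDiffAt_const) ?_
    norm_num
  have hadd : iteratedDeriv m (fun s => tyG ψ1 ψ2 s + sgL ψ1 ψ2 * (s - 1)⁻¹) 2 =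
      iteratedDeriv m (tyG ψ1 ψ2) 2 + iteratedDeriv m (fun s : ℂ => sgL ψ1 ψ2 * (s - 1)⁻¹) 2 :=
    iteratedDeriv_add hG hI
  rw [hadd, ty_inv]

/-- the Taylor coefficients of `F` at `2`, in powers of `2 - s` -/
private noncomputable def tyb {N : ℕ} [NeZero N] (ψ1 ψ2 : DirichletCharacter ℂ N) (m : ℕ) : ℝ :=
  ((-1) ^ m * iteratedDeriv m (LSeries (sgA ψ1 ψ2)) 2 / m !).re

private theorem ty_absc {N : ℕ} [NeZero N] (ψ1 ψ2 : DirichletCharacter ℂ N) :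
    LSeries.abscissaOfAbsConv (sgA ψ1 ψ2) < ((2 : ℝ) : EReal) := by
  have h : LSeriesSummable (sgA ψ1 ψ2) ((3 / 2 : ℝ) : ℂ) := by
    refine (sgA_LSeries ψ1 ψ2 ?_).1
    rw [Complex.ofReal_re]
    norm_num
  have h2 := h.abscissaOfAbsConv_le
  refine lt_of_le_of_lt h2 ?_
  rw [Complex.ofReal_re, EReal.coe_lt_coe_iff]
  norm_num

private theorem tyb_spec {N : ℕ} [NeZero N] (ψ1 ψ2 : DirichletCharacter ℂ N) (q1 : ψ1 ^ 2 = 1)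
    (q2 : ψ2 ^ 2 = 1) (m : ℕ) :
    0 ≤ tyb ψ1 ψ2 m ∧ (tyb ψ1 ψ2 m : ℂ) = (-1) ^ m * iteratedDeriv m (LSeries (sgA ψ1 ψ2)) 2 / m ! := by
  have h : (0 : ℂ) ≤ (-1) ^ m * iteratedDeriv m (LSeries (sgA ψ1 ψ2)) ((2 : ℝ) : ℂ) :=
    LSeries.iteratedDeriv_alternating (fun n => sgA_nonneg ψ1 ψ2 q1 q2 n) (ty_absc ψ1 ψ2) m
  have e2 : ((2 : ℝ) : ℂ) = 2 := by norm_num
  rw [e2] at h
  have hfac : (0 : ℂ) ≤ ((m ! : ℕ) : ℂ)⁻¹ := by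
    have : (0 : ℝ) ≤ ((m ! : ℕ) : ℝ)⁻¹ := by positivity
    have h3 := Complex.zero_le_real.2 this
    push_cast at h3
    exact h3
  have h4 : (0 : ℂ) ≤ (-1) ^ m * iteratedDeriv m (LSeries (sgA ψ1 ψ2)) 2 / m ! := by
    rw [div_eq_mul_inv]
    exact mul_nonneg h hfac
  rw [Complex.le_def] at h4
  refine ⟨h4.1, ?_⟩
  unfold tyb
  apply Complex.ext
  · rw [Complex.ofReal_re]
  · rw [Complex.ofReal_im]
    exact h4.2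

private theorem tyb_zero {N : ℕ} [NeZero N] (ψ1 ψ2 : DirichletCharacter ℂ N) (q1 : ψ1 ^ 2 = 1)
    (q2 : ψ2 ^ 2 = 1) : 1 ≤ tyb ψ1 ψ2 0 := by
  have hs : LSeriesSummable (sgA ψ1 ψ2) 2 := by
    refine (sgA_LSeries ψ1 ψ2 ?_).1
    norm_num
  have hnn : ∀ n, (0 : ℂ) ≤ LSeries.term (sgA ψ1 ψ2) 2 n := by
    intro n
    have h := LSeries.term_nonneg (sgA_nonneg ψ1 ψ2 q1 q2 n) (2 : ℝ)
    have e2 : ((2 : ℝ) : ℂ) = 2 := by norm_num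
    rw [e2] at h
    exact h
  have h1 : LSeries.term (sgA ψ1 ψ2) 2 1 ≤ LSeries (sgA ψ1 ψ2) 2 :=
    hs.le_tsum 1 fun j _ => hnn j
  have h2 : LSeries.term (sgA ψ1 ψ2) 2 1 = 1 := by
    rw [LSeries.term_of_ne_zero one_ne_zero, sgA_one]
    simp
  rw [h2, Complex.le_def] at h1
  unfold tyb
  simp only [pow_zero, one_mul, iteratedDeriv_zero, Nat.factorial_zero, Nat.cast_one, div_one]
  simpa using h1.1

private theorem ty_coef {N : ℕ} [NeZero N] (ψ1 ψ2 : DirichletCharacter ℂ N) (q1 : ψ1 ^ 2 = 1)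
    (q2 : ψ2 ^ 2 = 1) (h1 : ψ1 ≠ 1) (h2 : ψ2 ≠ 1) (h12 : ψ1 * ψ2 ≠ 1) (m : ℕ) :
    (-1) ^ m * iteratedDeriv m (tyG ψ1 ψ2) 2 / m ! = (tyb ψ1 ψ2 m : ℂ) - sgL ψ1 ψ2 := by
  rw [(tyb_spec ψ1 ψ2 q1 q2 m).2, ty_series ψ1 ψ2 h1 h2 h12 m]
  have hf : ((m ! : ℕ) : ℂ) ≠ 0 := by exact_mod_cast Nat.factorial_ne_zero m
  have hp : ((-1 : ℂ) ^ m) * (-1) ^ m = 1 := by
    rw [← mul_pow]
    norm_num
  field_simp
  linear_combination (-(sgL ψ1 ψ2) * ((m ! : ℕ) : ℂ)) * hp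

private theorem ty_hasSum {N : ℕ} [NeZero N] (ψ1 ψ2 : DirichletCharacter ℂ N) (q1 : ψ1 ^ 2 = 1)
    (q2 : ψ2 ^ 2 = 1) (h1 : ψ1 ≠ 1) (h2 : ψ2 ≠ 1) (h12 : ψ1 * ψ2 ≠ 1) (x : ℝ) :
    HasSum (fun m : ℕ => ((tyb ψ1 ψ2 m : ℂ) - sgL ψ1 ψ2) * (x : ℂ) ^ m) (tyG ψ1 ψ2 (2 - x)) := by
  have h := Complex.hasSum_taylorSeries_of_entire (tyG_diff ψ1 ψ2 h1 h2 h12) 2 (2 - x)
  have e : (fun n : ℕ => ((n ! : ℕ) : ℂ)⁻¹ • ((2 : ℂ) - x - 2) ^ n • iteratedDeriv n (tyG ψ1 ψ2) 2) =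
      fun m : ℕ => ((tyb ψ1 ψ2 m : ℂ) - sgL ψ1 ψ2) * (x : ℂ) ^ m := by
    funext m
    have e1 : (2 : ℂ) - x - 2 = (-1) * x := by ring
    rw [← ty_coef ψ1 ψ2 q1 q2 h1 h2 h12 m, e1, mul_pow, smul_eq_mul, smul_eq_mul]
    ring
  rw [e] at h
  exact h

private theorem ty_cauchy {N : ℕ} [NeZero N] (ψ1 ψ2 : DirichletCharacter ℂ N) (q1 : ψ1 ^ 2 = 1)
    (q2 : ψ2 ^ 2 = 1) (h1 : ψ1 ≠ 1) (h2 : ψ2 ≠ 1) (h12 : ψ1 * ψ2 ≠ 1) {B : ℝ}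
    (hB : ∀ z : ℂ, ‖z - 2‖ = 3 / 2 → ‖tyG ψ1 ψ2 z‖ ≤ B) (m : ℕ) :
    ‖(tyb ψ1 ψ2 m : ℂ) - sgL ψ1 ψ2‖ ≤ B * (2 / 3) ^ m := by
  have h := Complex.norm_iteratedDeriv_le_of_forall_mem_sphere_norm_le (c := 2) (R := 3 / 2) (C := B)
    (f := tyG ψ1 ψ2) m (by norm_num) (tyG_diff ψ1 ψ2 h1 h2 h12).diffContOnCl (fun z hz => by
      rw [mem_sphere_iff_norm] at hz
      exact hB z hz)
  rw [← ty_coef ψ1 ψ2 q1 q2 h1 h2 h12 m, norm_div, norm_mul, norm_pow, norm_neg, norm_one, one_pow,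
    one_mul, Complex.norm_natCast]
  have hf : (0 : ℝ) < ((m ! : ℕ) : ℝ) := by exact_mod_cast Nat.factorial_pos m
  rw [div_le_iff₀ hf]
  refine h.trans (le_of_eq ?_)
  have e : (2 / 3 : ℝ) ^ m = ((3 / 2 : ℝ) ^ m)⁻¹ := by
    rw [← inv_pow]
    norm_num
  rw [e, div_eq_mul_inv]
  ring

private theorem ty_main {N : ℕ} [NeZero N] (ψ1 ψ2 : DirichletCharacter ℂ N) (q1 : ψ1 ^ 2 = 1)
    (q2 : ψ2 ^ 2 = 1) (h1 : ψ1 ≠ 1) (h2 : ψ2 ≠ 1) (h12 : ψ1 * ψ2 ≠ 1) {B : ℝ}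
    (hB : ∀ z : ℂ, ‖z - 2‖ = 3 / 2 → ‖tyG ψ1 ψ2 z‖ ≤ B) :
    (sgL ψ1 ψ2).im = 0 ∧ 0 ≤ (sgL ψ1 ψ2).re ∧
    ∀ σ : ℝ, 7 / 8 ≤ σ → σ < 1 → (sgF ψ1 ψ2 σ).im = 0 ∧ ∀ M : ℕ,
      1 - (sgL ψ1 ψ2).re * (2 - σ) ^ M / (1 - σ) - (4 * B + 1) * (3 / 4) ^ M ≤ (sgF ψ1 ψ2 σ).re := by
  have hB0 : 0 ≤ B := by
    have h := hB (2 + (3 / 2 : ℝ)) (by
      rw [add_sub_cancel_left, Complex.norm_real]
      norm_num)
    exact (norm_nonneg _).trans h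
  have hc := ty_cauchy ψ1 ψ2 q1 q2 h1 h2 h12 hB
  have hlim : Tendsto (fun m : ℕ => (tyb ψ1 ψ2 m : ℂ)) atTop (𝓝 (sgL ψ1 ψ2)) := by
    rw [tendsto_iff_norm_sub_tendsto_zero]
    refine squeeze_zero (fun m => norm_nonneg _) hc ?_
    have h := (tendsto_pow_atTop_nhds_zero_of_lt_one (r := (2 / 3 : ℝ)) (by norm_num)
      (by norm_num)).const_mul B
    rw [mul_zero] at h
    exact h
  have him : (sgL ψ1 ψ2).im = 0 := by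
    have h := (Complex.continuous_im.tendsto _).comp hlim
    have h0 : (Complex.im ∘ fun m : ℕ => (tyb ψ1 ψ2 m : ℂ)) = fun _ => (0 : ℝ) := by
      funext m
      exact Complex.ofReal_im _
    rw [h0] at h
    exact tendsto_nhds_unique h tendsto_const_nhds
  have hre : 0 ≤ (sgL ψ1 ψ2).re := by
    have h := (Complex.continuous_re.tendsto _).comp hlim
    refine ge_of_tendsto' h fun m => ?_
    show 0 ≤ ((tyb ψ1 ψ2 m : ℂ)).re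
    rw [Complex.ofReal_re]
    exact (tyb_spec ψ1 ψ2 q1 q2 m).1
  refine ⟨him, hre, fun σ hσ1 hσ2 => ?_⟩
  obtain ⟨l, hl⟩ : ∃ l : ℝ, l = (sgL ψ1 ψ2).re := ⟨_, rfl⟩
  have hlC : sgL ψ1 ψ2 = (l : ℂ) := by
    apply Complex.ext
    · rw [Complex.ofReal_re, hl]
    · rw [Complex.ofReal_im, him]
  rw [← hl] at hre ⊢
  obtain ⟨x, hx⟩ : ∃ x : ℝ, x = 2 - σ := ⟨_, rfl⟩
  have hx1 : 1 < x := by linarith
  have hx2 : x ≤ 9 / 8 := by linarith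
  have hσx : (σ : ℂ) = 2 - (x : ℂ) := by
    rw [hx]
    push_cast
    ring
  have hsum := ty_hasSum ψ1 ψ2 q1 q2 h1 h2 h12 x
  rw [← hσx] at hsum
  have hterm : (fun m : ℕ => ((tyb ψ1 ψ2 m : ℂ) - sgL ψ1 ψ2) * (x : ℂ) ^ m) =
      fun m : ℕ => ((((tyb ψ1 ψ2 m - l) * x ^ m : ℝ)) : ℂ) := by
    funext m
    rw [hlC]
    push_cast
    ring
  rw [hterm] at hsum
  have hsre : HasSum (fun m : ℕ => (tyb ψ1 ψ2 m - l) * x ^ m) (tyG ψ1 ψ2 σ).re := by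
    have h := Complex.hasSum_re hsum
    simpa only [Complex.ofReal_re] using h
  have hsim : (tyG ψ1 ψ2 σ).im = 0 := by
    have h := Complex.hasSum_im hsum
    have h0 : HasSum (fun m : ℕ => ((((tyb ψ1 ψ2 m - l) * x ^ m : ℝ)) : ℂ).im) 0 := by
      have e : (fun m : ℕ => ((((tyb ψ1 ψ2 m - l) * x ^ m : ℝ)) : ℂ).im) = fun _ => (0 : ℝ) := by
        funext m
        exact Complex.ofReal_im _
      rw [e]
      exact hasSum_zero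
    exact h.unique h0
  have hσ1' : (σ : ℂ) ≠ 1 := by
    intro h
    have h' : σ = 1 := by exact_mod_cast h
    linarith
  have hF : sgF ψ1 ψ2 σ = tyG ψ1 ψ2 σ - ((l / (1 - σ) : ℝ) : ℂ) := by
    rw [tyG_ne ψ1 ψ2 hσ1', hlC]
    have h3 : (σ : ℂ) - 1 ≠ 0 := sub_ne_zero.2 hσ1'
    have h4 : (1 : ℂ) - σ ≠ 0 := sub_ne_zero.2 hσ1'.symm
    push_cast
    field_simp
    ring
  refine ⟨?_, fun M => ?_⟩
  · rw [hF, Complex.sub_im, hsim, Complex.ofReal_im, sub_zero]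
  have hFre : (sgF ψ1 ψ2 σ).re = (tyG ψ1 ψ2 σ).re - l / (1 - σ) := by
    rw [hF, Complex.sub_re, Complex.ofReal_re]
  have hcr : ∀ m, |tyb ψ1 ψ2 m - l| ≤ B * (2 / 3) ^ m := by
    intro m
    have h := hc m
    rw [hlC, ← Complex.ofReal_sub, Complex.norm_real] at h
    exact h
  have htail : |∑' m : ℕ, (tyb ψ1 ψ2 (m + M) - l) * x ^ (m + M)| ≤ 4 * B * (3 / 4) ^ M := by
    have hg : HasSum (fun m : ℕ => B * (3 / 4) ^ M * (3 / 4 : ℝ) ^ m) (B * (3 / 4) ^ M * (1 - 3 / 4)⁻¹) :=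
      (hasSum_geometric_of_lt_one (by norm_num) (by norm_num)).mul_left _
    have h := tsum_of_norm_bounded (f := fun m : ℕ => (tyb ψ1 ψ2 (m + M) - l) * x ^ (m + M)) hg (fun m => by
      rw [Real.norm_eq_abs, abs_mul, abs_of_nonneg (by positivity : 0 ≤ x ^ (m + M))]
      calc |tyb ψ1 ψ2 (m + M) - l| * x ^ (m + M) ≤ (B * (2 / 3) ^ (m + M)) * (9 / 8) ^ (m + M) := by
            gcongr
            exact hcr _
        _ = B * (3 / 4) ^ M * (3 / 4) ^ m := by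
            rw [mul_assoc, ← mul_pow]
            have : (2 / 3 * (9 / 8) : ℝ) = 3 / 4 := by norm_num
            rw [this, pow_add]
            ring)
    rw [Real.norm_eq_abs] at h
    refine h.trans (le_of_eq ?_)
    norm_num
    ring
  have hsplit := hsre.summable.sum_add_tsum_nat_add M
  rw [hsre.tsum_eq] at hsplit
  have habs := abs_le.1 htail
  have hpow : (0 : ℝ) ≤ (3 / 4) ^ M := by positivity
  have h1σ : 0 < 1 - σ := by linarith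
  have hx1' : x - 1 = 1 - σ := by
    rw [hx]
    ring
  rw [hFre, ← hx]
  rcases Nat.eq_zero_or_pos M with hM | hM
  · subst hM
    have h5 : (tyG ψ1 ψ2 σ).re = ∑' m : ℕ, (tyb ψ1 ψ2 (m + 0) - l) * x ^ (m + 0) := by
      rw [← hsplit, Finset.sum_range_zero, zero_add]
    rw [← h5] at habs
    simp only [pow_zero, mul_one] at habs ⊢
    linarith [habs.1]
  · have hgeom : ∑ m ∈ Finset.range M, x ^ m = (x ^ M - 1) / (x - 1) := geom_sum_eq hx1.ne' M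
    have hfin : 1 - l * ((x ^ M - 1) / (x - 1)) ≤
        ∑ m ∈ Finset.range M, (tyb ψ1 ψ2 m - l) * x ^ m := by
      have e : ∑ m ∈ Finset.range M, (tyb ψ1 ψ2 m - l) * x ^ m =
          ∑ m ∈ Finset.range M, tyb ψ1 ψ2 m * x ^ m - l * ∑ m ∈ Finset.range M, x ^ m := by
        rw [Finset.mul_sum, ← Finset.sum_sub_distrib]
        refine Finset.sum_congr rfl fun m _ => ?_
        ring
      rw [e, hgeom]
      have h6 : 1 ≤ ∑ m ∈ Finset.range M, tyb ψ1 ψ2 m * x ^ m := by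
        have h7 : tyb ψ1 ψ2 0 * x ^ 0 ≤ ∑ m ∈ Finset.range M, tyb ψ1 ψ2 m * x ^ m := by
          refine Finset.single_le_sum (f := fun m => tyb ψ1 ψ2 m * x ^ m) (fun m _ => ?_)
            (Finset.mem_range.2 hM)
          exact mul_nonneg (tyb_spec ψ1 ψ2 q1 q2 m).1 (by positivity)
        rw [pow_zero, mul_one] at h7
        exact (tyb_zero ψ1 ψ2 q1 q2).trans h7
      linarith
    rw [hx1'] at hfin
    have e2 : l * x ^ M / (1 - σ) = l * ((x ^ M - 1) / (1 - σ)) + l / (1 - σ) := by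
      field_simp
      ring
    rw [e2]
    have h8 : (tyG ψ1 ψ2 σ).re = ∑ m ∈ Finset.range M, (tyb ψ1 ψ2 m - l) * x ^ m +
        ∑' m : ℕ, (tyb ψ1 ψ2 (m + M) - l) * x ^ (m + M) := hsplit.symm
    have h9 : (4 * B + 1) * (3 / 4 : ℝ) ^ M = 4 * B * (3 / 4) ^ M + (3 / 4) ^ M := by ring
    rw [h9, h8]
    linarith [habs.1]

private theorem ty_circle {N : ℕ} [NeZero N] (ψ1 ψ2 : DirichletCharacter ℂ N)
    {Cz Cb C1 : ℝ} (hz : ∀ s : ℂ, ‖s - 2‖ = 3 / 2 → ‖riemannZeta s‖ ≤ Cz)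
    (b1 : ∀ s : ℂ, ‖s - 2‖ ≤ 3 / 2 → ‖LFunction ψ1 s‖ ≤ Cb * N)
    (b2 : ∀ s : ℂ, ‖s - 2‖ ≤ 3 / 2 → ‖LFunction ψ2 s‖ ≤ Cb * N)
    (b3 : ∀ s : ℂ, ‖s - 2‖ ≤ 3 / 2 → ‖LFunction (ψ1 * ψ2) s‖ ≤ Cb * N)
    (c1 : ‖LFunction ψ1 1‖ ≤ C1 * N) (c2 : ‖LFunction ψ2 1‖ ≤ C1 * N)
    (c3 : ‖LFunction (ψ1 * ψ2) 1‖ ≤ C1 * N) (hCz : 1 ≤ Cz) (hCb : 1 ≤ Cb) (hC1 : 1 ≤ C1)
    (s : ℂ) (hs : ‖s - 2‖ = 3 / 2) :
    ‖tyG ψ1 ψ2 s‖ ≤ (Cz * Cb ^ 3 + 2 * C1 ^ 3) * (N : ℝ) ^ 3 := by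
  have hN0 : (0 : ℝ) ≤ N := Nat.cast_nonneg _
  have hs1 : (1 / 2 : ℝ) ≤ ‖s - 1‖ := by
    have h : ‖s - 2‖ ≤ ‖s - 1‖ + 1 := by
      have e : s - 2 = (s - 1) - 1 := by ring
      rw [e]
      refine (norm_sub_le _ _).trans ?_
      rw [norm_one]
    linarith
  have hs1' : s ≠ 1 := by
    rintro rfl
    rw [sub_self, norm_zero] at hs1
    norm_num at hs1
  rw [tyG_ne ψ1 ψ2 hs1']
  refine (norm_sub_le _ _).trans ?_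
  have t1 : ‖sgF ψ1 ψ2 s‖ ≤ Cz * (Cb * N) * (Cb * N) * (Cb * N) := by
    unfold sgF
    rw [norm_mul, norm_mul, norm_mul]
    have a0 := hz s hs
    have a1 := b1 s hs.le
    have a2 := b2 s hs.le
    have a3 := b3 s hs.le
    gcongr
  have t2 : ‖sgL ψ1 ψ2 * (s - 1)⁻¹‖ ≤ (C1 * N) * (C1 * N) * (C1 * N) * 2 := by
    unfold sgL
    rw [norm_mul, norm_mul, norm_mul, norm_inv]
    have h2 : ‖s - 1‖⁻¹ ≤ 2 := by
      rw [inv_le_comm₀ (by linarith) (by norm_num)]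
      linarith
    gcongr
  calc ‖sgF ψ1 ψ2 s‖ + ‖sgL ψ1 ψ2 * (s - 1)⁻¹‖
      ≤ Cz * (Cb * N) * (Cb * N) * (Cb * N) + (C1 * N) * (C1 * N) * (C1 * N) * 2 := add_le_add t1 t2
    _ = (Cz * Cb ^ 3 + 2 * C1 ^ 3) * (N : ℝ) ^ 3 := by ring

theorem sg_tay : ∃ C : ℝ, 1 ≤ C ∧ ∀ (N : ℕ) [NeZero N] (ψ1 ψ2 : DirichletCharacter ℂ N), ψ1 ^ 2 = 1 → ψ2 ^ 2 = 1 →
    ψ1 ≠ 1 → ψ2 ≠ 1 → ψ1 * ψ2 ≠ 1 → (sgL ψ1 ψ2).im = 0 ∧ 0 ≤ (sgL ψ1 ψ2).re ∧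
    ∀ σ : ℝ, 7 / 8 ≤ σ → σ < 1 → (sgF ψ1 ψ2 σ).im = 0 ∧ ∀ M : ℕ,
      1 - (sgL ψ1 ψ2).re * (2 - σ) ^ M / (1 - σ) - C * (N : ℝ) ^ 3 * (3 / 4) ^ M ≤ (sgF ψ1 ψ2 σ).re := by
  obtain ⟨Cb, hCb, hb⟩ := sg_bd
  obtain ⟨Cz, hCz, hz⟩ := sg_bd_zeta
  obtain ⟨C1, hC1, h1⟩ := sg_bd_one
  have hpos : 0 ≤ Cz * Cb ^ 3 + 2 * C1 ^ 3 := by positivity
  refine ⟨4 * (Cz * Cb ^ 3 + 2 * C1 ^ 3) + 1, by linarith, ?_⟩
  intro N _ ψ1 ψ2 q1 q2 n1 n2 n12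
  have hN1 : (1 : ℝ) ≤ N := by
    exact_mod_cast Nat.one_le_iff_ne_zero.2 (NeZero.ne N)
  have hlog : 1 + Real.log N ≤ N := by
    have := Real.log_le_sub_one_of_pos (show (0 : ℝ) < N by linarith)
    linarith
  have hl : ∀ ψ : DirichletCharacter ℂ N, ψ ≠ 1 → ‖LFunction ψ 1‖ ≤ C1 * N := by
    intro ψ hψ
    refine (h1 N ψ hψ).trans ?_
    gcongr
  have hB := ty_circle ψ1 ψ2 hz (hb N ψ1 n1) (hb N ψ2 n2) (hb N (ψ1 * ψ2) n12) (hl ψ1 n1) (hl ψ2 n2)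
    (hl (ψ1 * ψ2) n12) hCz hCb hC1
  obtain ⟨m1, m2, m3⟩ := ty_main ψ1 ψ2 q1 q2 n1 n2 n12 hB
  refine ⟨m1, m2, fun σ hσ1 hσ2 => ?_⟩
  obtain ⟨k1, k2⟩ := m3 σ hσ1 hσ2
  refine ⟨k1, fun M => ?_⟩
  have k3 := k2 M
  have hN3 : (1 : ℝ) ≤ (N : ℝ) ^ 3 := one_le_pow₀ hN1
  have hp : (0 : ℝ) ≤ (3 / 4) ^ M := by positivity
  have k4 : (4 * ((Cz * Cb ^ 3 + 2 * C1 ^ 3) * (N : ℝ) ^ 3) + 1) * (3 / 4) ^ M ≤
      (4 * (Cz * Cb ^ 3 + 2 * C1 ^ 3) + 1) * (N : ℝ) ^ 3 * (3 / 4) ^ M := by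
    refine mul_le_mul_of_nonneg_right ?_ hp
    nlinarith
  linarith

end Pool.Agent.SWQ
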