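import Pool.Agent.SWQ.SgCase

/-! SWQ/Siegel.  SIEGEL'S THEOREM (1935), for real characters, primitive or not: Estermann's inequality with a
suitable number of terms of the Taylor series, and the Euler factors of the change of level. -/

set_option autoImplicit false

namespace Pool.Agent.SWQ

open DirichletCharacter

private theorem sie_card {S : Finset ℕ} {m : ℕ} (h : ∀ x ∈ S, 2 ≤ x ∧ x < m) :
    S.card + 2 ≤ m ∨ S.card = 0 := by
  by_cases h0 : S.card = 0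
  · exact Or.inr h0
  left
  have h1 : S ⊆ Finset.Ico 2 m := fun x hx => Finset.mem_Ico.2 (h x hx)
  have h2 := Finset.card_le_card h1
  rw [Nat.card_Ico] at h2
  omega

private theorem sie_prod (S : Finset ℕ) (hS : ∀ x ∈ S, 2 ≤ x) :
    ∏ p ∈ S, p ≤ (S.card + 1) * ∏ p ∈ S, (p - 1) := by
  induction S using Finset.induction_on_max with
  | empty => simp
  | insert m S hm ih =>
    have hmS : m ∉ S := fun h => lt_irrefl _ (hm m h)
    rw [Finset.prod_insert hmS, Finset.prod_insert hmS, Finset.card_insert_of_notMem hmS]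
    have h1 := ih fun x hx => hS x (Finset.mem_insert_of_mem hx)
    have hm2 : 2 ≤ m := hS m (Finset.mem_insert_self _ _)
    have hc : S.card + 2 ≤ m := by
      rcases sie_card (S := S) (m := m)
        fun x hx => ⟨hS x (Finset.mem_insert_of_mem hx), hm x hx⟩ with h | h
      · exact h
      · omega
    obtain ⟨a, rfl⟩ : ∃ a, m = S.card + 2 + a := ⟨m - (S.card + 2), by omega⟩
    calc (S.card + 2 + a) * ∏ p ∈ S, p ≤ (S.card + 2 + a) * ((S.card + 1) * ∏ p ∈ S, (p - 1)) :=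
          Nat.mul_le_mul_left _ h1
      _ = ((S.card + 2 + a) * (S.card + 1)) * ∏ p ∈ S, (p - 1) := by ring
      _ ≤ ((S.card + 1 + 1) * (S.card + 2 + a - 1)) * ∏ p ∈ S, (p - 1) := by
          apply Nat.mul_le_mul_right
          have : S.card + 2 + a - 1 = S.card + 1 + a := by omega
          rw [this]
          nlinarith
      _ = _ := by ring

private theorem sie_euler {q : ℕ} (hq : 0 < q) :
    1 / (1 + 2 * Real.log q) ≤ ∏ p ∈ q.primeFactors, (1 - (p : ℝ)⁻¹) := by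
  set k := q.primeFactors.card with hk
  have hp2 : ∀ x ∈ q.primeFactors, 2 ≤ x := fun x hx => (Nat.prime_of_mem_primeFactors hx).two_le
  have h2 := sie_prod q.primeFactors hp2
  have hq1 : (1 : ℝ) ≤ q := by exact_mod_cast hq
  have hlog : 0 ≤ Real.log q := Real.log_nonneg hq1
  have h5 : 2 ^ k ≤ q := by
    have h6 : ∏ p ∈ q.primeFactors, p ≤ q := Nat.le_of_dvd hq (Nat.prod_primeFactors_dvd q)
    refine le_trans ?_ h6
    exact Finset.pow_card_le_prod _ _ _ fun p hp => hp2 p hp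
  have h7 : (k : ℝ) ≤ 2 * Real.log q := by
    have h8 : ((2 : ℝ)) ^ k ≤ q := by exact_mod_cast h5
    have h9 := Real.log_le_log (by positivity) h8
    rw [Real.log_pow] at h9
    have h10 := Real.log_two_gt_d9
    have h11 : (k : ℝ) * (1 / 2) ≤ k * Real.log 2 :=
      mul_le_mul_of_nonneg_left (by linarith) (Nat.cast_nonneg _)
    linarith
  have hP : (0 : ℝ) < ∏ p ∈ q.primeFactors, (p : ℝ) := by
    apply Finset.prod_pos
    intro p hp
    have := hp2 p hp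
    exact_mod_cast (by omega : 0 < p)
  have e1 : ∏ p ∈ q.primeFactors, (1 - (p : ℝ)⁻¹) =
      (∏ p ∈ q.primeFactors, ((p - 1 : ℕ) : ℝ)) / ∏ p ∈ q.primeFactors, (p : ℝ) := by
    rw [← Finset.prod_div_distrib]
    refine Finset.prod_congr rfl fun p hp => ?_
    have h3 := hp2 p hp
    have h4 : (p : ℝ) ≠ 0 := by exact_mod_cast (by omega : p ≠ 0)
    rw [Nat.cast_sub (by omega), Nat.cast_one]
    field_simp
  rw [e1, div_le_div_iff₀ (by positivity) hP, one_mul]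
  have h12 : ∏ p ∈ q.primeFactors, (p : ℝ) ≤ (k + 1) * ∏ p ∈ q.primeFactors, ((p - 1 : ℕ) : ℝ) := by
    have h14 : ((∏ p ∈ q.primeFactors, p : ℕ) : ℝ) ≤
        (((q.primeFactors.card + 1) * ∏ p ∈ q.primeFactors, (p - 1) : ℕ) : ℝ) := Nat.cast_le.2 h2
    simpa only [Nat.cast_prod, Nat.cast_mul, Nat.cast_add, Nat.cast_one] using h14
  have h13 : (0 : ℝ) ≤ ∏ p ∈ q.primeFactors, ((p - 1 : ℕ) : ℝ) :=
    Finset.prod_nonneg fun p _ => Nat.cast_nonneg _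
  calc ∏ p ∈ q.primeFactors, (p : ℝ) ≤ (k + 1) * ∏ p ∈ q.primeFactors, ((p - 1 : ℕ) : ℝ) := h12
    _ ≤ (1 + 2 * Real.log q) * ∏ p ∈ q.primeFactors, ((p - 1 : ℕ) : ℝ) :=
        mul_le_mul_of_nonneg_right (by linarith) h13
    _ = _ := mul_comm _ _

private theorem sie_level {M q N : ℕ} [NeZero q] [NeZero N] (hq : q ∣ N) (hM : M ∣ N)
    (hN : ∀ p, p.Prime → p ∣ N → p ∣ q ∨ p ∣ M) (χ : DirichletCharacter ℂ q) (hχ : χ ≠ 1) :
    LFunction (changeLevel hq χ) 1 = LFunction χ 1 * ∏ p ∈ M.primeFactors, (1 - χ p * ((p : ℂ))⁻¹) := by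
  rw [LFunction_changeLevel hq χ (Or.inl hχ)]
  congr 1
  simp only [Complex.cpow_neg_one]
  symm
  refine Finset.prod_subset (Nat.primeFactors_mono hM (NeZero.ne N)) fun p hp hp' => ?_
  have h1 := Nat.prime_of_mem_primeFactors hp
  have h2 := Nat.dvd_of_mem_primeFactors hp
  have hM0 : M ≠ 0 := fun h => NeZero.ne N (Nat.eq_zero_of_zero_dvd (h ▸ hM))
  have h3 : ¬ p ∣ M := fun h => hp' (Nat.mem_primeFactors.2 ⟨h1, h, hM0⟩)
  have h4 : p ∣ q := (hN p h1 h2).resolve_right h3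
  have h5 : ¬ IsUnit ((p : ℕ) : ZMod q) := by
    rw [ZMod.isUnit_iff_coprime]
    intro h
    exact h1.one_lt.ne' (Nat.eq_one_of_dvd_coprimes h (dvd_refl p) h4)
  rw [χ.map_nonunit h5, zero_mul, sub_zero]

private theorem sie_up {q : ℕ} (χ : DirichletCharacter ℂ q) (S : Finset ℕ) (hS : ∀ p ∈ S, 2 ≤ p) :
    ‖∏ p ∈ S, (1 - χ p * ((p : ℂ))⁻¹)‖ ≤ 2 ^ S.card := by
  rw [norm_prod, ← Finset.prod_const]
  refine Finset.prod_le_prod (fun _ _ => norm_nonneg _) fun p hp => ?_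
  have h1 : (1 : ℝ) ≤ p := by exact_mod_cast (by have := hS p hp; omega : 1 ≤ p)
  calc ‖1 - χ p * ((p : ℂ))⁻¹‖ ≤ ‖(1 : ℂ)‖ + ‖χ p * ((p : ℂ))⁻¹‖ := norm_sub_le _ _
    _ ≤ 1 + 1 := by
        rw [norm_one, norm_mul, norm_inv, Complex.norm_natCast]
        have h2 : ‖χ p‖ * (p : ℝ)⁻¹ ≤ 1 * 1 :=
          mul_le_mul (χ.norm_le_one _) (inv_le_one_of_one_le₀ h1) (by positivity) zero_le_one
        linarith
    _ = 2 := by norm_num

private theorem sie_low {q : ℕ} (χ : DirichletCharacter ℂ q) (S : Finset ℕ) (hS : ∀ p ∈ S, 2 ≤ p) :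
    ∏ p ∈ S, (1 - (p : ℝ)⁻¹) ≤ ‖∏ p ∈ S, (1 - χ p * ((p : ℂ))⁻¹)‖ := by
  rw [norm_prod]
  refine Finset.prod_le_prod (fun p hp => ?_) fun p hp => ?_
  · have h1 : (1 : ℝ) ≤ p := by exact_mod_cast (by have := hS p hp; omega : 1 ≤ p)
    exact sub_nonneg.2 (inv_le_one_of_one_le₀ h1)
  · have h1 : (1 : ℝ) ≤ p := by exact_mod_cast (by have := hS p hp; omega : 1 ≤ p)
    have h2 : ‖(1 : ℂ)‖ - ‖χ p * ((p : ℂ))⁻¹‖ ≤ ‖1 - χ p * ((p : ℂ))⁻¹‖ := norm_sub_norm_le _ _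
    rw [norm_one, norm_mul, norm_inv, Complex.norm_natCast] at h2
    have h3 : ‖χ p‖ * (p : ℝ)⁻¹ ≤ 1 * (p : ℝ)⁻¹ :=
      mul_le_mul_of_nonneg_right (χ.norm_le_one _) (by positivity)
    linarith

private theorem sie_log {δ x : ℝ} (hδ : 0 < δ) (hx : 1 ≤ x) : 1 + Real.log x ≤ (1 + 1 / δ) * x ^ δ := by
  have h1 : Real.log x ≤ x ^ δ / δ := Real.log_le_rpow_div (by linarith) hδ
  have h2 : 1 ≤ x ^ δ := Real.one_le_rpow hx hδ.le
  have h3 : (1 + 1 / δ) * x ^ δ = x ^ δ + x ^ δ / δ := by ring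
  rw [h3]
  linarith

/-- the choice of the number of terms -/
private theorem sie_num {C δ β l F : ℝ} (hC : 1 ≤ C) (hδ : 0 < δ) (hβ : 1 - δ < β) (hβ1 : β < 1)
    (hl : 0 ≤ l) (hF : F ≤ 0) {N : ℝ} (hN : 1 ≤ N)
    (h : ∀ M : ℕ, 1 - l * (2 - β) ^ M / (1 - β) - C * N ^ 3 * (3 / 4) ^ M ≤ F) :
    (1 - β) / 2 * (Real.exp (-(δ * (1 + 4 * Real.log (2 * C)))) * N ^ (-(12 * δ))) ≤ l := by
  have hN0 : 0 < N := by linarith
  have hC0 : 0 < C := by linarith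
  set X : ℝ := 2 * C * N ^ 3 with hX
  have hN3 : 1 ≤ N ^ 3 := one_le_pow₀ hN
  have hX1 : 1 ≤ X := by
    have : 1 * 1 ≤ C * N ^ 3 := mul_le_mul hC hN3 zero_le_one hC0.le
    have h2 : X = 2 * (C * N ^ 3) := by rw [hX]; ring
    rw [h2]
    linarith
  have hX0 : 0 < X := by linarith
  have hlX : 0 ≤ Real.log X := Real.log_nonneg hX1
  obtain ⟨M, hM1, hM2⟩ : ∃ M : ℕ, 4 * Real.log X ≤ M ∧ (M : ℝ) ≤ 4 * Real.log X + 1 :=
    ⟨⌈4 * Real.log X⌉₊, Nat.le_ceil _, (Nat.ceil_lt_add_one (by positivity)).le⟩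
  have h1 := h M
  have h34 : (3 / 4 : ℝ) ^ M ≤ 1 / X := by
    have h2 : (3 / 4 : ℝ) ≤ Real.exp (-(1 / 4)) := by
      have := Real.add_one_le_exp (-(1 / 4 : ℝ))
      linarith
    calc (3 / 4 : ℝ) ^ M ≤ Real.exp (-(1 / 4)) ^ M := pow_le_pow_left₀ (by norm_num) h2 M
      _ = Real.exp (M * (-(1 / 4))) := (Real.exp_nat_mul _ _).symm
      _ ≤ Real.exp (-Real.log X) := Real.exp_le_exp.2 (by linarith)
      _ = 1 / X := by rw [Real.exp_neg, Real.exp_log hX0, one_div]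
  have h2 : C * N ^ 3 * (3 / 4) ^ M ≤ 1 / 2 := by
    calc C * N ^ 3 * (3 / 4) ^ M ≤ C * N ^ 3 * (1 / X) := mul_le_mul_of_nonneg_left h34 (by positivity)
      _ = 1 / 2 := by
        rw [hX]
        field_simp
  have hb0 : 0 < 1 - β := by linarith
  have h3 : (2 - β) ^ M ≤ Real.exp (M * δ) := by
    have h4 : 2 - β ≤ Real.exp δ := by
      have h5 := Real.add_one_le_exp (1 - β)
      have h6 : Real.exp (1 - β) ≤ Real.exp δ := Real.exp_le_exp.2 (by linarith)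
      linarith
    calc (2 - β) ^ M ≤ Real.exp δ ^ M := pow_le_pow_left₀ (by linarith) h4 M
      _ = Real.exp (M * δ) := (Real.exp_nat_mul _ _).symm
  have h5 : 1 / 2 ≤ l * (2 - β) ^ M / (1 - β) := by linarith
  rw [le_div_iff₀ hb0] at h5
  have h6 : (1 - β) / 2 ≤ l * Real.exp (M * δ) := by
    have := mul_le_mul_of_nonneg_left h3 hl
    linarith
  have h7 : Real.exp (-(δ * (1 + 4 * Real.log (2 * C)))) * N ^ (-(12 * δ)) ≤ Real.exp (-(M * δ)) := by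
    rw [Real.rpow_def_of_pos hN0, ← Real.exp_add]
    apply Real.exp_le_exp.2
    have h8 : Real.log X = Real.log (2 * C) + 3 * Real.log N := by
      rw [hX, Real.log_mul (by positivity) (by positivity), Real.log_pow]
      norm_num
    have h9 : (M : ℝ) * δ ≤ (4 * Real.log X + 1) * δ := mul_le_mul_of_nonneg_right hM2 hδ.le
    rw [h8] at h9
    nlinarith
  calc (1 - β) / 2 * (Real.exp (-(δ * (1 + 4 * Real.log (2 * C)))) * N ^ (-(12 * δ)))
      ≤ (l * Real.exp (M * δ)) * Real.exp (-(M * δ)) := mul_le_mul h6 h7 (by positivity) (by positivity)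
    _ = l := by rw [mul_assoc, ← Real.exp_add, add_neg_cancel, Real.exp_zero, mul_one]

theorem siegel {ε : ℝ} (hε : 0 < ε) : ∃ c : ℝ, 0 < c ∧ ∀ (q : ℕ) [NeZero q] (χ : DirichletCharacter ℂ q),
    χ ≠ 1 → χ ^ 2 = 1 → c * (q : ℝ) ^ (-ε) ≤ ‖LFunction χ 1‖ := by
  obtain ⟨δ, hδe⟩ : ∃ δ : ℝ, δ = ε / 40 := ⟨_, rfl⟩
  have hδ : 0 < δ := by rw [hδe]; positivity
  obtain ⟨N1, hN1, χ1, β, h1ne, h1sq, hβ1, hβ2, hβ3, hcase⟩ := sg_case hδ
  obtain ⟨C, hC, htay⟩ := sg_tay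
  obtain ⟨C2, hC2, hbd⟩ := sg_bd_one
  obtain ⟨A, hA⟩ : ∃ A : ℝ, A = 2 ^ (N1.primeFactors.card) := ⟨_, rfl⟩
  have hA0 : 0 < A := by rw [hA]; positivity
  have hL1 : 0 < ‖LFunction χ1 1‖ := norm_pos_iff.2 (LFunction_apply_one_ne_zero h1ne)
  have hN1r : (1 : ℝ) ≤ N1 := by exact_mod_cast Nat.pos_of_ne_zero (NeZero.ne N1)
  have hN10 : (0 : ℝ) < N1 := by linarith
  obtain ⟨E, hE⟩ : ∃ E : ℝ, E = Real.exp (-(δ * (1 + 4 * Real.log (2 * C)))) := ⟨_, rfl⟩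
  have hE0 : 0 < E := by rw [hE]; exact Real.exp_pos _
  obtain ⟨K, hK⟩ : ∃ K : ℝ, K = C2 * (1 + 1 / δ) := ⟨_, rfl⟩
  have hK0 : 0 < K := by rw [hK]; positivity
  have hb0 : 0 < 1 - β := by linarith
  refine ⟨min (‖LFunction χ1 1‖ / ((1 + 2 / ε) * A)) ((1 - β) / 2 * E * (N1 : ℝ) ^ (-(14 * δ)) / (A * K ^ 2)),
    lt_min (by positivity) (by positivity), ?_⟩
  intro q hq χ2 h2ne h2sq
  have hq0 : 0 < q := Nat.pos_of_ne_zero (NeZero.ne q)
  have hq1 : (1 : ℝ) ≤ q := by exact_mod_cast hq0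
  have hqr : (0 : ℝ) < q := by linarith
  have hprime : ∀ p, p.Prime → p ∣ N1 * q → p ∣ q ∨ p ∣ N1 := fun p hp h =>
    ((hp.dvd_mul).1 h).symm
  have hprime' : ∀ p, p.Prime → p ∣ N1 * q → p ∣ N1 ∨ p ∣ q := fun p hp h => (hp.dvd_mul).1 h
  have hL2 : ‖LFunction (changeLevel (dvd_mul_left q N1) χ2) 1‖ ≤ ‖LFunction χ2 1‖ * A := by
    rw [sie_level (dvd_mul_left q N1) (dvd_mul_right N1 q) hprime χ2 h2ne, norm_mul, hA]
    exact mul_le_mul_of_nonneg_left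
      (sie_up χ2 _ fun p hp => (Nat.prime_of_mem_primeFactors hp).two_le) (norm_nonneg _)
  by_cases hψ : changeLevel (dvd_mul_right N1 q) χ1 = changeLevel (dvd_mul_left q N1) χ2
  · -- the same character at the common level
    refine (mul_le_mul_of_nonneg_right (min_le_left _ _) (by positivity)).trans ?_
    have h1 : ‖LFunction χ1 1‖ * (1 / (1 + 2 * Real.log q)) ≤
        ‖LFunction (changeLevel (dvd_mul_right N1 q) χ1) 1‖ := by
      rw [sie_level (dvd_mul_right N1 q) (dvd_mul_left q N1) hprime' χ1 h1ne, norm_mul]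
      exact mul_le_mul_of_nonneg_left ((sie_euler hq0).trans
        (sie_low χ1 _ fun p hp => (Nat.prime_of_mem_primeFactors hp).two_le)) (norm_nonneg _)
    rw [hψ] at h1
    have h2 := h1.trans hL2
    have hlog : 0 ≤ Real.log q := Real.log_nonneg hq1
    have h3 : 1 + 2 * Real.log q ≤ (1 + 2 / ε) * (q : ℝ) ^ ε := by
      have h4 : Real.log q ≤ (q : ℝ) ^ ε / ε := Real.log_le_rpow_div hqr.le hε
      have h5 : 1 ≤ (q : ℝ) ^ ε := Real.one_le_rpow hq1 hε.le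
      have h6 : (1 + 2 / ε) * (q : ℝ) ^ ε = (q : ℝ) ^ ε + 2 * ((q : ℝ) ^ ε / ε) := by ring
      rw [h6]
      linarith
    have h7 : 1 / ((1 + 2 / ε) * (q : ℝ) ^ ε) ≤ 1 / (1 + 2 * Real.log q) :=
      one_div_le_one_div_of_le (by positivity) h3
    have h8 : ‖LFunction χ1 1‖ * (1 / ((1 + 2 / ε) * (q : ℝ) ^ ε)) ≤ ‖LFunction χ2 1‖ * A :=
      (mul_le_mul_of_nonneg_left h7 (norm_nonneg _)).trans h2
    have h9 : ‖LFunction χ1 1‖ / ((1 + 2 / ε) * A) * (q : ℝ) ^ (-ε) =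
        ‖LFunction χ1 1‖ * (1 / ((1 + 2 / ε) * (q : ℝ) ^ ε)) / A := by
      rw [Real.rpow_neg hqr.le]
      field_simp
    rw [h9, div_le_iff₀ hA0]
    exact h8
  · refine (mul_le_mul_of_nonneg_right (min_le_right _ _) (by positivity)).trans ?_
    set ψ1 := changeLevel (dvd_mul_right N1 q) χ1 with hψ1
    set ψ2 := changeLevel (dvd_mul_left q N1) χ2 with hψ2
    have hψ1ne : ψ1 ≠ 1 := fun h => h1ne ((changeLevel_eq_one_iff _).1 h)
    have hψ2ne : ψ2 ≠ 1 := fun h => h2ne ((changeLevel_eq_one_iff _).1 h)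
    have hψ1sq : ψ1 ^ 2 = 1 := by rw [hψ1, ← map_pow, h1sq, map_one]
    have hψ2sq : ψ2 ^ 2 = 1 := by rw [hψ2, ← map_pow, h2sq, map_one]
    have h12 : ψ1 * ψ2 ≠ 1 := by
      intro h
      apply hψ
      calc ψ1 = ψ1 * ψ2 ^ 2 := by rw [hψ2sq, mul_one]
        _ = ψ1 * ψ2 * ψ2 := by rw [pow_two, mul_assoc]
        _ = ψ2 := by rw [h, one_mul]
    obtain ⟨him, hre, hF⟩ := htay (N1 * q) ψ1 ψ2 hψ1sq hψ2sq hψ1ne hψ2ne h12
    have hF0 := hcase q χ2 h2ne h2sq hψ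
    have hNr : (1 : ℝ) ≤ ((N1 * q : ℕ) : ℝ) := by
      exact_mod_cast Nat.mul_pos (Nat.pos_of_ne_zero (NeZero.ne N1)) hq0
    have hlow := sie_num hC hδ hβ1 hβ3 hre hF0 hNr (hF β hβ2 hβ3).2
    rw [← hE] at hlow
    set N : ℝ := ((N1 * q : ℕ) : ℝ) with hNdef
    have hN0 : 0 < N := by linarith
    have hlogN : 0 ≤ Real.log N := Real.log_nonneg hNr
    have hup : (sgL ψ1 ψ2).re ≤ (K * N ^ δ) * (‖LFunction χ2 1‖ * A) * (K * N ^ δ) := by
      have h3 : C2 * (1 + Real.log N) ≤ K * N ^ δ := by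
        rw [hK, mul_assoc]
        exact mul_le_mul_of_nonneg_left (sie_log hδ hNr) (by linarith)
      have h4 : ‖sgL ψ1 ψ2‖ = ‖LFunction ψ1 1‖ * ‖LFunction ψ2 1‖ * ‖LFunction (ψ1 * ψ2) 1‖ := by
        unfold sgL
        rw [norm_mul, norm_mul]
      refine (Complex.re_le_norm _).trans ?_
      rw [h4]
      have h5 := (hbd (N1 * q) ψ1 hψ1ne).trans h3
      have h6 := (hbd (N1 * q) (ψ1 * ψ2) h12).trans h3
      have hKN : 0 ≤ K * N ^ δ := by positivity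
      exact mul_le_mul (mul_le_mul h5 hL2 (norm_nonneg _) hKN) h6 (norm_nonneg _) (by positivity)
    have h7 := hlow.trans hup
    -- divide by the powers
    have h8 : N ^ (-(14 * δ)) = N ^ (-(12 * δ)) * N ^ (-(2 * δ)) := by
      rw [← Real.rpow_add hN0]
      congr 1
      ring
    have h9 : N ^ δ * N ^ δ * N ^ (-(2 * δ)) = 1 := by
      rw [← Real.rpow_add hN0, ← Real.rpow_add hN0]
      have : δ + δ + -(2 * δ) = 0 := by ring
      rw [this, Real.rpow_zero]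
    have h10 : (1 - β) / 2 * E * N ^ (-(14 * δ)) ≤ ‖LFunction χ2 1‖ * (A * K ^ 2) := by
      have h11 := mul_le_mul_of_nonneg_right h7 (Real.rpow_nonneg hN0.le (-(2 * δ)))
      calc (1 - β) / 2 * E * N ^ (-(14 * δ)) =
          (1 - β) / 2 * (E * N ^ (-(12 * δ))) * N ^ (-(2 * δ)) := by rw [h8]; ring
        _ ≤ _ := h11
        _ = ‖LFunction χ2 1‖ * (A * K ^ 2) * (N ^ δ * N ^ δ * N ^ (-(2 * δ))) := by ring
        _ = _ := by rw [h9, mul_one]
    have h12' : N ^ (-(14 * δ)) = (N1 : ℝ) ^ (-(14 * δ)) * (q : ℝ) ^ (-(14 * δ)) := by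
      rw [hNdef, Nat.cast_mul, Real.mul_rpow hN10.le hqr.le]
    have h13 : (q : ℝ) ^ (-ε) ≤ (q : ℝ) ^ (-(14 * δ)) := by
      apply Real.rpow_le_rpow_of_exponent_le hq1
      rw [hδe]
      linarith
    rw [div_mul_eq_mul_div, div_le_iff₀ (by positivity)]
    refine le_trans ?_ h10
    rw [h12', ← mul_assoc]
    exact mul_le_mul_of_nonneg_left h13 (by positivity)

end Pool.Agent.SWQ
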