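import Pool.Agent.SW.Defs

/-! SWQ/Tail.  Brun's pure sieve at the level `w = ⌊(log N)^D⌋`: the tails are smaller than `N^(-c)`.

PROOF (Rankin's trick).  For `T = (log N)^(1/2)`:
`T^r ∑_{d ∣ W, ω(d) ≥ r - 1} b^ω(d)/d ≤ T ∑_{d ∣ W} (b T)^ω(d)/d = T ∏_{p ≤ w} (1 + b T/p) ≤ T exp (b T (1 + D log log N))`,
and `T^r ≥ exp (log N/(8 (D+1)) - log log N/2)`, so the tail is `≤ exp (- c log N)`, smaller than any power of `log N`.
`bp_level`: `d ∣ W`, `ω(d) ≤ r` implies `d ≤ w^r ≤ exp (r D log log N) ≤ N^(1/4)`, and `b^r ≤ N^(1/8)`. -/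

set_option autoImplicit false

namespace Pool.Agent.SWQ

open Finset Pool.Agent.SW

/-- the sieving level -/
noncomputable def lev (D N : ℕ) : ℕ := ⌊Real.log N ^ D⌋₊

/-- the truncation parameter of Brun's sieve -/
noncomputable def rr (D N : ℕ) : ℕ := ⌊Real.log N / (4 * (D + 1) * Real.log (Real.log N))⌋₊

private theorem sum_div_eq {n : ℕ} (hn : Squarefree n) (c : ℝ) :
    ∑ d ∈ n.divisors, c ^ d.primeFactors.card / (d : ℝ) =
      ∏ p ∈ n.primeFactors, (1 + c / (p : ℝ)) := by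
  have h1 := (ArithmeticFunction.IsMultiplicative.prodPrimeFactors
      (fun p : ℕ => c / (p : ℝ))).prodPrimeFactors_one_add_of_squarefree hn
  have hv : ∀ p ∈ n.primeFactors,
      (1 : ℝ) + ArithmeticFunction.prodPrimeFactors (fun p : ℕ => c / (p : ℝ)) p =
        1 + c / (p : ℝ) := by
    intro p hp
    have hp' := Nat.prime_of_mem_primeFactors hp
    rw [ArithmeticFunction.prodPrimeFactors_apply hp'.ne_zero, hp'.primeFactors, prod_singleton]
  have hd : ∀ d ∈ n.divisors,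
      ArithmeticFunction.prodPrimeFactors (fun p : ℕ => c / (p : ℝ)) d =
        c ^ d.primeFactors.card / (d : ℝ) := by
    intro d hd
    have hdd := Nat.dvd_of_mem_divisors hd
    have hsq := hn.squarefree_of_dvd hdd
    rw [ArithmeticFunction.prodPrimeFactors_apply (ne_zero_of_dvd_ne_zero hn.ne_zero hdd),
      prod_div_distrib, prod_const]
    congr 1
    rw [← Nat.cast_prod, Nat.prod_primeFactors_of_squarefree hsq]
  rw [prod_congr rfl hv, sum_congr rfl hd] at h1
  exact h1.symm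

private theorem prod_le_exp (w : ℕ) (_hw : 1 ≤ w) (c : ℝ) (hc : 0 ≤ c) :
    ∏ p ∈ (primorial w).primeFactors, (1 + c / (p : ℝ)) ≤ Real.exp (c * (1 + Real.log w)) := by
  have h1 : ∏ p ∈ (primorial w).primeFactors, (1 + c / (p : ℝ)) ≤
      ∏ p ∈ (primorial w).primeFactors, Real.exp (c / (p : ℝ)) := by
    refine prod_le_prod (fun p _ => by positivity) fun p _ => ?_
    have := Real.add_one_le_exp (c / (p : ℝ))
    linarith
  refine h1.trans ?_
  rw [← Real.exp_sum, Real.exp_le_exp]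
  have h2 : ∑ p ∈ (primorial w).primeFactors, c / (p : ℝ) ≤ ∑ p ∈ Icc 1 w, c / (p : ℝ) := by
    refine sum_le_sum_of_subset_of_nonneg ?_ fun p _ _ => by positivity
    intro p hp
    have hp' := Nat.prime_of_mem_primeFactors hp
    rw [mem_Icc]
    exact ⟨hp'.one_lt.le, hp'.dvd_primorial_iff.1 (Nat.dvd_of_mem_primeFactors hp)⟩
  refine h2.trans ?_
  have h3 := harmonic_le_one_add_log w
  have h4 : ∑ p ∈ Icc 1 w, c / (p : ℝ) = c * ((harmonic w : ℚ) : ℝ) := by
    rw [harmonic_eq_sum_Icc, Rat.cast_sum, mul_sum]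
    refine sum_congr rfl fun p _ => ?_
    push_cast
    rw [div_eq_mul_inv]
  rw [h4]
  exact mul_le_mul_of_nonneg_left h3 hc

private theorem rankin (w b r : ℕ) (hw : 1 ≤ w) (T : ℝ) (hT : 1 ≤ T) :
    T ^ r * ∑ d ∈ (primorial w).divisors.filter (fun d => r ≤ d.primeFactors.card + 1),
      (b : ℝ) ^ d.primeFactors.card / d ≤ T * Real.exp ((b * T) * (1 + Real.log w)) := by
  have hT0 : 0 < T := by linarith
  have h1 : T ^ r * ∑ d ∈ (primorial w).divisors.filter (fun d => r ≤ d.primeFactors.card + 1),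
      (b : ℝ) ^ d.primeFactors.card / d ≤
      ∑ d ∈ (primorial w).divisors.filter (fun d => r ≤ d.primeFactors.card + 1),
        T * ((b * T) ^ d.primeFactors.card / (d : ℝ)) := by
    rw [mul_sum]
    refine sum_le_sum fun d hd => ?_
    rw [mem_filter] at hd
    have h2 : T ^ r ≤ T ^ (d.primeFactors.card + 1) := pow_le_pow_right₀ hT hd.2
    have h3 : T * ((b * T) ^ d.primeFactors.card / (d : ℝ)) =
        T ^ (d.primeFactors.card + 1) * ((b : ℝ) ^ d.primeFactors.card / d) := by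
      rw [mul_pow, pow_succ]
      ring
    rw [h3]
    exact mul_le_mul_of_nonneg_right h2 (by positivity)
  refine h1.trans ?_
  have h4 : ∑ d ∈ (primorial w).divisors.filter (fun d => r ≤ d.primeFactors.card + 1),
        T * ((b * T) ^ d.primeFactors.card / (d : ℝ)) ≤
      ∑ d ∈ (primorial w).divisors, T * ((b * T) ^ d.primeFactors.card / (d : ℝ)) :=
    sum_le_sum_of_subset_of_nonneg (filter_subset _ _) fun d _ _ => by positivity
  refine h4.trans ?_
  rw [← mul_sum, sum_div_eq (squarefree_primorial w)]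
  exact mul_le_mul_of_nonneg_left (prod_le_exp w hw _ (by positivity)) hT0.le

private theorem exists_large (K : ℝ) : ∃ N0 : ℕ, ∀ N : ℕ, N0 ≤ N →
    ∃ u : ℝ, Real.log N = u ^ 4 ∧ 1 ≤ u ∧ K ≤ u ∧ K ≤ Real.log (Real.log N) ∧
      1 ≤ Real.log (Real.log N) ∧ Real.log (Real.log N) ≤ u := by
  have hlog : Filter.Tendsto (fun N : ℕ => Real.log (N : ℝ)) Filter.atTop Filter.atTop :=
    Real.tendsto_log_atTop.comp tendsto_natCast_atTop_atTop
  have hll : Filter.Tendsto (fun N : ℕ => Real.log (Real.log (N : ℝ))) Filter.atTop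
      Filter.atTop := Real.tendsto_log_atTop.comp hlog
  have ho : ∀ᶠ x : ℝ in Filter.atTop, ‖Real.log x‖ ≤ 1 * ‖x ^ ((1 : ℝ) / 4)‖ :=
    (isLittleO_log_rpow_atTop (by norm_num : (0 : ℝ) < 1 / 4)).bound one_pos
  have hr : Filter.Tendsto (fun x : ℝ => x ^ ((1 : ℝ) / 4)) Filter.atTop Filter.atTop :=
    tendsto_rpow_atTop (by norm_num)
  have h1 := hlog.eventually ho
  have h2 := hlog.eventually (hr.eventually_ge_atTop (max 1 K))
  have h3 := hll.eventually_ge_atTop (max 1 K)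
  have h4 := hlog.eventually_ge_atTop 1
  obtain ⟨N0, hN0⟩ := Filter.eventually_atTop.1 (((h1.and h2).and h3).and h4)
  refine ⟨N0, fun N hN => ?_⟩
  obtain ⟨⟨⟨a1, a2⟩, a3⟩, a4⟩ := hN0 N hN
  have hL : 0 ≤ Real.log (N : ℝ) := by linarith
  have hu0 : 0 ≤ Real.log (N : ℝ) ^ ((1 : ℝ) / 4) := Real.rpow_nonneg hL _
  refine ⟨Real.log (N : ℝ) ^ ((1 : ℝ) / 4), ?_, (le_max_left _ _).trans a2,
    (le_max_right _ _).trans a2, (le_max_right _ _).trans a3, (le_max_left _ _).trans a3, ?_⟩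
  · rw [← Real.rpow_natCast, ← Real.rpow_mul hL]
    norm_num
  · rw [one_mul, Real.norm_eq_abs, Real.norm_eq_abs, abs_of_nonneg hu0] at a1
    exact (le_abs_self _).trans a1

private theorem lev_bounds (D N : ℕ) (u : ℝ) (h : Real.log N = u ^ 4) (hu : 1 ≤ u) :
    1 ≤ lev D N ∧ ((lev D N : ℕ) : ℝ) ≤ Real.log N ^ D ∧
      Real.log (lev D N : ℕ) ≤ D * Real.log (Real.log N) := by
  have hL : 1 ≤ Real.log (N : ℝ) := by rw [h]; exact one_le_pow₀ hu
  have h1 : 1 ≤ Real.log (N : ℝ) ^ D := one_le_pow₀ hL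
  have h2 : 1 ≤ lev D N := by
    rw [lev, Nat.one_le_floor_iff]
    exact h1
  have h3 : ((lev D N : ℕ) : ℝ) ≤ Real.log N ^ D := Nat.floor_le (by linarith)
  refine ⟨h2, h3, ?_⟩
  have h4 : (0 : ℝ) < (lev D N : ℕ) := by
    have : (1 : ℝ) ≤ (lev D N : ℕ) := by exact_mod_cast h2
    linarith
  calc Real.log (lev D N : ℕ) ≤ Real.log (Real.log N ^ D) := Real.log_le_log h4 h3
    _ = D * Real.log (Real.log N) := by rw [Real.log_pow]

theorem bp_tail (D b A : ℕ) (hD : 1 ≤ D) : ∃ N0 : ℕ, ∀ N : ℕ, N0 ≤ N →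
    ∑ d ∈ (primorial (lev D N)).divisors.filter (fun d => rr D N ≤ d.primeFactors.card + 1),
      (b : ℝ) ^ d.primeFactors.card / d ≤ 1 / Real.log N ^ A := by
  obtain ⟨N0, hN0⟩ := exists_large (8 * (D + 1) * (1 + A + b * (1 + D)))
  refine ⟨N0, fun N hN => ?_⟩
  obtain ⟨u, hLu, hu1, hKu, -, hl1, hlu⟩ := hN0 N hN
  obtain ⟨hw1, -, hwl⟩ := lev_bounds D N u hLu hu1
  set l := Real.log (Real.log N) with hl
  have hu0 : 0 < u := by linarith
  have hL0 : 0 < Real.log (N : ℝ) := by rw [hLu]; positivity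
  have hl4 : l = 4 * Real.log u := by
    rw [hl, hLu, Real.log_pow]
    norm_num
  have hT : (1 : ℝ) ≤ u ^ 2 := one_le_pow₀ hu1
  have hk := rankin (lev D N) b (rr D N) hw1 (u ^ 2) hT
  have hD1 : (1 : ℝ) ≤ (D : ℝ) := by exact_mod_cast hD
  have hA0 : (0 : ℝ) ≤ (A : ℝ) := Nat.cast_nonneg A
  have hb0 : (0 : ℝ) ≤ (b : ℝ) := Nat.cast_nonneg b
  -- the power of T
  have hr : Real.log N / (4 * (D + 1) * l) - 1 ≤ (rr D N : ℝ) := by
    have := Nat.lt_floor_add_one (Real.log (N : ℝ) / (4 * (D + 1) * l))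
    rw [rr]
    linarith
  have hTr : Real.exp (Real.log N / (8 * (D + 1)) - l / 2) ≤ (u ^ 2) ^ (rr D N) := by
    have h1 : (u ^ 2) ^ (rr D N) = Real.exp ((rr D N : ℝ) * (l / 2)) := by
      rw [hl4, show (rr D N : ℝ) * (4 * Real.log u / 2) = ((2 * rr D N : ℕ) : ℝ) * Real.log u by
        push_cast; ring, ← Real.log_pow, Real.exp_log (by positivity), pow_mul]
    rw [h1, Real.exp_le_exp]
    have h2 := mul_le_mul_of_nonneg_right hr (by linarith : 0 ≤ l / 2)
    have h3 : (Real.log N / (4 * (D + 1) * l) - 1) * (l / 2) =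
        Real.log N / (8 * (D + 1)) - l / 2 := by
      field_simp
      ring
    linarith
  have hlogA : Real.log N ^ A = Real.exp (A * l) := by
    rw [hl, ← Real.log_pow, Real.exp_log (by positivity)]
  have hTl : u ^ 2 = Real.exp (l / 2) := by
    rw [hl4, show 4 * Real.log u / 2 = ((2 : ℕ) : ℝ) * Real.log u by push_cast; ring,
      ← Real.log_pow, Real.exp_log (by positivity)]
  -- the upper bound
  have hub : u ^ 2 * Real.exp ((b * u ^ 2) * (1 + Real.log (lev D N : ℕ))) ≤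
      Real.exp (l / 2 + b * u ^ 2 * (1 + D * l)) := by
    rw [Real.exp_add, ← hTl]
    refine mul_le_mul_of_nonneg_left ?_ (by positivity)
    rw [Real.exp_le_exp]
    exact mul_le_mul_of_nonneg_left (by linarith) (by positivity)
  have hmain : l / 2 + b * u ^ 2 * (1 + D * l) + A * l ≤ Real.log N / (8 * (D + 1)) - l / 2 := by
    have e1 : b * u ^ 2 * (1 + D * l) ≤ b * (1 + D) * u ^ 3 := by
      have : 1 + D * l ≤ (1 + D) * u := by nlinarith
      calc b * u ^ 2 * (1 + D * l) ≤ b * u ^ 2 * ((1 + D) * u) :=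
            mul_le_mul_of_nonneg_left this (by positivity)
        _ = b * (1 + D) * u ^ 3 := by ring
    have e2 : u ≤ u ^ 3 := by
      calc u = u ^ 1 := (pow_one u).symm
        _ ≤ u ^ 3 := pow_le_pow_right₀ hu1 (by norm_num)
    have e3 : (1 + A) * l ≤ (1 + A) * u ^ 3 :=
      mul_le_mul_of_nonneg_left (hlu.trans e2) (by positivity)
    have e4 : (1 + A + b * (1 + D)) * u ^ 3 ≤ Real.log N / (8 * (D + 1)) := by
      rw [le_div_iff₀ (by positivity), hLu]
      calc (1 + A + b * (1 + D)) * u ^ 3 * (8 * (D + 1))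
          = (8 * (D + 1) * (1 + A + b * (1 + D))) * u ^ 3 := by ring
        _ ≤ u * u ^ 3 := mul_le_mul_of_nonneg_right hKu (by positivity)
        _ = u ^ 4 := by ring
    nlinarith
  rw [le_div_iff₀ (by positivity)]
  set S := ∑ d ∈ (primorial (lev D N)).divisors.filter
    (fun d => rr D N ≤ d.primeFactors.card + 1), (b : ℝ) ^ d.primeFactors.card / d with hS
  have hS0 : 0 ≤ S := sum_nonneg fun d _ => by positivity
  have h5 : Real.exp (Real.log N / (8 * (D + 1)) - l / 2) * S ≤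
      Real.exp (l / 2 + b * u ^ 2 * (1 + D * l)) :=
    ((mul_le_mul_of_nonneg_right hTr hS0).trans hk).trans hub
  have h6 : Real.exp (l / 2 + b * u ^ 2 * (1 + D * l)) * Real.exp (A * l) ≤
      Real.exp (Real.log N / (8 * (D + 1)) - l / 2) := by
    rw [← Real.exp_add, Real.exp_le_exp]
    exact hmain
  have h7 : Real.exp (Real.log N / (8 * (D + 1)) - l / 2) * (S * Real.exp (A * l)) ≤
      Real.exp (Real.log N / (8 * (D + 1)) - l / 2) * 1 := by
    calc Real.exp (Real.log N / (8 * (D + 1)) - l / 2) * (S * Real.exp (A * l))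
        = (Real.exp (Real.log N / (8 * (D + 1)) - l / 2) * S) * Real.exp (A * l) := by ring
      _ ≤ Real.exp (l / 2 + b * u ^ 2 * (1 + D * l)) * Real.exp (A * l) :=
          mul_le_mul_of_nonneg_right h5 (Real.exp_pos _).le
      _ ≤ Real.exp (Real.log N / (8 * (D + 1)) - l / 2) * 1 := by rw [mul_one]; exact h6
  rw [hlogA]
  exact le_of_mul_le_mul_left h7 (Real.exp_pos _)

theorem bp_level (D b : ℕ) (hD : 1 ≤ D) : ∃ N0 : ℕ, ∀ N : ℕ, N0 ≤ N → ∀ d ∈ (primorial (lev D N)).divisors,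
    d.primeFactors.card ≤ rr D N → (d : ℝ) ≤ (N : ℝ) ^ ((1 : ℝ) / 4) ∧
      (b : ℝ) ^ d.primeFactors.card ≤ (N : ℝ) ^ ((1 : ℝ) / 8) := by
  obtain ⟨N0, hN0⟩ := exists_large (Real.log (b + 1))
  refine ⟨N0, fun N hN d hd hdr => ?_⟩
  obtain ⟨u, hLu, hu1, -, hKl, hl1, hlu⟩ := hN0 N hN
  obtain ⟨hw1, hwL, hwl⟩ := lev_bounds D N u hLu hu1
  set l := Real.log (Real.log N) with hl
  have hu0 : 0 < u := by linarith
  have hL0 : 0 < Real.log (N : ℝ) := by rw [hLu]; positivity
  have hN0' : (0 : ℝ) < N := by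
    rcases Nat.eq_zero_or_pos N with h | h
    · rw [h] at hL0
      simp at hL0
    · exact_mod_cast h
  have hD1 : (1 : ℝ) ≤ (D : ℝ) := by exact_mod_cast hD
  have hr : (rr D N : ℝ) ≤ Real.log N / (4 * (D + 1) * l) := Nat.floor_le (by positivity)
  have hrl : (rr D N : ℝ) * l ≤ Real.log N / (4 * (D + 1)) := by
    calc (rr D N : ℝ) * l ≤ Real.log N / (4 * (D + 1) * l) * l :=
          mul_le_mul_of_nonneg_right hr (by linarith)
      _ = Real.log N / (4 * (D + 1)) := by field_simp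
  have hdd := Nat.dvd_of_mem_divisors hd
  have hsq := (squarefree_primorial (lev D N)).squarefree_of_dvd hdd
  constructor
  · have h1 : (d : ℝ) ≤ (lev D N : ℝ) ^ d.primeFactors.card := by
      have e1 : d = ∏ p ∈ d.primeFactors, p := (Nat.prod_primeFactors_of_squarefree hsq).symm
      have e2 : ∏ p ∈ d.primeFactors, p ≤ (lev D N) ^ d.primeFactors.card := by
        refine prod_le_pow_card _ _ _ fun p hp => ?_
        exact (Nat.prime_of_mem_primeFactors hp).dvd_primorial_iff.1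
          ((Nat.dvd_of_mem_primeFactors hp).trans hdd)
      have e3 : d ≤ (lev D N) ^ d.primeFactors.card := le_trans (le_of_eq e1) e2
      exact_mod_cast e3
    have hw1' : (1 : ℝ) ≤ (lev D N : ℝ) := by exact_mod_cast hw1
    have h2 : (lev D N : ℝ) ^ d.primeFactors.card ≤ (lev D N : ℝ) ^ rr D N :=
      pow_le_pow_right₀ hw1' hdr
    have h3 : (lev D N : ℝ) ^ rr D N = Real.exp ((rr D N : ℝ) * Real.log (lev D N : ℕ)) := by
      rw [← Real.log_pow, Real.exp_log (by positivity)]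
    have h4 : (N : ℝ) ^ ((1 : ℝ) / 4) = Real.exp (Real.log N * (1 / 4)) :=
      Real.rpow_def_of_pos hN0' _
    refine (h1.trans h2).trans ?_
    rw [h3, h4, Real.exp_le_exp]
    calc (rr D N : ℝ) * Real.log (lev D N : ℕ) ≤ (rr D N : ℝ) * (D * l) :=
          mul_le_mul_of_nonneg_left hwl (Nat.cast_nonneg _)
      _ = D * ((rr D N : ℝ) * l) := by ring
      _ ≤ D * (Real.log N / (4 * (D + 1))) := mul_le_mul_of_nonneg_left hrl (by linarith)
      _ ≤ Real.log N * (1 / 4) := by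
          rw [mul_div_assoc', div_le_iff₀ (by positivity)]
          nlinarith
  · have hb0 : (0 : ℝ) ≤ (b : ℝ) := Nat.cast_nonneg b
    have h1 : (b : ℝ) ^ d.primeFactors.card ≤ (b + 1 : ℝ) ^ d.primeFactors.card :=
      pow_le_pow_left₀ hb0 (by linarith) _
    have h2 : (b + 1 : ℝ) ^ d.primeFactors.card ≤ (b + 1 : ℝ) ^ rr D N :=
      pow_le_pow_right₀ (by linarith) hdr
    have h3 : (b + 1 : ℝ) ^ rr D N = Real.exp ((rr D N : ℝ) * Real.log (b + 1)) := by
      rw [← Real.log_pow, Real.exp_log (by positivity)]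
    have h4 : (N : ℝ) ^ ((1 : ℝ) / 8) = Real.exp (Real.log N * (1 / 8)) :=
      Real.rpow_def_of_pos hN0' _
    refine (h1.trans h2).trans ?_
    rw [h3, h4, Real.exp_le_exp]
    calc (rr D N : ℝ) * Real.log (b + 1) ≤ (rr D N : ℝ) * l :=
          mul_le_mul_of_nonneg_left hKl (Nat.cast_nonneg _)
      _ ≤ Real.log N / (4 * (D + 1)) := hrl
      _ ≤ Real.log N * (1 / 8) := by
          rw [div_le_iff₀ (by positivity)]
          nlinarith

end Pool.Agent.SWQ
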