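import Pool.Agent.SWQ.FDefs
import Pool.Agent.SW.UD

/-! SWQ/UD.  The uniform density statement, quantitative form. -/

set_option autoImplicit false

namespace Pool.Agent.SWQ

open Pool.Agent.Helper27 Pool.Agent.SW

/-- at most `N/(log N)^A` of the odd starting points in `[1, N]` give a walk with at most `N/(log N)^(1+η)` primes up to `2N`,
uniformly in the sequence of steps -/
def UDQ (i j : ℤ) : Prop :=
  ∀ (A : ℕ) (η : ℝ), 0 < η → ∃ N0 : ℕ, ∀ N : ℕ, N0 ≤ N → ∀ s : ℕ → ℤ, (∀ n, s n = i ∨ s n = j) →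
    (({k : ℤ | 1 ≤ k ∧ k ≤ N ∧ Odd k ∧ (cnt (stepWalk s k) (2 * N) : ℝ) ≤ N / Real.log N ^ (1 + η)}.ncard : ℕ) : ℝ) ≤
      N / Real.log N ^ A

end Pool.Agent.SWQ
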