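import Pool.Agent.SWQ.DensQ
import Pool.Agent.SWQ.UD
import Pool.Agent.SW.UDL

/-! SWQ/UDL.  Translation of `dens_q` to integers (as `Pool/Agent/SW/UDL.lean`): `cnt (stepWalk s k) (2N)` is the `ncard` of
`{n | (k + hs s' n).Prime ∧ k + hs s' n ≤ 2N}`. -/

set_option autoImplicit false

namespace Pool.Agent.SWQ

open Pool.Agent.Helper27 Pool.Agent.SW

private theorem isPosPrime_cast (m : ℕ) : IsPosPrime (m : ℤ) ↔ m.Prime := by
  constructor
  · rintro ⟨p, hp, h⟩
    have : m = p := by exact_mod_cast h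
    rwa [this]
  · intro h
    exact ⟨m, h, rfl⟩

private theorem udq_cut (u b : ℕ) (hu : 1 ≤ u) (hb : 2 ≤ b) (L : List ℕ) (hL : IsCut b L)
    (hadm : ∀ q : ℕ, q.Prime → q ≠ 2 → ∃ a, Misses L q a) : UDQ (2 ^ u) (2 ^ u * b) := by
  intro A η hη
  obtain ⟨N0, hN0⟩ := dens_q u b hu hb L hL hadm A η hη
  refine ⟨N0, fun N hN s hs' => ?_⟩
  have hs1 : ∀ n, ((s n).toNat : ℤ) = s n := by
    intro n
    apply Int.toNat_of_nonneg
    rcases hs' n with h | h <;> rw [h] <;> positivity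
  have hs2 : ∀ n, (s n).toNat = 2 ^ u ∨ (s n).toNat = 2 ^ u * b := by
    intro n
    rcases hs' n with h | h
    · left
      have := hs1 n
      rw [h] at this ⊢
      exact_mod_cast this
    · right
      have := hs1 n
      rw [h] at this ⊢
      exact_mod_cast this
  have h1 := hN0 N hN (fun n => (s n).toNat) hs2
  have hval : ∀ (k n : ℕ), stepWalk s k n = ((k + hs (fun n => (s n).toNat) n : ℕ) : ℤ) := by
    intro k n
    unfold stepWalk hs
    push_cast
    rw [Finset.sum_congr rfl fun m _ => (hs1 m).symm]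
  have hcnt : ∀ k : ℕ, cnt (stepWalk s k) (2 * N) =
      {n : ℕ | (k + hs (fun n => (s n).toNat) n).Prime ∧
        k + hs (fun n => (s n).toNat) n ≤ 2 * N}.ncard := by
    intro k
    unfold cnt
    congr 1
    ext n
    simp only [Set.mem_ofPred_eq, hval, isPosPrime_cast]
    constructor
    · rintro ⟨h1, h2⟩
      exact ⟨h1, by exact_mod_cast h2⟩
    · rintro ⟨h1, h2⟩
      exact ⟨h1, by exact_mod_cast h2⟩
  have hset : {k : ℤ | 1 ≤ k ∧ k ≤ N ∧ Odd k ∧
        (cnt (stepWalk s k) (2 * N) : ℝ) ≤ N / Real.log N ^ (1 + η)} =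
      (fun k : ℕ => (k : ℤ)) '' {k : ℕ | 1 ≤ k ∧ k ≤ N ∧ Odd k ∧
        (({n : ℕ | (k + hs (fun n => (s n).toNat) n).Prime ∧
          k + hs (fun n => (s n).toNat) n ≤ 2 * N}.ncard : ℕ) : ℝ) ≤
            N / Real.log N ^ (1 + η)} := by
    ext k
    simp only [Set.mem_ofPred_eq, Set.mem_image]
    constructor
    · rintro ⟨h1, h2, h3, h4⟩
      obtain ⟨m, rfl⟩ := Int.eq_ofNat_of_zero_le (by omega : 0 ≤ k)
      refine ⟨m, ⟨by exact_mod_cast h1, by exact_mod_cast h2, by exact_mod_cast h3, ?_⟩, rfl⟩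
      rw [hcnt m] at h4
      exact h4
    · rintro ⟨m, ⟨h1, h2, h3, h4⟩, rfl⟩
      refine ⟨by exact_mod_cast h1, by exact_mod_cast h2, by exact_mod_cast h3, ?_⟩
      rw [hcnt m]
      exact h4
  rw [hset, Set.ncard_image_of_injective _ Nat.cast_injective]
  exact h1

theorem udq_of_listed {i j : ℤ} (h : Listed i j) : UDQ i j := by
  obtain ⟨u, hu, hi, hj⟩ := h
  have e2 : (2 : ℤ) * i = 2 ^ u * (2 : ℕ) := by rw [hi]; push_cast; ring
  have e4 : (4 : ℤ) * i = 2 ^ u * (4 : ℕ) := by rw [hi]; push_cast; ring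
  have e8 : (8 : ℤ) * i = 2 ^ u * (8 : ℕ) := by rw [hi]; push_cast; ring
  have e16 : (16 : ℤ) * i = 2 ^ u * (16 : ℕ) := by rw [hi]; push_cast; ring
  have e256 : (256 : ℤ) * i = 2 ^ u * (256 : ℕ) := by rw [hi]; push_cast; ring
  rcases hj with h | h | h | h | h
  · rw [e2] at h
    rw [h, hi]
    exact udq_cut u 2 hu (by norm_num) list2 cut2 adm2
  · rw [e4] at h
    rw [h, hi]
    exact udq_cut u 4 hu (by norm_num) list4 cut4 adm4
  · rw [e8] at h
    rw [h, hi]
    exact udq_cut u 8 hu (by norm_num) list8 cut8 adm8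
  · rw [e16] at h
    rw [h, hi]
    exact udq_cut u 16 hu (by norm_num) list16 cut16 adm16
  · rw [e256] at h
    rw [h, hi]
    exact udq_cut u 256 hu (by norm_num) list256 cut256 adm256

end Pool.Agent.SWQ
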