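import Pool.Agent.SWQ.MinQ
import Pool.Agent.SWQ.MajQ
import Pool.Agent.SWQ.ModQ

/-! SWQ/UniQ.  The primes and the model of level `w = ⌊(log N)^D⌋` have the same exponential sums up to `3N/(log N)^D`.

PROOF.  As `Pool/Agent/SW/Uni.lean`.  `L = log N`, `B = 2D + 20`; Dirichlet with `n = ⌊N/L^B⌋`: `θ = a/q + β`, `q ≤ n`, `|β| ≤ 1/((n+1) q) ≤ min(1/q², L^B/N)`.
`q ≥ L^B`: `min_q`, `mod_min`.  `q ≤ L^B`: `maj_q`, `mod_maj`; if `q ∣ primorial w` the main terms cancel; otherwise `‖cq q‖ ≤ 1/w ≤ 2/L^D - …`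
(`q` squarefree has a prime factor `p > w`, `φ(q) ≥ p - 1 ≥ w ≥ L^D - 1`), total `≤ N/(L^D - 1) + 2N/L^(D+1) ≤ 3N/L^D`. -/

set_option autoImplicit false

namespace Pool.Agent.SWQ

open Finset Pool.Agent.SW Pool.Agent.Helper98.Bern

private lemma uq_cq_le (w : ℕ) (hw : 1 ≤ w) (q : ℕ) (hq : 1 ≤ q) (hqw : ¬ q ∣ primorial w) :
    ‖cq q‖ ≤ 1 / (w : ℝ) := by
  unfold cq
  have hw0 : (0 : ℝ) < w := by exact_mod_cast (by omega : 0 < w)
  by_cases hs : Squarefree q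
  · have : ∃ p : ℕ, p.Prime ∧ p ∣ q ∧ w < p := by
      by_contra hcon
      push Not at hcon
      apply hqw
      rw [← Nat.prod_primeFactors_of_squarefree hs]
      unfold primorial
      apply Finset.prod_dvd_prod_of_subset
      intro p hp
      have hp' := Nat.mem_primeFactors.mp hp
      simp only [Finset.mem_filter, Finset.mem_range]
      exact ⟨Nat.lt_succ_of_le (hcon p hp'.1 hp'.2.1), hp'.1⟩
    obtain ⟨p, hp, hpq, hwp⟩ := this
    have h1 : (w : ℝ) ≤ (q.totient : ℝ) := by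
      have : p.totient ∣ q.totient := Nat.totient_dvd_of_dvd hpq
      rw [Nat.totient_prime hp] at this
      have h2 : p - 1 ≤ q.totient := Nat.le_of_dvd (Nat.totient_pos.mpr hq) this
      exact_mod_cast (by omega : w ≤ q.totient)
    have hq0 : (0 : ℝ) < (q.totient : ℝ) := lt_of_lt_of_le hw0 h1
    rw [norm_div]
    have h3 : ‖((ArithmeticFunction.moebius q : ℤ) : ℂ)‖ ≤ 1 := by
      rw [Complex.norm_intCast]
      exact_mod_cast ArithmeticFunction.abs_moebius_le_one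
    rw [Complex.norm_natCast]
    calc ‖((ArithmeticFunction.moebius q : ℤ) : ℂ)‖ / (q.totient : ℝ)
        ≤ 1 / (q.totient : ℝ) := by
          exact div_le_div_of_nonneg_right h3 hq0.le
      _ ≤ 1 / (w : ℝ) := one_div_le_one_div_of_le hw0 h1
  · rw [ArithmeticFunction.moebius_eq_zero_of_not_squarefree hs]
    simp

private lemma uq_ee_norm (t : ℝ) : ‖ee t‖ = 1 := by
  unfold ee
  have h : (2 * (Real.pi : ℂ) * (t : ℂ) * Complex.I) = ((2 * Real.pi * t : ℝ) : ℂ) * Complex.I := by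
    push_cast
    ring
  rw [h, Complex.norm_exp_ofReal_mul_I]

private lemma uq_TT_norm (N : ℕ) (β : ℝ) : ‖TT N β‖ ≤ N := by
  unfold TT
  refine (norm_sum_le _ _).trans ?_
  have : ∀ n ∈ Ioc 0 N, ‖ee (n * β)‖ = 1 := fun n _ => uq_ee_norm _
  rw [Finset.sum_congr rfl this]
  simp

private lemma uq_ev_log (c : ℝ) : ∀ᶠ N : ℕ in Filter.atTop, c ≤ Real.log (N : ℝ) :=
  (Real.tendsto_log_atTop.comp tendsto_natCast_atTop_atTop).eventually_ge_atTop c

private lemma uq_ev_pow (B : ℕ) (c : ℝ) (hc : 0 < c) :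
    ∀ᶠ N : ℕ in Filter.atTop, Real.log (N : ℝ) ^ B ≤ c * (N : ℝ) := by
  have h := (Real.isLittleO_pow_log_id_atTop (n := B)).comp_tendsto
    (tendsto_natCast_atTop_atTop (R := ℝ))
  have h2 := h.def hc
  filter_upwards [h2] with N hN
  simp only [Function.comp, id] at hN
  rw [Real.norm_eq_abs, Real.norm_eq_abs, abs_of_nonneg (by positivity : (0 : ℝ) ≤ (N : ℝ))] at hN
  exact (le_abs_self _).trans hN

theorem uni_q (D : ℕ) (hD : 1 ≤ D) : ∃ N0 : ℕ, ∀ N : ℕ, N0 ≤ N → ∀ θ : ℝ,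
    ‖SL N θ - SM (lev D N) N θ‖ ≤ 3 * N / Real.log N ^ D := by
  obtain ⟨N1, hN1⟩ := min_q D
  obtain ⟨N2, hN2⟩ := maj_q D
  obtain ⟨N3, hN3⟩ := mod_min D hD
  obtain ⟨N4, hN4⟩ := mod_maj D hD
  obtain ⟨N0, hN0⟩ := Filter.eventually_atTop.1
    ((Filter.eventually_ge_atTop (α := ℕ) N1).and ((Filter.eventually_ge_atTop (α := ℕ) N2).and
      ((Filter.eventually_ge_atTop (α := ℕ) N3).and ((Filter.eventually_ge_atTop (α := ℕ) N4).and
        ((uq_ev_log 2).and ((uq_ev_pow (2 * D + 20) (1 / 2) (by norm_num)).and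
          (Filter.eventually_ge_atTop (α := ℕ) 1)))))))
  refine ⟨N0, fun N hN θ => ?_⟩
  obtain ⟨c1, c2, c3, c4, hL2, c6, c7⟩ := hN0 N hN
  have hNpos : (0 : ℝ) < (N : ℝ) := by exact_mod_cast c7
  replace hN1 := hN1 N c1 θ
  replace hN2 := hN2 N c2
  replace hN3 := hN3 N c3 θ
  replace hN4 := hN4 N c4
  obtain ⟨w, hwdef⟩ : ∃ w : ℕ, w = lev D N := ⟨_, rfl⟩
  have hwl : Real.log N ^ D < (w : ℝ) + 1 := by
    rw [hwdef]
    exact Nat.lt_floor_add_one _
  rw [← hwdef] at hN3 hN4 ⊢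
  generalize hB : 2 * D + 20 = B at hN1 hN2 hN3 hN4 c6
  generalize hL : Real.log (N : ℝ) = L at hN1 hN2 hN3 hN4 hL2 c6 hwl ⊢
  have hL1 : 1 ≤ L := by linarith
  have hL0 : 0 < L := by linarith
  have hLB : 0 < L ^ B := by positivity
  have hLD : 0 < L ^ D := by positivity
  have hLD2 : 2 ≤ L ^ D := by
    calc (2 : ℝ) ≤ L := hL2
      _ = L ^ 1 := (pow_one L).symm
      _ ≤ L ^ D := pow_le_pow_right₀ hL1 hD
  have hw1 : 1 ≤ w := by
    have : (0 : ℝ) < w := by linarith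
    exact_mod_cast this
  have hw0 : (0 : ℝ) < w := by exact_mod_cast hw1
  have hNw : (N : ℝ) / w ≤ 2 * (N / L ^ D) := by
    rw [← mul_div_assoc, div_le_div_iff₀ hw0 hLD]
    have h1 : L ^ D ≤ 2 * w := by linarith
    calc (N : ℝ) * L ^ D ≤ N * (2 * w) := mul_le_mul_of_nonneg_left h1 hNpos.le
      _ = 2 * N * w := by ring
  have hsm : 2 * ((N : ℝ) / L ^ (D + 1)) ≤ N / L ^ D := by
    rw [← mul_div_assoc, div_le_div_iff₀ (by positivity) hLD, pow_succ]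
    have h1 : 0 ≤ (N : ℝ) * L ^ D := by positivity
    calc 2 * (N : ℝ) * L ^ D = 2 * (N * L ^ D) := by ring
      _ ≤ L * (N * L ^ D) := mul_le_mul_of_nonneg_right hL2 h1
      _ = N * (L ^ D * L) := by ring
  have hND : 0 ≤ (N : ℝ) / L ^ D := by positivity
  have hgoal : 3 * (N : ℝ) / L ^ D = 3 * (N / L ^ D) := by ring
  rw [hgoal]
  have hquot : (2 : ℝ) ≤ N / L ^ B := by
    rw [le_div_iff₀ hLB]
    linarith
  set n : ℕ := ⌊(N : ℝ) / L ^ B⌋₊ with hn
  have hn1 : 0 < n := by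
    rw [hn]
    apply Nat.floor_pos.mpr
    linarith
  have hnle : (n : ℝ) ≤ N / L ^ B := Nat.floor_le (by positivity)
  have hnlt : (N : ℝ) / L ^ B < n + 1 := Nat.lt_floor_add_one _
  obtain ⟨r, hr1, hr2⟩ := Real.exists_rat_abs_sub_le_and_den_le θ hn1
  have hqpos : 1 ≤ r.den := r.pos
  have hcop : IsCoprime r.num (r.den : ℤ) := by
    rw [Int.isCoprime_iff_gcd_eq_one, Int.gcd_eq_natAbs, Int.natAbs_natCast]
    exact r.reduced
  have hrcast : (r : ℝ) = (r.num : ℝ) / (r.den : ℝ) := Rat.cast_def r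
  generalize hqdef : r.den = q at hr1 hr2 hqpos hcop hrcast
  generalize hadef : r.num = a at hcop hrcast
  have hq0 : (0 : ℝ) < (q : ℝ) := by exact_mod_cast hqpos
  have hq1 : (1 : ℝ) ≤ (q : ℝ) := by exact_mod_cast hqpos
  obtain ⟨β, hβ⟩ : ∃ β : ℝ, β = θ - (r : ℝ) := ⟨_, rfl⟩
  have hθ : θ = (a : ℝ) / q + β := by rw [hβ, hrcast]; ring
  rw [← hβ] at hr1
  have hqn : (q : ℝ) ≤ (n : ℝ) := by exact_mod_cast hr2
  have hβ1 : |β| ≤ L ^ B / N := by
    refine hr1.trans ?_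
    rw [div_le_div_iff₀ (by positivity) hNpos, one_mul]
    have h1 : (N : ℝ) ≤ L ^ B * (n + 1) := by
      rw [div_lt_iff₀ hLB] at hnlt
      linarith
    calc (N : ℝ) ≤ L ^ B * (n + 1) := h1
      _ = L ^ B * ((n + 1) * 1) := by ring
      _ ≤ L ^ B * ((n + 1) * q) := by gcongr
  have hβ2 : |θ - a / q| ≤ 1 / (q : ℝ) ^ 2 := by
    have : θ - (a : ℝ) / q = β := by rw [hθ]; ring
    rw [this]
    refine hr1.trans ?_
    apply one_div_le_one_div_of_le (by positivity)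
    rw [pow_two]
    have : (q : ℝ) ≤ n + 1 := by linarith
    gcongr
  by_cases hcase : L ^ B ≤ (q : ℝ)
  · have hqle : (q : ℝ) ≤ N / L ^ B := hqn.trans hnle
    have h1 := hN1 a q hqpos hcop hβ2 hcase hqle
    have h2 := hN3 a q hqpos hcop hβ2 hcase hqle
    calc ‖SL N θ - SM w N θ‖ ≤ ‖SL N θ‖ + ‖SM w N θ‖ := norm_sub_le _ _
      _ ≤ 3 * (N / L ^ D) := by linarith
  · push Not at hcase
    have hmj := hN2 q hqpos hcase.le a hcop β hβ1
    have hmm := hN4 q hqpos hcase.le a hcop β hβ1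
    rw [← hθ] at hmj hmm
    by_cases hd : q ∣ primorial w
    · rw [if_pos hd] at hmm
      calc ‖SL N θ - SM w N θ‖ = ‖(SL N θ - cq q * TT N β) - (SM w N θ - cq q * TT N β)‖ := by
            congr 1
            ring
        _ ≤ ‖SL N θ - cq q * TT N β‖ + ‖SM w N θ - cq q * TT N β‖ := norm_sub_le _ _
        _ ≤ 3 * (N / L ^ D) := by linarith
    · rw [if_neg hd, sub_zero] at hmm
      have h4 : ‖cq q * TT N β‖ ≤ N / w := by
        rw [norm_mul]
        calc ‖cq q‖ * ‖TT N β‖ ≤ 1 / (w : ℝ) * N :=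
              mul_le_mul (uq_cq_le w hw1 q hqpos hd) (uq_TT_norm N β) (norm_nonneg _) (by positivity)
          _ = N / w := by ring
      have h8 : ‖SL N θ‖ ≤ ‖cq q * TT N β‖ + ‖SL N θ - cq q * TT N β‖ := by
        calc ‖SL N θ‖ = ‖cq q * TT N β + (SL N θ - cq q * TT N β)‖ := by
              congr 1
              ring
          _ ≤ ‖cq q * TT N β‖ + ‖SL N θ - cq q * TT N β‖ := norm_add_le _ _
      calc ‖SL N θ - SM w N θ‖ ≤ ‖SL N θ‖ + ‖SM w N θ‖ := norm_sub_le _ _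
        _ ≤ 3 * (N / L ^ D) := by linarith

end Pool.Agent.SWQ
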